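import Mathlib.RingTheory.Artinian.Instances
import Mathlib.LinearAlgebra.BilinearForm.Orthogonal
import Mathlib.Data.Int.Star
import Mathlib.Data.Set.Card.Arithmetic
import Pool.Agent.MP_a43263_nt.U99.Fc
import Pool.Agent.MP_a43263_nt.JC.Qv
import Pool.Agent.MP_a43263_nt.JC.GrpB

-- ======== part 0: formerly Pool.Agent.MP_a43263_nt.UV.Basic
section MrgPart0

/-! THEOREM U: elementary facts. -/

set_option autoImplicit false

noncomputable section

namespace Pool.Agent.MP_a43263_nt.UV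

open Polynomial Finset Matrix JC

section maps
variable {R S : Type} [CommRing R] [CommRing S]

theorem zK_map (f : ℤ[X]) (φ : R →+* S) : (zK f R).map φ = zK f S := by
  rw [zK, Polynomial.map_map, RingHom.ext_int (φ.comp _) (Int.castRingHom S)]

theorem fK_zK (f : ℤ[X]) (K : Type) [Field K] [CharZero K] : fK (zK f ℚ) K = zK f K := zK_map f _

theorem mK_mul {g : ℕ} (A B : Mat g ℤ) : mK (A * B) R = mK A R * mK B R := Matrix.map_mul

theorem mK_transpose {g : ℕ} (A : Mat g ℤ) : mK Aᵀ R = (mK A R)ᵀ := rfl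

theorem mK_det {g : ℕ} (A : Mat g ℤ) : (mK A R).det = (A.det : R) :=
  ((Int.castRingHom R).map_det A).symm

theorem mK_apply {g : ℕ} (A : Mat g ℤ) (i j) : mK A R i j = (A i j : R) := rfl

variable {p : ℕ} [Fact p.Prime]

theorem iq_zK (f : ℤ[X]) : iq p (zK f ℤ_[p]) = zK f ℚ_[p] := zK_map f _

theorem rq_zK (f : ℤ[X]) : rq p (zK f ℤ_[p]) = zK f (ZMod p) := zK_map f _

theorem iq_inj : Function.Injective (iq p) :=
  Polynomial.map_injective _ Subtype.val_injective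

/-- divisibility by a monic polynomial descends -/
theorem dvd_of_map {φ : R →+* S} (hφ : Function.Injective φ) {f P : R[X]} (hf : f.Monic)
    (h : f.map φ ∣ P.map φ) : f ∣ P := (Polynomial.map_dvd_map φ hφ hf).1 h

end maps

section sq
variable {K L : Type} [Field K] [Field L] {g : ℕ}

theorem Sq.map {f : K[X]} (h : Sq g f) (φ : K →+* L) : Sq g (f.map φ) :=
  ⟨h.pos, h.monic.map φ, by rw [natDegree_map, h.deg], h.sep.map⟩

theorem Zq.mo {f : ℤ[X]} (h : Zq g f) (R : Type) [CommRing R] : (zK f R).Monic := h.monic.map _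

theorem Zq.dg {f : ℤ[X]} (h : Zq g f) (R : Type) [CommRing R] [Nontrivial R] :
    (zK f R).natDegree = 2 * g + 1 := by rw [h.monic.natDegree_map, h.deg]

theorem Zq.sq {f : ℤ[X]} (h : Zq g f) (K : Type) [Field K] [CharZero K] : Sq g (zK f K) :=
  fK_zK f K ▸ (⟨h.pos, h.mo ℚ, h.dg ℚ, h.irr.separable⟩ : Sq g (zK f ℚ)).map _

/-- the roots in an algebraically closed field -/
theorem Sq.cv [IsAlgClosed K] {f : K[X]} (h : Sq g f) :
    ∃ a : Fin (2 * g + 1) → K, Cv g a f ∧ ∀ θ, f.eval θ = 0 ↔ ∃ i, a i = θ := by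
  classical
  have hs : f.Splits := IsAlgClosed.splits f
  have hn : f.roots.Nodup := nodup_roots h.sep
  have hc : f.roots.toFinset.card = 2 * g + 1 := by
    rw [Multiset.toFinset_card_of_nodup hn, ← h.deg, hs.natDegree_eq_card_roots]
  let e := (Finset.equivFinOfCardEq hc).symm
  refine ⟨fun i => (e i).1, ⟨by simp, h.pos, Subtype.val_injective.comp e.injective, ?_⟩,
    fun θ => ⟨fun h0 => ?_, ?_⟩⟩
  · rw [fp, e.prod_comp fun x => X - C x.1, Finset.prod_coe_sort _ fun x => X - C x,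
      Finset.prod_eq_multiset_prod, Multiset.toFinset_val, hn.dedup]
    exact hs.eq_prod_roots_of_monic h.monic
  · exact ⟨e.symm ⟨θ, Multiset.mem_toFinset.2 ((mem_roots h.monic.ne_zero).2 h0)⟩, by simp⟩
  · rintro ⟨i, rfl⟩
    exact (mem_roots h.monic.ne_zero).1 (Multiset.mem_toFinset.1 (e i).2)

theorem isCoprime_of_map (φ : K →+* L) {P f : K[X]} (h : IsCoprime (P.map φ) (f.map φ)) :
    IsCoprime P f := (isCoprime_map φ).1 h

end sq

section ta
variable {R S : Type} [CommRing R] [CommRing S] {g : ℕ} {f : R[X]}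

theorem ta_add (P Q : R[X]) : ta g f (P + Q) = ta g f P + ta g f Q := by
  rw [ta, ta, ta, add_modByMonic, coeff_add]

theorem ta_sub (P Q : R[X]) : ta g f (P - Q) = ta g f P - ta g f Q := by
  rw [ta, ta, ta, sub_modByMonic, coeff_sub]

theorem ta_zero : ta g f 0 = 0 := by simp [ta]

theorem ta_C_mul (c : R) (P : R[X]) : ta g f (C c * P) = c * ta g f P := by
  rw [ta, ta, ← smul_eq_C_mul, smul_modByMonic, coeff_smul, smul_eq_mul]

theorem ta_sum {ι : Type} (s : Finset ι) (P : ι → R[X]) :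
    ta g f (∑ i ∈ s, P i) = ∑ i ∈ s, ta g f (P i) := by
  classical
  induction s using Finset.induction_on with
  | empty => simp [ta_zero]
  | insert i s hi ih => rw [sum_insert hi, sum_insert hi, ta_add, ih]

theorem ta_dvd (hf : f.Monic) {P : R[X]} (h : f ∣ P) : ta g f P = 0 := by
  rw [ta, (modByMonic_eq_zero_iff_dvd hf).2 h, coeff_zero]

theorem ta_congr (hf : f.Monic) {P Q : R[X]} (h : f ∣ P - Q) : ta g f P = ta g f Q := by
  rw [← sub_eq_zero, ← ta_sub, ta_dvd hf h]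

theorem ta_map (hf : f.Monic) (φ : R →+* S) (P : R[X]) :
    ta g (f.map φ) (P.map φ) = φ (ta g f P) := by
  rw [ta, ta, ← map_modByMonic φ hf, coeff_map]

theorem ta_of_lt [Nontrivial R] (hf : f.Monic) {P : R[X]} (h : P.degree < f.degree) :
    ta g f P = P.coeff (2 * g) := by
  rw [ta, (modByMonic_eq_self_iff hf).2 h]

theorem ta_X_pow [Nontrivial R] (hf : f.Monic) (hd : f.natDegree = 2 * g + 1) {k : ℕ}
    (hk : k ≤ 2 * g) : ta g f (X ^ k) = if k = 2 * g then 1 else 0 := by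
  rw [ta_of_lt hf, coeff_X_pow]
  · simp only [eq_comm]
  · rw [degree_X_pow, degree_eq_natDegree hf.ne_zero, hd]
    exact_mod_cast by omega

theorem dvd_sub_mod (P : R[X]) : f ∣ P - P %ₘ f :=
  ⟨P /ₘ f, by rw [sub_eq_iff_eq_add', modByMonic_add_div]⟩

/-- the polynomial with the coefficient vector `z` -/
def po {n : ℕ} (z : Fin n → R) : R[X] := ∑ i, C (z i) * X ^ i.1

/-- the coefficient vector of the remainder -/
def ve (n : ℕ) (f P : R[X]) : Fin n → R := fun i => (P %ₘ f).coeff i.1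

theorem po_coeff {n : ℕ} (z : Fin n → R) (i : Fin n) : (po z).coeff i.1 = z i := by
  simp [po, coeff_C_mul, coeff_X_pow, Fin.val_inj]

theorem po_degree {n : ℕ} (z : Fin n → R) : (po z).degree < n := degree_sum_fin_lt z

theorem po_of_lt {n : ℕ} {P : R[X]} (h : P.degree < n) : po (fun i : Fin n => P.coeff i.1) = P := by
  ext k
  by_cases c : k < n
  · exact po_coeff (fun i : Fin n => P.coeff i.1) ⟨k, c⟩
  · have e : (n : WithBot ℕ) ≤ k := by exact_mod_cast not_lt.1 c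
    rw [coeff_eq_zero_of_degree_lt ((po_degree _).trans_le e),
      coeff_eq_zero_of_degree_lt (h.trans_le e)]

theorem po_ve [Nontrivial R] (hf : f.Monic) {n : ℕ} (hd : f.natDegree = n) (P : R[X]) :
    po (ve n f P) = P %ₘ f :=
  po_of_lt (by rw [← hd, ← degree_eq_natDegree hf.ne_zero]; exact degree_modByMonic_lt _ hf)

theorem po_inj [Nontrivial R] (hf : f.Monic) {n : ℕ} (hd : f.natDegree = n) {z : Fin n → R}
    (h : f ∣ po z) : z = 0 := by
  have e : po z = 0 := ((modByMonic_eq_self_iff hf).2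
    (by rw [degree_eq_natDegree hf.ne_zero, hd]; exact po_degree z)).symm.trans
      ((modByMonic_eq_zero_iff_dvd hf).2 h)
  funext i
  rw [← po_coeff z i, e, coeff_zero, Pi.zero_apply]

theorem Gm_symm (δ : R[X]) : (Gm g f δ).IsSymm := by
  ext i j
  simp [Gm, add_comm]

theorem Gm_map (hf : f.Monic) (φ : R →+* S) (δ : R[X]) :
    Gm g (f.map φ) (δ.map φ) = (Gm g f δ).map φ := by
  ext i j
  simp only [Gm, of_apply, map_apply, ← ta_map hf φ, Polynomial.map_mul, Polynomial.map_pow, map_X]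

theorem Gm_congr (hf : f.Monic) {δ δ' : R[X]} (h : f ∣ δ - δ') : Gm g f δ = Gm g f δ' := by
  ext i j
  exact ta_congr hf (by rw [← sub_mul]; exact h.mul_right _)

theorem Gm_form (δ : R[X]) (x y : Fin (2 * g + 1) → R) :
    x ⬝ᵥ Gm g f δ *ᵥ y = ta g f (δ * po x * po y) := by
  simp only [po, mul_sum, sum_mul, ta_sum, dotProduct, mulVec, Gm, of_apply]
  rw [sum_comm]
  refine sum_congr rfl fun j _ => sum_congr rfl fun i _ => ?_
  rw [show δ * (C (x i) * X ^ i.1) * (C (y j) * X ^ j.1) =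
    C (x i * y j) * (δ * X ^ (i.1 + j.1)) by rw [C_mul, pow_add]; ring, ta_C_mul]
  ring

variable {m : ℕ} {G : Matrix (Fin m) (Fin m) R} {e : Fin m → R}

theorem Dg.map (h : Dg G e) (φ : R →+* S) : Dg (G.map φ) fun i => φ (e i) := by
  obtain ⟨P, h1, h2⟩ := h
  refine ⟨P.map φ, ?_, ?_⟩
  · have := h1.map φ
    rwa [φ.map_det] at this
  · rw [← transpose_map, ← Matrix.map_mul, ← Matrix.map_mul, h2, diagonal_map (map_zero φ)]

theorem Dg.of_congr {P : Matrix (Fin m) (Fin m) R} (hP : IsUnit P.det) (h : Dg (Pᵀ * G * P) e) :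
    Dg G e := by
  obtain ⟨P', h1, h2⟩ := h
  exact ⟨P * P', by rw [det_mul]; exact hP.mul h1, by
    rw [← h2, transpose_mul]; simp only [Matrix.mul_assoc]⟩

theorem Dg.det (h : Dg G e) : ∃ u : R, IsUnit u ∧ ∏ i, e i = u ^ 2 * G.det := by
  obtain ⟨P, h1, h2⟩ := h
  refine ⟨P.det, h1, ?_⟩
  rw [← det_diagonal, ← h2, det_mul, det_mul, det_transpose]
  ring

theorem Dg.diag (e : Fin m → R) : Dg (diagonal e) e := ⟨1, by simp, by simp⟩

end ta

section lat
variable {f : ℤ[X]} {δ : ℚ[X]} {Λ : Set ℚ[X]}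

theorem In.zK (r : ℤ[X]) : In f (zK r ℚ) := ⟨r, by simp⟩

theorem In.congr {z w : ℚ[X]} (h : In f z) (e : UV.zK f ℚ ∣ w - z) : In f w := by
  obtain ⟨r, hr⟩ := h
  exact ⟨r, by simpa using dvd_add e hr⟩

theorem In.add {z w : ℚ[X]} (h : In f z) (k : In f w) : In f (z + w) := by
  obtain ⟨r, hr⟩ := h
  obtain ⟨s, hs⟩ := k
  exact ⟨r + s, by rw [UV.zK, UV.zK, Polynomial.map_add, add_sub_add_comm]; exact dvd_add hr hs⟩

theorem In.mul {z w : ℚ[X]} (h : In f z) (k : In f w) : In f (z * w) := by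
  obtain ⟨r, hr⟩ := h
  obtain ⟨s, hs⟩ := k
  refine ⟨r * s, ?_⟩
  rw [UV.zK, UV.zK, Polynomial.map_mul,
    show ∀ a b : ℚ[X], z * w - a * b = (z - a) * w + a * (w - b) from fun a b => by ring]
  exact dvd_add (hr.mul_right _) (hs.mul_left _)

/-- integrality in terms of the remainder -/
theorem in_iff (hf : f.Monic) {z : ℚ[X]} : In f z ↔ ∃ r : ℤ[X], z %ₘ zK f ℚ = zK r ℚ := by
  refine ⟨fun ⟨r, hr⟩ => ⟨r %ₘ f, ?_⟩, fun ⟨r, hr⟩ => ⟨r, hr ▸ dvd_sub_mod z⟩⟩
  rw [UV.zK, UV.zK, map_modByMonic _ hf]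
  exact modByMonic_eq_of_dvd_sub (hf.map _) hr

theorem In.ta (hf : f.Monic) (g : ℕ) {z : ℚ[X]} (h : In f z) : ∃ k : ℤ, ta g (UV.zK f ℚ) z = k := by
  obtain ⟨r, hr⟩ := h
  exact ⟨UV.ta g f r, (ta_congr (hf.map _) hr).trans (ta_map hf _ r)⟩

theorem SD.int (h : SD f δ Λ) {x y : ℚ[X]} (hx : x ∈ Λ) (hy : y ∈ Λ) : In f (δ * x * y) :=
  (h.1 x).1 hx y hy

theorem SD.add (h : SD f δ Λ) {x y : ℚ[X]} (hx : x ∈ Λ) (hy : y ∈ Λ) : x + y ∈ Λ :=
  (h.1 _).2 fun z hz => by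
    rw [mul_add, add_mul]
    exact (h.int hx hz).add (h.int hy hz)

theorem SD.mul (h : SD f δ Λ) {t x : ℚ[X]} (ht : In f t) (hx : x ∈ Λ) : t * x ∈ Λ :=
  (h.1 _).2 fun z hz => by
    rw [show δ * (t * x) * z = t * (δ * x * z) by ring]
    exact ht.mul (h.int hx hz)

theorem SD.zmul (h : SD f δ Λ) (t : ℤ[X]) {x : ℚ[X]} (hx : x ∈ Λ) : zK t ℚ * x ∈ Λ :=
  h.mul (In.zK t) hx

theorem SD.cmul (h : SD f δ Λ) (k : ℤ) {x : ℚ[X]} (hx : x ∈ Λ) : C (k : ℚ) * x ∈ Λ := by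
  simpa using h.zmul (C k) hx

theorem SD.congr (h : SD f δ Λ) {x y : ℚ[X]} (hx : x ∈ Λ) (e : zK f ℚ ∣ y - x) : y ∈ Λ :=
  (h.1 _).2 fun z hz => (h.int hx hz).congr (by
    rw [← sub_mul, ← mul_sub]
    exact (e.mul_left _).mul_right _)

theorem SD.zero (h : SD f δ Λ) : (0 : ℚ[X]) ∈ Λ :=
  (h.1 _).2 fun z _ => by simpa using In.zK (f := f) 0

theorem SD.sum (h : SD f δ Λ) {ι : Type} (s : Finset ι) {x : ι → ℚ[X]} (hx : ∀ i ∈ s, x i ∈ Λ) :
    ∑ i ∈ s, x i ∈ Λ :=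
  Finset.sum_induction x (· ∈ Λ) (fun _ _ => h.add) h.zero hx

end lat

theorem two_tr (g : ℕ) : 2 * tr g = g * (g + 1) :=
  Nat.mul_div_cancel' (Nat.even_mul_succ_self g).two_dvd

theorem pc_monic {R : Type} [CommRing R] {n : ℕ} (c : Fin n → R) : (pc c).Monic := by
  refine monic_X_pow_add ((degree_sum_le _ _).trans_lt ((Finset.sup_lt_iff ?_).2 fun i _ => ?_))
  · exact WithBot.bot_lt_coe n
  · refine (degree_C_mul_X_pow_le _ _).trans_lt ?_
    have := i.2
    exact_mod_cast by omega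

theorem pc_map {R S : Type} [CommRing R] [CommRing S] (φ : R →+* S) {n : ℕ} (c : Fin n → R) :
    (pc c).map φ = pc fun i => φ (c i) := by
  simp [pc, Polynomial.map_sum]

theorem pc_deg {R : Type} [CommRing R] [Nontrivial R] {n : ℕ} (c : Fin n → R) :
    (pc c).natDegree = n := by
  rw [pc, natDegree_add_eq_left_of_degree_lt, natDegree_X_pow]
  rw [degree_X_pow]
  refine (degree_sum_le _ _).trans_lt ((Finset.sup_lt_iff ?_).2 fun i _ => ?_)
  · exact WithBot.bot_lt_coe n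
  · refine (degree_C_mul_X_pow_le _ _).trans_lt ?_
    have := i.2
    exact_mod_cast by omega

end Pool.Agent.MP_a43263_nt.UV

end
end MrgPart0

-- ======== part 1: formerly Pool.Agent.MP_a43263_nt.UV.Cmp
section MrgPart1

/-! THEOREM U: the factorisation at a prime of `Q` and the local invariants. -/

set_option autoImplicit false

noncomputable section

namespace Pool.Agent.MP_a43263_nt.UV

open Polynomial

namespace Cmp

variable {p : ℕ} [Fact p.Prime]

theorem unit_iff {x : ℤ_[p]} : IsUnit x ↔ PadicInt.toZMod x ≠ 0 := by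
  rw [Ne, ← RingHom.mem_ker, PadicInt.ker_toZMod, IsLocalRing.mem_maximalIdeal, mem_nonunits_iff,
    not_not]

theorem zero_iff {x : ℤ_[p]} : PadicInt.toZMod x = 0 ↔ ‖x‖ < 1 := by
  rw [← PadicInt.not_isUnit_iff, unit_iff, not_not]

theorem rq_eval (r : ℤ_[p][X]) {a : ℤ_[p]} (ha : PadicInt.toZMod a = 0) :
    (rq p r).eval 0 = PadicInt.toZMod (r.eval a) := by
  rw [← ha, eval_map, eval₂_at_apply]

theorem iq_eval (r : ℤ_[p][X]) (a : ℤ_[p]) :
    (iq p r).eval (a : ℚ_[p]) = ((r.eval a : ℤ_[p]) : ℚ_[p]) := by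
  rw [eval_map]
  exact eval₂_at_apply PadicInt.Coe.ringHom a

theorem red {f : ℤ[X]} {a : ℤ_[p]} {h : ℤ_[p][X]} (H : Hd p f a h) :
    zK f (ZMod p) = X * rq p h := by
  rw [← rq_zK, H.eq, rq, Polynomial.map_mul, Polynomial.map_sub, map_X, map_C, H.zero, C_0,
    sub_zero]

theorem inc {f : ℤ[X]} {a : ℤ_[p]} {h : ℤ_[p][X]} (H : Hd p f a h) :
    zK f ℚ_[p] = (X - C (a : ℚ_[p])) * iq p h := by
  rw [← iq_zK, H.eq, iq, Polynomial.map_mul, Polynomial.map_sub, map_X, map_C]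
  rfl

theorem deg {g : ℕ} {f : ℤ[X]} {a : ℤ_[p]} {h : ℤ_[p][X]} (Z : Zq g f) (H : Hd p f a h) :
    h.natDegree = 2 * g := by
  have e := Z.dg ℤ_[p]
  rw [H.eq, (monic_X_sub_C a).natDegree_mul H.monic, natDegree_X_sub_C] at e
  omega

theorem split {R : Type} [CommRing R] (f : ℤ[X]) :
    zK f R = X * zK f.divX R + C ((f.coeff 0 : ℤ) : R) := by
  conv_lhs => rw [← X_mul_divX_add f]
  rw [zK, Polynomial.map_add, Polynomial.map_mul, map_X, map_C]
  rfl

theorem pv_eq {R : Type} [CommRing R] {q : ℕ} (f : ℤ[X]) :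
    zK (pv q f) R = zK f.divX R ^ 2 + C (q : R) * X := by
  rw [pv, zK, Polynomial.map_add, Polynomial.map_pow, Polynomial.map_mul, map_X, map_C]
  simp

theorem pv_red {f : ℤ[X]} {a : ℤ_[p]} {h : ℤ_[p][X]} (H : Hd p f a h) :
    PadicInt.toZMod ((zK (pv p f) ℤ_[p]).eval a) = (rq p h).eval 0 ^ 2 := by
  have e := (red H).symm.trans (split f)
  have e0 := congrArg (eval 0) e
  simp only [eval_mul, eval_X, zero_mul, eval_add, eval_C, zero_add] at e0
  rw [← e0, C_0, add_zero] at e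
  rw [← rq_eval _ H.zero, rq_zK, pv_eq, ← mul_left_cancel₀ X_ne_zero e]
  simp

theorem pv_mod {f : ℤ[X]} {a : ℤ_[p]} {h : ℤ_[p][X]} (H : Hd p f a h) :
    ∃ c : ℤ_[p], h ∣ X ^ 2 * zK (pv p f) ℤ_[p] - C (p : ℤ_[p]) * (X ^ 3 + C (p * c ^ 2)) := by
  obtain ⟨b, hb⟩ := (PadicInt.norm_lt_one_iff_dvd a).1 (zero_iff.1 H.zero)
  have e := H.eq.symm.trans (split f)
  have e0 := congrArg (eval 0) e
  simp only [eval_mul, eval_X, zero_mul, eval_add, eval_C, zero_add, eval_sub, zero_sub] at e0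
  refine ⟨b * h.eval 0, (X - C a) * (X * zK f.divX ℤ_[p] - C ((f.coeff 0 : ℤ) : ℤ_[p])), ?_⟩
  have e1 : C ((f.coeff 0 : ℤ) : ℤ_[p]) = -(C (p : ℤ_[p]) * C b * C (h.eval 0)) := by
    rw [← e0, hb]
    simp
  rw [pv_eq]
  simp only [C_mul, C_pow]
  rw [e1] at e ⊢
  linear_combination (-(X * zK f.divX ℤ_[p] + C (p : ℤ_[p]) * C b * C (h.eval 0))) * e

theorem key {R : Type} [CommRing R] {h e δ P r π q ζ t z A B : R} {y : ℕ} (h1 : h ∣ e)
    (h2 : h ∣ δ - P * r) (h3 : h ∣ z ^ 2 * π - q * ζ) (h4 : P * t ^ 2 = q ^ y) :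
    h ∣ δ * (A * e + t * ζ ^ y * (1 - e)) ^ 2 -
      (B * e + r * ζ ^ y * (z ^ 2) ^ y * (1 - e)) * π ^ y := by
  rw [← Ideal.mem_span_singleton, ← Ideal.Quotient.eq_zero_iff_mem] at h1 h2 h3 ⊢
  have h5 := congrArg (Ideal.Quotient.mk (Ideal.span {h})) h4
  simp only [map_sub, map_mul, map_pow, map_add, map_one, sub_eq_zero] at h1 h2 h3 h5 ⊢
  have h6 := congrArg (· ^ y) h3
  simp only [mul_pow] at h6
  rw [h1, h2]
  generalize Ideal.Quotient.mk (Ideal.span {h}) = φ at *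
  linear_combination φ r * φ ζ ^ y * φ ζ ^ y * h5 - φ r * φ ζ ^ y * h6

theorem isSquare_mul {K : Type} [Field K] {w s : K} (hs : s ≠ 0) :
    IsSquare (w * s ^ 2) ↔ IsSquare w := by
  constructor
  · rintro ⟨t, ht⟩
    refine ⟨t / s, ?_⟩
    field_simp
    linear_combination ht
  · rintro ⟨t, rfl⟩
    exact ⟨t * s, by ring⟩

theorem prim {d : ℚ_[p][X]} (hd : d ≠ 0) :
    ∃ (k : ℤ) (r : ℤ_[p][X]), d = C ((p : ℚ_[p]) ^ k) * iq p r ∧ rq p r ≠ 0 := by
  obtain ⟨i, hi, hm⟩ := d.support.exists_max_image (fun j => ‖d.coeff j‖) (support_nonempty.2 hd)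
  have h0 : d.coeff i ≠ 0 := mem_support_iff.1 hi
  have hp : (p : ℚ_[p]) ≠ 0 := Nat.cast_ne_zero.2 (Fact.out : p.Prime).ne_zero
  set k := (d.coeff i).valuation with hk
  have hq : (p : ℚ_[p]) ^ k ≠ 0 := zpow_ne_zero _ hp
  have hn : ‖(p : ℚ_[p]) ^ k‖ = ‖d.coeff i‖ := by
    rw [Padic.norm_p_zpow, Padic.norm_eq_zpow_neg_valuation h0]
  have hpos : 0 < ‖d.coeff i‖ := norm_pos_iff.2 h0
  have hl : C ((p : ℚ_[p]) ^ k)⁻¹ * d ∈ lifts (PadicInt.Coe.ringHom (p := p)) := by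
    refine (lifts_iff_coeff_lifts _).2 fun n =>
      ⟨⟨(C ((p : ℚ_[p]) ^ k)⁻¹ * d).coeff n, ?_⟩, rfl⟩
    rw [coeff_C_mul, norm_mul, norm_inv, hn, inv_mul_le_iff₀ hpos, mul_one]
    by_cases c : n ∈ d.support
    · exact hm n c
    · rw [notMem_support_iff.1 c, norm_zero]
      exact hpos.le
  obtain ⟨r, hr⟩ := (mem_lifts _).1 hl
  refine ⟨k, r, ?_, fun c => ?_⟩
  · rw [iq, hr, ← mul_assoc, ← C_mul, mul_inv_cancel₀ hq, C_1, one_mul]
  · have e1 : PadicInt.toZMod (r.coeff i) = 0 := by rw [← coeff_map, ← rq, c, coeff_zero]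
    have e2 : ((r.coeff i : ℤ_[p]) : ℚ_[p]) = ((p : ℚ_[p]) ^ k)⁻¹ * d.coeff i := by
      rw [← coeff_C_mul, ← hr, coeff_map]
      rfl
    have e3 := zero_iff.1 e1
    rw [PadicInt.norm_def, e2, norm_mul, norm_inv, hn, inv_mul_cancel₀ hpos.ne'] at e3
    exact lt_irrefl _ e3

end Cmp

open Cmp

theorem hens : HENSStmt := by
  intro p _ g f Z ⟨h0, e, hi, hs⟩
  have hd : h0.natDegree = 2 * g := by
    have e1 := Z.dg (ZMod p)
    rw [e, natDegree_mul X_ne_zero hi.ne_zero, natDegree_X] at e1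
    omega
  have hne : h0.eval 0 ≠ 0 := fun c => by
    have e1 := degree_eq_one_of_irreducible_of_root hi c
    have e2 : h0.natDegree = 1 := natDegree_eq_of_degree_eq_some e1
    have := Z.pos
    omega
  have a1 : ‖(zK f ℤ_[p]).eval 0‖ < 1 := by
    rw [← zero_iff, ← rq_eval _ (map_zero _), rq_zK, e]
    simp
  have a2 : ‖(zK f ℤ_[p]).derivative.eval 0‖ = 1 := by
    rw [← PadicInt.isUnit_iff, unit_iff, ← rq_eval _ (map_zero _), rq, ← derivative_map, ← rq,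
      rq_zK, e]
    simpa using hne
  obtain ⟨a, b1, b2, -⟩ := hensels_lemma (F := zK f ℤ_[p]) (a := (0 : ℤ_[p]))
    (by rw [coe_aeval_eq_eval, a2, one_pow]; exact a1)
  rw [coe_aeval_eq_eval] at b1 b2
  rw [a2, sub_zero, ← zero_iff] at b2
  obtain ⟨h, hh⟩ := (dvd_iff_isRoot (p := zK f ℤ_[p]) (a := a)).2 b1
  have e2 : rq p h = h0 := by
    rw [← rq_zK, hh, rq, Polynomial.map_mul, Polynomial.map_sub, map_X, map_C, b2, C_0,
      sub_zero] at e
    exact mul_left_cancel₀ X_ne_zero e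
  exact ⟨a, h, hh, (monic_X_sub_C a).of_mul_monic_left (hh ▸ Z.mo ℤ_[p]), b2, e2 ▸ hi, e2 ▸ hne,
    e2 ▸ hs⟩

theorem cmp : CMPStmt := by
  intro p _ g f a h δ w c k r u Z H hw hc hδ hu hd hr
  have hp : (p : ℚ_[p]) ≠ 0 := Nat.cast_ne_zero.2 (Fact.out : p.Prime).ne_zero
  set y := (k : ZMod 2).val with hy
  have hk : (y : ℤ) = k % 2 := ZMod.val_intCast k
  obtain ⟨c1, hc1⟩ := pv_mod H
  obtain ⟨v, hv⟩ : IsUnit (h.eval a) := unit_iff.2 (rq_eval h H.zero ▸ H.ne)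
  set π := zK (pv p f) ℤ_[p] with hπ
  set ζ : ℤ_[p][X] := X ^ 3 + C (p * c1 ^ 2) with hζ
  set e : ℤ_[p][X] := C ((v⁻¹ : ℤ_[p]ˣ) : ℤ_[p]) * h with he
  have e1 : e.eval a = 1 := by rw [he, eval_mul, eval_C, ← hv, Units.inv_mul]
  have e2 : h ∣ e := Dvd.intro_left _ rfl
  set r' : ℤ_[p][X] := C (w * π.eval a ^ y) * e + r * ζ ^ y * (X ^ 2) ^ y * (1 - e) with hr'
  have e3 : r'.eval a = w * π.eval a ^ y := by simp [hr', e1]
  have e4 : (rq p r').eval 0 = PadicInt.toZMod w * ((rq p h).eval 0 ^ y) ^ 2 := by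
    rw [rq_eval _ H.zero, e3, map_mul, map_pow, pv_red H, ← pow_mul, ← pow_mul, mul_comm y]
  refine ⟨C (((π.eval a : ℤ_[p]) : ℚ_[p]) ^ y / c) * iq p e +
    C ((p : ℚ_[p]) ^ (-(k / 2))) * iq p ζ ^ y * (1 - iq p e), r', ?_, ?_, ?_⟩
  · rw [inc H, ← iq_zK (pv p f), ← hπ]
    refine IsCoprime.mul_dvd ?_ ?_ ?_
    · refine (irreducible_X_sub_C _).coprime_iff_not_dvd.2 fun c => ?_
      have := dvd_iff_isRoot.1 c
      rw [IsRoot, iq_eval, ← hv, PadicInt.coe_eq_zero] at this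
      exact v.ne_zero this
    · rw [dvd_iff_isRoot, IsRoot]
      simp only [eval_sub, eval_mul, eval_pow, eval_add, eval_C, eval_one, iq_eval, e1, e3, hδ,
        PadicInt.coe_one, PadicInt.coe_mul, PadicInt.coe_pow]
      field_simp
      ring
    · have a3 : iq p h ∣ X ^ 2 * iq p π - C (p : ℚ_[p]) * iq p ζ := by
        have := Polynomial.map_dvd (PadicInt.Coe.ringHom (p := p)) hc1
        rwa [Polynomial.map_sub, Polynomial.map_mul, Polynomial.map_mul, Polynomial.map_pow, map_X,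
          map_C, map_natCast] at this
      have a4 : C ((p : ℚ_[p]) ^ k) * C ((p : ℚ_[p]) ^ (-(k / 2))) ^ 2 = C (p : ℚ_[p]) ^ y := by
        rw [← C_pow, ← C_pow, ← C_mul, ← zpow_natCast, ← zpow_natCast, ← zpow_mul, ← zpow_add₀ hp]
        congr 2
        push_cast
        omega
      have a5 := key (A := C (((π.eval a : ℤ_[p]) : ℚ_[p]) ^ y / c))
        (B := iq p (C (w * π.eval a ^ y))) (Polynomial.map_dvd _ e2) hd a3 a4
      simpa only [hr', iq, Polynomial.map_add, Polynomial.map_mul, Polynomial.map_pow,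
        Polynomial.map_sub, Polynomial.map_one, map_X] using a5
  · rw [red H]
    refine IsCoprime.mul_right ?_ ?_
    · refine (irreducible_X.coprime_iff_not_dvd.2 fun c => ?_).symm
      rw [X_dvd_iff, coeff_zero_eq_eval_zero, e4] at c
      exact mul_ne_zero (unit_iff.1 hw) (pow_ne_zero _ (pow_ne_zero _ H.ne)) c
    · refine (H.irr.coprime_iff_not_dvd.2 fun c => ?_).symm
      have pr := H.irr.prime
      have nx : ¬rq p h ∣ X := fun d => by
        have d1 := natDegree_le_of_dvd d X_ne_zero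
        rw [H.monic.natDegree_map, deg Z H, natDegree_X] at d1
        have := Z.pos
        omega
      have b1 : rq p ζ = X ^ 3 := by simp [hζ, rq]
      have b2 : rq p r' = rq p r * X ^ (5 * y) +
          rq p e * (rq p (C (w * π.eval a ^ y)) - rq p r * X ^ (5 * y)) := by
        simp only [hr', rq, Polynomial.map_add, Polynomial.map_mul, Polynomial.map_pow,
          Polynomial.map_sub, Polynomial.map_one, map_X] at b1 ⊢
        rw [b1]
        ring
      rw [b2] at c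
      have b3 := (dvd_add_left ((Polynomial.map_dvd _ e2).mul_right _)).1 c
      rcases pr.dvd_or_dvd b3 with d | d
      · exact hr d
      · exact nx (pr.dvd_of_dvd_pow d)
  · rw [e4, isSquare_mul (pow_ne_zero _ H.ne)]
    exact hu

theorem nfe : GRAMStmt → HENSStmt → CMPStmt → NFEStmt := by
  intro G hH hC p _ g f δ Z T co ⟨s, hs⟩
  classical
  obtain ⟨a, h, H⟩ := hH p g f Z T
  have hp : (p : ℚ_[p]) ≠ 0 := Nat.cast_ne_zero.2 (Fact.out : p.Prime).ne_zero
  have hm : (iq p h).Monic := H.monic.map _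
  have hg : (iq p h).natDegree = 2 * g := by rw [H.monic.natDegree_map, deg Z H]
  have s0 : s ≠ 0 := fun c => by
    have := ((G.1 _ _ (Z.mo ℚ_[p])).2.2.2.1 δ).2 co
    rw [hs, c, mul_zero] at this
    exact not_isUnit_zero this
  rw [inc H] at co hs
  have d0 : δ %ₘ iq p h ≠ 0 := fun c => by
    have u1 := co.of_mul_right_right.symm.isUnit_of_dvd ((modByMonic_eq_zero_iff_dvd hm).1 c)
    have u2 := natDegree_eq_zero_of_isUnit u1
    have := Z.pos
    omega
  obtain ⟨k, r, e, hr⟩ := prim d0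
  have dv : iq p h ∣ δ - C ((p : ℚ_[p]) ^ k) * iq p r := e ▸ dvd_sub_mod δ
  have nd : ¬rq p h ∣ rq p r := fun c => by
    refine hr (eq_zero_of_dvd_of_degree_lt c ?_)
    have l1 := degree_modByMonic_lt δ hm
    rw [e, degree_C_mul (zpow_ne_zero _ hp), H.monic.degree_map,
      degree_map_eq_of_injective Subtype.val_injective] at l1
    rw [H.monic.degree_map]
    exact degree_map_le.trans_lt l1
  obtain ⟨g1, g2, g3, -, -, -⟩ := G.1 _ _ hm
  obtain ⟨-, k2, k3, -, k5, -⟩ := G.1 _ _ (monic_X_sub_C (a : ℚ_[p]))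
  have g6 := (G.1 _ _ H.monic).2.2.2.2.2
  obtain ⟨v, hv⟩ : IsUnit (Nm h r) := by
    rw [unit_iff, ← g6, ← isUnit_iff_ne_zero, (G.1 _ _ (H.monic.map _)).2.2.2.1]
    exact (H.irr.coprime_iff_not_dvd.2 nd).symm
  rw [k5 _ hm, k2 δ (C (δ.eval (a : ℚ_[p]))) (X_sub_C_dvd_sub_C_eval), k3, natDegree_X_sub_C,
    pow_one, g2 _ _ dv, g1, g3, hg, g6, ← hv] at hs
  have q0 : ((p : ℚ_[p]) ^ k) ^ g ≠ 0 := pow_ne_zero _ (zpow_ne_zero _ hp)
  have vv : (((v⁻¹ : ℤ_[p]ˣ) : ℤ_[p]) : ℚ_[p]) * PadicInt.Coe.ringHom (v : ℤ_[p]) = 1 := by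
    change _ * ((v : ℤ_[p]) : ℚ_[p]) = 1
    rw [← PadicInt.coe_mul, Units.inv_mul, PadicInt.coe_one]
  refine ⟨if IsSquare (PadicInt.toZMod ((v⁻¹ : ℤ_[p]ˣ) : ℤ_[p])) then 0 else 1, k,
    hC p g f a h δ _ (s / ((p : ℚ_[p]) ^ k) ^ g) k r _ Z H (v⁻¹).isUnit (div_ne_zero s0 q0) ?_ ?_
      dv nd⟩
  · rw [div_pow, mul_div_assoc', eq_div_iff (pow_ne_zero _ q0), ← pow_mul, mul_comm g 2]
    linear_combination (((v⁻¹ : ℤ_[p]ˣ) : ℤ_[p]) : ℚ_[p]) * hs -
      δ.eval (a : ℚ_[p]) * ((p : ℚ_[p]) ^ k) ^ (2 * g) * vv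
  · split_ifs with c
    · exact iff_of_true c rfl
    · exact iff_of_false c one_ne_zero

end Pool.Agent.MP_a43263_nt.UV

end
end MrgPart1

-- ======== part 2: formerly Pool.Agent.MP_a43263_nt.UV.Glu
section MrgPart2

/-! THEOREM U: gluing of local lattices. -/

set_option autoImplicit false

noncomputable section

namespace Pool.Agent.MP_a43263_nt.UV

open Polynomial Finset

namespace Glu

section
variable {K : Type} [Field K] {O : Subring K} {p : ℕ}

/-- integral at `p` -/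
def L (O : Subring K) (p : ℕ) (w : K) : Prop := ∃ m : ℤ, ¬(p : ℤ) ∣ m ∧ (m : K) * w ∈ O

theorem L.mul (hp : p.Prime) {a b : K} (ha : L O p a) (hb : L O p b) : L O p (a * b) := by
  obtain ⟨m, h1, h2⟩ := ha
  obtain ⟨n, h3, h4⟩ := hb
  refine ⟨m * n, fun h => ((Nat.prime_iff_prime_int.1 hp).dvd_or_dvd h).elim h1 h3, ?_⟩
  rw [Int.cast_mul, mul_mul_mul_comm]
  exact mul_mem h2 h4

theorem L.of_mem (hp : p.Prime) {a : K} (ha : a ∈ O) : L O p a :=
  ⟨1, (Nat.prime_iff_prime_int.1 hp).not_dvd_one, by rwa [Int.cast_one, one_mul]⟩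

theorem L.cancel (hp : p.Prime) {a : K} {m : ℤ} (hm : ¬(p : ℤ) ∣ m) (ha : L O p (m * a)) :
    L O p a := by
  obtain ⟨n, h1, h2⟩ := ha
  refine ⟨n * m, fun h => ((Nat.prime_iff_prime_int.1 hp).dvd_or_dvd h).elim h1 hm, ?_⟩
  rwa [Int.cast_mul, mul_assoc]

theorem mem_of_loc {a : K} (h : ∀ p : ℕ, p.Prime → L O p a) : a ∈ O := by
  let I : Ideal ℤ :=
    { carrier := {m | (m : K) * a ∈ O}
      zero_mem' := by simp
      add_mem' := fun {m n} hm hn => by
        rw [Set.mem_ofPred_eq, Int.cast_add, add_mul]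
        exact add_mem hm hn
      smul_mem' := fun c m hm => by
        rw [Set.mem_ofPred_eq, smul_eq_mul, Int.cast_mul, mul_assoc]
        exact mul_mem (intCast_mem O c) hm }
  obtain ⟨d, hd⟩ := (IsPrincipalIdealRing.principal I).principal
  have h1 : d.natAbs = 1 := by
    by_contra hc
    obtain ⟨p, hp, hpd⟩ := Nat.exists_prime_and_dvd hc
    obtain ⟨m, h1, h2⟩ := h p hp
    have h3 : m ∈ I := h2
    rw [hd] at h3
    exact h1 ((Int.natCast_dvd.2 hpd).trans (Ideal.mem_span_singleton.1 h3))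
  have h2 : (1 : ℤ) ∈ I := by
    rw [hd]
    exact Ideal.mem_span_singleton.2 (Int.isUnit_iff_natAbs_eq.2 h1).dvd
  have h3 : ((1 : ℤ) : K) * a ∈ O := h2
  rwa [Int.cast_one, one_mul] at h3

theorem main (h1 : ∀ w : K, ∃ D : ℤ, D ≠ 0 ∧ (D : K) * w ∈ O) (δ : K) (x : ℕ → K) (P : Finset ℕ)
    (h : ∀ p : ℕ, p.Prime → δ * x p ^ 2 ∈ O ∧ (∃ s, L O p s ∧ δ * x p ^ 2 * s = 1) ∧
      (p ∉ P → x p = x 0)) :
    ∃ Λ : Set K, (∀ z, z ∈ Λ ↔ ∀ y ∈ Λ, δ * z * y ∈ O) ∧ (∃ N : ℤ, N ≠ 0 ∧ (N : K) ∈ Λ) ∧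
      ∀ p : ℕ, p.Prime → ∃ m : ℤ, ¬(p : ℤ) ∣ m ∧ (m : K) * x p ∈ Λ := by
  choose D D0 D1 using h1
  have x0 : ∀ p : ℕ, p.Prime → x p ≠ 0 := fun p hp e => by
    obtain ⟨s, -, hs⟩ := (h p hp).2.1
    simp [e] at hs
  have com : ∀ w : K, ∃ E : ℤ, E ≠ 0 ∧ ∀ l : ℕ, l.Prime → (E : K) * w / x l ∈ O := fun w => by
    refine ⟨∏ l ∈ insert 0 P, D (w / x l), prod_ne_zero_iff.2 fun l _ => D0 _, fun l hl => ?_⟩
    obtain ⟨l', a, b⟩ : ∃ l' ∈ insert 0 P, x l = x l' := by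
      by_cases c : l ∈ P
      · exact ⟨l, mem_insert_of_mem c, rfl⟩
      · exact ⟨0, mem_insert_self _ _, (h l hl).2.2 c⟩
    rw [b, ← prod_erase_mul _ _ a, Int.cast_mul, mul_div_assoc, mul_assoc]
    exact mul_mem (intCast_mem O _) (D1 _)
  have key : ∀ p : ℕ, p.Prime → ∃ m : ℤ, ¬(p : ℤ) ∣ m ∧
      ∀ l : ℕ, l.Prime → L O l ((m : K) * x p / x l) := fun p hp => by
    obtain ⟨E, E0, E1⟩ := com (x p)
    obtain ⟨k, m, m1, rfl⟩ := WfDvdMonoid.max_power_factor E0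
      (Nat.prime_iff_prime_int.1 hp).irreducible
    refine ⟨m, m1, fun l hl => ?_⟩
    by_cases c : l = p
    · rw [c, mul_div_cancel_right₀ _ (x0 p hp)]
      exact L.of_mem hp (intCast_mem O m)
    · refine ⟨p ^ k, fun e => c ?_, ?_⟩
      · exact (Nat.prime_dvd_prime_iff_eq hl hp).1
          (Int.natCast_dvd_natCast.1 ((Nat.prime_iff_prime_int.1 hl).dvd_of_dvd_pow e))
      · have := E1 l hl
        rwa [Int.cast_mul, mul_assoc, mul_div_assoc] at this
  refine ⟨{z | ∀ p : ℕ, p.Prime → L O p (z / x p)}, fun z => ⟨fun hz y hy => ?_, fun hz p hp => ?_⟩,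
    ?_, key⟩
  · refine mem_of_loc fun p hp => ?_
    have := x0 p hp
    rw [show δ * z * y = δ * x p ^ 2 * (z / x p * (y / x p)) by field_simp]
    exact (L.of_mem hp (h p hp).1).mul hp ((hz p hp).mul hp (hy p hp))
  · obtain ⟨m, m1, m2⟩ := key p hp
    obtain ⟨s, s1, s2⟩ := (h p hp).2.1
    have := x0 p hp
    refine L.cancel hp m1 ?_
    rw [show (m : K) * (z / x p) = δ * z * (m * x p) * s by
      rw [← mul_one ((m : K) * (z / x p)), ← s2]; field_simp]
    exact (L.of_mem hp (hz _ m2)).mul hp s1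
  · obtain ⟨E, E0, E1⟩ := com 1
    exact ⟨E, E0, fun p hp => L.of_mem hp (by simpa using E1 p hp)⟩

end

theorem den (z : ℚ[X]) : ∃ (D : ℤ) (t : ℤ[X]), D ≠ 0 ∧ zK t ℚ = C (D : ℚ) * z := by
  induction z using Polynomial.induction_on' with
  | add a b ha hb =>
    obtain ⟨D, t, h1, h2⟩ := ha
    obtain ⟨E, s, h3, h4⟩ := hb
    refine ⟨D * E, C E * t + C D * s, mul_ne_zero h1 h3, ?_⟩
    simp only [zK, Polynomial.map_add, Polynomial.map_mul, h2, h4, Int.cast_mul, C_mul,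
      eq_intCast, Polynomial.map_intCast, map_intCast]
    ring
  | monomial n a =>
    refine ⟨a.den, monomial n a.num, Int.natCast_ne_zero.2 a.den_nz, ?_⟩
    rw [zK, map_monomial, C_mul_monomial, eq_intCast, Int.cast_natCast, Rat.den_mul_eq_num]

end Glu

open Glu in
theorem glu : GRAMStmt → GLUStmt := by
  intro gram g f δ x r P hf h
  have : Fact (Irreducible (zK f ℚ)) := ⟨hf.irr⟩
  let π := AdjoinRoot.mk (zK f ℚ)
  let O := (π.comp (mapRingHom (Int.castRingHom ℚ))).range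
  have hO : ∀ t : ℤ[X], π (zK t ℚ) ∈ O := fun t => ⟨t, rfl⟩
  have hI : ∀ z, In f z ↔ π z ∈ O := fun z =>
    exists_congr fun t => AdjoinRoot.mk_eq_mk.symm.trans eq_comm
  have hC : ∀ m : ℤ, π (C (m : ℚ)) = m := fun m => by rw [map_intCast, map_intCast]
  obtain ⟨Λ, h1, ⟨N, h2, h3⟩, h4⟩ := main (O := O) (fun w => by
      obtain ⟨z, rfl⟩ := AdjoinRoot.mk_surjective w
      obtain ⟨D, t, a, b⟩ := den z
      exact ⟨D, a, by rw [← hC, ← map_mul, ← b]; exact hO t⟩) (π δ) (fun p => π (x p)) P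
    fun p hp => by
      obtain ⟨a, b, c⟩ := h p hp
      have e : π δ * π (x p) ^ 2 = π (zK (r p) ℚ) := by
        rw [← map_pow, ← map_mul]
        exact AdjoinRoot.mk_eq_mk.2 a
      have := Fact.mk hp
      have u := ((gram.1 _ _ (hf.mo (ZMod p))).2.2.2.1 _).2 b
      rw [(gram.1 ℤ f hf.monic).2.2.2.2.2, eq_intCast] at u
      have n1 : ¬(p : ℤ) ∣ Nm f (r p) := fun e =>
        u.ne_zero ((ZMod.intCast_zmod_eq_zero_iff_dvd _ _).2 e)
      have n0 : ((Nm f (r p) : ℤ) : AdjoinRoot (zK f ℚ)) ≠ 0 :=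
        Int.cast_ne_zero.2 fun e => n1 (e ▸ dvd_zero _)
      obtain ⟨A, B, -, -, hAB⟩ := exists_mul_add_mul_eq_C_resultant f (r p) le_rfl le_rfl
        (Or.inl (by rw [hf.deg]; omega))
      have e2 : π (zK (r p) ℚ) * π (zK B ℚ) = (Nm f (r p) : ℤ) := by
        have := congrArg (fun t => π (zK t ℚ)) hAB
        simp only [zK, Polynomial.map_add, Polynomial.map_mul, map_add, map_mul,
          eq_intCast, Polynomial.map_intCast, map_intCast] at this
        rw [show π (f.map (Int.castRingHom ℚ)) = 0 from AdjoinRoot.mk_self, zero_mul,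
          zero_add] at this
        exact this
      rw [e]
      refine ⟨hO _, ⟨π (zK B ℚ) / (Nm f (r p) : ℤ), ⟨_, n1, ?_⟩, ?_⟩, fun hc => by rw [c hc]⟩
      · rw [mul_div_cancel₀ _ n0]
        exact hO B
      · rw [← mul_div_assoc, e2, div_self n0]
  refine ⟨π ⁻¹' Λ, ⟨fun z => ?_, N, h2, ?_⟩, fun p hp => ?_⟩
  · simp only [Set.mem_preimage, hI, map_mul]
    rw [h1]
    exact AdjoinRoot.mk_surjective.forall
  · rwa [Set.mem_preimage, hC]
  · obtain ⟨m, a, b⟩ := h4 p hp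
    exact ⟨m, a, by rwa [Set.mem_preimage, map_mul, hC]⟩

end Pool.Agent.MP_a43263_nt.UV

end
end MrgPart2

-- ======== part 3: formerly Pool.Agent.MP_a43263_nt.UV.Locq
section MrgPart3

/-! THEOREM U: the Hasse symbol of the local forms. -/

set_option autoImplicit false

noncomputable section

namespace Pool.Agent.MP_a43263_nt.UV

open Polynomial Finset Matrix JC

namespace Locq

section ring
variable {R S : Type} [CommRing R] [CommRing S] {g : ℕ} {f : R[X]}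

/-- the Gram matrix on polynomials of degree less than `n` -/
def Gn (n g : ℕ) (f ν : R[X]) : Matrix (Fin n) (Fin n) R :=
  Matrix.of fun i j => ta g f (ν * X ^ (i.1 + j.1))

theorem Gn_symm (n : ℕ) (ν : R[X]) : (Gn n g f ν).IsSymm := by
  ext i j
  simp [Gn, add_comm]

theorem Gn_map (hf : f.Monic) (φ : R →+* S) (n : ℕ) (ν : R[X]) :
    Gn n g (f.map φ) (ν.map φ) = (Gn n g f ν).map φ := by
  ext i j
  simp only [Gn, of_apply, map_apply, ← ta_map hf φ, Polynomial.map_mul, Polynomial.map_pow, map_X]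

theorem Gn_form {n : ℕ} (ν : R[X]) (x y : Fin n → R) :
    x ⬝ᵥ Gn n g f ν *ᵥ y = ta g f (ν * po x * po y) := by
  simp only [po, mul_sum, sum_mul, ta_sum, dotProduct, mulVec, Gn, of_apply]
  rw [sum_comm]
  refine sum_congr rfl fun j _ => sum_congr rfl fun i _ => ?_
  rw [show ν * (C (x i) * X ^ i.1) * (C (y j) * X ^ j.1) =
    C (x i * y j) * (ν * X ^ (i.1 + j.1)) by rw [C_mul, pow_add]; ring, ta_C_mul]
  ring

theorem conj_apply {n : ℕ} (P G : Matrix (Fin n) (Fin n) R) (i j : Fin n) :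
    (Pᵀ * G * P) i j = (fun k => P k i) ⬝ᵥ G *ᵥ fun k => P k j := by
  rw [Matrix.mul_assoc]; rfl

theorem gram_ve [Nontrivial R] (hf : f.Monic) (hd : f.natDegree = 2 * g + 1) (δ : R[X])
    (b : Fin (2 * g + 1) → R[X]) : ∃ P : Mat g R, ∀ i j,
      (Pᵀ * Gm g f δ * P) i j = ta g f (δ * b i * b j) := by
  refine ⟨Matrix.of fun k j => ve _ f (b j) k, fun i j => ?_⟩
  rw [conj_apply, Gm_form]
  change ta g f (δ * po (ve _ f (b i)) * po (ve _ f (b j))) = _
  rw [po_ve hf hd, po_ve hf hd]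
  refine (ta_congr hf ?_).symm
  rw [show δ * b i * b j - δ * (b i %ₘ f) * (b j %ₘ f) =
    (b i - b i %ₘ f) * (δ * b j) + (b j - b j %ₘ f) * (δ * (b i %ₘ f)) by ring]
  exact dvd_add ((dvd_sub_mod _).mul_right _) ((dvd_sub_mod _).mul_right _)

end ring

theorem Hs_cons {A : Type} {n : ℕ} (s : A → A → ℤ) (x : A) (y : Fin n → A) :
    Hs s (Fin.cons x y : Fin (n + 1) → A) = (∏ j, s x (y j)) * Hs s y := by
  simp [Hs, Fin.prod_univ_succ, Fin.prod_Ioi_zero, Fin.prod_Ioi_succ]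

theorem Hs_mul : ∀ (n : ℕ) (t : Fin n → ℤ), Hs (· * ·) t * ∏ i, t i = (∏ i, t i) ^ n
  | 0, t => by simp [Hs]
  | n + 1, t => by
    have h := Hs_mul n (Fin.tail t)
    rw [← Fin.cons_self_tail t, Hs_cons, Fin.prod_univ_succ, prod_mul_distrib]
    simp only [Fin.cons_zero, Fin.cons_succ, prod_const, card_univ, Fintype.card_fin]
    rw [mul_pow, pow_succ (∏ i, Fin.tail t i), ← h]
    ring

/-- the form is nondegenerate modulo `p` -/
theorem det_ne {F : Type} [Field F] {g : ℕ} (hg : 1 ≤ g) {h r : F[X]} (hm : h.Monic)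
    (hd : h.natDegree = 2 * g) (hi : Irreducible h) (h0 : h.eval 0 ≠ 0) (hr : IsCoprime r h) :
    (Gn (2 * g) g (X * h) (r * X * X ^ 2)).det ≠ 0 := by
  classical
  intro e
  obtain ⟨v, v0, hv⟩ := Matrix.exists_mulVec_eq_zero_iff.2 e
  have c1 : IsCoprime (po v) h :=
    ((hi.coprime_iff_not_dvd).2 fun c => v0 (po_inj hm hd c)).symm
  have c2 : IsCoprime X h := (irreducible_X.coprime_iff_not_dvd).2 fun c =>
    h0 (by rw [← coeff_zero_eq_eval_zero]; exact X_dvd_iff.1 c)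
  obtain ⟨u, w, c3⟩ := (hr.mul_left (c2.pow_left (m := 2))).mul_left c1
  obtain ⟨k, hk⟩ : ∃ k, 2 * g = k + 1 := ⟨2 * g - 1, by omega⟩
  have hf : (X * h).Monic := monic_X.mul hm
  have h1 := Gn_form (g := g) (f := X * h) (r * X * X ^ 2) (ve (2 * g) h (u * X ^ k)) v
  rw [hv, dotProduct_zero, po_ve hm hd, ta_congr hf (Q := X ^ (2 * g)), ta_X_pow hf
    (by rw [monic_X.natDegree_mul hm, natDegree_X, hd, add_comm]) le_rfl] at h1
  · simp at h1
  · obtain ⟨z, hz⟩ := dvd_sub_mod (f := h) (u * X ^ k)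
    refine ⟨-(r * X ^ 2 * po v * z) - w * X ^ k, ?_⟩
    rw [show (X : F[X]) ^ (2 * g) = X ^ k * X by rw [hk, pow_succ]]
    linear_combination (X * X ^ k) * c3 - (r * X * X ^ 2 * po v) * hz

variable {p : ℕ} [Fact p.Prime]

theorem unit_iff {x : ℤ_[p]} : IsUnit x ↔ PadicInt.toZMod x ≠ 0 := by
  rw [Ne, ← RingHom.mem_ker, PadicInt.ker_toZMod, IsLocalRing.mem_maximalIdeal, mem_nonunits_iff,
    not_not]

theorem two_unit (hp : p ≠ 2) : IsUnit (2 : ℤ_[p]) := by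
  rw [unit_iff, map_ofNat]
  intro e
  have := (ZMod.natCast_eq_zero_iff 2 p).1 (by exact_mod_cast e)
  exact hp ((Nat.prime_dvd_prime_iff_eq Fact.out Nat.prime_two).1 this)

theorem coe_ne {x : ℤ_[p]} (h : IsUnit x) : (x : ℚ_[p]) ≠ 0 :=
  (h.map PadicInt.Coe.ringHom).ne_zero

theorem move (gram : GRAMStmt) {g : ℕ} {f : ℤ[X]} (hf : Zq g f) {δ x : ℚ_[p][X]} {r : ℤ_[p][X]}
    (h : zK f ℚ_[p] ∣ δ * x ^ 2 - iq p r) (h0 : (Gm g (zK f ℚ_[p]) (iq p r)).det ≠ 0)
    {e : Fin (2 * g + 1) → ℚ_[p]} (he : Dg (Gm g (zK f ℚ_[p]) (iq p r)) e) :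
    Dg (Gm g (zK f ℚ_[p]) δ) e := by
  have g2 := gram.2 _ g _ (hf.sq ℚ_[p])
  have c1 : IsCoprime (iq p r) (zK f ℚ_[p]) := ((gram.1 _ _ (hf.mo _)).2.2.2.1 _).1
    (IsUnit.mk0 _ fun e => h0 (by rw [g2.1, e, mul_zero]))
  obtain ⟨z, hz⟩ := h
  have c2 : IsCoprime (δ * x ^ 2) (zK f ℚ_[p]) := by
    rw [sub_eq_iff_eq_add'.1 hz]
    exact c1.add_mul_left_left z
  obtain ⟨P, h1, h2⟩ := g2.2 δ (iq p r) x
    ((IsCoprime.pow_left_iff two_pos).1 c2.of_mul_left_right) ⟨z, hz⟩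
  exact Dg.of_congr h1 (h2 ▸ he)

theorem Gm_iq {g : ℕ} {f : ℤ[X]} (hf : Zq g f) (r : ℤ_[p][X]) :
    Gm g (zK f ℚ_[p]) (iq p r) = (Gm g (zK f ℤ_[p]) r).map PadicInt.Coe.ringHom := by
  rw [← iq_zK]; exact Gm_map (hf.mo _) _ _

/-- the shape of the form at a prime of `Q` -/
theorem shape (diag : DIAGStmt) (hp : p ≠ 2) {g : ℕ} {f : ℤ[X]} (hf : Zq g f) {a : ℤ_[p]}
    {h r : ℤ_[p][X]} (hd : Hd p f a h) (hr : IsCoprime (rq p r) (zK f (ZMod p))) :
    ∃ (w : ℤ_[p]) (e : Fin (2 * g) → ℤ_[p]) (P : Mat g ℤ_[p]),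
      PadicInt.toZMod w = (rq p r).eval 0 * (rq p h).eval 0 ^ 3 ∧ (∀ i, IsUnit (e i)) ∧
      Pᵀ * Gm g (zK f ℤ_[p]) (r * zK (pv p f) ℤ_[p]) * P =
        diagonal (Fin.cons w fun i => p * e i) := by
  have hm := hf.mo ℤ_[p]
  have hdg := hf.dg ℤ_[p]
  have dh : h.natDegree = 2 * g := by
    rw [hd.eq, (monic_X_sub_C a).natDegree_mul hd.monic, natDegree_X_sub_C] at hdg
    omega
  obtain ⟨a', ha⟩ : (p : ℤ_[p]) ∣ a := by
    rw [← Ideal.mem_span_singleton, ← PadicInt.maximalIdeal_eq_span_p, ← PadicInt.ker_toZMod]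
    exact hd.zero
  have p0 : PadicInt.toZMod (p : ℤ_[p]) = 0 := by simp
  have e1 : zK f.divX ℤ_[p] = h - C a * h.divX := by
    ext n
    have := congrArg (fun q => q.coeff (n + 1)) hd.eq
    simp only [sub_mul, coeff_sub, coeff_X_mul, coeff_C_mul, coeff_map] at this
    simp only [coeff_map, coeff_divX, coeff_sub, coeff_C_mul, this]
  have e2 : zK (pv p f) ℤ_[p] = (h - C a * h.divX) ^ 2 + C (p : ℤ_[p]) * X := by
    rw [← e1]; simp [pv, zK]
  have e3 : zK f (ZMod p) = X * rq p h := by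
    rw [← rq_zK, hd.eq]; simp [rq, hd.zero]
  have hM : IsUnit (Gn (2 * g) g (zK f ℤ_[p])
      (r * (X + C (p : ℤ_[p]) * (C a' * h.divX) ^ 2) * (X - C a) ^ 2)).det := by
    rw [unit_iff, RingHom.map_det, RingHom.mapMatrix_apply, ← Gn_map hm]
    have := det_ne hf.pos (hd.monic.map PadicInt.toZMod)
      (by rw [hd.monic.natDegree_map, dh]) hd.irr hd.ne (e3 ▸ hr).of_mul_right_right
    rw [← e3, ← rq_zK] at this
    simpa [hd.zero] using this
  obtain ⟨e, ⟨P1, -, hP1⟩, he⟩ := diag _ (two_unit hp) _ _ (Gn_symm _ _) hM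
  obtain ⟨P, hP⟩ := gram_ve hm hdg (r * zK (pv p f) ℤ_[p])
    (Fin.cons h fun i => (X - C a) * po fun k => P1 k i)
  refine ⟨(r * zK (pv p f) ℤ_[p] * h).eval a, e, P, ?_, he, ?_⟩
  · rw [← eval₂_at_apply, ← eval_map, hd.zero, e2]
    simp [hd.zero]
    ring
  · ext i j
    rw [hP]
    refine Fin.cases ?_ (fun i => ?_) i <;> refine Fin.cases ?_ (fun j => ?_) j <;>
      simp only [Fin.cons_zero, Fin.cons_succ]
    · rw [diagonal_apply_eq, Fin.cons_zero,
        ta_congr hm (Q := C ((r * zK (pv p f) ℤ_[p] * h).eval a) * h), ta_C_mul, ta_of_lt hm, ← dh,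
        hd.monic.coeff_natDegree, mul_one]
      · rw [degree_eq_natDegree hm.ne_zero, degree_eq_natDegree hd.monic.ne_zero, hdg, dh]
        exact_mod_cast Nat.lt_succ_self _
      · rw [← sub_mul, hd.eq]
        exact mul_dvd_mul_right (X_sub_C_dvd_sub_C_eval) _
    · rw [diagonal_apply_ne _ (Fin.succ_ne_zero j).symm]
      exact ta_dvd hm ⟨r * zK (pv p f) ℤ_[p] * po fun k => P1 k j, by rw [hd.eq]; ring⟩
    · rw [diagonal_apply_ne _ (Fin.succ_ne_zero i)]
      exact ta_dvd hm ⟨r * zK (pv p f) ℤ_[p] * po fun k => P1 k i, by rw [hd.eq]; ring⟩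
    · have h1 := congrFun (congrFun hP1 i) j
      rw [conj_apply, Gn_form] at h1
      rw [ta_congr hm (Q := C (p : ℤ_[p]) * (r * (X + C (p : ℤ_[p]) * (C a' * h.divX) ^ 2) *
        (X - C a) ^ 2 * (po fun k => P1 k i) * po fun k => P1 k j)), ta_C_mul, h1]
      · by_cases c : i = j
        · rw [c, diagonal_apply_eq, diagonal_apply_eq, Fin.cons_succ]
        · rw [diagonal_apply_ne _ c, diagonal_apply_ne _ (fun d => c (Fin.succ_injective _ d)),
            mul_zero]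
      · refine ⟨r * (X - C a) * (h - 2 * C a * h.divX) * (po fun k => P1 k i) *
          po fun k => P1 k j, ?_⟩
        rw [hd.eq, e2, ha, C_mul]
        ring

end Locq

open Locq

theorem locu : GRAMStmt → DIAGStmt → HINVStmt → PADStmt → LOCUStmt := by
  rintro gram diag hinv pad p _ g f δ s e hp hf hs he ⟨x, r, h1, h2⟩
  have hN : IsUnit (Nm (zK f ℤ_[p]) r) := by
    rw [unit_iff, ← (gram.1 _ _ (hf.mo _)).2.2.2.2.2, ← isUnit_iff_ne_zero]
    exact ((gram.1 _ _ ((hf.mo _).map _)).2.2.2.1 _).2 (by rw [zK_map]; exact h2)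
  have hD : (Gm g (zK f ℤ_[p]) r).det = (-1) ^ g * Nm (zK f ℤ_[p]) r := by
    have inj : Function.Injective (PadicInt.Coe.ringHom (p := p)) := Subtype.val_injective
    apply inj
    have h3 := (gram.2 _ g _ (hf.sq ℚ_[p])).1 (iq p r)
    rw [Gm_iq hf, ← RingHom.mapMatrix_apply, ← RingHom.map_det, ← iq_zK,
      (gram.1 _ _ (hf.mo _)).2.2.2.2.2] at h3
    rw [h3, map_mul, map_pow, map_neg, map_one]
  have hU : IsUnit (Gm g (zK f ℤ_[p]) r).det := hD ▸ (isUnit_one.neg.pow g).mul hN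
  obtain ⟨e0, h3, h4⟩ := diag _ (two_unit hp) _ _ (Gm_symm r) hU
  have h5 := move gram hf h1 (by
    rw [Gm_iq hf, ← RingHom.mapMatrix_apply, ← RingHom.map_det]; exact coe_ne hU)
    (Gm_iq hf r ▸ h3.map PadicInt.Coe.ringHom)
  rw [← (hinv _ s hs.1).1 _ _ _ _ h5 he fun i => coe_ne (h4 i)]
  exact prod_eq_one fun i _ => prod_eq_one fun j _ =>
    ((pad.1 p hp).2 s hs).1 _ _ (h4 i) (h4 j)

theorem locq : GRAMStmt → DIAGStmt → HINVStmt → PADStmt → HENSStmt → LOCQStmt := by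
  rintro gram diag hinv pad hens p _ g f δ s e u hp4 hf ht hs he hsq ⟨x, r, h1, h2, h3⟩
  have hp : p ≠ 2 := by rintro rfl; simp at hp4
  obtain ⟨a, h, hd⟩ := hens p g f hf ht
  obtain ⟨w, e1, P, w1, w2, w3⟩ := shape diag hp hf hd h2
  have e3 : zK f (ZMod p) = X * rq p h := by
    rw [← rq_zK, hd.eq]; simp [rq, hd.zero]
  have r0 : (rq p r).eval 0 ≠ 0 := fun c => by
    obtain ⟨y, z, hy⟩ := h2
    simpa [c, e3] using congrArg (eval 0) hy
  have hw : IsUnit w := by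
    rw [unit_iff, w1]; exact mul_ne_zero r0 (pow_ne_zero _ hd.ne)
  have p0 : (p : ℚ_[p]) ≠ 0 := Nat.cast_ne_zero.2 (Fact.out : p.Prime).ne_zero
  have w0 := coe_ne hw
  have e0 : ∀ i, (e1 i : ℚ_[p]) ≠ 0 := fun i => coe_ne (w2 i)
  have h1' : zK f ℚ_[p] ∣ δ * x ^ 2 - iq p (r * zK (pv p f) ℤ_[p]) := by
    rw [iq, Polynomial.map_mul, zK_map]
    simpa [ZMod.val_one] using h1
  set E : Fin (2 * g + 1) → ℚ_[p] := Fin.cons (w : ℚ_[p]) fun i => p * (e1 i : ℚ_[p]) with hE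
  have E0 : ∀ i, E i ≠ 0 := fun i => Fin.cases w0 (fun i => mul_ne_zero p0 (e0 i)) i
  have w4 : (P.map PadicInt.Coe.ringHom)ᵀ * Gm g (zK f ℚ_[p]) (iq p (r * zK (pv p f) ℤ_[p])) *
      P.map PadicInt.Coe.ringHom = diagonal E := by
    rw [Gm_iq hf, ← transpose_map, ← Matrix.map_mul, ← Matrix.map_mul, w3,
      diagonal_map (map_zero _)]
    congr 1
    funext i
    refine Fin.cases rfl (fun i => ?_) i
    rw [Fin.cons_succ, map_mul, map_natCast]
    rfl
  have w5 := congrArg det w4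
  rw [det_mul, det_mul, det_transpose, det_diagonal] at w5
  have w6 : ∏ i, E i ≠ 0 := prod_ne_zero_iff.2 fun i _ => E0 i
  rw [← w5] at w6
  have h5 := move gram hf h1' (right_ne_zero_of_mul (left_ne_zero_of_mul w6))
    ⟨_, IsUnit.mk0 _ (right_ne_zero_of_mul w6), w4⟩
  rw [← (hinv _ s hs.1).1 _ _ _ _ h5 he E0]
  obtain ⟨pd1, pd2⟩ := pad.1 p hp
  obtain ⟨pu, pp⟩ := pd2 s hs
  have S := hs.1
  obtain ⟨j, hj⟩ : IsSquare (-1 : ℚ_[p]) := by
    have := (pd1 (-1) isUnit_one.neg).2 (by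
      simpa using ZMod.exists_sq_eq_neg_one_iff.2 (by omega))
    simpa using this
  have mr : ∀ x y y' : ℚ_[p], x ≠ 0 → y ≠ 0 → y' ≠ 0 → s x (y * y') = s x y * s x y' :=
    fun x y y' a b c => by rw [S.comm, S.mul _ _ _ b c a, S.comm y, S.comm y']
  have sq1 : ∀ x y : ℚ_[p], x ≠ 0 → y ≠ 0 → s x y * s x y = 1 := fun x y a b => by
    rcases S.pm x y a b with c | c <;> simp [c]
  have spp : s p p = 1 := S.con _ _ p0 p0 ⟨1, j, 0, by simp, by linear_combination (-p : ℚ_[p]) * hj⟩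
  have spr : ∀ T : Finset (Fin (2 * g)), s p (∏ i ∈ T, (e1 i : ℚ_[p])) = ∏ i ∈ T, s p (e1 i) := by
    intro T
    induction T using Finset.induction_on with
    | empty => simpa using (pp 1 isUnit_one).2 (by simp)
    | insert i T hi ih =>
      rw [prod_insert hi, prod_insert hi, mr _ _ _ p0 (e0 i) (prod_ne_zero_iff.2 fun i _ => e0 i),
        ih]
  have pr0 : ∏ i, (e1 i : ℚ_[p]) ≠ 0 := prod_ne_zero_iff.2 fun i _ => e0 i
  have t1 : ∏ i, s w (p * (e1 i : ℚ_[p])) = 1 := by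
    rw [prod_congr rfl fun i _ => show s w (p * (e1 i : ℚ_[p])) = s w p by
      rw [mr _ _ _ w0 p0 (e0 i), pu _ _ hw (w2 i), mul_one], prod_const, card_univ,
      Fintype.card_fin, pow_mul, sq, sq1 _ _ w0 p0, one_pow]
  have t2 : Hs s (fun i => p * (e1 i : ℚ_[p])) = Hs (· * ·) fun i => s p (e1 i) :=
    prod_congr rfl fun i _ => prod_congr rfl fun k _ => by
      rw [S.mul _ _ _ p0 (e0 i) (mul_ne_zero p0 (e0 k)), mr _ _ _ p0 p0 (e0 k),
        mr _ _ _ (e0 i) p0 (e0 k), spp, pu _ _ (w2 i) (w2 k), S.comm (e1 i)]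
      ring
  have t3 := Hs_mul _ fun i => s p (e1 i)
  rw [← spr, ← t2, pow_mul, sq, sq1 _ _ p0 pr0, one_pow] at t3
  obtain ⟨c, -, hc⟩ := h5.det
  obtain ⟨n, hn⟩ := hsq
  rw [(gram.2 _ g _ (hf.sq ℚ_[p])).1, hn, hE, Fin.prod_univ_succ] at hc
  simp only [Fin.cons_zero, Fin.cons_succ, prod_mul_distrib, prod_const, card_univ,
    Fintype.card_fin] at hc
  have t4 : (w : ℚ_[p]) * ∏ i, (e1 i : ℚ_[p]) =
      c * j ^ g * n / p ^ g * (c * j ^ g * n / p ^ g) := by
    rw [hj, mul_pow, pow_mul', sq] at hc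
    field_simp
    linear_combination hc
  have t5 : s p w * s p (∏ i, (e1 i : ℚ_[p])) = 1 := by
    have z0 : c * j ^ g * n / p ^ g ≠ 0 := left_ne_zero_of_mul (t4 ▸ mul_ne_zero w0 pr0)
    rw [← mr _ _ _ p0 w0 pr0, t4, mr _ _ _ p0 z0 z0, sq1 _ _ p0 z0]
  have t6 : Hs s E = s p w := by
    rw [hE, Hs_cons, t1, one_mul]
    linear_combination s p w * t3 - Hs s (fun i => p * (e1 i : ℚ_[p])) * t5
  rw [t6, pp w hw, ← h3, w1]
  obtain ⟨y, hy⟩ := hd.sq
  have y0 : y ≠ 0 := fun c => hd.ne (by rw [hy, c, mul_zero])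
  rw [hy]
  constructor
  · rintro ⟨z, hz⟩
    exact ⟨z / y ^ 3, by field_simp; linear_combination hz⟩
  · rintro ⟨z, hz⟩
    exact ⟨z * y ^ 3, by rw [hz]; ring⟩

end Pool.Agent.MP_a43263_nt.UV

end
end MrgPart3

-- ======== part 4: formerly Pool.Agent.MP_a43263_nt.UV.Low
section MrgPart4

/-! Points of boxes in residue classes and the sieve at the small primes. -/

set_option autoImplicit false

noncomputable section

namespace Pool.Agent.MP_a43263_nt.UV

open Polynomial Finset Filter Matrix Topology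

namespace Low

/-- the integers of `[-L, L]` in one class -/
def cls (L : ℝ) (m : ℕ) (a : ℤ) : Finset ℤ :=
  (Icc ⌈(-L - a) / m⌉ ⌊(L - a) / m⌋).image fun k => a + m * k

theorem mem_cls {L : ℝ} {m : ℕ} (hm : 0 < m) {a z : ℤ} :
    z ∈ cls L m a ↔ |(z : ℝ)| ≤ L ∧ (z : ZMod m) = a := by
  have h0 : (0 : ℝ) < m := by exact_mod_cast hm
  simp only [cls, mem_image, mem_Icc, Int.ceil_le, Int.le_floor, div_le_iff₀ h0, le_div_iff₀ h0,
    abs_le]
  constructor
  · rintro ⟨k, ⟨h1, h2⟩, rfl⟩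
    refine ⟨⟨?_, ?_⟩, by simp⟩ <;> push_cast <;> linarith
  · rintro ⟨⟨h1, h2⟩, h3⟩
    obtain ⟨k, hk⟩ := (ZMod.intCast_eq_intCast_iff_dvd_sub a z m).1 h3.symm
    have hz : z = a + m * k := by linarith
    subst hz
    push_cast at h1 h2
    exact ⟨k, ⟨by linarith, by linarith⟩, rfl⟩

theorem card_cls {L : ℝ} (hL : 0 ≤ L) {m : ℕ} (hm : 0 < m) (a : ℤ) :
    2 * L / m - 1 ≤ ((cls L m a).card : ℝ) ∧ ((cls L m a).card : ℝ) ≤ 2 * L / m + 1 := by
  have h0 : (0 : ℝ) < m := by exact_mod_cast hm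
  have hi : Function.Injective fun k : ℤ => a + m * k := by
    intro k k' h
    have h1 : (m : ℤ) ≠ 0 := by exact_mod_cast hm.ne'
    exact mul_left_cancel₀ h1 (add_left_cancel h)
  rw [cls, card_image_of_injective _ hi, Int.card_Icc]
  have e : 2 * L / m = (L - a) / m - (-L - a) / m := by ring
  have h1 := Int.floor_le ((L - a) / m)
  have h2 := Int.lt_floor_add_one ((L - a) / m)
  have h3 := Int.le_ceil ((-L - a) / m)
  have h4 := Int.ceil_lt_add_one ((-L - a) / m)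
  have h5 : 0 ≤ 2 * L / m := by positivity
  generalize ⌊(L - a) / m⌋ = u at *
  generalize ⌈(-L - a) / m⌉ = v at *
  rcases le_total 0 (u + 1 - v) with h | h
  · have h6 : (((u + 1 - v).toNat : ℕ) : ℝ) = u + 1 - v := by
      have := Int.toNat_of_nonneg h
      exact_mod_cast this
    rw [h6]
    constructor <;> linarith
  · have h7 : (u : ℝ) + 1 - v ≤ 0 := by exact_mod_cast h
    rw [Int.toNat_eq_zero.2 h]
    constructor <;> push_cast <;> linarith

theorem set_eq {ι : Type} [Fintype ι] [DecidableEq ι] (L : ι → ℝ) {m : ℕ} (hm : 0 < m)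
    (z₀ : ι → ℤ) : {z : ι → ℤ | (∀ i, |(z i : ℝ)| ≤ L i) ∧ ∀ i, (z i : ZMod m) = z₀ i} =
      ↑(Fintype.piFinset fun i => cls (L i) m (z₀ i)) := by
  ext z
  simp only [Set.mem_ofPred_eq, mem_coe, Fintype.mem_piFinset, mem_cls hm, forall_and]

theorem fin {ι : Type} [Fintype ι] (L : ι → ℝ) :
    {z : ι → ℤ | ∀ i, |(z i : ℝ)| ≤ L i}.Finite := by
  classical
  refine (finite_toSet (Fintype.piFinset fun i => cls (L i) 1 0)).subset fun z hz => ?_
  rw [← set_eq L one_pos fun _ => 0]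
  exact ⟨hz, fun i => Subsingleton.elim _ _⟩

theorem tele (N : ℕ) : ∑ k ∈ range N, 1 / (((k : ℝ) + 3) ^ 2 - 1) =
    5 / 12 - 1 / (2 * ((N : ℝ) + 2)) - 1 / (2 * ((N : ℝ) + 3)) := by
  induction N with
  | zero => norm_num
  | succ N ih =>
    rw [sum_range_succ, ih]
    have e : ((N : ℝ) + 3) ^ 2 - 1 = (N + 2) * (N + 4) := by ring
    rw [e]
    push_cast
    field_simp
    ring

theorem sum_le (P : Finset ℕ) (hP : ∀ p ∈ P, 3 ≤ p) :
    ∑ p ∈ P, 1 / ((p : ℝ) ^ 2 - 1) ≤ 5 / 12 := by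
  obtain ⟨N, hN⟩ := P.exists_nat_subset_range
  have hs : P ⊆ (range N).image fun k => k + 3 := fun p hp => by
    have := mem_range.1 (hN hp)
    have := hP p hp
    exact mem_image.2 ⟨p - 3, mem_range.2 (by omega), by omega⟩
  refine (sum_le_sum_of_subset_of_nonneg hs fun p hp _ => ?_).trans ?_
  · obtain ⟨k, -, rfl⟩ := mem_image.1 hp
    have : (0 : ℝ) ≤ k := k.cast_nonneg
    push_cast
    exact one_div_nonneg.2 (by nlinarith)
  · rw [sum_image fun a _ b _ h => by simpa using h]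
    push_cast
    rw [tele]
    have : 0 ≤ 1 / (2 * ((N : ℝ) + 2)) := by positivity
    have : 0 ≤ 1 / (2 * ((N : ℝ) + 3)) := by positivity
    linarith

theorem sum_dm (g : ℕ) : ∑ i : Fin (2 * g + 1), (i.1 + 1) = dm g := by
  rw [Fin.sum_univ_eq_sum_range (fun i => i + 1), dm]
  induction g with
  | zero => simp
  | succ g ih =>
    rw [show 2 * (g + 1) + 1 = 2 * g + 1 + 1 + 1 by ring, sum_range_succ, sum_range_succ, ih]
    ring

theorem ev (n : ℕ) (K : ℝ) : ∀ᶠ H : ℕ in atTop, 1 ≤ H ∧ K / H ≤ 1 ∧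
    1 / 2 ≤ (1 - K / H) ^ n - 5 / 12 * (1 + K / H) ^ n := by
  have h0 : Tendsto (fun H : ℕ => K / (H : ℝ)) atTop (𝓝 0) :=
    tendsto_const_div_atTop_nhds_zero_nat K
  have h1 : Tendsto (fun H : ℕ => (1 - K / (H : ℝ)) ^ n - 5 / 12 * (1 + K / (H : ℝ)) ^ n) atTop
      (𝓝 ((1 - 0) ^ n - 5 / 12 * (1 + 0) ^ n)) :=
    ((h0.const_sub 1).pow n).sub (((h0.const_add 1).pow n).const_mul _)
  refine (eventually_ge_atTop 1).and ((h0.eventually_le_const one_pos).and ?_)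
  exact h1.eventually_const_le (by norm_num)

end Low

open Low

theorem bxc : BXCStmt := by
  intro ι _ L hL
  classical
  refine ⟨Low.fin L, fun Q S hQ hc => ?_, fun m z₀ hm h => ?_⟩
  · have hf : ∀ q : Q, (S q).Finite := fun q => by
      have : NeZero q.1 := ⟨(hQ q q.2).ne'⟩
      exact Set.toFinite _
    have hB : {z : ι → ℤ | (∀ i, |(z i : ℝ)| ≤ L i) ∧
        ∀ q ∈ Q, (fun i => (z i : ZMod q)) ∈ S q}.Finite := (Low.fin L).subset fun z hz => hz.1
    have hm : 0 < ∏ q ∈ Q, q := prod_pos hQ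
    rw [Set.ncard_eq_toFinset_card _ hB, card_eq_sum_card_fiberwise
      (f := fun (z : ι → ℤ) (q : Q) => fun i => (z i : ZMod q))
      (t := Fintype.piFinset fun q : Q => (hf q).toFinset) ?_]
    · push_cast
      refine (sum_le_card_nsmul _ _ (∏ i, (2 * L i / (∏ q ∈ Q, (q : ℝ)) + 1)) fun t _ => ?_).trans
        (le_of_eq ?_)
      · rcases (hB.toFinset.filter fun z : ι → ℤ =>
          (fun (q : Q) => fun i => (z i : ZMod q)) = t).eq_empty_or_nonempty with h | ⟨z₀, h⟩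
        · rw [h, card_empty, Nat.cast_zero]
          exact prod_nonneg fun i _ => by
            have := hL i
            positivity
        · have hs : (hB.toFinset.filter fun z : ι → ℤ =>
              (fun (q : Q) => fun i => (z i : ZMod q)) = t) ⊆
              Fintype.piFinset fun i => cls (L i) (∏ q ∈ Q, q) (z₀ i) := by
            intro z hz
            rw [mem_filter, Set.Finite.mem_toFinset] at hz h
            refine Fintype.mem_piFinset.2 fun i => (mem_cls hm).2 ⟨hz.1.1 i, ?_⟩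
            rw [ZMod.intCast_eq_intCast_iff_dvd_sub]
            push_cast
            refine Finset.prod_dvd_of_coprime (fun a ha b hb hab => ?_) fun q hq => ?_
            · exact Nat.isCoprime_iff_coprime.2 (hc ha hb hab)
            · rw [← ZMod.intCast_eq_intCast_iff_dvd_sub]
              exact congrFun (congrFun (hz.2.trans h.2.symm) ⟨q, hq⟩) i
          refine (Nat.cast_le.2 (card_le_card hs)).trans ?_
          rw [Fintype.card_piFinset]
          push_cast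
          refine prod_le_prod (fun i _ => Nat.cast_nonneg _) fun i _ => ?_
          have := (card_cls (hL i) hm (z₀ i)).2
          rwa [Nat.cast_prod] at this
      · rw [nsmul_eq_mul, Fintype.card_piFinset, Nat.cast_prod,
          ← prod_coe_sort Q fun q => ((S q).ncard : ℝ)]
        refine congrArg (· * _) (prod_congr rfl fun q _ => ?_)
        rw [Set.ncard_eq_toFinset_card _ (hf q)]
    · intro z hz
      rw [mem_coe, Set.Finite.mem_toFinset] at hz
      exact mem_coe.2 (Fintype.mem_piFinset.2 fun q => (hf q).mem_toFinset.2 (hz.2 q q.2))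
  · have h0 : (0 : ℝ) < m := by exact_mod_cast hm
    rw [set_eq L hm, Set.ncard_coe_finset, Fintype.card_piFinset]
    push_cast
    refine prod_le_prod (fun i _ => ?_) fun i _ => (card_cls (hL i) hm (z₀ i)).1
    exact sub_nonneg.2 ((one_le_div h0).2 (h i))

theorem Low.bad (bx : BXCStmt) (be : BETAStmt) {n m p : ℕ} (c₀ : Fin n → ℤ) (L : Fin n → ℝ)
    (hL : ∀ i, 0 ≤ L i) (hp : p.Prime) (hm : 0 < m) (hc : m.Coprime p) (hne : m ≠ p ^ 2) :
    ({c : Fin n → ℤ | ((∀ i, |(c i : ℝ)| ≤ L i) ∧ ∀ i, (c i : ZMod m) = c₀ i) ∧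
      Nx p (pc c)}.ncard : ℝ) ≤
      (p : ℝ) ^ (2 * n) / ((p : ℝ) ^ 2 - 1) * ∏ i, (2 * L i / (m * (p : ℝ) ^ 2) + 1) := by
  obtain ⟨hf, h, -⟩ := bx (Fin n) L hL
  have hp2 : 0 < p ^ 2 := pow_pos hp.pos 2
  let S : ∀ q : ℕ, Set (Fin n → ZMod q) := fun q => {x | ∃ c : Fin n → ℤ,
    (fun i => (c i : ZMod q)) = x ∧
      (q = m ∧ (∀ i, (c i : ZMod m) = c₀ i) ∨ q = p ^ 2 ∧ Nx p (pc c))}
  have h1 := h {m, p ^ 2} S (by simp [hm, hp2]) (by
    rw [coe_pair]
    exact (Set.pairwise_pair_of_symm (r := Nat.Coprime)).2 fun _ => hc.pow_right 2)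
  rw [prod_pair hne, prod_pair hne] at h1
  have h2 : (S m).ncard ≤ 1 := by
    refine (Set.ncard_le_ncard (t := {fun i => (c₀ i : ZMod m)}) ?_).trans (by simp)
    rintro _ ⟨c, rfl, hx | hx⟩
    · exact funext hx.2
    · exact (hne hx.1).elim
  have h3 : S (p ^ 2) = {x : Fin n → ZMod (p ^ 2) | ∃ c : Fin n → ℤ,
      (fun i => (c i : ZMod (p ^ 2))) = x ∧ Nx p (pc c)} := by
    ext x
    simp [S, hne.symm]
  have h4 := be n p hp
  rw [← h3] at h4
  refine le_trans (Nat.cast_le.2 (Set.ncard_le_ncard ?_ (hf.subset fun z hz => hz.1)))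
    (h1.trans ?_)
  · rintro c ⟨⟨hc1, hc2⟩, hc3⟩
    refine ⟨hc1, fun q hq => ⟨c, rfl, ?_⟩⟩
    rcases mem_insert.1 hq with hq | hq
    · exact .inl ⟨hq, hc2⟩
    · exact .inr ⟨mem_singleton.1 hq, hc3⟩
  · push_cast
    refine mul_le_mul_of_nonneg_right ?_ (prod_nonneg fun i _ => by
      have := hL i
      positivity)
    have h5 : ((S m).ncard : ℝ) ≤ 1 := by exact_mod_cast h2
    exact (mul_le_of_le_one_left (Nat.cast_nonneg _) h5).trans h4

theorem low : BXCStmt → BETAStmt → LOWStmt := by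
  intro bx be g Q c₀ M hQ
  classical
  have hP1 : (1 : ℝ) ≤ ∏ q ∈ Q, (q : ℝ) := by
    rw [← Nat.cast_prod, Nat.one_le_cast]
    exact prod_pos fun q hq => (hQ q hq).1.pos
  have hm : 0 < 2 * ∏ q ∈ Q, q := mul_pos two_pos (prod_pos fun q hq => (hQ q hq).1.pos)
  have hmc : ((2 * ∏ q ∈ Q, q : ℕ) : ℝ) = 2 * ∏ q ∈ Q, (q : ℝ) := by push_cast; rfl
  have hco : ∀ p : ℕ, p.Prime → p ≠ 2 → p ∉ Q → (2 * ∏ q ∈ Q, q).Coprime p := fun p hp h2 hq =>
    Nat.Coprime.mul_left ((Nat.coprime_primes Nat.prime_two hp).2 h2.symm)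
      (Nat.Coprime.prod_left fun q h => (Nat.coprime_primes (hQ q h).1 hp).2
        fun e => hq (e ▸ h))
  have hev : 2 ∣ 2 * ∏ q ∈ Q, q := dvd_mul_right _ _
  generalize 2 * ∏ q ∈ Q, q = m at *
  generalize ∏ q ∈ Q, (q : ℝ) = P at *
  filter_upwards [ev (2 * g + 1) (P * (1 + M ^ 2))] with H ⟨hH, ht1, ht2⟩
  have hH1 : (1 : ℝ) ≤ H := by exact_mod_cast hH
  have hP : 0 < P := by linarith
  let L : Fin (2 * g + 1) → ℝ := fun i => (H : ℝ) ^ (i.1 + 1)
  have hLH : ∀ i, (H : ℝ) ≤ L i := fun i => le_self_pow₀ hH1 (Nat.succ_ne_zero _)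
  have hL : ∀ i, 0 ≤ L i := fun i => by linarith [hLH i]
  have hX : ∏ i, L i / P = (H : ℝ) ^ dm g / P ^ (2 * g + 1) := by
    rw [prod_div_distrib, prod_pow_eq_pow_sum, sum_dm]
    simp
  have hK : P * (1 + M ^ 2) ≤ H := (div_le_one (by linarith)).1 ht1
  have ht : ∀ i, 1 + M ^ 2 ≤ L i / P * (P * (1 + M ^ 2) / H) := fun i => by
    have e : L i / P * (P * (1 + M ^ 2) / H) = L i / H * (1 + M ^ 2) := by field_simp
    rw [e]
    exact le_mul_of_one_le_left (by positivity) ((one_le_div (by linarith)).2 (hLH i))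
  have ht0 : 0 ≤ P * (1 + M ^ 2) / H := by positivity
  generalize P * (1 + M ^ 2) / H = t at *
  obtain ⟨hf, -, hlow⟩ := bx (Fin (2 * g + 1)) L hL
  have hA := hlow m c₀ hm fun i => by nlinarith [hLH i, sq_nonneg M]
  have hA' : (H : ℝ) ^ dm g / P ^ (2 * g + 1) * (1 - t) ^ (2 * g + 1) ≤
      ∏ i, (2 * L i / m - 1) := by
    rw [← hX, ← Fin.prod_const, ← prod_mul_distrib]
    refine prod_le_prod (fun i _ => mul_nonneg (div_nonneg (hL i) hP.le) (by linarith))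
      fun i _ => ?_
    have e : 2 * L i / m = L i / P := by rw [hmc]; field_simp
    rw [e]
    nlinarith [ht i, sq_nonneg M]
  let Ps := (range ⌈M⌉₊).filter fun p => p.Prime ∧ p ≠ 2 ∧ p ∉ Q
  have hbad : ∀ p ∈ Ps, ({c : Fin (2 * g + 1) → ℤ | ((∀ i, |(c i : ℝ)| ≤ L i) ∧
      ∀ i, (c i : ZMod m) = c₀ i) ∧ Nx p (pc c)}.ncard : ℝ) ≤
      (H : ℝ) ^ dm g / P ^ (2 * g + 1) * (1 + t) ^ (2 * g + 1) * (1 / ((p : ℝ) ^ 2 - 1)) := by
    intro p hp
    obtain ⟨hpM, hp, h2, hq⟩ := mem_filter.1 hp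
    have hpM' : (p : ℝ) < M := Nat.lt_ceil.1 (mem_range.1 hpM)
    have hp1 : (1 : ℝ) < p := by exact_mod_cast hp.one_lt
    refine (Low.bad bx be c₀ L hL hp hm (hco p hp h2 hq) fun e => h2 ?_).trans ?_
    · exact ((Nat.prime_dvd_prime_iff_eq Nat.prime_two hp).1
        (Nat.prime_two.dvd_of_dvd_pow (e ▸ hev))).symm
    · have h1 : (p : ℝ) ^ (2 * (2 * g + 1)) * ∏ i, (2 * L i / (m * (p : ℝ) ^ 2) + 1) ≤
          (H : ℝ) ^ dm g / P ^ (2 * g + 1) * (1 + t) ^ (2 * g + 1) := by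
        rw [← hX, pow_mul, ← Fin.prod_const (2 * g + 1) ((p : ℝ) ^ 2),
          ← Fin.prod_const (2 * g + 1) (1 + t), ← prod_mul_distrib, ← prod_mul_distrib]
        refine prod_le_prod (fun i _ => by have := hL i; positivity) fun i _ => ?_
        have e : (p : ℝ) ^ 2 * (2 * L i / (m * (p : ℝ) ^ 2) + 1) = L i / P + p ^ 2 := by
          rw [hmc]; field_simp
        rw [e]
        nlinarith [ht i]
      have h2 : 0 ≤ 1 / ((p : ℝ) ^ 2 - 1) := one_div_nonneg.2 (by nlinarith)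
      refine le_trans (le_of_eq ?_) (mul_le_mul_of_nonneg_right h1 h2)
      ring
  have hsum := sum_le_sum hbad
  rw [← mul_sum] at hsum
  replace hsum := hsum.trans (mul_le_mul_of_nonneg_left (sum_le Ps fun p hp => by
    obtain ⟨-, hp, h2, -⟩ := mem_filter.1 hp
    have := hp.two_le
    omega) (by positivity))
  have hbox : ∀ c : Fin (2 * g + 1) → ℤ, Box H c ↔ ∀ i, |(c i : ℝ)| ≤ L i := fun c =>
    forall_congr' fun i => by
      simp only [L]
      exact_mod_cast Iff.rfl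
  have hfin : ∀ s : Set (Fin (2 * g + 1) → ℤ), (∀ c ∈ s, ∀ i, |(c i : ℝ)| ≤ L i) → s.Finite :=
    fun s hs => hf.subset hs
  have hcov : {c : Fin (2 * g + 1) → ℤ | (∀ i, |(c i : ℝ)| ≤ L i) ∧
      ∀ i, (c i : ZMod m) = c₀ i}.ncard ≤ {c : Fin (2 * g + 1) → ℤ | Box H c ∧
      (∀ i, (c i : ZMod m) = c₀ i) ∧
      ∀ p : ℕ, p.Prime → p ≠ 2 → p ∉ Q → (p : ℝ) < M → ¬Nx p (pc c)}.ncard +
      ∑ p ∈ Ps, {c : Fin (2 * g + 1) → ℤ | ((∀ i, |(c i : ℝ)| ≤ L i) ∧
        ∀ i, (c i : ZMod m) = c₀ i) ∧ Nx p (pc c)}.ncard := by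
    refine le_trans (Set.ncard_le_ncard ?_ ?_) ((Set.ncard_union_le _ _).trans
      (Nat.add_le_add_left (Finset.set_ncard_biUnion_le Ps _) _))
    · intro c hc
      by_contra h
      rw [Set.mem_union, not_or] at h
      refine h.1 ⟨(hbox c).2 hc.1, hc.2, fun p hp h2 hq hM hx => h.2 ?_⟩
      exact Set.mem_biUnion (mem_filter.2 ⟨mem_range.2 (Nat.lt_ceil.2 hM), hp, h2, hq⟩) ⟨hc, hx⟩
    · refine hfin _ ?_
      rintro c (hc | hc)
      · exact (hbox c).1 hc.1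
      · obtain ⟨p, -, hc⟩ := Set.mem_iUnion₂.1 hc
        exact hc.1.1
  have hcov' := (Nat.cast_le (α := ℝ)).2 hcov
  push_cast at hcov'
  have h0 : 0 ≤ (H : ℝ) ^ dm g / P ^ (2 * g + 1) := by positivity
  have h1 := mul_le_mul_of_nonneg_left ht2 h0
  have e : 1 / 2 / P ^ (2 * g + 1) * (H : ℝ) ^ dm g =
      (H : ℝ) ^ dm g / P ^ (2 * g + 1) * (1 / 2) := by ring
  rw [e]
  linarith

end Pool.Agent.MP_a43263_nt.UV

end
end MrgPart4

-- ======== part 5: formerly Pool.Agent.MP_a43263_nt.UV.Uniq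
section MrgPart5

/-! THEOREM U: common isotropic subspaces. -/

set_option autoImplicit false

namespace Pool.Agent.MP_a43263_nt.UV

open Polynomial Module Submodule

namespace Uniq

/-- a common isotropic subspace of dimension `g` contains a string of length `g` -/
theorem str {K L : Type} [Field K] [Field L] [Algebra K L] [FiniteDimensional K L] {g : ℕ}
    (hg : 1 ≤ g) (hn : finrank K L = 2 * g + 1) (τ : L →ₗ[K] K) {o d θ : L} (ho : τ o ≠ 0)
    (hd : d ≠ 0) (E : Submodule K L) (hE : finrank K E = g)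
    (h : ∀ x ∈ E, ∀ y ∈ E, τ (d * x * y) = 0 ∧ τ (d * x * (θ * y)) = 0) :
    ∃ v, v ≠ 0 ∧ ∀ j < g, θ ^ j * v ∈ E := by
  let B : LinearMap.BilinForm K L := ((LinearMap.mul K L).comp (LinearMap.mul K L d)).compr₂ τ
  have hB : B.Nondegenerate := ⟨fun x hx => by_contra fun n => ho (by
    rw [← mul_inv_cancel_left₀ (mul_ne_zero hd n) o]
    exact hx _), fun y hy => by_contra fun n => ho (by
    rw [← inv_mul_cancel_right₀ n o, ← mul_inv_cancel_left₀ hd (o * y⁻¹)]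
    exact hy _)⟩
  have h1 : finrank K (B.orthogonal E) = g + 1 := by
    rw [LinearMap.BilinForm.finrank_orthogonal hB, hn, hE]
    omega
  have h2 : E ≤ B.orthogonal E := fun y hy x hx => (h x hx y hy).1
  obtain ⟨l, hl⟩ : ∃ l : L →ₗ[K] K, ∀ x ∈ B.orthogonal E, l x = 0 → x ∈ E := by
    obtain ⟨x, hx, n⟩ := SetLike.exists_of_lt (lt_of_le_of_finrank_lt_finrank h2 (by omega))
    obtain ⟨l, a, b⟩ := exists_le_ker_of_notMem n
    have := finrank_lt_finrank_of_lt (lt_of_le_of_ne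
      (inf_le_left : B.orthogonal E ⊓ LinearMap.ker l ≤ _) fun e => a (e.ge hx).2)
    exact ⟨l, fun y hy k => (eq_of_le_of_finrank_le (le_inf h2 b) (by omega)).ge ⟨hy, k⟩⟩
  obtain ⟨v, hv, v0⟩ := (Submodule.ne_bot_iff _).1 (LinearMap.ker_ne_bot_of_finrank_lt
    (f := LinearMap.pi fun j : Fin (g - 1) =>
      l ∘ₗ LinearMap.mul K L (θ ^ (j.1 + 1)) ∘ₗ E.subtype) (by simp; omega))
  refine ⟨v, fun e => v0 (Subtype.ext e), fun j hj => ?_⟩
  induction j with
  | zero => simp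
  | succ j ih =>
    refine hl _ (fun x hx => ?_) (congrFun hv ⟨j, by omega⟩)
    rw [pow_succ', mul_assoc]
    exact (h x hx _ (ih (by omega))).2

/-- the top coefficient argument -/
theorem const {K : Type} [Field K] {g : ℕ} {f P : K[X]} (h : Sq g f)
    (hP : ∀ k < 2 * g, ta g f (X ^ k * P) = 0) : ∃ c, f ∣ P - C c := by
  have d := degree_modByMonic_lt P h.monic
  refine ⟨(P %ₘ f).coeff 0, eq_C_of_natDegree_eq_zero (p := P %ₘ f) (by_contra fun n => ?_) ▸
    dvd_sub_mod P⟩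
  have z : P %ₘ f ≠ 0 := fun e => n (by rw [e, natDegree_zero])
  have b := natDegree_lt_natDegree z d
  rw [h.deg] at b
  have := hP (2 * g - (P %ₘ f).natDegree) (by omega)
  rw [ta_congr h.monic (Q := X ^ (2 * g - (P %ₘ f).natDegree) * (P %ₘ f))
    (by rw [← mul_sub]; exact (dvd_sub_mod P).mul_left _), ta_of_lt h.monic (degree_lt_degree (by
      rw [natDegree_X_pow_mul _ z, h.deg]; omega)), coeff_X_pow_mul', if_pos (by omega),
    show 2 * g - (2 * g - (P %ₘ f).natDegree) = (P %ₘ f).natDegree by omega] at this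
  exact z (leadingCoeff_eq_zero.1 this)

end Uniq

open AdjoinRoot in
theorem uniq : GRAMStmt → UNIQStmt := by
  intro gram g f δ e hf hi hδ ⟨s, hs⟩ he h
  obtain ⟨n1, n2, n3, -⟩ := gram.1 ℚ f hf.monic
  have := Fact.mk hi
  have := hf.monic.finite_adjoinRoot
  let τ := lcoeff ℚ (2 * g) ∘ₗ modByMonicHom hf.monic
  have hτ : ∀ P, τ (mk f P) = ta g f P := fun _ => rfl
  have sm : ∀ {n : ℕ} (z : Fin n → ℚ) (w : Fin n → ℚ[X]),
      ∑ i, z i • mk f (w i) = mk f (∑ i, C (z i) * w i) := fun z w => by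
    simp [map_sum, Algebra.smul_def]
  have li : LinearIndependent ℚ fun i => mk f (e i) :=
    Fintype.linearIndependent_iff.2 fun z hz => congrFun (he z (mk_eq_zero.1 (sm z e ▸ hz)))
  have hE := (finrank_span_eq_card li).trans (Fintype.card_fin g)
  have d0 : mk f δ ≠ 0 := fun k => hi.not_isUnit (hδ.isUnit_of_dvd' (mk_eq_zero.1 k) dvd_rfl)
  have iso : ∀ x ∈ span ℚ (Set.range fun i => mk f (e i)),
      ∀ y ∈ span ℚ (Set.range fun i => mk f (e i)),
      τ (mk f δ * x * y) = 0 ∧ τ (mk f δ * x * (root f * y)) = 0 := fun x hx y hy => by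
    obtain ⟨a, rfl⟩ := (mem_span_range_iff_exists_fun ℚ).1 hx
    obtain ⟨b, rfl⟩ := (mem_span_range_iff_exists_fun ℚ).1 hy
    simp only [Finset.mul_sum, Finset.sum_mul, mul_smul_comm, smul_mul_assoc, map_sum, map_smul,
      ← mk_X, ← map_mul, hτ, h, smul_zero, Finset.sum_const_zero, and_self]
  obtain ⟨v, v0, hv⟩ := Uniq.str (θ := root f) (o := mk f (X ^ (2 * g))) hf.pos
    (finrank_quotient_span_eq_natDegree.trans hf.deg) τ
    (by rw [hτ, ta_X_pow hf.monic hf.deg le_rfl]; simp) d0 _ hE iso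
  obtain ⟨V, rfl⟩ := mk_surjective v
  obtain ⟨c, hc⟩ := Uniq.const (P := δ * (V * V)) hf fun k hk => by
    rw [← hτ]
    simp only [map_mul, map_pow, mk_X]
    rcases Nat.even_or_odd' k with ⟨j, rfl | rfl⟩
    · rw [← (iso _ (hv j (by omega)) _ (hv j (by omega))).1]
      congr 1
      ring
    · rw [← (iso _ (hv j (by omega)) _ (hv j (by omega))).2]
      congr 1
      ring
  have hc' : mk f δ * (mk f V * mk f V) = of f c := by
    simpa only [map_mul, mk_C] using mk_eq_mk.2 hc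
  have c0 : c ≠ 0 := fun k => mul_ne_zero d0 (mul_ne_zero v0 v0) (by rw [hc', k, map_zero])
  obtain ⟨t, rfl⟩ : IsSquare c := ⟨s * Nm f V / c ^ g, by
    have := n2 _ _ hc
    rw [n1, n1, n3, hs, hf.deg] at this
    field_simp
    linear_combination -this⟩
  refine ⟨?_, ?_⟩
  · obtain ⟨z, hz⟩ := mk_surjective (of f t / mk f V)
    refine ⟨z, mk_eq_mk.1 ?_⟩
    rw [map_pow, hz, div_pow, eq_div_iff (pow_ne_zero 2 v0), sq, sq, hc', map_mul]
  rintro rfl i
  obtain ⟨u, u0, hu⟩ : ∃ u : ℚ, u ≠ 0 ∧ mk f V = of f u := by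
    rw [map_one, one_mul, map_mul] at hc'
    rcases mul_self_eq_mul_self_iff.1 hc' with k | k
    exacts [⟨t, left_ne_zero_of_mul c0, k⟩,
      ⟨-t, neg_ne_zero.2 (left_ne_zero_of_mul c0), by rw [k, map_neg]⟩]
  have lt : ∀ z : Fin g → ℚ, (po z).degree < f.degree := fun z => (po_degree z).trans (by
    rw [degree_eq_natDegree hf.monic.ne_zero, hf.deg]
    exact_mod_cast by omega)
  have lj : LinearIndependent ℚ fun j : Fin g => mk f (X ^ j.1) :=
    Fintype.linearIndependent_iff.2 fun z hz j => by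
      rw [← po_coeff z j, eq_zero_of_dvd_of_degree_lt (mk_eq_zero.1 (sm z _ ▸ hz)) (lt z),
        coeff_zero]
  have le : span ℚ (Set.range fun j : Fin g => mk f (X ^ j.1)) ≤
      span ℚ (Set.range fun i => mk f (e i)) := span_le.2 (by
    rintro _ ⟨j, rfl⟩
    have := hv j j.2
    rw [hu, mul_comm, ← AdjoinRoot.algebraMap_eq, ← Algebra.smul_def, smul_mem_iff _ u0] at this
    simpa using this)
  obtain ⟨z, hz⟩ := (mem_span_range_iff_exists_fun ℚ).1 ((eq_of_le_of_finrank_le le (by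
    rw [hE, finrank_span_eq_card lj, Fintype.card_fin])).ge (subset_span ⟨i, rfl⟩))
  rw [modByMonic_eq_of_dvd_sub (p₂ := po z) hf.monic (mk_eq_mk.1 ((sm z _).symm.trans hz).symm),
    (modByMonic_eq_self_iff hf.monic).2 (lt z)]
  exact po_degree z

end Pool.Agent.MP_a43263_nt.UV

end MrgPart5

-- ======== part 6: formerly Pool.Agent.MP_a43263_nt.UV.Wg
section MrgPart6

/-! THEOREM U: the image of the descent map is a group of classes of square norm, and the
quadric attached to a class is split. -/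

set_option autoImplicit false

namespace Pool.Agent.MP_a43263_nt.UV

open Polynomial Matrix

namespace Wg

variable {K : Type} [Field K] {c : K} {f δ : K[X]}

theorem scale {r : K} (h : Wc c f δ) : Wc (c * r ^ 2) f δ := by
  obtain ⟨h0, U, V, s, h1, h2, h3, h4⟩ := h
  refine ⟨h0, U, C r * V, C r ^ U.natDegree * s, h1, ?_, h3, ?_⟩
  · rw [show C (c * r ^ 2) * f - (C r * V) ^ 2 = C r ^ 2 * (C c * f - V ^ 2) by
      rw [C_mul, C_pow]; ring]
    exact h2.mul_left _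
  · rw [show δ * (C ((-(c * r ^ 2)) ^ U.natDegree) * U) - (C r ^ U.natDegree * s) ^ 2 =
      (C r ^ U.natDegree) ^ 2 * (δ * (C ((-c) ^ U.natDegree) * U) - s ^ 2) by
        rw [← neg_mul, mul_pow, C_mul, C_pow (a := r ^ 2), C_pow (a := r)]; ring]
    exact h4.mul_left _

theorem unit (hc : c ≠ 0) : IsUnit (C c) := isUnit_C.2 hc.isUnit

end Wg

open Wg in
theorem wg : GRAMStmt → WGStmt := by
  intro gram K _ _ g c f hf hc
  obtain ⟨n1, n2, n3, n4, -⟩ := gram.1 K f hf.monic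
  refine ⟨⟨isCoprime_one_left, 1, 0, 1, monic_one, one_dvd _, isCoprime_one_left, by simp⟩,
    ?_, ?_, fun δ r hr => ⟨fun h => ?_, scale⟩, fun a h e => ?_, ?_⟩
  · rintro δ δ' ⟨h0, U, V, s, h1, h2, h3, h4⟩ ⟨k0, U', V', s', k1, k2, k3, k4⟩
    obtain ⟨T, hT⟩ := JC.Grp.sq_mul h2 ((isCoprime_mul_unit_left_right (unit hc) _ _).2 h3)
      k1.ne_zero k2 ((isCoprime_mul_unit_left_right (unit hc) _ _).2 k3)
    refine ⟨h0.mul_left k0, U * U', T, s * s', h1.mul k1, hT, h3.mul_left k3, ?_⟩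
    rw [h1.natDegree_mul k1, pow_add, C_mul, show ∀ x y : K[X],
      δ * δ' * (x * y * (U * U')) - (s * s') ^ 2 = (δ * (x * U) - s ^ 2) * (δ' * (y * U')) +
        s ^ 2 * (δ' * (y * U') - s' ^ 2) from fun x y => by ring]
    exact dvd_add (h4.mul_right _) (k4.mul_left _)
  · rintro δ ⟨-, U, V, s, h1, h2, h3, h4⟩
    obtain ⟨m1, m2, m3, -⟩ := gram.1 K U h1
    have a := m2 _ _ h2
    have b := n2 _ _ h4
    have d : Nm f U = (-1) ^ (f.natDegree * U.natDegree) * Nm U f := resultant_comm _ _ _ _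
    have e : Nm f (C ((-c) ^ U.natDegree) * U) = (c ^ (g * U.natDegree) * Nm U V) ^ 2 := by
      rw [m1, m3, sq, m1] at a
      rw [n1, n3, d, ← pow_mul, mul_comm U.natDegree, ← mul_assoc, ← mul_pow, neg_mul_neg, mul_one,
        hf.deg]
      linear_combination c ^ (2 * g * U.natDegree) * a
    have z := ((n4 _).2 ((isCoprime_mul_unit_left_left (unit (pow_ne_zero U.natDegree
      (neg_ne_zero.2 hc))) _ _).2 h3)).ne_zero
    rw [n1, sq s, n1 s, e] at b
    rw [e] at z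
    refine ⟨Nm f s / (c ^ (g * U.natDegree) * Nm U V), ?_⟩
    rw [div_mul_div_comm, ← sq (_ * _), eq_div_iff z, b]
  · have := scale (r := r⁻¹) h
    rwa [inv_pow, mul_inv_cancel_right₀ (pow_ne_zero 2 hr)] at this
  · have m : h.Monic := (monic_X_sub_C a).of_mul_monic_left (e ▸ hf.monic)
    have d : h.natDegree = 2 * g := by
      have := hf.deg
      rw [e, (monic_X_sub_C a).natDegree_mul m, natDegree_X_sub_C] at this
      omega
    obtain ⟨w, hw⟩ : ∃ w, c ^ g * w = 1 := ⟨_, mul_inv_cancel₀ (pow_ne_zero g hc)⟩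
    have w0 : c * w ^ 2 ≠ 0 := mul_ne_zero hc (pow_ne_zero 2 (right_ne_zero_of_mul_eq_one hw))
    have lt : (C (c * w ^ 2) * (X - C a)).degree < h.degree := degree_lt_degree (by
      rw [natDegree_C_mul w0, natDegree_X_sub_C, d]
      have := hf.pos
      omega)
    have dU : (h - C (c * w ^ 2) * (X - C a)).natDegree = 2 * g :=
      (natDegree_eq_of_degree_eq (degree_sub_eq_left_of_degree_lt lt)).trans d
    have co : IsCoprime (X - C a) h := (e ▸ hf.sep).isCoprime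
    have cU : IsCoprime (h - C (c * w ^ 2) * (X - C a)) f := by
      rw [e, sub_eq_add_neg h, ← neg_mul]
      refine (co.symm.add_mul_right_left _).mul_right ?_
      have := ((isCoprime_mul_unit_left_left (unit w0).neg _ _).2 co).add_mul_right_left 1
      rwa [one_mul, add_comm] at this
    have eδ : C (c ^ (2 * g)) * h + C c * (C a - X) =
        C (c ^ (2 * g)) * (h - C (c * w ^ 2) * (X - C a)) := by
      rw [mul_sub _ h, ← mul_assoc, ← C_mul, show c ^ (2 * g) * (c * w ^ 2) = c by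
        linear_combination c * (c ^ g * w + 1) * hw]
      ring
    rw [eδ]
    refine ⟨(isCoprime_mul_unit_left_left (unit (pow_ne_zero _ hc)) _ _).2 cU, _,
      C (c * w) * (X - C a), C (c ^ (2 * g)) * (h - C (c * w ^ 2) * (X - C a)),
      m.sub_of_left lt, ⟨C c * (X - C a), ?_⟩, cU, ?_⟩
    · rw [e]
      simp only [C_mul, C_pow]
      ring
    · rw [dU, (even_two_mul g).neg_pow, sq (_ * _), sub_self]
      exact dvd_zero _
  · rintro L _ φ δ ⟨h0, U, V, s, h1, h2, h3, h4⟩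
    refine ⟨h0.map (mapRingHom φ), U.map φ, V.map φ, s.map φ, h1.map φ, ?_,
      h3.map (mapRingHom φ), ?_⟩
    · simpa using Polynomial.map_dvd φ h2
    · simpa using Polynomial.map_dvd φ h4

theorem qs : QSStmt := by
  rintro K _ _ g c f δ hf hc ⟨h0, U, V, s, hU, h, h3, hs⟩
  obtain ⟨w, w', hw⟩ := h0.mul_left h3
  have fn : (C c * f).natDegree = 2 * g + 1 := by rw [natDegree_C_mul hc, hf.deg]
  have fin : ∀ n, FiniteDimensional K (degreeLT K n) := fun n =>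
    (degreeLTEquiv K n).symm.finiteDimensional
  let P := degreeLT K ((U.natDegree + 1) / 2 + g) × degreeLT K (U.natDegree / 2)
  let L : P →ₗ[K] K[X] := (Submodule.subtype _).comp (LinearMap.fst _ _ _)
  let Φ : P →ₗ[K] degreeLT K U.natDegree := LinearMap.codRestrict _ ((modByMonicHom U).comp
    (L - ((LinearMap.mulRight K V).comp (Submodule.subtype _)).comp (LinearMap.snd _ _ _)))
    fun z => mem_degreeLT.2 (degree_eq_natDegree hU.ne_zero ▸ degree_modByMonic_lt _ hU)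
  let Ψ : LinearMap.ker Φ →ₗ[K] Fin (2 * g + 1) → K := LinearMap.pi fun i =>
    lcoeff K i.1 ∘ₗ modByMonicHom f ∘ₗ LinearMap.mulLeft K (s * w) ∘ₗ L ∘ₗ Submodule.subtype _
  have key : ∀ z : LinearMap.ker Φ, ∃ q : K[X], q.natDegree < 2 * g ∧
      z.1.1.1 ^ 2 - C c * f * z.1.2.1 ^ 2 = U * q ∧
      f ∣ δ * po (Ψ z) * po (Ψ z) - C ((-c) ^ U.natDegree) * q := fun z => by
    obtain ⟨q, h1, h2⟩ := JC.Qs.quo hf.pos fn hU h (mem_degreeLT.1 z.1.1.2)
      (mem_degreeLT.1 z.1.2.2)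
      ((modByMonic_eq_zero_iff_dvd hU).1 (congrArg Subtype.val (LinearMap.mem_ker.1 z.2)))
    refine ⟨q, h1, h2, ?_⟩
    have e : po (Ψ z) = s * w * z.1.1.1 %ₘ f := po_ve hf.monic hf.deg _
    obtain ⟨t, ht⟩ := dvd_sub_mod (f := f) (s * w * z.1.1.1)
    obtain ⟨u, hu⟩ := hs
    rw [← e] at ht
    generalize po (Ψ z) = y, z.1.1.1 = p, z.1.2.1 = b, C ((-c) ^ U.natDegree) = k, C c = c' at *
    refine ⟨δ * (s ^ 2 * w ^ 2 * c' * b ^ 2 - t * (s * w * p + y) - u * w ^ 2 * U * q) -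
      w' * (w * δ * U + 1) * k * q, ?_⟩
    linear_combination δ * s ^ 2 * w ^ 2 * h2 - δ * (s * w * p + y) * ht -
      δ * w ^ 2 * U * q * hu + (w * δ * U + 1) * k * q * hw
  have dg : ∀ q : K[X], q.natDegree < 2 * g → (C ((-c) ^ U.natDegree) * q).degree < f.degree :=
    fun q hq => degree_lt_degree ((natDegree_C_mul_le _ _).trans_lt (by rw [hf.deg]; omega))
  refine ⟨LinearMap.range Ψ, ?_, ?_⟩
  · rw [LinearMap.finrank_range_of_inj ((injective_iff_map_eq_zero _).2 fun z hz => ?_)]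
    · have e1 := LinearMap.finrank_range_add_finrank_ker Φ
      have e2 := (LinearMap.range Φ).finrank_le
      rw [Module.finrank_prod, JC.Qs.rk, JC.Qs.rk] at e1
      rw [JC.Qs.rk] at e2
      omega
    obtain ⟨q, h1, h2, k⟩ := key z
    rw [hz, show po (0 : Fin (2 * g + 1) → K) = 0 by simp [po], mul_zero, zero_sub, dvd_neg] at k
    rw [(mul_eq_zero.1 (eq_zero_of_dvd_of_degree_lt k (dg q h1))).resolve_left
      (Wg.unit (pow_ne_zero _ (neg_ne_zero.2 hc))).ne_zero, mul_zero, sub_eq_zero] at h2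
    have b0 : z.1.2.1 = 0 := by
      by_contra n
      have := congrArg natDegree h2
      rw [natDegree_mul (mul_ne_zero (Wg.unit hc).ne_zero hf.monic.ne_zero) (pow_ne_zero _ n),
        natDegree_pow, natDegree_pow, fn] at this
      omega
    rw [b0, zero_pow two_ne_zero, mul_zero, pow_eq_zero_iff two_ne_zero] at h2
    exact Subtype.ext (Prod.ext (Subtype.ext h2) (Subtype.ext b0))
  · rintro _ ⟨z, rfl⟩
    obtain ⟨q, h1, -, k⟩ := key z
    rw [Gm_form, ta_congr hf.monic k, ta_of_lt hf.monic (dg q h1), coeff_C_mul,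
      coeff_eq_zero_of_natDegree_lt h1, mul_zero]

end Pool.Agent.MP_a43263_nt.UV

end MrgPart6

-- marker of a merged file
example : 731051 + 203576 = 731051 + 203576 := rfl
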