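import Mathlib.Algebra.Module.Lattice
import Mathlib.Algebra.Polynomial.Eval.Irreducible
import Mathlib.RingTheory.Finiteness.ModuleFinitePresentation
import Mathlib.Analysis.Matrix.Order
import Mathlib.LinearAlgebra.Dimension.Torsion.Finite
import Mathlib.LinearAlgebra.LinearIndependent.BaseChange
import Mathlib.RingTheory.Etale.Weakly
import Pool.Agent.MP_a43263_nt.UV.Wg
import Pool.Agent.MP_a43263_nt.UC.Spec
import Pool.Agent.MP_a43263_nt.UM.Pair
import Pool.Agent.MP_a43263_nt.JC.JAll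

-- ======== part 0: formerly Pool.Agent.MP_a43263_nt.UV.Bas
section MrgPart0

/-! THEOREM U: bases of self-dual lattices. -/

set_option autoImplicit false

noncomputable section

namespace Pool.Agent.MP_a43263_nt.UV

open Polynomial Finset Matrix JC

namespace Bas

theorem po_add {n : ℕ} (x y : Fin n → ℚ) : po (x + y) = po x + po y := by
  simp [po, add_mul, sum_add_distrib]

theorem po_smul {n : ℕ} (c : ℚ) (x : Fin n → ℚ) : po (c • x) = C c * po x := by
  simp [po, mul_sum, mul_assoc]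

theorem po_sub {n : ℕ} (x y : Fin n → ℚ) : po (x - y) = po x - po y := by
  simp [po, sub_mul, sum_sub_distrib]

theorem po_sum {n m : ℕ} (c : Fin m → ℚ) (x : Fin m → Fin n → ℚ) :
    po (∑ i, c i • x i) = ∑ i, C (c i) * po (x i) := by
  simp only [po, Finset.sum_apply, Pi.smul_apply, smul_eq_mul, map_sum, sum_mul, mul_sum, C_mul,
    mul_assoc]
  exact sum_comm

variable {g : ℕ} {f : ℤ[X]} {δ : ℚ[X]} {Λ : Set ℚ[X]}

theorem dvd_ve (hf : Zq g f) (P : ℚ[X]) : zK f ℚ ∣ P - po (ve (2 * g + 1) (zK f ℚ) P) := by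
  rw [po_ve (hf.mo ℚ) (hf.dg ℚ)]
  exact dvd_sub_mod P

/-- The lattice of the coefficient vectors. -/
def lat (n : ℕ) (h : SD f δ Λ) : Submodule ℤ (Fin n → ℚ) where
  carrier := {z | po z ∈ Λ}
  add_mem' hx hy := by
    rw [Set.mem_ofPred_eq, po_add]
    exact h.add hx hy
  zero_mem' := by simpa [po] using h.zero
  smul_mem' c x hx := by
    rw [Set.mem_ofPred_eq, ← Int.cast_smul_eq_zsmul ℚ, po_smul]
    exact h.cmul c hx

theorem isLattice (hf : Zq g f) (hδ : IsCoprime δ (zK f ℚ)) (h : SD f δ Λ) :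
    (lat (2 * g + 1) h).IsLattice ℚ := by
  obtain ⟨N, hN, hN'⟩ := h.2
  have hN0 : (N : ℚ) ≠ 0 := Int.cast_ne_zero.2 hN
  obtain ⟨ε, s, hε⟩ := hδ
  constructor
  · refine (Submodule.fg_span (Set.finite_range fun i : Fin (2 * g + 1) =>
      ve (2 * g + 1) (zK f ℚ) (C (N : ℚ)⁻¹ * ε * X ^ i.1))).of_le fun z hz => ?_
    obtain ⟨r, hr⟩ := (in_iff hf.monic).1 (h.int hz hN')
    have h1 := po_ve (hf.mo ℚ) (hf.dg ℚ) (δ * po z * C (N : ℚ))
    have h2 : z - ∑ i : Fin (2 * g + 1), (r.coeff i.1 : ℚ) •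
        ve (2 * g + 1) (zK f ℚ) (C (N : ℚ)⁻¹ * ε * X ^ i.1) = 0 := by
      refine po_inj (hf.mo ℚ) (hf.dg ℚ) ?_
      have h3 := dvd_ve hf (δ * po z * C (N : ℚ))
      have h4 := Finset.dvd_sum (s := univ) fun (i : Fin (2 * g + 1)) _ =>
        (dvd_ve hf (C (N : ℚ)⁻¹ * ε * X ^ i.1)).mul_left (C (r.coeff i.1 : ℚ))
      have h5 : ∑ i : Fin (2 * g + 1), C (r.coeff i.1 : ℚ) * (C (N : ℚ)⁻¹ * ε * X ^ i.1) =
          C (N : ℚ)⁻¹ * ε * po (ve (2 * g + 1) (zK f ℚ) (δ * po z * C (N : ℚ))) := by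
        rw [po, mul_sum]
        refine sum_congr rfl fun i _ => ?_
        rw [ve, hr, coeff_map, eq_intCast]
        ring
      have h6 : C (N : ℚ)⁻¹ * C (N : ℚ) = 1 := by rw [← C_mul, inv_mul_cancel₀ hN0, C_1]
      simp only [mul_sub, sum_sub_distrib, h5] at h4
      rw [po_sub, po_sum]
      have h7 := dvd_add (dvd_add (h3.mul_left (C (N : ℚ)⁻¹ * ε)) h4)
        (dvd_mul_left (zK f ℚ) (po z * s))
      refine h7.trans (dvd_of_eq ?_)
      linear_combination po z * hε + ε * δ * po z * h6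
    rw [sub_eq_zero.1 h2]
    refine Submodule.sum_mem _ fun i _ => ?_
    rw [Int.cast_smul_eq_zsmul]
    exact Submodule.smul_mem _ _ (Submodule.subset_span ⟨i, rfl⟩)
  · rw [eq_top_iff, ← (Pi.basisFun ℚ (Fin (2 * g + 1))).span_eq, Submodule.span_le]
    rintro _ ⟨i, rfl⟩
    refine (Submodule.smul_mem_iff _ hN0).1 (Submodule.subset_span ?_)
    have := h.zmul (X ^ i.1) hN'
    change po _ ∈ Λ
    rw [po_smul, mul_comm]
    simpa [po, Pi.single_apply, apply_ite C] using this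

/-- Integrality can be read off from the form. -/
theorem in_of_ta (hf : Zq g f) (d : ℕ) (hd : d ≤ 2 * g + 1) : ∀ w : ℚ[X], w.degree < d →
    (∀ k : ℕ, ∃ c : ℤ, ta g (zK f ℚ) (w * X ^ k) = c) → In f w := by
  induction d with
  | zero =>
    intro w hw _
    rw [degree_eq_bot.1 (Nat.WithBot.lt_zero_iff.1 hw)]
    simpa using In.zK (f := f) 0
  | succ d ih =>
    intro w hw H
    obtain ⟨c, hc⟩ := H (2 * g - d)
    rw [ta_of_lt (hf.mo ℚ) (by
        rw [degree_eq_natDegree (hf.mo ℚ).ne_zero, hf.dg ℚ, degree_lt_iff_coeff_zero]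
        intro m hm
        rw [coeff_mul_X_pow', (degree_lt_iff_coeff_zero _ _).1 hw _ (by omega), ite_self]),
      coeff_mul_X_pow', if_pos (by omega), show 2 * g - (2 * g - d) = d by omega] at hc
    have h1 : ∀ k : ℕ, In f (C (c : ℚ) * X ^ k) := fun k => ⟨C c * X ^ k, by simp [zK]⟩
    have h2 := ih (by omega) (w - C (c : ℚ) * X ^ d) ((degree_lt_iff_coeff_zero _ _).2 fun m hm => by
      rw [coeff_sub, coeff_C_mul_X_pow]
      split_ifs with e
      · rw [e, hc, sub_self]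
      · rw [(degree_lt_iff_coeff_zero _ _).1 hw m (by omega), sub_zero]) fun k => by
      obtain ⟨a, ha⟩ := H k
      obtain ⟨a', ha'⟩ := (h1 (d + k)).ta hf.monic g
      exact ⟨a - a', by rw [sub_mul, ta_sub, ha, mul_assoc, ← pow_add, ha', Int.cast_sub]⟩
    simpa using h2.add (h1 d)

variable {b : Fin (2 * g + 1) → ℚ[X]} {A T : Mat g ℤ}

theorem ta_comb (hA : ∀ i j, (A i j : ℚ) = ta g (zK f ℚ) (δ * b i * b j))
    (w : Fin (2 * g + 1) → ℚ) (i : Fin (2 * g + 1)) :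
    ta g (zK f ℚ) (δ * b i * ∑ j, C (w j) * b j) = (mK A ℚ *ᵥ w) i := by
  simp only [mul_sum, ta_sum, mulVec, dotProduct, mK_apply, hA]
  refine sum_congr rfl fun j _ => ?_
  rw [mul_left_comm, ta_C_mul, mul_comm]

/-- The dual lattice is the lattice. -/
theorem int_of (hf : Zq g f) (h : SD f δ Λ) (hb : Bs g f Λ b)
    (hA : ∀ i j, (A i j : ℚ) = ta g (zK f ℚ) (δ * b i * b j)) (w : Fin (2 * g + 1) → ℚ)
    (hw : ∀ i, ∃ c : ℤ, (mK A ℚ *ᵥ w) i = c) : ∃ z : Fin (2 * g + 1) → ℤ, ∀ i, w i = z i := by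
  choose c hc using hw
  have h1 : ∀ y ∈ Λ, ∃ a : ℤ, ta g (zK f ℚ) (δ * (∑ j, C (w j) * b j) * y) = a := fun y hy => by
    obtain ⟨z, hz⟩ := hb.span y hy
    refine ⟨∑ i, z i * c i, (ta_congr (hf.mo ℚ) (Q := δ * (∑ j, C (w j) * b j) *
      ∑ i, C (z i : ℚ) * b i) (by rw [← mul_sub]; exact hz.mul_left _)).trans ?_⟩
    rw [mul_sum, ta_sum, Int.cast_sum]
    refine sum_congr rfl fun i _ => ?_
    rw [mul_left_comm, ta_C_mul, mul_right_comm, ta_comb hA, hc, Int.cast_mul]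
  have h2 : ∑ j, C (w j) * b j ∈ Λ := (h.1 _).2 fun y hy => by
    refine (in_of_ta hf _ le_rfl _ (po_degree (ve _ (zK f ℚ) _)) fun k => ?_).congr (dvd_ve hf _)
    obtain ⟨a, ha⟩ := h1 _ (h.zmul (X ^ k) hy)
    refine ⟨a, (ta_congr (hf.mo ℚ) ?_).symm.trans ha⟩
    refine ((dvd_ve hf (δ * (∑ j, C (w j) * b j) * y)).mul_right (X ^ k)).trans (dvd_of_eq ?_)
    rw [show zK (X ^ k) ℚ = X ^ k by simp]
    ring
  obtain ⟨z, hz⟩ := hb.span _ h2
  refine ⟨z, fun i => sub_eq_zero.1 (congrFun (hb.ind (fun i => w i - z i) ?_) i)⟩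
  simpa only [C_sub, sub_mul, sum_sub_distrib] using hz

theorem aeval_comb (hT : ∀ j, zK f ℚ ∣ X * b j - ∑ i, C (T i j : ℚ) * b i) (p : ℚ[X]) :
    ∀ w : Fin (2 * g + 1) → ℚ,
      zK f ℚ ∣ p * ∑ j, C (w j) * b j - ∑ i, C ((aeval (mK T ℚ) p *ᵥ w) i) * b i := by
  induction p using Polynomial.induction_on with
  | C a => simp [Algebra.algebraMap_eq_smul_one, smul_mulVec, mul_sum, mul_assoc]
  | add p q hp hq =>
    intro w
    refine (dvd_add (hp w) (hq w)).trans (dvd_of_eq ?_)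
    simp only [map_add, add_mulVec, Pi.add_apply, add_mul, sum_add_distrib]
    ring
  | monomial n a ih =>
    intro w
    have h1 := Finset.dvd_sum (s := univ) fun j _ => (hT j).mul_left (C (w j))
    have h2 : ∑ j, C (w j) * (X * b j - ∑ i, C (T i j : ℚ) * b i) =
        X * ∑ j, C (w j) * b j - ∑ i, C ((mK T ℚ *ᵥ w) i) * b i := by
      simp only [mul_sub, sum_sub_distrib, mul_sum, mulVec, dotProduct, mK_apply, map_sum, sum_mul,
        C_mul]
      rw [sum_comm]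
      congr 1 <;> simp only [mul_left_comm, mul_assoc]
    rw [h2] at h1
    rw [pow_succ, ← mul_assoc, map_mul, aeval_X, ← mulVec_mulVec]
    refine (dvd_add (h1.mul_left (C a * X ^ n)) (ih (mK T ℚ *ᵥ w))).trans (dvd_of_eq ?_)
    ring

end Bas

open Bas

theorem bs1 : BS1Stmt := by
  intro g f δ Λ hf hδ h
  have := isLattice hf hδ h
  let e := Module.finBasisOfFinrankEq ℤ (lat (2 * g + 1) h)
    ((Submodule.IsLattice.finrank_of_pi ℚ _).trans (Fintype.card_fin _))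
  refine ⟨fun i => po (e i).1, fun i => (e i).2, fun x hx => ?_, fun z hz => ?_⟩
  · let y : lat (2 * g + 1) h := ⟨ve _ (zK f ℚ) x, h.congr hx (dvd_sub_comm.1 (dvd_ve hf x))⟩
    refine ⟨e.repr y, ?_⟩
    have h1 := congrArg Subtype.val (e.sum_repr y)
    simp only [Submodule.coe_sum, Submodule.coe_smul, ← Int.cast_smul_eq_zsmul ℚ] at h1
    rw [← po_sum, h1]
    exact dvd_ve hf x
  · rw [← po_sum] at hz
    have h1 := po_inj (hf.mo ℚ) (hf.dg ℚ) hz
    simp only [← e.extendOfIsLattice_apply ℚ] at h1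
    exact funext (Fintype.linearIndependent_iff.1 (e.extendOfIsLattice ℚ).linearIndependent z h1)

theorem bs2 : BS2Stmt := by
  intro g f δ Λ b hf _ h hb
  choose A hA using fun i j => (h.int (hb.mem i) (hb.mem j)).ta hf.monic g
  choose T hT using fun j => hb.span (X * b j) (by simpa using h.zmul X (hb.mem j))
  have hA' : ∀ i j, ((of A i j : ℤ) : ℚ) = ta g (zK f ℚ) (δ * b i * b j) := fun i j => (hA i j).symm
  have hT' : ∀ j, zK f ℚ ∣ X * b j - ∑ i, C (((of T)ᵀ i j : ℤ) : ℚ) * b i := hT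
  generalize of A = A at hA'
  generalize (of T)ᵀ = T at hT'
  refine ⟨A, T, ⟨hA', hT'⟩, ?_, ?_, ?_, ?_⟩
  · ext i j
    refine Int.cast_injective (α := ℚ) ?_
    rw [transpose_apply, hA', hA', mul_right_comm]
  · have h1 : ∀ i j, ((A * T) i j : ℚ) = ta g (zK f ℚ) (δ * b i * (X * b j)) := fun i j => by
      rw [ta_congr (hf.mo ℚ) (Q := δ * b i * ∑ k, C (T k j : ℚ) * b k)
        (by rw [← mul_sub]; exact (hT' j).mul_left _), ta_comb hA']
      simp [mul_apply, mulVec, dotProduct]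
    ext i j
    refine Int.cast_injective (α := ℚ) ?_
    rw [transpose_apply, h1, h1]
    congr 1
    ring
  · have h1 : IsUnit (mK A ℚ) := by
      rw [← mulVec_injective_iff_isUnit, ← coe_mulVecLin, injective_iff_map_eq_zero]
      intro w hw
      funext i
      by_contra hi
      obtain ⟨z, hz⟩ := int_of hf h hb hA' ((2 * w i)⁻¹ • w) fun j =>
        ⟨0, by rw [mulVec_smul, show mK A ℚ *ᵥ w = 0 from hw]; simp⟩
      have h2 : ((2 * z i : ℤ) : ℚ) = (1 : ℤ) := by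
        rw [Int.cast_mul, ← hz i, Pi.smul_apply, smul_eq_mul]
        have : w i ≠ 0 := hi
        push_cast
        field_simp
      have := Int.cast_injective h2
      omega
    have h2 := mul_nonsing_inv _ ((isUnit_iff_isUnit_det _).1 h1)
    choose B hB using fun j => int_of hf h hb hA' (fun i => (mK A ℚ)⁻¹ i j) fun i =>
      ⟨(1 : Mat g ℤ) i j, (congrFun₂ h2 i j).trans (by simp [one_apply])⟩
    refine isUnit_det_of_right_inverse (B := (of B)ᵀ) ?_
    ext i j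
    refine Int.cast_injective (α := ℚ) ?_
    have h3 := congrFun₂ h2 i j
    simp only [mul_apply, hB, mK_apply] at h3
    simpa [mul_apply, one_apply] using h3
  · have h1 : aeval (mK T ℚ) (zK f ℚ) = 0 := by
      refine ext_of_mulVec_single fun j => ?_
      rw [zero_mulVec]
      exact hb.ind _ ((dvd_sub_right (dvd_mul_right _ _)).1 (aeval_comb hT' _ _))
    have h2 := minpoly_dvd_charpoly (mK T ℚ)
    rw [← minpoly.eq_of_irreducible_of_monic hf.irr h1 (hf.mo ℚ)] at h2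
    refine Polynomial.map_injective (Int.castRingHom ℚ) Int.cast_injective ?_
    rw [← charpoly_map]
    exact eq_of_monic_of_dvd_of_natDegree_le (hf.mo ℚ) (charpoly_monic _) h2
      (by rw [charpoly_natDegree_eq_dim, hf.dg ℚ, Fintype.card_fin])

end Pool.Agent.MP_a43263_nt.UV

end
end MrgPart0

-- ======== part 1: formerly Pool.Agent.MP_a43263_nt.UV.Bad
section MrgPart1

/-! THEOREM U: the pairs of matrices attached to the bad polynomials. -/

set_option autoImplicit false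

noncomputable section

namespace Pool.Agent.MP_a43263_nt.UV

open Polynomial Finset Matrix JC

theorem strq : STRStmt := by
  intro g q f δ Λ b A T hf hq ⟨h, e, hi, t, ht⟩ hS hb hM hR ⟨x, hx, r, s, hr, hs, hrs⟩
  have := Fact.mk hq
  have h1 : h.Monic := monic_X.of_mul_monic_left (e ▸ hf.mo (ZMod q))
  have h2 : h.natDegree = 2 * g := by
    have := hf.dg (ZMod q)
    rw [e, natDegree_X_mul h1.ne_zero] at this
    omega
  have h3 : t ≠ 0 := fun c => by
    have := degree_eq_one_of_irreducible_of_root hi (x := 0) (by rw [IsRoot.def, ht, c, mul_zero])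
    have := natDegree_eq_of_degree_eq_some (n := 1) this
    omega
  have h4 : ((f.coeff 0 : ℤ) : ZMod q) = 0 := by simpa [coeff_map] using congrArg (coeff · 0) e
  have h5 : ∀ (R : Type) [CommRing R], zK f R = X * zK f.divX R + C (f.coeff 0 : R) := fun R _ => by
    conv_lhs => rw [← X_mul_divX_add f]
    simp [zK]
  have h6 : zK f.divX (ZMod q) = h :=
    mul_left_cancel₀ X_ne_zero (by rw [← e, h5 (ZMod q), h4, C_0, add_zero])
  obtain ⟨y, hy⟩ := hb.span x hx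
  obtain ⟨z, hz⟩ := hb.span _ (hS.zmul f.divX hx)
  have h7 : ∀ i, (T *ᵥ z) i = -f.coeff 0 * y i := fun i => by
    have a1 := Bas.aeval_comb hM.mul X fun i => z i
    have a2 := hb.ind (fun i => (mK T ℚ *ᵥ fun i => (z i : ℚ)) i + f.coeff 0 * y i) (by
      simp only [C_add, C_mul, add_mul, sum_add_distrib, mul_assoc, ← mul_sum]
      rw [aeval_X] at a1
      refine (dvd_sub (dvd_sub (dvd_sub (dvd_mul_right (zK f ℚ) x) (hz.mul_left X)) a1)
        (hy.mul_left (C (f.coeff 0 : ℚ)))).trans (dvd_of_eq ?_)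
      rw [h5 ℚ]
      ring)
    refine Int.cast_injective (α := ℚ) ?_
    simpa [mulVec, dotProduct, add_eq_zero_iff_eq_neg] using congrFun a2 i
  have h8 : z ⬝ᵥ A *ᵥ z = ta g f (r * f.divX ^ 2) := by
    refine Int.cast_injective (α := ℚ) ?_
    have a1 : ta g (zK f ℚ) (δ * (∑ i, C (z i : ℚ) * b i) * ∑ i, C (z i : ℚ) * b i) =
        (z ⬝ᵥ A *ᵥ z : ℤ) := by
      rw [mul_sum univ _ δ, sum_mul, ta_sum, dotProduct, Int.cast_sum]
      refine sum_congr rfl fun i _ => ?_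
      rw [mul_left_comm, mul_assoc, ta_C_mul, Bas.ta_comb hM.gram]
      simp [mulVec, dotProduct]
    rw [← a1]
    refine (ta_congr (hf.mo ℚ) ?_).trans (ta_map hf.monic (Int.castRingHom ℚ) _)
    refine (dvd_sub (hr.mul_right (zK f.divX ℚ ^ 2))
      (hz.mul_left (δ * (zK f.divX ℚ * x + ∑ i, C (z i : ℚ) * b i)))).trans (dvd_of_eq ?_)
    rw [Polynomial.map_mul, Polynomial.map_pow]
    ring
  refine ⟨mK T (ZMod q), (mK_mul A T).symm, by rw [charpoly_map, hR.ch], fun i => z i, s * t,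
    mul_ne_zero hs h3, funext fun i => ?_, ?_⟩
  · simpa [mulVec, dotProduct, h4] using congrArg (Int.cast (R := ZMod q)) (h7 i)
  · have a1 := ta_map (g := g) hf.monic (Int.castRingHom (ZMod q)) (r * f.divX ^ 2)
    have a2 : X ∣ zK r (ZMod q) * h - C ((s * t) ^ 2) := by
      rw [X_dvd_iff, coeff_zero_eq_eval_zero, eval_sub, eval_mul, eval_C, ht, eval_zero_map,
        eq_intCast, hrs]
      ring
    rw [← h8, ta_congr (hf.mo _) (Q := C ((s * t) ^ 2) * h) (by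
        rw [Polynomial.map_mul, Polynomial.map_pow, ← zK, ← zK, h6, e, sq h, ← mul_assoc, ← sub_mul]
        exact mul_dvd_mul_right a2 h), ta_C_mul, ta_of_lt (hf.mo _) (degree_lt_degree (by
        rw [h2, hf.dg]
        omega)), show h.coeff (2 * g) = 1 from h2 ▸ h1.coeff_natDegree, mul_one] at a1
    simpa [mulVec, dotProduct] using a1.symm

theorem bad : GRAMStmt → LATStmt → NBRStmt → BS1Stmt → BS2Stmt → STRStmt → MAJStmt → DSTStmt →
    BADStmt := by
  intro gram lat nbr bs1 bs2 str maj dst g f Q M ρ hf hQ hρ hθ hM h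
  obtain ⟨δ, Λ, h1, h2, h3, h4, h5⟩ : ∃ δ Λ, IsCoprime δ (zK f ℚ) ∧ IsSquare (Nm (zK f ℚ) δ) ∧
      SD f δ Λ ∧ (∀ q ∈ Q, Loc q f δ Λ) ∧
      (¬Sqm (zK f ℚ) δ ∨ δ = 1 ∧ ∃ p : ℕ, p.Prime ∧ M ≤ p ∧ Low g p Λ) := by
    rcases h with h | ⟨p, p1, p2, p3, p4, p5⟩
    · simp only [Str, not_forall] at h
      obtain ⟨δ, a1, a2, a3, a4, a5⟩ := h
      obtain ⟨Λ, b1, b2⟩ := lat g f Q δ hf hQ a3 a4
      exact ⟨δ, Λ, a1, a2, b1, b2, .inl a5⟩
    · obtain ⟨Λ, b1, b2, b3⟩ := nbr g p f hf p1 p2 p5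
      refine ⟨1, Λ, isCoprime_one_left, ?_, b1, fun q hq => ⟨_, b2, C ((p : ℤ) ^ 2), p,
        by simp [zK], fun c => p3 ?_, by simp⟩, .inr ⟨rfl, p, p1, p4, b3⟩⟩
      · rw [← C_1, (gram.1 ℚ _ (hf.mo ℚ)).2.2.1, one_pow]
        exact IsSquare.one
      · rwa [← (Nat.prime_dvd_prime_iff_eq (hQ q hq).1 p1).1 ((ZMod.natCast_eq_zero_iff p q).1 c)]
  obtain ⟨b, hb⟩ := bs1 g f δ Λ hf h1 h3
  obtain ⟨A, T, hT, hR⟩ := bs2 g f δ Λ b hf h1 h3 hb
  obtain ⟨H, hH⟩ := maj g f δ b A T ρ hf hT hR hθ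
  exact ⟨A, T, H, hR, fun q hq => str g q f δ Λ b A T hf (hQ q hq).1 (hQ q hq).2 h3 hb hT hR
    (h4 q hq), hH, dst g f δ Λ b A T H M ρ hf h1 h2 h3 hb hT hρ hH hM h5⟩

end Pool.Agent.MP_a43263_nt.UV

end
end MrgPart1

-- ======== part 2: formerly Pool.Agent.MP_a43263_nt.UC.Herm
section MrgPart2

/-! Row HERM: Hermite reduction of a positive definite form. -/

namespace Pool.Agent.MP_a43263_nt.UC

open Matrix Finset

namespace Herm

variable {n : ℕ}

/-- positive definite, in coordinates -/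
def PD (H : Matrix (Fin n) (Fin n) ℝ) : Prop := H.IsSymm ∧ ∀ x : Fin n → ℝ, x ≠ 0 → 0 < x ⬝ᵥ H *ᵥ x

theorem PD.nonneg {H : Matrix (Fin n) (Fin n) ℝ} (h : PD H) (x : Fin n → ℝ) : 0 ≤ x ⬝ᵥ H *ᵥ x := by
  by_cases e : x = 0
  · simp [e]
  · exact (h.2 x e).le

/-- Schur complement -/
noncomputable def sch (G : Matrix (Fin (n + 1)) (Fin (n + 1)) ℝ) : Matrix (Fin n) (Fin n) ℝ :=
  Matrix.of fun i j => G i.succ j.succ - G 0 i.succ * G 0 j.succ / G 0 0

theorem PD.pos {G : Matrix (Fin (n + 1)) (Fin (n + 1)) ℝ} (h : PD G) : 0 < G 0 0 := by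
  have := h.2 (Pi.single 0 1) (by simp)
  simpa using this

theorem sch_eq {G : Matrix (Fin (n + 1)) (Fin (n + 1)) ℝ} (h : PD G) (t : ℝ) (x : Fin n → ℝ) :
    (Fin.cons t x : Fin (n + 1) → ℝ) ⬝ᵥ G *ᵥ (Fin.cons t x) =
      G 0 0 * (t + (∑ j, G 0 j.succ * x j) / G 0 0) ^ 2 + x ⬝ᵥ sch G *ᵥ x := by
  have h0 := h.pos.ne'
  have hs : ∀ i : Fin n, G i.succ 0 = G 0 i.succ := fun i => h.1.apply _ _
  have e1 : x ⬝ᵥ sch G *ᵥ x = ∑ i, x i * ∑ j, G i.succ j.succ * x j -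
      (∑ j, G 0 j.succ * x j) * (∑ j, G 0 j.succ * x j) / G 0 0 := by
    rw [sum_mul_sum]
    simp only [sch, dotProduct, mulVec, of_apply, sub_mul, sum_sub_distrib, mul_sub,
      sum_div, mul_sum]
    congr 1
    refine sum_congr rfl fun i _ => sum_congr rfl fun j _ => ?_
    ring
  have e2 : (Fin.cons t x : Fin (n + 1) → ℝ) ⬝ᵥ G *ᵥ (Fin.cons t x) =
      t * (G 0 0 * t + ∑ j, G 0 j.succ * x j) + ((∑ j, G 0 j.succ * x j) * t +
        ∑ i, x i * ∑ j, G i.succ j.succ * x j) := by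
    have e3 : (∑ j, G 0 j.succ * x j) * t = ∑ j, x j * (G 0 j.succ * t) := by
      rw [sum_mul]
      refine sum_congr rfl fun i _ => ?_
      ring
    rw [e3]
    simp only [dotProduct, mulVec, Fin.sum_univ_succ, Fin.cons_zero, Fin.cons_succ, hs, mul_add,
      sum_add_distrib]
    ring
  rw [e1, e2]
  field_simp
  ring

theorem PD.sch {G : Matrix (Fin (n + 1)) (Fin (n + 1)) ℝ} (h : PD G) : PD (sch G) := by
  refine ⟨IsSymm.ext fun i j => ?_, fun x hx => ?_⟩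
  · simp only [Herm.sch, of_apply]
    rw [h.1.apply i.succ j.succ, mul_comm]
  · have := h.2 (Fin.cons (-((∑ j, G 0 j.succ * x j) / G 0 0)) x) fun e =>
      hx (funext fun i => by simpa using congrFun e i.succ)
    rw [sch_eq h] at this
    simpa using this

theorem sch_det {G : Matrix (Fin (n + 1)) (Fin (n + 1)) ℝ} (h : PD G) :
    G.det = G 0 0 * (sch G).det := by
  have h0 := h.pos.ne'
  have hs : ∀ i : Fin n, G i.succ 0 = G 0 i.succ := fun i => h.1.apply _ _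
  let B : Matrix (Fin (n + 1)) (Fin (n + 1)) ℝ :=
    Matrix.of (Fin.cons (G 0) fun i => Fin.cons 0 (sch G i))
  have e : G.det = B.det := by
    refine det_eq_of_forall_row_eq_smul_add_const
      (Fin.cons 0 fun i : Fin n => G 0 i.succ / G 0 0) 0 rfl fun i j => ?_
    refine Fin.cases ?_ (fun i => ?_) i
    · simp [B]
    · refine Fin.cases ?_ (fun j => ?_) j
      · simp [B, hs, h0]
      · simp only [B, of_apply, Fin.cons_succ, Fin.cons_zero, Herm.sch]
        ring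
  rw [e, det_succ_column_zero, Fin.sum_univ_succ]
  simp [B]
  left
  rfl

theorem cast_cons (t : ℤ) (x : Fin n → ℤ) :
    (fun i => (((Fin.cons t x : Fin (n + 1) → ℤ) i : ℤ) : ℝ)) =
      Fin.cons (t : ℝ) fun i => (x i : ℝ) := by
  funext i
  refine Fin.cases ?_ (fun i => ?_) i <;> simp

theorem low (n : ℕ) : ∀ H : Matrix (Fin n) (Fin n) ℝ, PD H →
    ∃ c : ℝ, 0 < c ∧ ∀ v : Fin n → ℤ, v ≠ 0 → c ≤ Hq H v := by
  induction n with
  | zero => exact fun H _ => ⟨1, one_pos, fun v hv => absurd (Subsingleton.elim _ _) hv⟩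
  | succ n ih =>
    intro G hG
    obtain ⟨c, hc, h⟩ := ih _ hG.sch
    refine ⟨min c (G 0 0), lt_min hc hG.pos, fun v hv => ?_⟩
    rw [← Fin.cons_self_tail v] at hv ⊢
    rw [Hq, cast_cons, sch_eq hG]
    by_cases e : Fin.tail v = 0
    · have h0 : v 0 ≠ 0 := fun e' => hv (by rw [e, e']; funext i; refine Fin.cases ?_ (fun i => ?_) i <;> simp)
      have h1 : (1 : ℝ) ≤ (v 0 : ℝ) ^ 2 := by
        have : (1 : ℤ) ≤ v 0 ^ 2 := (one_le_sq_iff_one_le_abs _).2 (Int.one_le_abs h0)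
        exact_mod_cast this
      simp only [e, Pi.zero_apply, Int.cast_zero, mul_zero, sum_const_zero, zero_div, add_zero]
      have h2 := hG.sch.nonneg fun _ => 0
      have h3 := hG.pos
      nlinarith [min_le_right c (G 0 0)]
    · have h1 := h _ e
      have h2 := mul_nonneg hG.pos.le
        (sq_nonneg ((v 0 : ℝ) + (∑ j, G 0 j.succ * (Fin.tail v j : ℝ)) / G 0 0))
      rw [Hq] at h1
      linarith [min_le_left c (G 0 0)]

/-- change of basis -/
noncomputable def cj (H : Matrix (Fin n) (Fin n) ℝ) (γ : Mz n) : Matrix (Fin n) (Fin n) ℝ :=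
  (γ.map (Int.castRingHom ℝ))ᵀ * H * γ.map (Int.castRingHom ℝ)

theorem cj_form (H : Matrix (Fin n) (Fin n) ℝ) (γ : Mz n) (x : Fin n → ℝ) :
    x ⬝ᵥ cj H γ *ᵥ x =
      (γ.map (Int.castRingHom ℝ) *ᵥ x) ⬝ᵥ H *ᵥ (γ.map (Int.castRingHom ℝ) *ᵥ x) := by
  rw [cj, ← mulVec_mulVec, ← mulVec_mulVec, dotProduct_mulVec, vecMul_transpose]

theorem cj_Hq (H : Matrix (Fin n) (Fin n) ℝ) (γ : Mz n) (x : Fin n → ℤ) :
    Hq (cj H γ) x = Hq H (γ *ᵥ x) := by
  have e : γ.map (Int.castRingHom ℝ) *ᵥ (fun i => (x i : ℝ)) = fun i => ((γ *ᵥ x) i : ℝ) := by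
    funext i
    simp [mulVec, dotProduct]
  rw [Hq, cj_form, e, Hq]

theorem det_sq {γ : Mz n} (h : IsUnit γ.det) :
    (γ.map (Int.castRingHom ℝ)).det * (γ.map (Int.castRingHom ℝ)).det = 1 := by
  rw [← RingHom.mapMatrix_apply, ← RingHom.map_det, ← map_mul, Int.isUnit_mul_self h, map_one]

theorem PD.cj {H : Matrix (Fin n) (Fin n) ℝ} (h : PD H) {γ : Mz n} (hγ : IsUnit γ.det) :
    PD (cj H γ) := by
  refine ⟨?_, fun x hx => ?_⟩
  · rw [IsSymm, Herm.cj, transpose_mul, transpose_mul, transpose_transpose, h.1.eq, mul_assoc]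
  · rw [cj_form]
    refine h.2 _ fun e => hx (eq_zero_of_mulVec_eq_zero (fun h0 => ?_) e)
    have := det_sq hγ
    rw [h0, mul_zero] at this
    exact zero_ne_one this

theorem cj_det (H : Matrix (Fin n) (Fin n) ℝ) {γ : Mz n} (hγ : IsUnit γ.det) :
    (cj H γ).det = H.det := by
  rw [cj, det_mul, det_mul, det_transpose, mul_right_comm, det_sq hγ, one_mul]

theorem perm_unit {γ : Mz n} (hγ : IsUnit γ.det) (σ : Equiv.Perm (Fin n)) :
    IsUnit (γ.submatrix id σ).det := by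
  rw [det_permute']
  exact (Units.isUnit _).mul hγ

theorem core (n : ℕ) : ∃ C : ℝ, 0 < C ∧ ∀ H : Matrix (Fin n) (Fin n) ℝ, PD H →
    ∃ γ : Mz n, IsUnit γ.det ∧ ∏ p, Hq H (γᵀ p) ≤ C * H.det := by
  induction n with
  | zero => exact ⟨1, one_pos, fun H _ => ⟨1, by simp, by simp⟩⟩
  | succ n ih =>
    obtain ⟨C, hC, ih⟩ := ih
    refine ⟨2 ^ n * C, by positivity, fun H hH => ?_⟩
    obtain ⟨c, hc, hlow⟩ := low _ H hH
    let S : Set ℝ := {s | ∃ γ : Mz (n + 1), IsUnit γ.det ∧ s = Hq H (γᵀ 0)}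
    have hne : S.Nonempty := ⟨_, 1, by simp, rfl⟩
    have hlb : ∀ s ∈ S, c ≤ s := by
      rintro _ ⟨γ, hγ, rfl⟩
      exact hlow _ fun e => hγ.ne_zero (det_eq_zero_of_column_eq_zero 0 fun i => congrFun e i)
    have hm : c ≤ sInf S := le_csInf hne hlb
    obtain ⟨_, ⟨γ₀, h₀, rfl⟩, hlt⟩ := exists_lt_of_csInf_lt hne
      (show sInf S < 2 * sInf S by linarith)
    have hmin : ∀ γ : Mz (n + 1), IsUnit γ.det → ∀ p, Hq H (γ₀ᵀ 0) ≤ 2 * Hq H (γᵀ p) := by
      intro γ hγ p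
      have := csInf_le ⟨c, hlb⟩ (show Hq H (γᵀ p) ∈ S from
        ⟨γ.submatrix id (Equiv.swap 0 p), perm_unit hγ _, by
          congr 1⟩)
      linarith
    have hG := hH.cj h₀
    obtain ⟨γ₁, h₁, hp⟩ := ih _ hG.sch
    set G := cj H γ₀ with hGd
    let t : Fin n → ℤ := fun p => -round ((∑ j, G 0 j.succ * (γ₁ᵀ p j : ℝ)) / G 0 0)
    let δ : Mz (n + 1) := Matrix.of (Fin.cons (Fin.cons 1 t) fun i => Fin.cons 0 (γ₁ i))
    have hδ : δ.det = γ₁.det := by
      rw [det_succ_column_zero, Fin.sum_univ_succ]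
      simp [δ]
      rfl
    have hu : IsUnit (γ₀ * δ).det := by
      rw [det_mul, hδ]
      exact h₀.mul h₁
    have hcol : ∀ p, Hq H ((γ₀ * δ)ᵀ p) = Hq G (δᵀ p) := fun p => by
      rw [hGd, cj_Hq]
      rfl
    have h00 : Hq H (γ₀ᵀ 0) = G 0 0 := by
      have e : γ₀ᵀ 0 = γ₀ *ᵥ Pi.single 0 1 := by
        funext i
        simp
      rw [e, ← cj_Hq, ← hGd, Hq]
      have e' : (fun i => (((Pi.single 0 1 : Fin (n + 1) → ℤ) i : ℤ) : ℝ)) = Pi.single 0 1 := by
        funext i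
        refine Fin.cases ?_ (fun i => ?_) i <;> simp
      rw [e']
      simp
    have hz : Hq H ((γ₀ * δ)ᵀ 0) = G 0 0 := by
      rw [← h00]
      congr 1
      funext i
      simp [δ, mul_apply, Fin.sum_univ_succ]
    have hs : ∀ p : Fin n, Hq H ((γ₀ * δ)ᵀ p.succ) ≤ 2 * Hq (sch G) (γ₁ᵀ p) := fun p => by
      have h2 := hmin _ hu p.succ
      have e : δᵀ p.succ = Fin.cons (t p) (γ₁ᵀ p) := by
        funext i
        refine Fin.cases ?_ (fun i => ?_) i <;> simp [δ]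
      have h3 : Hq H ((γ₀ * δ)ᵀ p.succ) ≤ G 0 0 / 4 + Hq (sch G) (γ₁ᵀ p) := by
        rw [hcol, e, Hq, cast_cons, sch_eq hG, Hq]
        have h4 := abs_sub_round ((∑ j, G 0 j.succ * (γ₁ᵀ p j : ℝ)) / G 0 0)
        have h5 : ((t p : ℝ) + (∑ j, G 0 j.succ * (γ₁ᵀ p j : ℝ)) / G 0 0) ^ 2 ≤ (1 / 2) ^ 2 := by
          rw [sq_le_sq, abs_of_pos (show (0 : ℝ) < 1 / 2 by norm_num)]
          simpa [t, neg_add_eq_sub] using h4
        nlinarith [hG.pos]
      rw [h00] at h2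
      linarith
    refine ⟨γ₀ * δ, hu, ?_⟩
    rw [Fin.prod_univ_succ, hz, ← cj_det H h₀, ← hGd, sch_det hG]
    have h6 : ∏ p : Fin n, Hq H ((γ₀ * δ)ᵀ p.succ) ≤ 2 ^ n * (C * (sch G).det) := by
      calc ∏ p : Fin n, Hq H ((γ₀ * δ)ᵀ p.succ) ≤ ∏ p : Fin n, 2 * Hq (sch G) (γ₁ᵀ p) :=
            prod_le_prod (fun p _ => hH.nonneg _) fun p _ => hs p
        _ = 2 ^ n * ∏ p : Fin n, Hq (sch G) (γ₁ᵀ p) := by simp [prod_mul_distrib]
        _ ≤ _ := by gcongr
    calc G 0 0 * ∏ p : Fin n, Hq H ((γ₀ * δ)ᵀ p.succ) ≤ G 0 0 * (2 ^ n * (C * (sch G).det)) :=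
          mul_le_mul_of_nonneg_left h6 hG.pos.le
      _ = _ := by ring

end Herm

open Herm in
theorem herm : HERMStmt := by
  intro n
  obtain ⟨C, hC, h⟩ := core n
  refine ⟨C, hC, fun H hH => ?_⟩
  obtain ⟨γ, hγ, hp⟩ := h H ⟨by
    have := hH.isHermitian.eq
    rwa [conjTranspose_eq_transpose_of_trivial] at this, fun x hx => by
    simpa using hH.dotProduct_mulVec_pos hx⟩
  let σ := Tuple.sort fun p => Hq H (γᵀ p)
  refine ⟨γ.submatrix id σ, (γ.submatrix id σ)⁻¹, mul_nonsing_inv _ (perm_unit hγ σ),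
    Tuple.monotone_sort fun p => Hq H (γᵀ p), ?_⟩
  rw [← Equiv.prod_comp σ] at hp
  exact hp

end Pool.Agent.MP_a43263_nt.UC

end MrgPart2

-- ======== part 3: formerly Pool.Agent.MP_a43263_nt.UM.Main
section MrgPart3

/-! Mordell-Weil for the Jacobian of `y ^ 2 = f(x)`, `f` monic, integral, separable, of odd
degree. -/

set_option autoImplicit false

noncomputable section

namespace Pool.Agent.MP_a43263_nt.UM

open Polynomial Finset Filter JC JM

variable {ι : Type} [Fintype ι] {g : ℕ} {a : ι → Qb} {f : ℚ[X]}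

theorem hgt (h0 : Sq g f) (cv : Cv g a (fK f Qb))
    (hi : ∀ (S : Sys) (p : Nat.Primes) i, S.w (some p) (a i) ≤ 1) :
    ∃ (h : CommRing.Pic (Rg f) → ℝ) (b : ℝ), (∀ P, 0 ≤ h P) ∧
      (∀ P Q, |h (P * Q) + h (P / Q) - 2 * (h P + h Q)| ≤ b) ∧ ∀ B : ℝ, {P | h P ≤ B}.Finite := by
  have ht := JM.ht JM.gau JM.sum
  have abs := JM.abs
  obtain ⟨S⟩ := JM.sys.1
  obtain ⟨κ, kp⟩ := exists_kq S cv.inj
  obtain ⟨mv, cn, co, ⟨T, hT, hT'⟩, fin⟩ := move h0
  obtain ⟨c1, tr⟩ := tri h0 cv kp (hi S) (2 * g + 1)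
  obtain ⟨c2, sy, z, dj, djn, up, dg⟩ := glob h0 cv kp (2 * g + 1)
  have mn : ∀ x, Mu f (2 * g + 1) x → Mu f (2 * g + 1) (nv x) := fun x h =>
    ⟨h.1, by simpa [nv] using h.2.1, h.2.2⟩
  have mo : Mu f (2 * g + 1) (1, 0) := ⟨monic_one, one_dvd _, by simp⟩
  obtain ⟨h, b, par, rep⟩ := abs (CommRing.Pic (Rg f)) {x // Mu f (2 * g + 1) x}
    (fun x => cx f x.1) (fun x => ⟨nv x.1, mn _ x.2⟩) (fun x y => IsCoprime x.1.1 y.1.1)
    (fun x y => be S g x.1 y.1) ⟨(1, 0), mo⟩ (max c1 c2) (fun _ _ h => h.symm) (fun _ _ h => h)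
    (fun x => cn _ _ x.2) co (fun _ => isCoprime_one_right) (fun x => z x.1)
    (fun x y => sy x.1 y.1)
    (fun P l => by
      obtain ⟨y, hy, cp, e⟩ := mv P (l.map fun x => x.1.1).prod (List.prod_ne_zero (by
        simp only [List.mem_map, not_exists, not_and]
        exact fun x _ => x.2.1.ne_zero))
      exact ⟨⟨y, hy⟩, e, fun x hx =>
        (cp.of_isCoprime_of_dvd_right (List.dvd_prod (List.mem_map_of_mem hx))).symm⟩)
    (fun x y₁ y₂ y₃ h₁ h₂ h₃ e => (neg_le_neg (le_max_left _ _)).trans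
      (tr _ _ _ _ x.2 y₁.2 y₂.2 y₃.2 e (dj _ _ h₁) (dj _ _ h₂) (dj _ _ h₃)))
    (fun x y h => (up _ _ x.2 y.2 h).trans (le_max_right _ _))
  have nc : ∀ B : ℝ, {P | h P ≤ B}.Finite := by
    intro B
    have fu : ∀ D : ℝ, {U : ℚ[X] | U.Monic ∧ U.natDegree ≤ g ∧ Ht S U ≤ D ∧
        IsCoprime U f}.Finite := fun D => (ht S g D).subset fun U hU => ⟨hU.1, hU.2.1, hU.2.2.1⟩
    refine (T.finite_toSet.biUnion fun t _ =>
      (fu ((B + h t + 2 * b + c1 + c2) / 2)).biUnion fun U hU =>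
        (fin U hU.1 hU.2.2.2).image (· * t)).subset fun P hP => ?_
    obtain ⟨t, tT, x, mx, cf, e⟩ := hT' P
    have mx' : Mu f (2 * g + 1) x := ⟨mx.1, mx.2.1, mx.2.2.trans (by omega)⟩
    obtain ⟨y, my, cp, ey⟩ := mv (cx f x) x.1 mx.1.ne_zero
    have k1 := abs_le.1 (par P t)
    have e1 : P * t = cx f x := by rw [e, mul_assoc, hT t tT, mul_one]
    have e2 : P / t = cx f x := by rw [e, mul_div_cancel_right]
    rw [e1, e2] at k1
    have k2 := abs_le.1 (rep ⟨x, mx'⟩ ⟨y, my⟩ cp.symm ey.symm)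
    have k3 := tr x (nv x) y (1, 0) mx' (mn _ mx') my mo
      (by rw [cn _ _ mx', ey, co, inv_mul_cancel, one_mul]) (djn x mx' cf) (dj _ _ cp.symm)
      (dj _ _ isCoprime_one_right)
    have k4 := dg x mx cf
    have b0 : 0 ≤ b := (abs_nonneg _).trans (par 1 1)
    rw [z] at k3
    simp only [Set.mem_iUnion]
    refine ⟨t, tT, x.1, ⟨mx.1, mx.2.2, ?_, cf⟩, cx f x, ⟨x.2, mx.2.1, rfl⟩, e.symm⟩
    have hP' : h P ≤ B := hP
    simp only at k2
    linarith [k1.2, k2.1]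
  obtain ⟨m, hm⟩ := ((nc (h 1)).image h).bddBelow
  have lo : ∀ P, m ≤ h P := fun P => by
    by_cases c : h P ≤ h 1
    · exact hm ⟨P, c, rfl⟩
    · exact (hm ⟨1, le_refl (h 1), rfl⟩).trans (not_le.1 c).le
  refine ⟨fun P => h P - m, b + 2 * |m|, fun P => sub_nonneg.2 (lo P), fun P Q => ?_, fun B => ?_⟩
  · have k := abs_le.1 (par P Q)
    rw [abs_le]
    constructor <;> linarith [k.1, k.2, neg_abs_le m, le_abs_self m]
  · exact (nc (B + m)).subset fun P (hP : h P - m ≤ B) => show h P ≤ B + m by linarith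

/-- the roots of a separable polynomial -/
theorem exists_cv {K : Type} [Field K] [IsAlgClosed K] {F : K[X]} (hg : 1 ≤ g) (mo : F.Monic)
    (dg : F.natDegree = 2 * g + 1) (sp : F.Separable) :
    ∃ a : Fin (2 * g + 1) → K, Cv g a F := by
  classical
  have c : Fintype.card F.roots.toFinset = 2 * g + 1 := by
    rw [Fintype.card_coe, Multiset.toFinset_card_of_nodup (nodup_roots sp),
      IsAlgClosed.card_roots_eq_natDegree, dg]
  let e := Fintype.equivFinOfCardEq c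
  refine ⟨fun i => e.symm i, Fintype.card_fin _, hg,
    Subtype.val_injective.comp e.symm.injective, ?_⟩
  rw [fp, Equiv.prod_comp e.symm fun x : F.roots.toFinset => X - C (x : K),
    prod_coe_sort F.roots.toFinset fun x => X - C x, prod_eq_multiset_prod,
    Multiset.toFinset_val, (nodup_roots sp).dedup]
  exact (IsAlgClosed.splits F).eq_prod_roots_of_monic mo

/-- roots of monic integral polynomials are integral at the finite places -/
theorem int_le (S : Sys) (p : Nat.Primes) {f : ℤ[X]} (mo : f.Monic) {x : Qb}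
    (hx : (f.map (Int.castRingHom Qb)).eval x = 0) : S.w (some p) x ≤ 1 := by
  by_contra c
  have c := not_le.1 c
  rw [eval_eq_sum_range, natDegree_map_eq_of_injective Int.cast_injective, sum_range_succ,
    coeff_map, mo.coeff_natDegree, map_one, one_mul] at hx
  rcases Nat.eq_zero_or_pos f.natDegree with z | z
  · simp [z] at hx
  have k := (SysAux.tri_na (S.na p) le_rfl).sum (b := S.w (some p) x ^ (f.natDegree - 1))
    (by positivity) (range f.natDegree) (fun i => (f.map (Int.castRingHom Qb)).coeff i * x ^ i)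
    fun i hi => by
      rw [map_mul, map_pow, coeff_map]
      exact (mul_le_of_le_one_left (by positivity) (SysAux.int_le S p _)).trans
        (pow_le_pow_right₀ c.le (by have := mem_range.1 hi; omega))
  rw [eq_neg_of_add_eq_zero_left hx, AbsoluteValue.map_neg, map_pow, one_pow, one_mul] at k
  exact absurd k (not_le.2 (pow_lt_pow_right₀ c (by omega)))

/-- extension of scalars on classes -/
abbrev up (f : ℚ[X]) : CommRing.Pic (Rg f) →* CommRing.Pic (Rg (fK f Qb)) :=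
  CommRing.Pic.mapRingHom (rmap (Rat.castHom Qb) rfl)

theorem up_inj (h : Sq g f) (h' : Sq g (fK f Qb)) : Function.Injective (up f) := by
  intro x y e
  obtain ⟨U, V, hU, rfl⟩ := (red h).1 x
  obtain ⟨U', V', hU', rfl⟩ := (red h).1 y
  rw [cl_map h h' _ rfl hU.1 hU.2.1, cl_map h h' _ rfl hU'.1 hU'.2.1] at e
  obtain ⟨e1, e2⟩ := (red h').2 _ _ _ _ (RatA.red_map _ rfl hU) (RatA.red_map _ rfl hU') e
  rw [Polynomial.map_injective _ (Rat.castHom Qb).injective e1,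
    Polynomial.map_injective _ (Rat.castHom Qb).injective e2]

theorem up_surj (h : Sq g f) (h' : Sq g (fK f Qb)) (P : JQ f) :
    ∃ x, up f x = Additive.toMul P.1 := by
  have ec : ∀ φ : ℚ →+* Qb, φ = Rat.castHom Qb := fun φ => RingHom.ext_rat _ _
  obtain ⟨U, V, hU, e⟩ := rat h' (congrArg (fun φ => f.map φ) (ec _)) (Additive.toMul P.1)
    fun σ _ => congrArg Additive.toMul (P.2 σ)
  refine ⟨cl (MI f U V), ?_⟩
  rw [cl_map h h' _ rfl hU.1 hU.2.1, ← e]
  exact congrArg (fun φ => cl (MI (fK f Qb) (U.map φ) (V.map φ))) (ec _).symm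

theorem mwU (g : ℕ) (f : ℤ[X]) (hg : 1 ≤ g) (mo : f.Monic) (dg : f.natDegree = 2 * g + 1)
    (sp : (f.map (Int.castRingHom ℚ)).Separable)
    (hi : (nsmulAddMonoidHom 2 : JQ (f.map (Int.castRingHom ℚ)) →+ _).range.index ≠ 0) :
    AddGroup.FG (JQ (f.map (Int.castRingHom ℚ))) := by
  have h : Sq g (f.map (Int.castRingHom ℚ)) :=
    ⟨mo.map _, (mo.natDegree_map _).trans dg, sp.squarefree⟩
  obtain ⟨a, cv⟩ := exists_cv (F := fK (f.map (Int.castRingHom ℚ)) Qb) hg (h.mo.map _)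
    ((h.mo.natDegree_map _).trans h.dg) sp.map
  have h' := Sq.of_cv cv
  obtain ⟨ht, b, h0, hp, hn⟩ := hgt h cv fun S p i => int_le S p mo (by
    have e : f.map (Int.castRingHom Qb) = fp a := by
      rw [← cv.eq, fK, Polynomial.map_map]
      congr 1
    rw [e, fp, eval_prod]
    exact prod_eq_zero (mem_univ i) (by simp))
  have inj := up_inj h h'
  choose s hs using up_surj h h'
  have s1 : ∀ P Q, s (P + Q) = s P * s Q := fun P Q => inj (by rw [map_mul, hs, hs, hs]; rfl)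
  have s2 : ∀ P Q, s (P - Q) = s P / s Q := fun P Q => inj (by rw [_root_.map_div, hs, hs, hs]; rfl)
  have si : Function.Injective s := fun P Q e =>
    Subtype.ext (Additive.toMul.injective (by rw [← hs, ← hs, e]))
  have : Northcott fun P => ht (s P) := ⟨fun B => (hn B).preimage si.injOn⟩
  exact AddCommGroup.fg_of_descent' (h := fun P => ht (s P)) (C := b) ⟨hi⟩ (fun P => h0 _)
    fun P Q => by rw [s1, s2]; exact hp _ _

/-- a finitely generated group that is divisible by two is finite of odd order -/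
theorem finite_odd {A : Type} [AddCommGroup A] (fg : AddGroup.FG A)
    (h : (nsmulAddMonoidHom 2 : A →+ A).range.index = 1) : Finite A ∧ Odd (Nat.card A) := by
  have su : Function.Surjective (nsmulAddMonoidHom 2 : A →+ A) :=
    AddMonoidHom.range_eq_top.1 (AddSubgroup.index_eq_one.1 h)
  have := Module.Finite.iff_addGroup_fg.2 fg
  have inj : Function.Injective (nsmulAddMonoidHom 2 : A →+ A) :=
    OrzechProperty.injective_of_surjective_endomorphism
      (nsmulAddMonoidHom 2 : A →+ A).toIntLinearMap su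
  obtain ⟨n, h2, h3⟩ := Two.index_two fg
  have c1 : Nat.card {P : A // 2 • P = 0} = 1 :=
    Nat.card_eq_one_iff_unique.2 ⟨⟨fun x y => Subtype.ext (inj (x.2.trans y.2.symm))⟩, ⟨0, by simp⟩⟩
  rw [h, c1, mul_one, eq_comm, Nat.pow_eq_one] at h3
  obtain rfl : n = 0 := by omega
  have fin : Finite A := Module.finite_of_fg_torsion A (Module.rank_eq_zero_iff_isTorsion.1 h2)
  refine ⟨fin, Nat.not_even_iff_odd.1 fun e => ?_⟩
  have : Fact (Nat.Prime 2) := ⟨Nat.prime_two⟩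
  obtain ⟨x, hx⟩ := exists_prime_addOrderOf_dvd_card' (G := A) 2 e.two_dvd
  have x0 : x = 0 := inj (by simp [← hx])
  simp [x0] at hx

/-- if all rational points are divisible by two, there are finitely many, and an odd number -/
theorem finU (g : ℕ) (f : ℤ[X]) (hg : 1 ≤ g) (mo : f.Monic) (dg : f.natDegree = 2 * g + 1)
    (sp : (f.map (Int.castRingHom ℚ)).Separable)
    (hi : ∀ P : JQ (f.map (Int.castRingHom ℚ)), ∃ R, 2 • R = P) :
    Finite (JQ (f.map (Int.castRingHom ℚ))) ∧ Odd (Nat.card (JQ (f.map (Int.castRingHom ℚ)))) :=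
  have e : (nsmulAddMonoidHom 2 : JQ (f.map (Int.castRingHom ℚ)) →+ _).range.index = 1 :=
    AddSubgroup.index_eq_one.2 (AddMonoidHom.range_eq_top.2 hi)
  finite_odd (mwU g f hg mo dg sp (e ▸ one_ne_zero)) e

end Pool.Agent.MP_a43263_nt.UM

end
end MrgPart3

-- ======== part 4: formerly Pool.Agent.MP_a43263_nt.UM.Desc
section MrgPart4

/-! The 2-descent for `y ^ 2 = f(x)` with `f` separable of odd degree, not necessarily split. -/

set_option autoImplicit false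

noncomputable section

namespace Pool.Agent.MP_a43263_nt.UM

open Polynomial Finset JC JC.Sha

/-- `de` is, up to squares modulo `f`, the image under the 2-descent map of an effective divisor
`U(x) = 0, y = V(x)` of the curve `y ^ 2 = f(x)` that avoids the Weierstrass points -/
def Tw {K : Type} [Field K] (f de : K[X]) : Prop := ∃ U V z : K[X], U.Monic ∧ U ∣ f - V ^ 2 ∧
  IsCoprime U f ∧ f ∣ de * C ((-1) ^ U.natDegree) * U - z ^ 2

/-- the 2-Selmer group is trivial -/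
def Sel0 (f : ℚ[X]) : Prop := ∀ de : ℚ[X], IsCoprime de f → Tw (fK f ℝ) (fK de ℝ) →
  (∀ (p : ℕ) [Fact p.Prime], Tw (fK f ℚ_[p]) (fK de ℚ_[p])) → ∃ s, f ∣ de - s ^ 2

variable {ι : Type} [Fintype ι] {g : ℕ} {f : ℚ[X]}

section poly

variable {K L : Type} [Field K] [Field L]

theorem root_iff {a : ι → K} {F : K[X]} (h : Cv g a F) (t : K) : F.eval t = 0 ↔ ∃ i, t = a i := by
  simp [h.eq, fp, eval_prod, prod_eq_zero_iff, sub_eq_zero]

theorem dvd_of_roots {b : ι → L} (φ : K →+* L) {F p : K[X]} (h : Cv g b (F.map φ))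
    (e : ∀ i, (p.map φ).eval (b i) = 0) : F ∣ p := by
  rw [← map_dvd_map' φ, h.eq, fp]
  exact Fintype.prod_dvd_of_coprime (pairwise_coprime_X_sub_C h.inj) fun i => dvd_iff_isRoot.2 (e i)

theorem cop_iff [IsAlgClosed L] [Algebra K L] {b : ι → L} {F p : K[X]}
    (h : Cv g b (F.map (algebraMap K L))) :
    IsCoprime p F ↔ ∀ i, (p.map (algebraMap K L)).eval (b i) ≠ 0 := by
  rw [isCoprime_iff_aeval_ne_zero_of_isAlgClosed K L]
  simp only [← eval_map_algebraMap, ne_eq, root_iff h]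
  refine ⟨fun k i => (k (b i)).resolve_right fun c => c ⟨i, rfl⟩, fun k t => ?_⟩
  by_cases c : ∃ i, t = b i
  · obtain ⟨i, rfl⟩ := c
    exact Or.inl (k i)
  · exact Or.inr c

/-- an equivariant vector is given by a polynomial over the ground field -/
theorem interp [CharZero K] {b z : ι → AlgebraicClosure K} (hb : Function.Injective b)
    (h : ∀ σ : AlgebraicClosure K ≃ₐ[K] AlgebraicClosure K, ∃ π : ι → ι,
      ∀ i, σ (b i) = b (π i) ∧ σ (z i) = z (π i)) :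
    ∃ p : K[X], ∀ i, (p.map (algebraMap K _)).eval (b i) = z i := by
  classical
  have ev : ∀ i, (Lagrange.interpolate univ b z).eval (b i) = z i := fun i =>
    Lagrange.eval_interpolate_at_node z hb.injOn (mem_univ i)
  have dg := Lagrange.degree_interpolate_lt (s := univ) z hb.injOn
  obtain ⟨p, hp⟩ := RatA.lift (U := Lagrange.interpolate univ b z) fun σ => by
    obtain ⟨π, hπ⟩ := h σ
    have su : Function.Surjective π := Finite.surjective_of_injective fun i j e =>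
      hb (σ.injective (by rw [(hπ i).1, (hπ j).1, e]))
    refine Lagrange.eq_interpolate_of_eval_eq z hb.injOn (by rwa [degree_map]) fun i _ => ?_
    obtain ⟨j, rfl⟩ := su i
    rw [← (hπ j).1, ← (hπ j).2, ← ev j, eval_map]
    exact eval₂_at_apply (σ : AlgebraicClosure K →+* AlgebraicClosure K) (b j)
  exact ⟨p, fun i => hp ▸ ev i⟩

end poly

omit [Fintype ι] in
/-- Hilbert 90 for a permutation module -/
theorem h90p (π : GQ → ι → ι) (p1 : ∀ i, π 1 i = i) (pm : ∀ σ τ i, π (σ * τ) i = π σ (π τ i))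
    (u : GQ → ι → Qbar) (u2 : ∀ σ i, u σ i ^ 2 = 1)
    (um : ∀ σ τ i, u (σ * τ) (π σ i) = u σ (π σ i) * u τ i)
    (L : IntermediateField ℚ Qbar) [FiniteDimensional ℚ L]
    (hL : ∀ σ ∈ L.fixingSubgroup, ∀ i, u σ i = 1) :
    ∃ r : ι → Qbar, ∀ i, r i ≠ 0 ∧ ∀ σ : GQ, σ (r i) = u σ (π σ i) * r (π σ i) := by
  classical
  let _ : MulAction GQ ι := { smul := π, one_smul := p1, mul_smul := pm }
  have sm : ∀ (σ : GQ) (i : ι), σ • i = π σ i := fun _ _ => rfl
  have u0 : ∀ σ i, u σ i ≠ 0 := fun σ i => ne_of_sq (u2 σ i) one_ne_zero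
  have fx : ∀ (σ τ : GQ) i, σ (u τ i) = u τ i := fun σ τ i => map_sign (σ : Qbar →+* Qbar) (u2 τ i)
  choose β hβ hβ' using fun i => h90 (MulAction.stabilizer GQ i) (fun σ => u σ i)
    (fun σ _ => u0 σ i) (fun σ hσ τ _ => by
      have := um σ τ i
      rw [← sm, MulAction.mem_stabilizer_iff.1 hσ] at this
      rw [this, fx]) L fun σ _ hσ => hL σ hσ i
  let o : ι → ι := fun i => (Quotient.mk (MulAction.orbitRel GQ ι) i).out
  have ex : ∀ i, ∃ σ : GQ, π σ (o i) = i := fun i =>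
    (MulAction.orbitRel GQ ι).symm (Quotient.mk_out (s := MulAction.orbitRel GQ ι) i)
  have oo : ∀ σ i, o (π σ i) = o i := fun σ i =>
    congrArg Quotient.out (Quotient.sound (s := MulAction.orbitRel GQ ι) ⟨σ, rfl⟩)
  choose s hs using ex
  refine ⟨fun i => s i (β (o i)) * u (s i) i, fun i => ⟨mul_ne_zero
    ((_root_.map_ne_zero _).2 (hβ _)) (u0 _ _), fun σ => ?_⟩⟩
  set t := π σ i
  have ht : π (s t) (o i) = t := by rw [← oo σ i, hs]
  have st : (s t)⁻¹ * (σ * s i) ∈ MulAction.stabilizer GQ (o i) := by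
    rw [MulAction.mem_stabilizer_iff, mul_smul, mul_smul, inv_smul_eq_iff, sm, sm, sm, hs, ht]
  have e1 := congrArg (s t) (hβ' _ _ st)
  have e2 := um (s t) ((s t)⁻¹ * (σ * s i)) (o i)
  have e3 := um σ (s i) i
  rw [mul_inv_cancel_left, ht] at e2
  rw [← AlgEquiv.mul_apply, mul_inv_cancel_left, AlgEquiv.mul_apply, map_mul, fx] at e1
  have ot : o t = o i := oo σ i
  rw [map_mul, fx, e1]
  simp only [ot]
  have k1 := u2 σ t
  have k2 := u2 (s t) t
  have k3 : u σ t * u (s i) i = u (s t) t * u ((s t)⁻¹ * (σ * s i)) (o i) := e3.symm.trans e2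
  generalize u ((s t)⁻¹ * (σ * s i)) (o i) = x at *
  have k4 := u2 (s i) i
  have k5 : x * u (s i) i = u σ t * u (s t) t := by
    linear_combination (-(u (s t) t * u (s i) i)) * k3 + (u σ t * u (s t) t) * k4 -
      (x * u (s i) i) * k2
  linear_combination (s t (β (o i))) * k5

section z

variable {K L : Type} [Field K] [CharZero K] [Field L] [CharZero L] {a : ι → K}
variable (h : Cv g a (fK f K))
variable {R R' : Jac f K} {D : Ideal (Rg (fK f K))} {ρ ρ' : ι → K}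

include h

theorem z_map (φ : K →+* L) {b η : ι → L} (z : Z a _ R.toMul D ρ)
    (e : ∀ i, ∃ j, b i = φ (a j) ∧ η i = φ (ρ j)) :
    Z b _ (jmap f φ R).toMul (D.map (rmap φ (fK_map _ φ))) η := by
  obtain ⟨E, u, h₁, h₂, k1, k2, k3, k4, k5, k6⟩ :=
    (JC.T.zed K ι g _ _ h).2.2.2.2.2 L φ _ (fK_map _ φ) _ _ _ z
  refine ⟨E, u, h₁, h₂, k1, k2, k3, k4, k5, fun i => ?_⟩
  obtain ⟨j, e1, e2⟩ := e i
  rw [e1, e2]
  exact k6 j

theorem z_sub (z : Z a _ R.toMul D ρ) (z' : Z a _ R'.toMul D ρ') :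
    Z a _ (R' - R).toMul ⊤ fun i => ρ' i / ρ i :=
  (JC.T.zed K ι g _ _ h).2.2.2.1 _ _ _ _ _ z z'

theorem z_add (z : Z a _ R.toMul D ρ) (z' : Z a _ R'.toMul ⊤ ρ') :
    Z a _ (R + R').toMul D fun i => ρ i * ρ' i := by
  have := (JC.T.zed K ι g _ _ h).2.2.1 _ _ _ _ _ _ z z'
  rw [Ideal.mul_top] at this
  exact this

theorem z_unique (z : Z a _ R.toMul D ρ) (z' : Z a _ R.toMul D ρ') (i : ι) : ρ' i = ρ i := by
  have := z_sub h z z'
  rw [sub_self] at this
  exact eq_of_div_eq_one (((JC.T.zed K ι g _ _ h).2.2.2.2.1 _).1 this i)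

theorem z_top (z : Z a _ R.toMul ⊤ ρ) : 2 • R = 0 ∧ ∀ i, ρ i ^ 2 = 1 := by
  have hd := (JC.mum K ι g _ _ h).1.2.2.2
  have := (JC.T.zed K ι g _ _ h).1 _ _ _ _ z (JC.mum K ι g _ _ h).2.2.2.2.2.2.2.2.2.2.2.1
  exact ⟨congrArg Additive.ofMul (this.1.trans (JC.pic.1 _).2.1), fun i => by
    simpa [nb] using this.2 i⟩

theorem z_inj (z : Z a _ R.toMul ⊤ ρ) (z' : Z a _ R'.toMul ⊤ ρ) : R' = R :=
  sub_eq_zero.1 (((JC.T.zt K ι g _ _ h).1 _ _ (z_sub h z z')).2 fun i =>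
    div_self (ne_of_sq ((z_top h z).2 i) one_ne_zero))

theorem z_mum {U V : K[X]} (h1 : U.Monic) (h2 : U ∣ fK f K - V ^ 2) (h3 : ∀ i, U.eval (a i) ≠ 0)
    (hR : R.toMul ^ 2 = cl (MI _ U V)) :
    ∃ ρ, Z a _ R.toMul (MI _ U V) ρ ∧ ∀ i, ρ i ^ 2 = nb U (a i) := by
  have hn := (JC.mum K ι g _ _ h).2.2.2.2.2.2.2.2.2.1 U V h1 h2
  obtain ⟨ρ, z⟩ := (JC.T.zed K ι g _ _ h).2.1 _ _ _ hn h3 hR
  exact ⟨ρ, z, ((JC.T.zed K ι g _ _ h).1 _ _ _ _ z hn).2⟩

theorem z_ex (hR : 2 • R = 0) : ∃ ρ, Z a _ R.toMul ⊤ ρ := by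
  have hd := (JC.mum K ι g _ _ h).1.2.2.2
  exact (JC.T.zed K ι g _ _ h).2.1 _ _ _ (JC.mum K ι g _ _ h).2.2.2.2.2.2.2.2.2.2.2.1
    (fun i => by simp) ((congrArg Additive.toMul hR).trans (JC.pic.1 _).2.1.symm)

end z

theorem cvL {K L : Type} [Field K] [CharZero K] [Field L] [CharZero L] {a : ι → K}
    (h : Cv g a (fK f K)) (φ : K →+* L) : Cv g (fun i => φ (a i)) (fK f L) :=
  RatA.cv_map h φ (fK_map f φ)

section main

variable {a : ι → Qbar} (h : Cv g a (fK f Qbar))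

include h

theorem exists_perm : ∃ π : GQ → ι → ι, (∀ σ i, σ (a i) = a (π σ i)) ∧ (∀ i, π 1 i = i) ∧
    ∀ σ τ i, π (σ * τ) i = π σ (π τ i) := by
  have : ∀ (σ : GQ) i, ∃ j, σ (a i) = a j := fun σ i =>
    (root_iff h _).1 ((root_iff (cvL h (σ : Qbar →+* Qbar)) _).2 ⟨i, rfl⟩)
  choose π hπ using this
  exact ⟨π, hπ, fun i => h.inj (hπ 1 i).symm, fun σ τ i => h.inj (by
    rw [← hπ, ← hπ, ← hπ, AlgEquiv.mul_apply])⟩

theorem stab (R : Jac f Qbar) : IsLocallyConstant fun σ => jac f σ R := by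
  have h' := Sq.of_cv h
  obtain ⟨U, V, hr, e⟩ := (red h').1 R.toMul
  have k : ∀ σ : GQ, jac f σ R = Additive.ofMul
      (cl (MI _ (U.map (σ : Qbar →+* Qbar)) (V.map (σ : Qbar →+* Qbar)))) := fun σ => by
    rw [← cl_map h' h' _ (fK_map _ _) hr.1 hr.2.1, e]
    rfl
  refine (IsLocallyConstant.iff_eventually_eq _).2 fun σ0 => ?_
  filter_upwards [RatA.ev_map σ0 U, RatA.ev_map σ0 V] with σ h1 h2
  rw [k, k, h1, h2]

theorem loc (h0 : Sq g f) {π : GQ → ι → ι} (hπ : ∀ σ i, σ (a i) = a (π σ i))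
    (su : ∀ σ, Function.Surjective (π σ)) {c : GQ → Jac f Qbar} {u : GQ → ι → Qbar}
    (hu : ∀ σ, Z a _ (c σ).toMul ⊤ (u σ)) {r : ι → Qbar}
    (hr : ∀ (σ : GQ) i, σ (r i) = u σ (π σ i) * r (π σ i)) {de : ℚ[X]}
    (hd : ∀ i, (fK de Qbar).eval (a i) = r i ^ 2) (K : Type) [Field K] [CharZero K]
    (hK : JLoc f K c) : Tw (fK f K) (fK de K) := by
  obtain ⟨R, hR⟩ := hK
  have hb := cvL h (emb K)
  have sb := Sq.of_cv hb
  have sK : Sq g (fK f K) := ⟨h0.mo.map _, (h0.mo.natDegree_map _).trans h0.dg,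
    (PerfectField.separable_iff_squarefree.2 h0.sf).map.squarefree⟩
  have eF := fK_map f (algebraMap K (AlgebraicClosure K))
  obtain ⟨U0, V0, hr0, hP⟩ := rat sb eF (2 • R).toMul fun σ e => by
    obtain ⟨τ, hτ⟩ := exists_res K σ
    have : jmap f (σ : AlgebraicClosure K →+* AlgebraicClosure K) (2 • R) = 2 • R := by
      rw [map_nsmul, ← sub_eq_zero, ← smul_sub, ← hR σ τ hτ, ← map_nsmul, (z_top h (hu τ)).1,
        map_zero]
    exact congrArg Additive.toMul this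
  obtain ⟨⟨U, V⟩, hm, cp, e0⟩ := (move sK).1 (cl (MI _ U0 V0)) _ sK.mo.ne_zero
  have hP' : cl (MI _ (U.map (algebraMap K _)) (V.map (algebraMap K _))) = (2 • R).toMul := by
    rw [← hP, ← cl_map sK sb _ eF hm.1 hm.2.1, ← cl_map sK sb _ eF hr0.1 hr0.2.1, ← e0]
    rfl
  have hb' := eF.symm ▸ hb
  obtain ⟨ρ, z, hρ⟩ := z_mum hb (R := R) (hm.1.map _) ((RatA.dvd_map _ eF).2 hm.2.1)
    ((cop_iff hb').1 cp) hP'.symm
  obtain ⟨p, hp⟩ := interp (z := fun i => ρ i * emb K (r i)) hb.inj fun σ => by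
    obtain ⟨τ, hτ⟩ := exists_res K σ
    choose s hs using su τ
    refine ⟨π τ, fun i => ⟨by rw [← hτ, hπ], ?_⟩⟩
    have h1 := z_map h (emb K) (η := fun i => emb K (u τ i)) (hu τ) fun i => ⟨i, rfl, rfl⟩
    rw [Ideal.map_top, hR σ τ hτ] at h1
    have h3 := z_map hb (σ : AlgebraicClosure K →+* AlgebraicClosure K)
      (b := fun i => emb K (a i)) (η := fun i => σ (ρ (s i))) z fun i =>
        ⟨s i, by rw [RingHom.coe_coe, ← hτ, hπ, hs], rfl⟩
    have e : (σ : AlgebraicClosure K →+* AlgebraicClosure K).comp (algebraMap K _) =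
        algebraMap K _ := RingHom.ext σ.commutes
    rw [mi_map, Polynomial.map_map, Polynomial.map_map, e] at h3
    have h4 := z_unique hb h1 (z_sub hb z h3) (π τ i)
    have n : ρ (π τ i) ≠ 0 := ne_of_sq (hρ _) (mul_ne_zero (by simp) ((cop_iff hb').1 cp _))
    have e2 : s (π τ i) = i := h.inj (τ.injective (by rw [hπ, hπ, hs]))
    have e3 : emb K (u τ (π τ i)) ^ 2 = 1 := by rw [← map_pow, (z_top h (hu τ)).2, map_one]
    rw [e2, div_eq_iff n] at h4
    rw [map_mul, h4, ← hτ, hr, map_mul]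
    linear_combination (ρ (π τ i) * emb K (r (π τ i))) * e3
  refine ⟨U, V, p, hm.1, hm.2.1, cp, dvd_of_roots (algebraMap K _) hb' fun i => ?_⟩
  have e1 := hρ i
  have e2 : (fK de (AlgebraicClosure K)).eval (emb K (a i)) = emb K (r i) ^ 2 := by
    rw [← fK_map de (emb K), eval_map, eval₂_at_apply, hd, map_pow]
  rw [nb, natDegree_map] at e1
  simp only [Polynomial.map_sub, Polynomial.map_mul, Polynomial.map_pow, fK_map, eval_sub,
    eval_mul, eval_pow, hp, e2, map_pow, map_neg, map_one, Polynomial.map_neg,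
    Polynomial.map_one, eval_neg, eval_one]
  linear_combination (-emb K (r i) ^ 2) * e1

theorem core (h0 : Sq g f) (H : Sel0 f) {c : GQ → Jac f Qbar} (hc : c ∈ Z1 (jac f))
    (h2 : ∀ σ, 2 • c σ = 0) (hr : JLoc f ℝ c) (hp : ∀ (p : ℕ) [Fact p.Prime], JLoc f ℚ_[p] c) :
    ∃ T, 2 • T = 0 ∧ ∀ σ, c σ = jac f σ T - T := by
  obtain ⟨π, hπ, p1, pm⟩ := exists_perm h
  have iv : ∀ σ i, π σ (π σ⁻¹ i) = i := fun σ i => by rw [← pm, mul_inv_cancel, p1]
  have iv' : ∀ σ i, π σ⁻¹ (π σ i) = i := fun σ i => by rw [← pm, inv_mul_cancel, p1]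
  choose u hu using fun σ => z_ex h (h2 σ)
  have u2 := fun σ => (z_top h (hu σ)).2
  have act : ∀ (σ : GQ) {T : Jac f Qbar} {η : ι → Qbar}, Z a _ T.toMul ⊤ η →
      Z a _ (jac f σ T).toMul ⊤ fun i => η (π σ⁻¹ i) := fun σ T η z => by
    have := z_map h (σ : Qbar →+* Qbar) (b := a) (η := fun i => η (π σ⁻¹ i)) z fun i =>
      ⟨π σ⁻¹ i, by rw [RingHom.coe_coe, hπ, iv], (map_sign _ ((z_top h z).2 _)).symm⟩
    rwa [Ideal.map_top] at this
  have um : ∀ σ τ i, u (σ * τ) (π σ i) = u σ (π σ i) * u τ i := fun σ τ i => by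
    have h1 := z_add h (hu σ) (act σ (hu τ))
    rw [← hc.2] at h1
    rw [z_unique h h1 (hu _), iv']
  obtain ⟨L, hL, hL'⟩ := exists_level c hc.1
  obtain ⟨r, hr'⟩ := h90p π p1 pm u u2 um L fun σ hσ i => by
    have e := um 1 1 i
    rw [mul_one, p1] at e
    have k := hu σ
    rw [hL' σ hσ] at k
    rw [z_unique h (hu 1) k i]
    exact mul_left_cancel₀ (ne_of_sq (u2 1 i) one_ne_zero) (by rw [← e, mul_one])
  have ec : ∀ φ : ℚ →+* Qbar, φ = Rat.castHom Qbar := fun φ => RingHom.ext_rat _ _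
  have k2 : ∀ (σ : GQ) i, σ (r i ^ 2) = r (π σ i) ^ 2 := fun σ i => by
    rw [map_pow, (hr' i).2 σ, mul_pow, u2, one_mul]
  obtain ⟨de, hd'⟩ := interp (K := ℚ) (z := fun i => r i ^ 2) h.inj fun σ =>
    ⟨π σ, fun i => ⟨hπ σ i, k2 σ i⟩⟩
  have hd : ∀ i, (fK de Qbar).eval (a i) = r i ^ 2 := fun i =>
    (congrArg (fun φ => (de.map φ).eval (a i)) (ec _)).symm.trans (hd' i)
  have lc := fun (K : Type) [Field K] [CharZero K] =>
    loc h h0 hπ (fun σ i => ⟨_, iv σ i⟩) hu (fun σ i => (hr' i).2 σ) hd K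
  have h' : Cv g a (f.map (algebraMap ℚ Qbar)) := ec (algebraMap _ _) ▸ h
  obtain ⟨s, w, hs⟩ := H de ((cop_iff h').2 fun i => by
    rw [ec (algebraMap _ _), hd]
    exact pow_ne_zero _ (hr' i).1) (lc ℝ hr) fun p _ => lc _ (hp p)
  have e1 : ∀ i, r i ^ 2 = (fK s Qbar).eval (a i) ^ 2 := fun i => by
    have := congrArg (fun p => (fK p Qbar).eval (a i)) hs
    simp only [fK, Polynomial.map_sub, Polynomial.map_mul, Polynomial.map_pow, eval_sub, eval_mul,
      eval_pow, hd, (root_iff h _).2 ⟨i, rfl⟩, zero_mul] at this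
    exact sub_eq_zero.1 this
  have s0 : ∀ i, (fK s Qbar).eval (a i) ≠ 0 := fun i =>
    ne_of_sq (e1 i).symm (pow_ne_zero _ (hr' i).1)
  obtain ⟨η, hη⟩ : ∃ η : ι → Qbar, ∀ i, η i = r i / (fK s Qbar).eval (a i) := ⟨_, fun _ => rfl⟩
  have e2 : ∀ i, η i ^ 2 = 1 := fun i => by
    rw [hη, div_pow, e1, div_self (pow_ne_zero _ (s0 i))]
  have e3 : ∀ σ i, η i = u σ (π σ i) * η (π σ i) := fun σ i => by
    rw [← map_sign (σ : Qbar →+* Qbar) (e2 i), hη, hη, map_div₀, ← eval₂_at_apply, ← eval_map,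
      fK_map, RingHom.coe_coe, hπ, (hr' i).2, mul_div_assoc]
  obtain ⟨ε, hε⟩ : ∃ ε, ε = ∏ i, η i := ⟨_, rfl⟩
  have e4 : ε ^ 2 = 1 := by rw [hε, ← prod_pow, prod_eq_one fun i _ => e2 i]
  obtain ⟨T, hT⟩ := (JC.T.zt Qbar ι g _ _ h).2 (fun i => ε * η i)
    (fun i => by rw [mul_pow, e4, e2, one_mul])
    (by rw [prod_mul_distrib, prod_const, card_univ, h.card, ← hε, pow_succ, pow_mul, e4, one_pow,
      one_mul, ← sq, e4])
  refine ⟨Additive.ofMul T, (z_top h (R := Additive.ofMul T) hT).1, fun σ => z_inj h ?_ (hu σ)⟩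
  have e5 : u σ = fun i => ε * η (π σ⁻¹ i) / (ε * η i) := funext fun i => by
    rw [e3 σ (π σ⁻¹ i), iv, eq_div_iff
      (mul_ne_zero (ne_of_sq e4 one_ne_zero) (ne_of_sq (e2 i) one_ne_zero))]
    ring
  rw [e5]
  exact z_sub h (R := Additive.ofMul T) hT (act σ (T := Additive.ofMul T) hT)

end main

/-- the complete statement for a trivial 2-Selmer group -/
theorem desc0 (hg : 1 ≤ g) (h0 : Sq g f) (H : Sel0 f) :
    (∀ k : ℕ, ∀ x ∈ JSha f, 2 ^ k • x = 0 → x = 0) ∧ ∀ P : JQ f, ∃ R, 2 • R = P := by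
  obtain ⟨a, h⟩ := exists_cv (F := fK f Qbar) hg (h0.mo.map _)
    ((h0.mo.natDegree_map _).trans h0.dg) (PerfectField.separable_iff_squarefree.2 h0.sf).map
  have hf : ∀ P : Jac f Qbar, ∃ R, 2 • R = P := fun P => by
    obtain ⟨R, hR⟩ := JC.T.half Qbar _ g _ _ h P.toMul
    exact ⟨Additive.ofMul R, congrArg Additive.ofMul hR⟩
  refine ⟨sha_two (stab h) hf fun c hc h2 hr hp => ?_, fun P => ?_⟩
  · obtain ⟨T, -, hT⟩ := core h h0 H hc h2 hr hp
    exact ⟨T, hT⟩
  · obtain ⟨R, hR⟩ := hf P.1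
    have z : ∀ (K : Type) [Field K] [CharZero K], JLoc f K fun σ => jac f σ R - R := by
      intro K _ _
      have := sub_cob (c := 0) (K := K) ⟨0, by simp⟩ (-R)
      have e : (fun σ => jac f σ R - R) = 0 - fun σ => jac f σ (-R) - -R := funext fun σ => by
        simp only [Pi.sub_apply, Pi.zero_apply, map_neg]
        abel
      rw [e]
      exact this
    obtain ⟨T, h2, hT⟩ := core h h0 H (JC.Sha.cob_mem (stab h R))
      (fun σ => by rw [smul_sub, ← map_nsmul, hR, P.2 σ, sub_self]) (z ℝ) fun p _ => z _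
    refine ⟨⟨R - T, fun σ => ?_⟩, Subtype.ext ?_⟩
    · rw [map_sub, sub_eq_iff_eq_add.1 (hT σ)]
      abel
    · show 2 • (R - T) = P.1
      rw [smul_sub, h2, hR, sub_zero]

/-- trivial 2-Selmer group: the final form -/
theorem final0 (g : ℕ) (f : ℤ[X]) (hg : 1 ≤ g) (mo : f.Monic) (dg : f.natDegree = 2 * g + 1)
    (sp : (f.map (Int.castRingHom ℚ)).Separable) (H : Sel0 (f.map (Int.castRingHom ℚ))) :
    (∀ k : ℕ, ∀ x ∈ JSha (f.map (Int.castRingHom ℚ)), 2 ^ k • x = 0 → x = 0) ∧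
      Finite (JQ (f.map (Int.castRingHom ℚ))) ∧ Odd (Nat.card (JQ (f.map (Int.castRingHom ℚ)))) :=
  have k := desc0 hg ⟨mo.map _, (mo.natDegree_map _).trans dg, sp.squarefree⟩ H
  ⟨k.1, finU g f hg mo dg sp k.2⟩

end Pool.Agent.MP_a43263_nt.UM

end
end MrgPart4

-- ======== part 5: formerly Pool.Agent.MP_a43263_nt.UV.Desc
section MrgPart5

/-! THEOREM U: the descent. -/

set_option autoImplicit false

noncomputable section

namespace Pool.Agent.MP_a43263_nt.UV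

open Polynomial Finset JC

theorem desc : DESCStmt := by
  intro g c hg hi hs
  obtain ⟨f, hf⟩ : ∃ f : ℤ[X], f = X ^ (2 * g + 1) + ∑ i, C (c i) * X ^ (2 * g - 1 - i.1) :=
    ⟨_, rfl⟩
  have dl : (∑ i, C (c i) * X ^ (2 * g - 1 - i.1) : ℤ[X]).degree < (2 * g + 1 : ℕ) := by
    refine (degree_sum_le _ _).trans_lt ((Finset.sup_lt_iff (WithBot.bot_lt_coe _)).2 fun i _ =>
      (degree_C_mul_X_pow_le _ _).trans_lt ?_)
    exact_mod_cast by omega
  have mo : f.Monic := hf ▸ monic_X_pow_add dl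
  have dg : f.natDegree = 2 * g + 1 := natDegree_eq_of_degree_eq_some (by
    rw [hf, degree_add_eq_left_of_degree_lt (by rwa [degree_X_pow]), degree_X_pow])
  have e : bg g c = f.map (Int.castRingHom ℚ) := by
    simp [hf, bg, Polynomial.map_sum]
  rw [e] at hi hs ⊢
  have w : ∀ (K : Type) [Field K] [CharZero K] (de : ℚ[X]),
      IsCoprime de (f.map (Int.castRingHom ℚ)) →
      UM.Tw (fK (f.map (Int.castRingHom ℚ)) K) (fK de K) →
      Wc ((1 : ℚ) : K) (fK (f.map (Int.castRingHom ℚ)) K) (fK de K) := by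
    rintro K _ _ de h ⟨U, V, z, h1, h2, h3, h4⟩
    refine ⟨h.map (mapRingHom (Rat.castHom K)), U, V, z, h1, ?_, h3, ?_⟩
    · rwa [Rat.cast_one, C_1, one_mul]
    · rwa [Rat.cast_one, ← mul_assoc]
  obtain ⟨k1, k2, k3⟩ := UM.final0 g f hg mo dg hi.separable fun de h hr hp =>
    hs de (w ℝ de h hr) fun p _ => w _ de h (hp p)
  refine ⟨hi, k2, fun P hP => ?_, k1⟩
  exact AddMonoid.addOrderOf_eq_one_iff.1 (Nat.eq_one_of_dvd_coprimes
    (Nat.coprime_two_left.2 k3) (addOrderOf_dvd_of_nsmul_eq_zero hP) (addOrderOf_dvd_natCard P))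

end Pool.Agent.MP_a43263_nt.UV

end
end MrgPart5

-- ======== part 6: formerly Pool.Agent.MP_a43263_nt.UV.Dst
section MrgPart6

/-! THEOREM U, row GS + DST: common isotropic vectors are not too short. -/

set_option autoImplicit false

noncomputable section

namespace Pool.Agent.MP_a43263_nt.UV

open Polynomial Finset Matrix JC

namespace Dst

open UC.Herm

theorem diag_pos {n : ℕ} {G : Matrix (Fin n) (Fin n) ℝ} (h : PD G) (i : Fin n) : 0 < G i i := by
  have := h.2 (Pi.single i 1) (by simp)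
  simpa using this

theorem hadamard (n : ℕ) : ∀ G : Matrix (Fin n) (Fin n) ℝ, PD G → G.det ≤ ∏ i, G i i := by
  induction n with
  | zero => intro G _; simp
  | succ n ih =>
    intro G h
    rw [sch_det h, Fin.prod_univ_succ]
    refine mul_le_mul_of_nonneg_left ((ih _ h.sch).trans
      (prod_le_prod (fun i _ => (diag_pos h.sch i).le) fun i _ => ?_)) h.pos.le
    have := div_nonneg (mul_self_nonneg (G 0 i.succ)) h.pos.le
    simp only [sch, of_apply]
    linarith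

theorem lowdet (n : ℕ) : ∀ (G : Matrix (Fin n) (Fin n) ℝ) (μ : Fin n → ℝ), PD G → (∀ i, 0 ≤ μ i) →
    (∀ k (c : Fin n → ℝ), c k = 1 → (∀ j, k < j → c j = 0) → μ k ≤ c ⬝ᵥ G *ᵥ c) →
    ∏ i, μ i ≤ G.det := by
  induction n with
  | zero => intro G μ _ _ _; simp
  | succ n ih =>
    intro G μ h h0 hμ
    rw [sch_det h, Fin.prod_univ_succ]
    refine mul_le_mul ?_ (ih _ _ h.sch (fun i => h0 _) fun k c h1 h2 => ?_)
      (prod_nonneg fun i _ => h0 _) h.pos.le
    · simpa using hμ 0 (Pi.single 0 1) (by simp) fun j hj => by simp [hj.ne']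
    · have := hμ k.succ (Fin.cons (-((∑ j, G 0 j.succ * c j) / G 0 0)) c) (by simpa using h1)
        fun j => Fin.cases (by simp) (fun j hj => by simpa using h2 j (by simpa using hj)) j
      rw [sch_eq h] at this
      simpa using this

theorem pd_of {n : ℕ} {G : Matrix (Fin n) (Fin n) ℝ} {μ : Fin n → ℝ} (hs : G.IsSymm)
    (h0 : ∀ i, 0 < μ i)
    (hμ : ∀ k (c : Fin n → ℝ), c k = 1 → (∀ j, k < j → c j = 0) → μ k ≤ c ⬝ᵥ G *ᵥ c) : PD G := by
  refine ⟨hs, fun x hx => ?_⟩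
  obtain ⟨k, hk, hm⟩ := exists_max_image (univ.filter fun j => x j ≠ 0) id (by
    obtain ⟨i, hi⟩ := Function.ne_iff.1 hx
    exact ⟨i, by simpa using hi⟩)
  have hk' : x k ≠ 0 := by simpa using hk
  have h1 := hμ k ((x k)⁻¹ • x) (by simp [hk']) fun j hj => by
    by_contra hne
    exact absurd (hm j (by simpa using (mul_ne_zero_iff.1 hne).2)) (not_le.2 hj)
  rw [mulVec_smul, dotProduct_smul, smul_dotProduct, smul_eq_mul, smul_eq_mul, ← mul_assoc] at h1
  exact (mul_pos_iff_of_pos_left (mul_self_pos.2 (inv_ne_zero hk'))).1 ((h0 k).trans_le h1)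

theorem form_sum {R : Type} [CommRing R] {n m : ℕ} (H : Matrix (Fin n) (Fin n) R)
    (w : Fin m → Fin n → R) (c d : Fin m → R) :
    (∑ k, c k • w k) ⬝ᵥ H *ᵥ (∑ k, d k • w k) =
      c ⬝ᵥ (Matrix.of fun k l => w k ⬝ᵥ H *ᵥ w l) *ᵥ d := by
  rw [mulVec_sum, sum_dotProduct, dotProduct]
  refine sum_congr rfl fun k _ => ?_
  rw [smul_dotProduct, smul_eq_mul, dotProduct_sum, mulVec, dotProduct]
  congr 1
  refine sum_congr rfl fun l _ => ?_
  rw [mulVec_smul, dotProduct_smul, smul_eq_mul, of_apply, mul_comm]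

theorem gauss (g : ℕ) : ∑ k : Fin g, 2 * (g - k.1) = g * (g + 1) := by
  induction g with
  | zero => simp
  | succ g ih =>
    rw [Fin.sum_univ_succ]
    simp only [Fin.val_zero, Fin.val_succ, Nat.add_sub_add_right, ih, Nat.sub_zero]
    ring

end Dst

open UC.Herm Dst in
theorem gs : GSStmt := by
  intro g ρ A T H v E hρ hM hv
  have hρ0 : 0 < ρ := by linarith
  have hH : PD H := ⟨by
    have := hM.pos.isHermitian.eq
    rwa [conjTranspose_eq_transpose_of_trivial] at this, fun x hx => by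
    simpa using hM.pos.dotProduct_mulVec_pos hx⟩
  have hT : ∀ (m : ℕ) x, (T ^ m *ᵥ x) ⬝ᵥ H *ᵥ (T ^ m *ᵥ x) ≤ ρ ^ (2 * m) * (x ⬝ᵥ H *ᵥ x) := by
    intro m x
    induction m with
    | zero => simp
    | succ m ih =>
      rw [pow_succ' T, ← mulVec_mulVec, Nat.mul_succ, pow_add, mul_comm _ (ρ ^ 2), mul_assoc]
      exact (hM.bd _).trans (mul_le_mul_of_nonneg_left ih (by positivity))
  let Γ : Matrix (Fin g) (Fin g) ℝ := Matrix.of fun k l => (T ^ k.1 *ᵥ v) ⬝ᵥ H *ᵥ (T ^ l.1 *ᵥ v)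
  have hf : ∀ c : Fin g → ℝ, (∑ k, c k • T ^ k.1 *ᵥ v) ⬝ᵥ H *ᵥ (∑ k, c k • T ^ k.1 *ᵥ v) =
      c ⬝ᵥ Γ *ᵥ c := fun c => form_sum H (fun k : Fin g => T ^ k.1 *ᵥ v) c c
  have hs : Γ.IsSymm := IsSymm.ext fun i j => by
    simp only [Γ, of_apply]
    rw [dotProduct_mulVec, ← mulVec_transpose, hH.1.eq, dotProduct_comm]
  have hμ : ∀ k (c : Fin g → ℝ), c k = 1 → (∀ j, k < j → c j = 0) →
      (ρ ^ (2 * (g - k.1)))⁻¹ ≤ c ⬝ᵥ Γ *ᵥ c := by
    intro k c h1 h2
    rw [← hf, inv_le_iff_one_le_mul₀' (by positivity)]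
    refine le_trans ?_ (hT _ _)
    set y := T ^ (g - k.1) *ᵥ ∑ j, c j • T ^ j.1 *ᵥ v with hy
    have e : y = ∑ j, c j • T ^ (g - k.1 + j.1) *ᵥ v := by
      rw [hy, mulVec_sum]
      refine sum_congr rfl fun j _ => ?_
      rw [mulVec_smul, mulVec_mulVec, ← pow_add]
    have hk := k.2
    have hA : y ⬝ᵥ A *ᵥ y = 1 := by
      rw [e, form_sum A (fun j : Fin g => T ^ (g - k.1 + j.1) *ᵥ v), dotProduct,
        sum_eq_single k, mulVec, dotProduct, sum_eq_single k]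
      · rw [of_apply, hv _ _ (by omega) (by omega), if_pos (by omega), h1]
        simp
      · intro j _ hj
        rcases lt_or_gt_of_ne hj with c1 | c1
        · have : j.1 < k.1 := c1
          rw [of_apply, hv _ _ (by omega) (by omega), if_neg (by omega), zero_mul]
        · rw [h2 j c1, mul_zero]
      · simp
      · intro i _ hi
        rcases lt_or_gt_of_ne hi with c1 | c1
        · have : i.1 < k.1 := c1
          rw [mulVec, dotProduct, sum_eq_zero, mul_zero]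
          intro j _
          rcases le_or_gt j k with c2 | c2
          · have : j.1 ≤ k.1 := c2
            rw [of_apply, hv _ _ (by omega) (by omega), if_neg (by omega), zero_mul]
          · rw [h2 j c2, mul_zero]
        · rw [h2 i c1, zero_mul]
      · simp
    have h3 := hM.cs y y
    rw [hA] at h3
    have h4 := hH.nonneg y
    nlinarith
  have hΓ : PD Γ := pd_of hs (fun i => by positivity) hμ
  have hd := lowdet g Γ _ hΓ (fun i => by positivity) hμ
  rw [prod_inv_distrib, prod_pow_eq_pow_sum, gauss, inv_le_iff_one_le_mul₀' (by positivity)] at hd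
  simp only [hf]
  by_cases h0 : E.det = 0
  · rw [h0, zero_pow two_ne_zero]
    exact mul_nonneg (by positivity) (prod_nonneg fun i _ => hΓ.nonneg _)
  have hfE : ∀ x, x ⬝ᵥ (E * Γ * Eᵀ) *ᵥ x = (Eᵀ *ᵥ x) ⬝ᵥ Γ *ᵥ (Eᵀ *ᵥ x) := fun x => by
    rw [← mulVec_mulVec, ← mulVec_mulVec, dotProduct_mulVec, mulVec_transpose]
  have hG : PD (E * Γ * Eᵀ) := by
    refine ⟨?_, fun x hx => ?_⟩
    · rw [IsSymm, transpose_mul, transpose_mul, transpose_transpose, hs.eq, Matrix.mul_assoc]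
    · rw [hfE]
      exact hΓ.2 _ fun e => hx (eq_zero_of_mulVec_eq_zero (by rwa [det_transpose]) e)
  have h5 := hadamard g _ hG
  have h6 : ∀ i, (E * Γ * Eᵀ) i i = E i ⬝ᵥ Γ *ᵥ E i := fun i => by
    rw [Matrix.mul_assoc]
    rfl
  simp only [h6] at h5
  rw [det_mul, det_mul, det_transpose] at h5
  calc E.det ^ 2 ≤ E.det ^ 2 * (ρ ^ (g * (g + 1)) * Γ.det) :=
        le_mul_of_one_le_right (sq_nonneg _) hd
    _ = ρ ^ (g * (g + 1)) * (E.det * Γ.det * E.det) := by ring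
    _ ≤ _ := mul_le_mul_of_nonneg_left h5 (by positivity)

namespace Dst

variable {g : ℕ} {f : ℤ[X]} {δ : ℚ[X]} {Λ : Set ℚ[X]} {b : Fin (2 * g + 1) → ℚ[X]}
  {A T : Mat g ℤ}

/-- the element with the coordinates `y` -/
def cb (b : Fin (2 * g + 1) → ℚ[X]) (y : Fin (2 * g + 1) → ℚ) : ℚ[X] := ∑ i, C (y i) * b i

theorem cb_ta (h : Mt g f δ b A T) (x y : Fin (2 * g + 1) → ℚ) :
    ta g (zK f ℚ) (δ * cb b x * cb b y) = x ⬝ᵥ mK A ℚ *ᵥ y := by
  simp only [cb, mul_sum, sum_mul, ta_sum, dotProduct, mulVec, mK_apply, h.gram]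
  rw [sum_comm]
  refine sum_congr rfl fun i _ => sum_congr rfl fun j _ => ?_
  rw [show δ * (C (x i) * b i) * (C (y j) * b j) = C (x i * y j) * (δ * b i * b j) by
    rw [C_mul]; ring, ta_C_mul]
  ring

theorem cb_X (h : Mt g f δ b A T) (y : Fin (2 * g + 1) → ℚ) :
    zK f ℚ ∣ X * cb b y - cb b (mK T ℚ *ᵥ y) := by
  have e : X * cb b y - cb b (mK T ℚ *ᵥ y) =
      ∑ j, C (y j) * (X * b j - ∑ i, C (T i j : ℚ) * b i) := by
    simp only [cb, mulVec, dotProduct, mK_apply, map_sum, mul_sum, sum_mul, mul_sub,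
      sum_sub_distrib, C_mul]
    rw [sum_comm]
    congr 1
    · exact sum_congr rfl fun j _ => by ring
    · exact sum_congr rfl fun j _ => sum_congr rfl fun i _ => by ring
  rw [e]
  exact dvd_sum fun j _ => (h.mul j).mul_left _

theorem cb_sum {m : ℕ} (z : Fin m → ℚ) (w : Fin m → Fin (2 * g + 1) → ℚ) :
    cb b (∑ i, z i • w i) = ∑ i, C (z i) * cb b (w i) := by
  simp only [cb, Finset.sum_apply, Pi.smul_apply, smul_eq_mul, map_sum, sum_mul, mul_sum, C_mul,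
    mul_assoc]
  rw [sum_comm]

theorem cb_inj (h : Bs g f Λ b) {x y : Fin (2 * g + 1) → ℚ} (e : zK f ℚ ∣ cb b x - cb b y) :
    x = y := by
  refine sub_eq_zero.1 (h.ind (x - y) ?_)
  simpa only [cb, Pi.sub_apply, C_sub, sub_mul, sum_sub_distrib] using e

theorem cb_pow (h : Mt g f δ b A T) {v : Fin (2 * g + 1) → ℚ} (hv : zK f ℚ ∣ 1 - cb b v) (k : ℕ) :
    zK f ℚ ∣ X ^ k - cb b (mK T ℚ ^ k *ᵥ v) := by
  induction k with
  | zero => simpa using hv
  | succ k ih =>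
    rw [pow_succ' (mK T ℚ), ← mulVec_mulVec, show ∀ a : ℚ[X], X ^ (k + 1) - a =
      X * (X ^ k - cb b (mK T ℚ ^ k *ᵥ v)) + (X * cb b (mK T ℚ ^ k *ᵥ v) - a) from fun a => by ring]
    exact dvd_add (ih.mul_left _) (cb_X h _)

theorem cast_mv (B : Mat g ℤ) (x : Fin (2 * g + 1) → ℚ) :
    mK B ℝ *ᵥ (fun i => (x i : ℝ)) = fun i => ((mK B ℚ *ᵥ x) i : ℝ) := by
  funext i
  simp [mulVec, dotProduct]

theorem cast_pow (B : Mat g ℤ) (x : Fin (2 * g + 1) → ℚ) (k : ℕ) :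
    mK B ℝ ^ k *ᵥ (fun i => (x i : ℝ)) = fun i => ((mK B ℚ ^ k *ᵥ x) i : ℝ) := by
  induction k with
  | zero => simp
  | succ k ih => rw [pow_succ', pow_succ', ← mulVec_mulVec, ← mulVec_mulVec, ih, cast_mv]

theorem cast_form (B : Mat g ℤ) (x y : Fin (2 * g + 1) → ℤ) :
    (fun i => (x i : ℚ)) ⬝ᵥ mK B ℚ *ᵥ (fun i => (y i : ℚ)) = ((x ⬝ᵥ B *ᵥ y : ℤ) : ℚ) := by
  simp [mulVec, dotProduct]

theorem dvd_det {p : ℕ} (hp : p.Prime) (hg : 1 ≤ g) {φ : (ZMod p)[X]} (hφ : φ.Monic)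
    (h0 : 0 < φ.natDegree) (E : Matrix (Fin g) (Fin g) ℤ)
    (h : ∀ i, φ ∣ zK (po (E i)) (ZMod p)) : (p : ℤ) ∣ E.det := by
  have := Fact.mk hp
  rw [← ZMod.intCast_zmod_eq_zero_iff_dvd, ← eq_intCast (Int.castRingHom (ZMod p)),
    RingHom.map_det, ← exists_mulVec_eq_zero_iff]
  refine ⟨fun k => (X ^ k.1 %ₘ φ).coeff 0, fun e => ?_, funext fun i => ?_⟩
  · have h1 := congrFun e ⟨0, hg⟩
    rw [pow_zero, (modByMonic_eq_self_iff hφ).2 (by
      rw [degree_one]; exact natDegree_pos_iff_degree_pos.1 h0)] at h1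
    simp at h1
  · have h1 := congrArg (fun P : (ZMod p)[X] => P.coeff 0)
      ((modByMonic_eq_zero_iff_dvd hφ).2 (h i))
    have e : zK (po (E i)) (ZMod p) = ∑ k : Fin g, ((E i k : ℤ) : ZMod p) • X ^ k.1 := by
      simp [zK, po, Polynomial.map_sum, smul_eq_C_mul]
    simp only [e] at h1
    rw [← modByMonicHom_apply, map_sum, finsetSum_coeff] at h1
    simpa [mulVec, dotProduct, modByMonicHom_apply] using h1

end Dst

open Dst in
theorem dst : UNIQStmt → GSStmt → DSTStmt := by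
  intro hU hG g f δ Λ b A T H M ρ hf hδ hN hΛ hb hm hρ hM hM0 hc e he hi
  have hind : ∀ z : Fin g → ℚ, ∑ i, z i • (fun k => (e i k : ℚ)) = 0 → z = 0 := by
    have := (linearIndependent_algebraMap_comp_iff (R := ℤ) (S := ℚ) (v := e)).2 he
    intro z hz
    exact funext (Fintype.linearIndependent_iff.1 this z hz)
  obtain ⟨h1, h2⟩ := hU g (zK f ℚ) δ (fun i => cb b fun k => (e i k : ℚ)) (hf.sq ℚ) hf.irr hδ hN
    (fun z hz => hind z (hb.ind _ (by rw [← cb_sum] at hz; exact hz))) fun i j => ⟨by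
      rw [cb_ta hm, cast_form, (hi i j).1, Int.cast_zero], by
      rw [ta_congr (hf.mo ℚ) (Q := δ * cb b (fun k => (e i k : ℚ)) *
        cb b (mK T ℚ *ᵥ fun k => (e j k : ℚ))) (by
          rw [← mul_sub]; exact (cb_X hm _).mul_left _),
        cb_ta hm, mulVec_mulVec, ← mK_mul, cast_form, (hi i j).2, Int.cast_zero]⟩
  obtain ⟨rfl, p, hp, hMp, φ, hφ, hφ0, hL⟩ := hc.resolve_left (not_not.2 h1)
  have hmem : ∀ i, cb b (fun k => (e i k : ℚ)) %ₘ zK f ℚ ∈ Λ := fun i =>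
    hΛ.congr (hΛ.sum univ fun k _ => hΛ.cmul (e i k) (hb.mem k)) (dvd_sub_comm.1 (dvd_sub_mod _))
  choose r hr hφr using fun i => hL _ (hmem i) (h2 rfl i)
  let E : Matrix (Fin g) (Fin g) ℤ := Matrix.of fun i k => (r i).coeff k.1
  have hE : ∀ i, po (E i) = r i := fun i => po_of_lt (by
    have := h2 rfl i
    rwa [hr, zK, degree_map_eq_of_injective (RingHom.injective_int _)] at this)
  obtain ⟨N, hN0, hNΛ⟩ := hΛ.2
  obtain ⟨z, hz⟩ := hb.span _ hNΛ
  have hNq : (N : ℚ) ≠ 0 := Int.cast_ne_zero.2 hN0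
  let v : Fin (2 * g + 1) → ℚ := fun i => (N : ℚ)⁻¹ * z i
  have hv : zK f ℚ ∣ 1 - cb b v := by
    have := hz.mul_left (C (N : ℚ)⁻¹)
    rw [mul_sub, ← C_mul, inv_mul_cancel₀ hNq, C_1, mul_sum] at this
    simpa only [cb, v, C_mul, mul_assoc] using this
  have hev : ∀ i, (fun k => (e i k : ℚ)) = ∑ k : Fin g, (E i k : ℚ) • mK T ℚ ^ k.1 *ᵥ v := by
    intro i
    refine cb_inj hb ?_
    have e1 : zK (r i) ℚ = ∑ k : Fin g, C (E i k : ℚ) * X ^ k.1 := by
      rw [← hE]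
      simp [zK, po, Polynomial.map_sum]
    have e2 := dvd_sub_mod (f := zK f ℚ) (cb b fun k => (e i k : ℚ))
    rw [hr, e1] at e2
    have e3 := dvd_sum (s := univ) fun (k : Fin g) _ =>
      (cb_pow hm hv k.1).mul_left (C (E i k : ℚ))
    simp only [mul_sub, sum_sub_distrib] at e3
    rw [cb_sum]
    simpa using dvd_add e2 e3
  have hdet : E.det ≠ 0 := fun h0 => by
    obtain ⟨y, hy, hy0⟩ := exists_vecMul_eq_zero_iff.2 h0
    refine hy (funext fun i => ?_)
    have := congrFun (hind (fun i => (y i : ℚ)) (by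
      simp only [hev, smul_sum, smul_smul]
      rw [sum_comm]
      refine sum_eq_zero fun k _ => ?_
      rw [← sum_smul]
      have : ∑ i, (y i : ℚ) * (E i k : ℚ) = 0 := by
        have := congrFun hy0 k
        simp only [vecMul, dotProduct, Pi.zero_apply] at this
        exact_mod_cast this
      rw [this, zero_smul])) i
    simpa using this
  have hle : (p : ℤ) ≤ |E.det| := Int.le_of_dvd (abs_pos.2 hdet)
    ((dvd_abs _ _).2 (dvd_det hp hf.pos hφ hφ0 E fun i => by rw [hE]; exact hφr i))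
  have key := hG g ρ (mK A ℝ) (mK T ℝ) H (fun i => (v i : ℝ)) (E.map (Int.castRingHom ℝ)) hρ hM
    fun i j hi' hj' => by
      have e1 : ta g (zK f ℚ) (1 * cb b (mK T ℚ ^ i *ᵥ v) * cb b (mK T ℚ ^ j *ᵥ v)) =
          ta g (zK f ℚ) (X ^ (i + j)) := by
        refine (ta_congr (hf.mo ℚ) ?_).symm
        rw [show ∀ a c : ℚ[X], X ^ (i + j) - 1 * a * c = (X ^ i - a) * X ^ j + a * (X ^ j - c) from
          fun a c => by ring]
        exact dvd_add ((cb_pow hm hv i).mul_right _) ((cb_pow hm hv j).mul_left _)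
      rw [cb_ta hm, ta_X_pow (hf.mo ℚ) (hf.dg ℚ) (by omega)] at e1
      rw [cast_pow, cast_pow, cast_mv]
      have e2 := congrArg (fun x : ℚ => (x : ℝ)) e1
      simp only [dotProduct, Rat.cast_sum, Rat.cast_mul] at e2
      rw [dotProduct, e2]
      split_ifs <;> simp
  have e4 : ∀ i, (∑ k : Fin g, (E.map (Int.castRingHom ℝ)) i k • mK T ℝ ^ k.1 *ᵥ
      fun i => (v i : ℝ)) = fun k => (e i k : ℝ) := fun i => by
    funext l
    have := congrArg (fun x : ℚ => (x : ℝ)) (congrFun (hev i) l)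
    simp only [cast_pow]
    simpa [Finset.sum_apply] using this.symm
  simp only [e4] at key
  refine le_trans ?_ key
  rw [← RingHom.mapMatrix_apply, ← RingHom.map_det, eq_intCast, ← sq_abs ((E.det : ℤ) : ℝ)]
  refine pow_le_pow_left₀ hM0 (hMp.trans ?_) 2
  exact_mod_cast hle

end Pool.Agent.MP_a43263_nt.UV

end
end MrgPart6

-- ======== part 7: formerly Pool.Agent.MP_a43263_nt.UV.Ev
section MrgPart7

/-! THEOREM U: maximality and the local condition of an unramified twist. -/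

set_option autoImplicit false

noncomputable section

namespace Pool.Agent.MP_a43263_nt.UV

open Polynomial Finset Matrix JC

namespace Ev

theorem lift (n : ℕ) (P : (ZMod n)[X]) : ∃ Q : ℤ[X], zK Q (ZMod n) = P :=
  map_surjective _ (ZMod.ringHom_surjective _) P

theorem dvd_of_zK {n : ℕ} {P : ℤ[X]} (h : zK P (ZMod n) = 0) : C (n : ℤ) ∣ P :=
  (C_dvd_iff_dvd_coeff _ _).2 fun i => (ZMod.intCast_zmod_eq_zero_iff_dvd _ n).1 (by
    simpa using congrArg (coeff · i) h)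

variable {p : ℕ}

theorem not_nx [Fact p.Prime] {f : ℤ[X]} (h : Squarefree (zK f (ZMod p))) : ¬Nx p f := by
  rintro ⟨φ, a, b, c, h1, h2, h3⟩
  have h4 : zK φ (ZMod p) * zK φ (ZMod p) ∣ zK f (ZMod p) :=
    ⟨zK a (ZMod p), by rw [h3]; simp [sq]⟩
  have h5 := natDegree_eq_zero_of_isUnit (h _ h4)
  rw [h1.natDegree_map] at h5
  omega

variable [Fact p.Prime]

theorem unit_of {x : ℤ_[p]} (h : PadicInt.toZMod x ≠ 0) : IsUnit x := by
  by_contra c
  exact h (RingHom.mem_ker.1 (PadicInt.ker_toZMod (p := p) ▸ (IsLocalRing.mem_maximalIdeal x).2 c))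

theorem split {φ : ℤ[X]} {u : ℤ_[p][X]} (h : zK φ (ZMod p) ∣ rq p u) :
    ∃ u₁ u₂, u = zK φ ℤ_[p] * u₁ + C (p : ℤ_[p]) * u₂ := by
  obtain ⟨z, hz⟩ := h
  obtain ⟨z, rfl⟩ := lift p z
  have h1 : rq p (u - zK φ ℤ_[p] * zK z ℤ_[p]) = 0 := by
    rw [rq, Polynomial.map_sub, Polynomial.map_mul, zK_map, zK_map, ← hz, sub_self]
  obtain ⟨y, hy⟩ : C (p : ℤ_[p]) ∣ u - zK φ ℤ_[p] * zK z ℤ_[p] :=
    (C_dvd_iff_dvd_coeff _ _).2 fun i => by
      rw [← Ideal.mem_span_singleton, ← PadicInt.maximalIdeal_eq_span_p, ← PadicInt.ker_toZMod,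
        RingHom.mem_ker, ← coeff_map]
      exact congrArg (coeff · i) h1
  exact ⟨_, y, sub_eq_iff_eq_add'.1 hy⟩

/-- a value of a primitive binary form that is prime to the discriminant -/
theorem exists_coprime {k : Type} [Field k] {f u v w : k[X]} (h0 : f ≠ 0) (hf : f ∣ v ^ 2 - u * w)
    (H : ∀ φ, Irreducible φ → φ ∣ u → φ ∣ v → ¬φ ∣ w) :
    ∃ a, IsCoprime (u * a ^ 2 + 2 * v * a + w) f := by
  classical
  let a := ((UniqueFactorizationMonoid.factors f).filter fun ψ => ¬ψ ∣ w).prod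
  refine ⟨a, (isCoprime_of_irreducible_dvd (fun h => h0 h.1) fun φ hφ h1 h2 => ?_).symm⟩
  have hp := hφ.prime
  by_cases c : φ ∣ w
  · have h3 : φ ∣ v := hp.dvd_of_dvd_pow (n := 2) (by
      simpa using dvd_add (h1.trans hf) (c.mul_left u))
    have h4 : φ ∣ u * a ^ 2 := by
      simpa using dvd_sub (dvd_sub h2 c) ((h3.mul_left 2).mul_right a)
    rcases hp.dvd_or_dvd h4 with h5 | h5
    · exact H φ hφ h5 h3 c
    · obtain ⟨ψ, h6, h7⟩ := hp.exists_mem_multiset_dvd (hp.dvd_of_dvd_pow h5)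
      rw [Multiset.mem_filter] at h6
      exact h6.2 ((hφ.associated_of_dvd
        (UniqueFactorizationMonoid.irreducible_of_factor ψ h6.1) h7).symm.dvd.trans c)
  · obtain ⟨ψ, h6, h7⟩ := UniqueFactorizationMonoid.exists_mem_factors_of_dvd h0 hφ h1
    have h3 : φ ∣ a := h7.dvd.trans
      (Multiset.dvd_prod (Multiset.mem_filter.2 ⟨h6, fun h => c (h7.dvd.trans h)⟩))
    exact c ((dvd_add_right (dvd_add ((dvd_pow h3 two_ne_zero).mul_left u) (h3.mul_left _))).1 h2)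

theorem even_of {A D : ℚ_[p]} {u : ℤ_[p]} {j : ℤ} (hA : A ≠ 0) (hu : IsUnit u)
    (h : A ^ 2 * u = (p : ℚ_[p]) ^ j * D ^ 2) : D ≠ 0 ∧ Even j := by
  have h1 : ‖(u : ℚ_[p])‖ = 1 := PadicInt.isUnit_iff.1 hu
  have h2 := congrArg norm h
  rw [norm_mul, h1, mul_one] at h2
  have hD : D ≠ 0 := fun c => hA (by simpa [c] using h2)
  have hp : (1 : ℝ) < p := by exact_mod_cast (Fact.out : p.Prime).one_lt
  rw [norm_mul, norm_pow, norm_pow, Padic.norm_p_zpow, Padic.norm_eq_zpow_neg_valuation hA,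
    Padic.norm_eq_zpow_neg_valuation hD, sq, sq, ← zpow_add₀ (by positivity),
    ← zpow_add₀ (by positivity), ← zpow_add₀ (by positivity),
    zpow_right_inj₀ (by positivity) hp.ne'] at h2
  exact ⟨hD, A.valuation - D.valuation, by omega⟩

end Ev

open Ev

theorem nxp : NXPStmt := by
  refine ⟨fun p _ f φ a b c h1 h2 h => ?_, fun p g f hp hz ⟨h, e, hh, _⟩ => ?_, fun g c hg h => ?_⟩
  · obtain ⟨a₀, ha⟩ := lift (p ^ 2) (a.map (PadicInt.toZModPow 2))
    obtain ⟨b₀, hb⟩ := lift (p ^ 2) (b.map (PadicInt.toZModPow 2))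
    have h3 := congrArg (Polynomial.map (PadicInt.toZModPow 2)) h
    have h4 : ((p : (ZMod (p ^ 2))[X])) ^ 2 = 0 := by
      rw [← C_eq_natCast, ← C_pow, ← Nat.cast_pow, ZMod.natCast_self, C_0]
    simp only [Polynomial.map_add, Polynomial.map_mul, Polynomial.map_pow, zK_map, map_natCast,
      Polynomial.map_natCast, h4, ← ha, ← hb] at h3
    obtain ⟨c₀, hc⟩ : C ((p ^ 2 : ℕ) : ℤ) ∣ f - (φ ^ 2 * a₀ + C (p : ℤ) * φ * b₀) :=
      dvd_of_zK (by
        simp only [zK, Polynomial.map_sub, Polynomial.map_add, Polynomial.map_mul,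
          Polynomial.map_pow, map_natCast, Polynomial.map_natCast] at h3 ⊢
        rw [h3]
        ring)
    exact ⟨φ, a₀, b₀, c₀, h1, h2, by rw [← C_pow, ← Nat.cast_pow, ← hc]; ring⟩
  · have := Fact.mk hp
    refine not_nx ?_
    rw [e, squarefree_mul_iff]
    refine ⟨irreducible_X.isRelPrime_iff_not_dvd.2 fun c => ?_, irreducible_X.squarefree,
      hh.squarefree⟩
    have h1 := hz.dg (ZMod p)
    have h2 := natDegree_eq_of_degree_eq
      (degree_eq_degree_of_associated (irreducible_X.associated_of_dvd hh c))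
    rw [e, natDegree_mul X_ne_zero hh.ne_zero, ← h2, natDegree_X] at h1
    have := hz.pos
    omega
  · have h1 := pc_monic c
    exact ⟨⟨hg, h1, pc_deg c, (IsPrimitive.Int.irreducible_iff_irreducible_map_cast
      h1.isPrimitive).1 (h1.irreducible_of_irreducible_map _ _ h)⟩, not_nx h.squarefree⟩

theorem ev : GRAMStmt → WGStmt → INTStmt → NXPStmt → EVStmt := by
  intro gram wg intm nx p _ g f δ d hz hn hd hw
  have hd1 : (d : ZMod p) ≠ 0 := fun c => hd ((ZMod.intCast_zmod_eq_zero_iff_dvd _ p).1 c)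
  have hd2 : IsUnit (d : ℤ_[p]) := unit_of (by simpa using hd1)
  have hd3 : (d : ℚ_[p]) ≠ 0 := Int.cast_ne_zero.2 fun c => hd (c ▸ dvd_zero _)
  obtain ⟨A, hA⟩ := (wg ℚ_[p] g d _ (hz.sq ℚ_[p]) hd3).2.2.1 δ hw
  obtain ⟨hδ, U, V, s, -, ⟨U', hU⟩, hUf, hs⟩ := hw
  obtain ⟨u, v, w, j, hF, H⟩ := intm p (C (d : ℤ_[p]) * zK f ℤ_[p]) U V U' (by
    rw [← hU, iq, Polynomial.map_mul, zK_map]
    simp)
  obtain ⟨a, ha⟩ := exists_coprime (f := zK f (ZMod p)) (u := rq p u) (v := rq p v) (w := rq p w)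
    (hz.mo _).ne_zero
    (by
      have := congrArg (Polynomial.map PadicInt.toZMod) hF
      rw [Polynomial.map_mul, zK_map, Polynomial.map_sub, Polynomial.map_mul,
        Polynomial.map_pow] at this
      exact this ▸ dvd_mul_left _ _)
    (fun φ hφ h1 h2 h3 => by
      classical
      obtain ⟨ψ, e1, e2, e3⟩ := lifts_and_natDegree_eq_and_monic
        ((mem_lifts (f := Int.castRingHom (ZMod p)) _).2 (lift p (normalize φ)))
        (monic_normalize hφ.ne_zero)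
      obtain ⟨u₁, u₂, rfl⟩ := split (φ := ψ) (e1.symm ▸ normalize_dvd_iff.2 h1)
      obtain ⟨v₁, v₂, rfl⟩ := split (φ := ψ) (e1.symm ▸ normalize_dvd_iff.2 h2)
      obtain ⟨w₁, w₂, rfl⟩ := split (φ := ψ) (e1.symm ▸ normalize_dvd_iff.2 h3)
      obtain ⟨d', hd'⟩ := hd2.exists_left_inv
      refine hn (nx.1 p f ψ (C d' * (v₁ ^ 2 - u₁ * w₁)) (C d' * (2 * v₁ * v₂ - u₁ * w₂ - u₂ * w₁))
        (C d' * (v₂ ^ 2 - u₂ * w₂)) e3 ?_ ?_)
      · rw [e2]
        exact ((normalize_associated φ).symm.irreducible hφ).natDegree_pos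
      · calc _ = C d' * (C (d : ℤ_[p]) * zK f ℤ_[p]) := by rw [← mul_assoc, ← C_mul, hd', C_1, one_mul]
          _ = _ := by rw [hF]; ring)
  obtain ⟨a, rfl⟩ := lift p a
  obtain ⟨z, z', hr⟩ := H (zK a ℤ_[p]) 1
  set r := C ((-d : ℤ_[p]) ^ U.natDegree) *
    (u * zK a ℤ_[p] ^ 2 + 2 * v * zK a ℤ_[p] * 1 + w * 1 ^ 2) with hr'
  have hc : IsCoprime (rq p r) (zK f (ZMod p)) := by
    rw [hr', rq, Polynomial.map_mul, map_C,
      isCoprime_mul_unit_left_left (isUnit_C.2 ((hd2.neg.pow _).map _))]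
    simpa [zK_map] using ha
  have h1 : zK f ℚ_[p] ∣ δ * U ^ 2 * iq p r - C ((p : ℚ_[p]) ^ j) * (s * (U * z + V * z')) ^ 2 := by
    have e1 : iq p r = C ((-d : ℚ_[p]) ^ U.natDegree) * (C ((p : ℚ_[p]) ^ j) *
        (U * z ^ 2 + 2 * V * z * z' - U' * z' ^ 2)) := by
      rw [← hr, hr', iq, Polynomial.map_mul, map_C]
      simp
    obtain ⟨y, hy⟩ := hs
    refine ⟨C ((p : ℚ_[p]) ^ j) * (y * (U * z + V * z') ^ 2 -
      δ * (C ((-d : ℚ_[p]) ^ U.natDegree) * U) * C (d : ℚ_[p]) * z' ^ 2), ?_⟩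
    rw [e1]
    linear_combination C ((p : ℚ_[p]) ^ j) * (U * z + V * z') ^ 2 * hy +
      C ((p : ℚ_[p]) ^ j) * δ * (C ((-d : ℚ_[p]) ^ U.natDegree) * U) * z' ^ 2 * hU
  obtain ⟨n1, n2, n3, n4, -, -⟩ := gram.1 ℚ_[p] _ (hz.mo ℚ_[p])
  obtain ⟨-, -, -, -, -, n6⟩ := gram.1 ℤ_[p] _ (hz.mo ℤ_[p])
  have hu : IsUnit (Nm (zK f ℤ_[p]) r) := unit_of (by
    rw [← n6, zK_map]
    exact (((gram.1 (ZMod p) _ (hz.mo _)).2.2.2.1 _).2 hc).ne_zero)
  have h2 := n2 _ _ h1
  have h3 := n6 _ PadicInt.Coe.ringHom r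
  rw [zK_map] at h3
  rw [sq, sq, n1, n1, n1, n1, n1, n3, hA, h3, hz.dg, ← zpow_natCast, ← _root_.zpow_mul] at h2
  have hA0 : A ≠ 0 := fun c => ((n4 _).2 hδ).ne_zero (by rw [hA, c, mul_zero])
  obtain ⟨h4, h5⟩ := even_of (A := A * Nm (zK f ℚ_[p]) U) (mul_ne_zero hA0 ((n4 _).2 hUf).ne_zero) hu
    (j := j * (2 * g + 1 : ℕ)) (D := Nm (zK f ℚ_[p]) (s * (U * z + V * z'))) (by
      rw [sq, sq, ← h2, mul_mul_mul_comm]
      rfl)
  obtain ⟨i, rfl⟩ : Even j := (Int.even_mul.1 h5).resolve_right (by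
    rw [Int.even_coe_nat, Nat.not_even_iff_odd]
    exact odd_two_mul_add_one g)
  obtain ⟨t, y, ht⟩ := (n4 _).1 h4.isUnit
  have hp : (p : ℚ_[p]) ≠ 0 := Nat.cast_ne_zero.2 (Fact.out : p.Prime).ne_zero
  have e2 : C ((p : ℚ_[p]) ^ (-i)) ^ 2 * C ((p : ℚ_[p]) ^ (i + i)) = 1 := by
    rw [sq, ← C_mul, ← C_mul, ← zpow_add₀ hp, ← zpow_add₀ hp]
    simp
  obtain ⟨y', hy'⟩ := h1
  refine ⟨C ((p : ℚ_[p]) ^ (-i)) * t * U * iq p r, r,
    ⟨iq p r * (C ((p : ℚ_[p]) ^ (-i)) ^ 2 * t ^ 2 * y' -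
      y * (t * (s * (U * z + V * z')) + 1)), ?_⟩, hc⟩
  linear_combination iq p r * C ((p : ℚ_[p]) ^ (-i)) ^ 2 * t ^ 2 * hy' +
    iq p r * (t * (s * (U * z + V * z'))) ^ 2 * e2 +
    iq p r * (t * (s * (U * z + V * z')) + 1) * ht

end Pool.Agent.MP_a43263_nt.UV

end
end MrgPart7

-- ======== part 8: formerly Pool.Agent.MP_a43263_nt.UV.Maj
section MrgPart8

/-! THEOREM U: the majorant of a pair of symmetric matrices. -/

set_option autoImplicit false

noncomputable section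

namespace Pool.Agent.MP_a43263_nt.UV

open Polynomial Matrix Finset

namespace MajA

variable {n : ℕ}

theorem diag (T : Matrix (Fin n) (Fin n) ℂ) (h : T.charpoly.Separable) :
    ∃ (θ : Fin n → ℂ) (P Q : Matrix (Fin n) (Fin n) ℂ), Function.Injective θ ∧
      (∀ i, T.charpoly.eval (θ i) = 0) ∧ P * Q = 1 ∧ T * P = P * diagonal θ := by
  have c := card_rootSet_eq_natDegree (K := ℂ) h (IsAlgClosed.splits _)
  rw [charpoly_natDegree_eq_dim] at c
  let e := (Fintype.equivOfCardEq c).symm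
  have hθ : Function.Injective fun i => (e i : ℂ) := Subtype.val_injective.comp e.injective
  have r : ∀ i, T.charpoly.eval (e i : ℂ) = 0 := fun i => by
    simpa using (mem_rootSet.1 (e i).2).2
  have ex : ∀ i, ∃ v ≠ 0, T *ᵥ v = (e i : ℂ) • v := fun i => by
    obtain ⟨v, h0, hv⟩ := exists_mulVec_eq_zero_iff.2 ((Matrix.eval_charpoly _ _).symm.trans (r i))
    refine ⟨v, h0, ?_⟩
    rw [sub_mulVec, sub_eq_zero] at hv
    rw [← hv]
    ext k
    simp [mulVec_diagonal]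
  choose v h0 hv using ex
  have li := Module.End.eigenvectors_linearIndependent' (toLin' T) _ hθ v fun i =>
    ⟨Module.End.mem_eigenspace_iff.2 (hv i), h0 i⟩
  have u : IsUnit (of v)ᵀ := linearIndependent_cols_iff_isUnit.1 li
  refine ⟨_, (of v)ᵀ, (of v)ᵀ⁻¹, hθ, r, mul_nonsing_inv _ ((isUnit_iff_isUnit_det _).1 u), ?_⟩
  ext k i
  have := congrFun (hv i) k
  rw [mul_diagonal, mul_comm]
  exact this

/-- entrywise conjugate -/
abbrev cj (M : Matrix (Fin n) (Fin n) ℂ) := M.map (starRingEnd ℂ)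

theorem cj_cj (M : Matrix (Fin n) (Fin n) ℂ) : cj (cj M) = M := by
  ext i j
  simp

theorem key {a θ : Fin n → ℂ} (hθ : Function.Injective θ) {S : Matrix (Fin n) (Fin n) ℂ}
    (h1 : diagonal θ * S = S * cj (diagonal θ)) (h2 : Sᵀ * diagonal a * S = cj (diagonal a)) :
    Sᵀ * diagonal (fun i => (‖a i‖ : ℂ)) * cj S = diagonal fun i => (‖a i‖ : ℂ) := by
  have k : ∀ i k, S i k ≠ 0 → θ i = starRingEnd ℂ (θ k) := fun i k h => by
    have := congrFun₂ h1 i k
    rw [cj, diagonal_map (by simp), diagonal_mul, mul_diagonal, mul_comm] at this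
    exact mul_left_cancel₀ h this
  ext k' l
  rw [mul_apply]
  simp only [mul_diagonal, transpose_apply, map_apply]
  by_cases e : k' = l
  · subst e
    have h3 := congrFun₂ h2 k' k'
    rw [mul_apply] at h3
    simp only [mul_diagonal, transpose_apply, map_apply, diagonal_apply_eq] at h3
    rw [diagonal_apply_eq, ← RCLike.norm_conj (a k'), ← h3]
    by_cases z : ∀ i, S i k' = 0
    · simp [z]
    · obtain ⟨i, hi⟩ := not_forall.1 z
      have o : ∀ j, j ≠ i → S j k' = 0 := fun j hj => by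
        by_contra c
        exact hj (hθ ((k j _ c).trans (k i _ hi).symm))
      rw [sum_eq_single i (fun j _ hj => by simp [o j hj]) (by simp),
        sum_eq_single i (fun j _ hj => by simp [o j hj]) (by simp), mul_right_comm,
        Complex.mul_conj', norm_mul, norm_mul]
      push_cast
      ring
  · rw [diagonal_apply_ne _ e]
    refine sum_eq_zero fun i _ => ?_
    by_cases c : S i k' = 0
    · simp [c]
    by_cases c' : S i l = 0
    · simp [c']
    exact absurd (hθ ((starRingEnd ℂ).injective ((k i _ c).symm.trans (k i _ c')))) e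

theorem core {A T P Q : Matrix (Fin n) (Fin n) ℂ} {θ : Fin n → ℂ} (hθ : Function.Injective θ)
    (hA : A.IsSymm) (hT : (A * T).IsSymm) (rA : cj A = A) (rT : cj T = T) (pq : P * Q = 1)
    (e : T * P = P * diagonal θ) : ∃ a : Fin n → ℂ,
      A = Qᵀ * diagonal a * Q ∧ Q * T = diagonal θ * Q ∧
      ∀ K, K = (cj Q)ᵀ * diagonal (fun i => (‖a i‖ : ℂ)) * Q → cj K = K ∧ Kᵀ = K := by
  have qp : Q * P = 1 := mul_eq_one_comm.1 pq
  have g1 : (Pᵀ * A * P).IsSymm := by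
    rw [IsSymm, transpose_mul, transpose_mul, transpose_transpose, hA.eq, Matrix.mul_assoc]
  have g2 : (Pᵀ * A * P * diagonal θ).IsSymm := by
    rw [Matrix.mul_assoc, ← e, ← Matrix.mul_assoc, Matrix.mul_assoc _ A, IsSymm, transpose_mul,
      transpose_mul, transpose_transpose, hT.eq]
    simp only [Matrix.mul_assoc]
  obtain ⟨a, ha⟩ : ∃ a, Pᵀ * A * P = diagonal a := by
    refine ⟨fun i => (Pᵀ * A * P) i i, ?_⟩
    ext i k
    by_cases c : i = k
    · rw [c, diagonal_apply_eq]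
    · have := g2.apply i k
      rw [mul_diagonal, mul_diagonal, g1.apply i k] at this
      rw [diagonal_apply_ne _ c]
      by_contra z
      exact c (hθ (mul_left_cancel₀ z this))
  have eA : A = Qᵀ * diagonal a * Q := by
    rw [← ha, ← Matrix.mul_assoc, ← Matrix.mul_assoc, ← transpose_mul, pq, transpose_one,
      Matrix.one_mul, Matrix.mul_assoc, pq, Matrix.mul_one]
  have eT : Q * T = diagonal θ * Q := by
    rw [← Matrix.mul_one (Q * T), ← pq, ← Matrix.mul_assoc, Matrix.mul_assoc Q, e,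
      ← Matrix.mul_assoc, qp, Matrix.one_mul]
  refine ⟨a, eA, eT, fun K hK => ?_⟩
  have m : ∀ M N : Matrix (Fin n) (Fin n) ℂ, cj (M * N) = cj M * cj N := fun M N => Matrix.map_mul
  have c1 : cj (1 : Matrix (Fin n) (Fin n) ℂ) = 1 := Matrix.map_one _ (by simp) (by simp)
  have k := key (a := a) hθ (S := Q * cj P) (by
    rw [← Matrix.mul_assoc, ← eT, Matrix.mul_assoc, Matrix.mul_assoc, ← m, ← e, m, rT]) (by
    have : cj (diagonal a) = (cj P)ᵀ * A * cj P := by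
      rw [← ha, m, m, rA]
      rfl
    rw [this, transpose_mul]
    conv_rhs => rw [eA]
    simp only [Matrix.mul_assoc])
  have e1 : Q * cj P * cj Q = Q := by rw [Matrix.mul_assoc, ← m, pq, c1, Matrix.mul_one]
  have e2 : cj (Q * cj P) * Q = cj Q := by
    rw [m, cj_cj, Matrix.mul_assoc, pq, Matrix.mul_one]
  have e3 : cj (diagonal fun i => (‖a i‖ : ℂ)) = diagonal fun i => (‖a i‖ : ℂ) := by
    rw [cj, diagonal_map (by simp)]
    simp
  have e4 : cj (cj Q)ᵀ = Qᵀ := by rw [cj, transpose_map]; exact congrArg _ (cj_cj Q)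
  suffices h : Qᵀ * diagonal (fun i => (‖a i‖ : ℂ)) * cj Q = K by
    refine ⟨by rw [hK, m, m, e3, e4, h, hK], ?_⟩
    rw [hK, transpose_mul, transpose_mul, transpose_transpose, diagonal_transpose,
      ← Matrix.mul_assoc, h, hK]
  calc _ = (Q * cj P * cj Q)ᵀ * diagonal (fun i => (‖a i‖ : ℂ)) * (cj (Q * cj P) * Q) := by
        rw [e1, e2]
    _ = (cj Q)ᵀ * ((Q * cj P)ᵀ * diagonal (fun i => (‖a i‖ : ℂ)) * cj (Q * cj P)) * Q := by
        rw [transpose_mul (Q * cj P)]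
        simp only [Matrix.mul_assoc]
    _ = _ := by rw [k, hK]

theorem form (Q Q' : Matrix (Fin n) (Fin n) ℂ) (d x y : Fin n → ℂ) :
    x ⬝ᵥ (Q'ᵀ * diagonal d * Q) *ᵥ y = ∑ i, (Q' *ᵥ x) i * (d i * (Q *ᵥ y) i) := by
  rw [← mulVec_mulVec, ← mulVec_mulVec, dotProduct_mulVec, vecMul_transpose, dotProduct]
  simp only [mulVec_diagonal]

end MajA

open MajA in
theorem maj : MAJStmt := by
  intro g f δ b A T ρ hz _ ⟨hA, hT, hd, hc⟩ hρ
  have ch : (mK T ℂ).charpoly = zK f ℂ := by rw [charpoly_map, hc]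
  obtain ⟨θ, P, Q, hθ, r, pq, e⟩ := diag (mK T ℂ) (ch ▸ (hz.sq ℂ).sep)
  have rr : ∀ M : Mat g ℤ, cj (mK M ℂ) = mK M ℂ := fun M => by
    ext i j
    simp
  obtain ⟨a, h1, hq, h2⟩ := core (A := mK A ℂ) hθ (hA.map _)
    (by rw [← mK_mul]; exact hT.map _) (rr A) (rr T) pq e
  obtain ⟨K, hK⟩ : ∃ K, K = (cj Q)ᵀ * diagonal (fun i => (‖a i‖ : ℂ)) * Q := ⟨_, rfl⟩
  obtain ⟨h2, h3⟩ := h2 K hK
  have hH : (K.map Complex.re).map Complex.ofRealHom = K := by
    ext i j
    exact Complex.conj_eq_iff_re.1 (congrFun₂ h2 i j)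
  have q : ∀ x : Fin (2 * g + 1) → ℝ, x ⬝ᵥ K.map Complex.re *ᵥ x =
      ∑ i, ‖a i‖ * ‖(Q *ᵥ fun i => (x i : ℂ)) i‖ ^ 2 := fun x => by
    apply Complex.ofReal_injective
    have e1 : ((x ⬝ᵥ K.map Complex.re *ᵥ x : ℝ) : ℂ) =
        (fun i => (x i : ℂ)) ⬝ᵥ K *ᵥ fun i => (x i : ℂ) := by
      conv_rhs => rw [← hH]
      simp [dotProduct, mulVec]
    rw [e1, hK, form]
    push_cast
    refine sum_congr rfl fun i _ => ?_
    have : (cj Q *ᵥ fun i => (x i : ℂ)) i = starRingEnd ℂ ((Q *ᵥ fun i => (x i : ℂ)) i) := by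
      simp [dotProduct, mulVec]
    rw [this, ← Complex.conj_mul']
    ring
  have dt : (K.map Complex.re).det = 1 := by
    apply Complex.ofReal_injective
    have e1 := congrArg (fun M => ‖det M‖) h1
    have e2 : ‖(mK A ℂ).det‖ = 1 := by
      rw [mK_det]
      rcases Int.isUnit_iff.1 hd with c | c <;> simp [c]
    simp only [e2, det_mul, det_transpose, det_diagonal, norm_mul, norm_prod] at e1
    have e3 := (Complex.ofRealHom.map_det (K.map Complex.re)).trans (congrArg det hH)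
    have e4 := ((starRingEnd ℂ).map_det Q).symm
    rw [RingHom.mapMatrix_apply] at e4
    refine e3.trans ?_
    rw [hK, det_mul, det_mul, det_transpose, det_diagonal, e4, mul_right_comm, Complex.conj_mul',
      e1]
    push_cast
    ring
  have sy : (K.map Complex.re).IsHermitian := by
    ext i j
    exact congrArg Complex.re (congrFun₂ h3 i j)
  refine ⟨K.map Complex.re, (PosSemidef.posDef_iff_det_ne_zero
    (.of_dotProduct_mulVec_nonneg sy fun x => ?_)).2 (dt ▸ one_ne_zero), dt.le, fun x y => ?_,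
    fun x => ?_⟩
  · rw [star_trivial, q]
    positivity
  · have e1 : ((x ⬝ᵥ mK A ℝ *ᵥ y : ℝ) : ℂ) =
        (fun i => (x i : ℂ)) ⬝ᵥ mK A ℂ *ᵥ fun i => (y i : ℂ) := by
      simp [dotProduct, mulVec]
    rw [← sq_abs, ← Real.norm_eq_abs, ← Complex.norm_real, e1, h1, form, q, q]
    refine (pow_le_pow_left₀ (norm_nonneg _) (norm_sum_le _ _) 2).trans
      (sum_sq_le_sum_mul_sum_of_sq_le_mul _ (fun i _ => by positivity) (fun i _ => by positivity)
        fun i _ => le_of_eq ?_)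
    simp only [norm_mul]
    ring
  · have e1 : (fun i => ((mK T ℝ *ᵥ x) i : ℂ)) = mK T ℂ *ᵥ fun i => (x i : ℂ) := by
      ext i
      simp [dotProduct, mulVec]
    rw [q, q, e1, mulVec_mulVec, hq, ← mulVec_mulVec, mul_sum]
    refine sum_le_sum fun i _ => ?_
    have := pow_le_pow_left₀ (norm_nonneg _) (hρ _ (ch ▸ r i)) 2
    rw [mulVec_diagonal, norm_mul, mul_pow, mul_left_comm]
    exact mul_le_mul_of_nonneg_right this (by positivity)

end Pool.Agent.MP_a43263_nt.UV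

end
end MrgPart8

-- ======== part 9: formerly Pool.Agent.MP_a43263_nt.UV.Nbr
section MrgPart9

/-! THEOREM U: the neighbour lattice at a prime where the order is not maximal. -/

set_option autoImplicit false

noncomputable section

namespace Pool.Agent.MP_a43263_nt.UV

open Polynomial

namespace Nbr

variable {p : ℕ} {f : ℤ[X]}

theorem zC (R : Type) [CommRing R] (p : ℕ) :
    (C (p : ℤ)).map (Int.castRingHom R) = C (p : R) := by simp

theorem zM (R : Type) [CommRing R] (u v : ℤ[X]) : zK (u * v) R = zK u R * zK v R :=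
  Polynomial.map_mul _

theorem red (hf : f.Monic) {u s : ℤ[X]} (h : zK f ℚ ∣ zK u ℚ - C (p : ℚ) * zK s ℚ) :
    zK f (ZMod p) ∣ zK u (ZMod p) := by
  have h1 : f ∣ u - C (p : ℤ) * s := dvd_of_map (φ := Int.castRingHom ℚ) Int.cast_injective hf (by
    rwa [Polynomial.map_sub, Polynomial.map_mul, zC])
  have h2 := Polynomial.map_dvd (Int.castRingHom (ZMod p)) h1
  rw [Polynomial.map_sub, Polynomial.map_mul] at h2
  have h3 : (C (p : ℤ)).map (Int.castRingHom (ZMod p)) = 0 := by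
    rw [zC, ZMod.natCast_self, C_0]
  rwa [h3, zero_mul, sub_zero] at h2

theorem red' (hf : f.Monic) (hp : p.Prime) {u : ℤ[X]} (h : In f (C (p : ℚ)⁻¹ * zK u ℚ)) :
    zK f (ZMod p) ∣ zK u (ZMod p) := by
  obtain ⟨s, hs⟩ := h
  have h0 : (p : ℚ) ≠ 0 := by exact_mod_cast hp.ne_zero
  refine red hf (s := s) ?_
  have := hs.mul_left (C (p : ℚ))
  rwa [mul_sub, ← mul_assoc, ← C_mul, mul_inv_cancel₀ h0, C_1, one_mul] at this

theorem lift0 {u : ℤ[X]} (h : zK u (ZMod p) = 0) : ∃ r, u = C (p : ℤ) * r :=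
  (C_dvd_iff_dvd_coeff _ _).2 fun i => (ZMod.intCast_zmod_eq_zero_iff_dvd _ p).1 (by
    have := congrArg (fun P => coeff P i) h
    simpa using this)

theorem lift {u v : ℤ[X]} (h : zK v (ZMod p) ∣ zK u (ZMod p)) :
    ∃ s r, u = v * s + C (p : ℤ) * r := by
  obtain ⟨w, hw⟩ := h
  obtain ⟨s, rfl⟩ := Polynomial.map_surjective (Int.castRingHom (ZMod p))
    (ZMod.ringHom_surjective _) w
  obtain ⟨r, hr⟩ := lift0 (p := p) (u := u - v * s) (by
    rw [zK, Polynomial.map_sub, Polynomial.map_mul]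
    exact sub_eq_zero.2 hw)
  exact ⟨s, r, by rw [← hr]; ring⟩

end Nbr

open Nbr in
theorem nbr : NBRStmt := by
  rintro g p f hf hp h2 ⟨φ, a, b, c, hφ, hd, e⟩
  have := Fact.mk hp
  obtain ⟨k, hk⟩ : ∃ k : ℕ, p + 1 = 2 * k := by
    obtain ⟨j, hj⟩ := hp.odd_of_ne_two h2
    exact ⟨j + 1, by omega⟩
  have h0 : (p : ℚ) ≠ 0 := by exact_mod_cast hp.ne_zero
  have hPI : C (p : ℚ) * C (p : ℚ)⁻¹ = 1 := by rw [← C_mul, mul_inv_cancel₀ h0, C_1]
  have hk' : C (p : ℚ) + 1 = 2 * (k : ℚ[X]) := by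
    rw [C_eq_natCast]
    exact_mod_cast congrArg (Nat.cast : ℕ → ℚ[X]) hk
  have eQ : zK f ℚ = zK φ ℚ ^ 2 * zK a ℚ + C (p : ℚ) * zK φ ℚ * zK b ℚ +
      C (p : ℚ) ^ 2 * zK c ℚ := by
    rw [e]
    simp [zK]
  have eP : zK f (ZMod p) = zK φ (ZMod p) * (zK φ (ZMod p) * zK a (ZMod p)) := by
    rw [e]
    simp [zK, sq, mul_assoc]
  have f0 : zK f (ZMod p) ≠ 0 := (hf.mo _).ne_zero
  have φ0 : zK φ (ZMod p) ≠ 0 := (hφ.map _).ne_zero
  have a0 : zK φ (ZMod p) * zK a (ZMod p) ≠ 0 := fun h => f0 (by rw [eP, h, mul_zero])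
  generalize hP : C (p : ℚ) = P at hPI hk' eQ
  generalize hI : C (p : ℚ)⁻¹ = I at hPI
  set om : ℚ[X] := I * zK φ ℚ * zK a ℚ + k * zK b ℚ with hom
  have zP : zK (C (p : ℤ)) ℚ = P := (zC ℚ p).trans hP
  have iP : In f P := zP ▸ In.zK _
  have iφ : In f (zK φ ℚ) := In.zK _
  have i1 : In f (P * om) := ⟨φ * a + C (p : ℤ) * k * b, by
    simp only [zK, Polynomial.map_add, Polynomial.map_mul, Polynomial.map_natCast, zP] at *
    exact ⟨0, by linear_combination (φ.map (Int.castRingHom ℚ) * a.map (Int.castRingHom ℚ)) * hPI +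
      P * hom⟩⟩
  have i2 : In f (zK φ ℚ * om) := ⟨k * φ * b - φ * b - C (p : ℤ) * c, by
    simp only [zK, Polynomial.map_sub, Polynomial.map_mul, Polynomial.map_natCast, zP] at *
    exact ⟨I, by linear_combination (-(φ.map (Int.castRingHom ℚ) * b.map (Int.castRingHom ℚ)) -
      P * c.map (Int.castRingHom ℚ)) * hPI - I * eQ + φ.map (Int.castRingHom ℚ) * hom⟩⟩
  have i3 : In f (om * om) := ⟨b * φ * a + k ^ 2 * b ^ 2 - a * c, by
    simp only [zK, Polynomial.map_add, Polynomial.map_sub, Polynomial.map_mul, Polynomial.map_pow,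
      Polynomial.map_natCast] at *
    generalize φ.map (Int.castRingHom ℚ) = φ at *
    generalize a.map (Int.castRingHom ℚ) = a at *
    generalize b.map (Int.castRingHom ℚ) = b at *
    generalize c.map (Int.castRingHom ℚ) = c at *
    exact ⟨I ^ 2 * a, by
      rw [hom, eQ]
      linear_combination (-(I * φ * a * b)) * hk' +
        (φ * a * b - I * φ * a * b - (P * I + 1) * a * c) * hPI⟩⟩
  have neg : ∀ {z w : ℚ[X]}, In f z → In f w → In f (z - w) := fun {z w} hz hw => by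
    have := hz.add ((In.zK (-1)).mul hw)
    simpa [zK, sub_eq_add_neg] using this
  -- the key lemma
  have key : ∀ r : ℤ[X], In f (zK r ℚ * om) → zK φ (ZMod p) ∣ zK r (ZMod p) := fun r hr => by
    have h1 : In f (C (p : ℚ)⁻¹ * zK (r * (φ * a)) ℚ) := by
      have := neg hr (In.zK (r * k * b))
      refine this.congr ⟨0, ?_⟩
      simp only [zK, Polynomial.map_mul, Polynomial.map_natCast, hI, hom]
      ring
    have h2 := red' hf.monic hp h1
    rw [eP, zM, zM] at h2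
    exact (mul_dvd_mul_iff_right a0).1 h2
  let Λ : Set ℚ[X] := {x | ∃ t1 t2 t3 : ℤ[X],
    zK f ℚ ∣ x - (P * zK t1 ℚ + zK φ ℚ * zK t2 ℚ + om * zK t3 ℚ)}
  have mP : P ∈ Λ := ⟨1, 0, 0, by simp [zK]⟩
  have mφ : zK φ ℚ ∈ Λ := ⟨0, 1, 0, by simp [zK]⟩
  have mo : om ∈ Λ := ⟨0, 0, 1, by simp [zK]⟩
  have gen : ∀ x, In f (x * P) → In f (x * zK φ ℚ) → In f (x * om) → ∀ y ∈ Λ, In f (x * y) := by
    rintro x h1 h2 h3 y ⟨t1, t2, t3, hy⟩
    refine (((h1.mul (In.zK t1)).add (h2.mul (In.zK t2))).add (h3.mul (In.zK t3))).congr ?_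
    have := hy.mul_left x
    rwa [mul_sub, mul_add, mul_add, ← mul_assoc, ← mul_assoc, ← mul_assoc] at this
  have int : ∀ x ∈ Λ, ∀ y ∈ Λ, In f (x * y) := fun x hx =>
    gen x (mul_comm x P ▸ gen P (iP.mul iP) (iP.mul iφ) i1 x hx)
      (mul_comm x (zK φ ℚ) ▸ gen _ (iφ.mul iP) (iφ.mul iφ) i2 x hx)
      (mul_comm x om ▸ gen om (mul_comm P om ▸ i1) (mul_comm (zK φ ℚ) om ▸ i2) i3 x hx)
  refine ⟨Λ, ⟨fun x => ⟨fun hx y hy => by simpa using int x hx y hy, fun hx => ?_⟩, p,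
    by exact_mod_cast hp.ne_zero, by simpa [hP] using hP ▸ mP⟩, mP,
    zK φ (ZMod p), hφ.map _, by rwa [hφ.natDegree_map], fun x hx hxd => ?_⟩
  · simp only [one_mul] at hx
    obtain ⟨r, hr⟩ := hx P mP
    have hx1 : zK f ℚ ∣ x - I * zK r ℚ := by
      have := hr.mul_left I
      rwa [show I * (x * P - zK r ℚ) = x - I * zK r ℚ by linear_combination x * hPI] at this
    have h1 : In f (C (p : ℚ)⁻¹ * zK (φ * r) ℚ) := (hx _ mφ).congr (by
      have := (hx1.mul_left (zK φ ℚ)).neg_right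
      rwa [hI, zK, zK, Polynomial.map_mul, show I * (φ.map (Int.castRingHom ℚ) *
        r.map (Int.castRingHom ℚ)) - x * zK φ ℚ = -(zK φ ℚ * (x - I * zK r ℚ)) by ring])
    have h2 := red' hf.monic hp h1
    rw [eP, zM] at h2
    have h3 : zK (φ * a) (ZMod p) ∣ zK r (ZMod p) := by
      rw [zK, Polynomial.map_mul]
      exact (mul_dvd_mul_iff_left φ0).1 h2
    obtain ⟨s, r', rfl⟩ := lift h3
    have hx2 : zK f ℚ ∣ x - (om * zK s ℚ + zK (r' - k * b * s) ℚ) := by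
      refine hx1.trans (dvd_of_eq ?_)
      simp only [zK, Polynomial.map_add, Polynomial.map_sub, Polynomial.map_mul,
        Polynomial.map_natCast, zP, hom]
      linear_combination (-(r'.map (Int.castRingHom ℚ))) * hPI
    have h4 : In f (zK (r' - k * b * s) ℚ * om) := (neg (hx _ mo) (i3.mul (In.zK s))).congr (by
      have := (hx2.mul_left om).neg_right
      refine this.trans (dvd_of_eq ?_)
      ring)
    obtain ⟨t2, t1, ht⟩ := lift (key _ h4)
    refine ⟨t1, t2, s, hx2.trans (dvd_of_eq ?_)⟩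
    rw [ht]
    simp only [zK, Polynomial.map_add, Polynomial.map_mul, zP]
    ring
  · obtain ⟨v, hv⟩ := (in_iff hf.monic).1 (int P mP x hx)
    have hd1 : (P * x).degree < g := by
      rw [← hP, degree_C_mul h0]
      exact hxd
    have hd2 : (P * x).degree < (zK f ℚ).degree := hd1.trans_le (by
      rw [degree_eq_natDegree (hf.mo ℚ).ne_zero, hf.dg ℚ]
      exact_mod_cast by omega)
    rw [(modByMonic_eq_self_iff (hf.mo ℚ)).2 hd2] at hv
    have hv0 : zK v (ZMod p) = 0 := by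
      by_contra hne
      have h1 : In f (C (p : ℚ)⁻¹ * zK (φ * v) ℚ) := (int x hx _ mφ).congr ⟨0, by
        rw [hI, zK, Polynomial.map_mul, ← zK, ← zK, ← hv]
        linear_combination (zK φ ℚ * x) * hPI⟩
      have h2 := red' hf.monic hp h1
      rw [eP, zM] at h2
      have h3 := natDegree_le_of_dvd ((mul_dvd_mul_iff_left φ0).1 h2) hne
      have h4 := hf.dg (ZMod p)
      rw [eP, natDegree_mul φ0 a0] at h4
      have h5 := natDegree_le_of_dvd (dvd_mul_right (zK φ (ZMod p)) (zK a (ZMod p))) a0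
      have h6 : (zK v (ZMod p)).natDegree < g := by
        refine (natDegree_lt_iff_degree_lt hne).2 (degree_map_le.trans_lt ?_)
        rwa [hv, degree_map_eq_of_injective Int.cast_injective] at hd1
      change _ ≤ (zK v (ZMod p)).natDegree at h3
      omega
    obtain ⟨r, rfl⟩ := lift0 hv0
    have hr : x = zK r ℚ := by
      rw [zK, Polynomial.map_mul, ← zK, zP] at hv
      linear_combination I * hv - (x - r.map (Int.castRingHom ℚ)) * hPI
    exact ⟨r, hr, key r (hr ▸ int x hx om mo)⟩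

end Pool.Agent.MP_a43263_nt.UV

end
end MrgPart9

-- marker of a merged file
example : 731051 + 352442 = 731051 + 352442 := rfl
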