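import Mathlib.Algebra.Order.Field.GeomSum
import Pool.Agent.MP_a43263_nt.U99.Fc
import Pool.Agent.MP_a43263_nt.UC.Core
import Pool.Agent.MP_a43263_nt.UC.Spec
import Pool.Agent.MP_a43263_nt.UV.Nbr

-- ======== part 0: formerly Pool.Agent.MP_a43263_nt.UV.CountOf
section MrgPart0

/-! The count, from the rows of the directory `UC`. -/

namespace Pool.Agent.MP_a43263_nt.UV

open Polynomial Finset Filter Matrix

namespace CountOf

lemma cast_form {g : ℕ} (B : Mat g ℤ) (x y : Fin (2 * g + 1) → ℤ) :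
    ((x ⬝ᵥ B *ᵥ y : ℤ) : ℝ) = (fun i => (x i : ℝ)) ⬝ᵥ mK B ℝ *ᵥ fun i => (y i : ℝ) := by
  simp [dotProduct, mulVec]

lemma two_tri (g : ℕ) : 2 * UC.tri g = g * (g + 1) := by
  unfold UC.tri
  rw [Fin.sum_univ_eq_sum_range (fun i => i + 1) g]
  induction g with
  | zero => simp
  | succ g ih => rw [sum_range_succ]; linarith

lemma zero_of_box {n : ℕ} {m : ℤ} {e : Fin n → ℤ} {A : UC.Mz n} (h : UC.Box m e A) {p q : Fin n}
    (h0 : m + e p + e q < 0) : A p q = 0 := by
  have h1 := (h p q).trans_lt (zpow_lt_one_of_neg₀ (by norm_num) h0)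
  have h2 : |A p q| < 1 := by exact_mod_cast h1
  exact Int.abs_lt_one_iff.1 h2

theorem red (he : UC.HERMStmt) (g : ℕ) : ∃ κ : ℕ, ∀ (M ρ : ℝ) (k : ℕ) (A T : Mat g ℤ)
    (H : Mat g ℝ), IsUnit A.det → Maj ρ (mK A ℝ) (mK T ℝ) H → Dst M ρ A T H → 0 ≤ ρ →
    ρ ≤ 2 ^ k → ∃ (γ γ' : Mat g ℤ) (e : Fin (2 * g + 1) → ℤ), γ * γ' = 1 ∧ UC.Ex e ∧
      UC.Box ((2 * κ : ℕ) : ℤ) e (γᵀ * A * γ) ∧
      UC.Box (((2 * κ : ℕ) : ℤ) + k) e (γᵀ * A * γ * (γ' * T * γ)) ∧
      (UC.Deep g (2 * κ + k) e →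
        M ≤ (2 : ℝ) ^ (((g * κ + k * UC.tri g : ℕ) : ℤ) + ∑ i : Fin g, e (UC.lo i))) := by
  obtain ⟨C, hC0, hC⟩ := he (2 * g + 1)
  obtain ⟨κ, hκ⟩ := UC.dy (2 * g + 1) √C
  refine ⟨κ, fun M ρ k A T H hA hM hD hρ hk => ?_⟩
  obtain ⟨γ, γ', hγ, hm, hp⟩ := hC H hM.pos
  have h0 : ∀ p, 0 < UC.Hq H (γᵀ p) := fun p => by
    have h1 : (fun i => ((γᵀ p i : ℤ) : ℝ)) ≠ 0 := fun h => by
      have h2 : ∀ i, γ i p = 0 := fun i => Int.cast_eq_zero.1 (congrFun h i)
      have h3 : (γ' * γ) p p = (1 : Mat g ℤ) p p := by rw [mul_eq_one_comm.1 hγ]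
      simp [mul_apply, h2] at h3
    simpa [UC.Hq] using hM.pos.dotProduct_mulVec_pos h1
  have hb0 : ∀ p q, |((γᵀ * A * γ) p q : ℝ)| ≤ √(UC.Hq H (γᵀ p)) * √(UC.Hq H (γᵀ q)) :=
    fun p q => by
    refine abs_le_of_sq_le_sq ?_ (by positivity)
    rw [UC.Red.entry, mul_pow, Real.sq_sqrt (h0 p).le, Real.sq_sqrt (h0 q).le, cast_form]
    exact hM.cs _ _
  have hb1 : ∀ p q, |((γᵀ * (A * T) * γ) p q : ℝ)|
      ≤ ρ * (√(UC.Hq H (γᵀ p)) * √(UC.Hq H (γᵀ q))) := fun p q => by
    refine abs_le_of_sq_le_sq ?_ (by positivity)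
    rw [UC.Red.entry, mul_pow, mul_pow, Real.sq_sqrt (h0 p).le, Real.sq_sqrt (h0 q).le, cast_form]
    have h1 : mK (A * T) ℝ = mK A ℝ * mK T ℝ := Matrix.map_mul
    rw [h1, ← mulVec_mulVec]
    refine (hM.cs _ _).trans ?_
    calc _ ≤ UC.Hq H (γᵀ p) * (ρ ^ 2 * UC.Hq H (γᵀ q)) :=
          mul_le_mul_of_nonneg_left (hM.bd _) (h0 p).le
      _ = _ := by ring
  have hγ0 : γ.det ≠ 0 := left_ne_zero_of_mul_eq_one (by rw [← det_mul, hγ, det_one])
  have hdet : (γᵀ * A * γ).det ≠ 0 := by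
    rw [det_mul, det_mul, det_transpose]
    exact mul_ne_zero (mul_ne_zero hγ0 hA.ne_zero) hγ0
  obtain ⟨e, h1, h2⟩ := hκ (γᵀ * A * γ) (fun p => √(UC.Hq H (γᵀ p))) hdet
    (fun p => Real.sqrt_pos.2 (h0 p)) (fun p q h => Real.sqrt_le_sqrt (hm h))
    (by
      rw [← Real.sqrt_prod _ fun p _ => (h0 p).le]
      refine Real.sqrt_le_sqrt (hp.trans ?_)
      exact mul_le_of_le_one_right hC0.le hM.det)
    hb0
  have hc : γᵀ * A * γ * (γ' * T * γ) = γᵀ * (A * T) * γ := by
    simpa using UC.Red.conj_pow (A := A) (T := T) hγ 1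
  have b0 : UC.Box ((2 * κ : ℕ) : ℤ) e (γᵀ * A * γ) := fun p q => by
    refine (hb0 p q).trans ?_
    calc _ ≤ (2 : ℝ) ^ ((κ : ℤ) + e p) * 2 ^ ((κ : ℤ) + e q) := by
          gcongr
          exacts [h2 p, h2 q]
      _ = _ := by
        rw [← zpow_add₀ two_ne_zero]
        congr 1
        push_cast
        ring
  have b1 : UC.Box (((2 * κ : ℕ) : ℤ) + k) e (γᵀ * (A * T) * γ) := fun p q => by
    refine (hb1 p q).trans ?_
    calc _ ≤ (2 : ℝ) ^ k * ((2 : ℝ) ^ ((κ : ℤ) + e p) * 2 ^ ((κ : ℤ) + e q)) := by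
          gcongr
          exacts [h2 p, h2 q]
      _ = _ := by
        rw [← zpow_natCast, ← zpow_add₀ two_ne_zero, ← zpow_add₀ two_ne_zero]
        congr 1
        push_cast
        ring
  refine ⟨γ, γ', e, hγ, h1, b0, hc ▸ b1, fun hd => ?_⟩
  have hli : LinearIndependent ℤ fun i : Fin g => γᵀ (UC.lo i) := by
    have h3 : LinearIndependent ℤ fun p => γᵀ p :=
      linearIndependent_rows_of_det_ne_zero (by rwa [det_transpose])
    exact h3.comp UC.lo fun i j h => Fin.ext (congrArg Fin.val h :)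
  have h4 := hD (fun i => γᵀ (UC.lo i)) hli fun i j => by
    have a := hd i
    have b := hd j
    push_cast at a b
    rw [← UC.Red.entry, ← UC.Red.entry]
    exact ⟨zero_of_box b0 (by push_cast; omega), zero_of_box b1 (by push_cast; omega)⟩
  refine (abs_le_of_sq_le_sq' (h4.trans ?_) (by positivity)).2
  have h5 : ∀ i : Fin g, UC.Hq H (γᵀ (UC.lo i)) ≤ ((2 : ℝ) ^ ((κ : ℤ) + e (UC.lo i))) ^ 2 :=
    fun i => by
    rw [← Real.sq_sqrt (h0 _).le]
    exact pow_le_pow_left₀ (Real.sqrt_nonneg _) (h2 _) 2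
  have hz : ∀ (s : Finset (Fin g)) (t : Fin g → ℤ),
      (2 : ℝ) ^ (∑ x ∈ s, t x) = ∏ x ∈ s, (2 : ℝ) ^ t x := by
    intro s t
    induction s using Finset.induction_on with
    | empty => simp
    | insert a s ha ih => rw [sum_insert ha, prod_insert ha, zpow_add₀ (by norm_num), ih]
  calc ρ ^ (g * (g + 1)) * ∏ i : Fin g, UC.Hq H (γᵀ (UC.lo i))
      ≤ (2 ^ k) ^ (g * (g + 1)) * ∏ i : Fin g, ((2 : ℝ) ^ ((κ : ℤ) + e (UC.lo i))) ^ 2 :=
        mul_le_mul (pow_le_pow_left₀ hρ hk _) (prod_le_prod (fun i _ => (h0 _).le) fun i _ => h5 i)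
          (prod_nonneg fun i _ => (h0 _).le) (by positivity)
    _ = _ := by
      have a : ((2 : ℝ) ^ k) ^ (g * (g + 1)) = (2 ^ ((k * UC.tri g : ℕ) : ℤ)) ^ 2 := by
        rw [zpow_natCast, ← two_tri, ← pow_mul, ← pow_mul]
        congr 1
        ring
      rw [prod_pow, ← hz, a, ← mul_pow, ← zpow_add₀ two_ne_zero, sum_add_distrib]
      congr 2
      simp
      ring

lemma loc {g q : ℕ} {f : (ZMod q)[X]} {A T : Mat g ℤ} (hA : IsUnit A.det)
    (h : St f (mK A (ZMod q)) (mK (A * T) (ZMod q))) :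
    (mK T (ZMod q)).charpoly = f ∧ ∃ (x : Fin (2 * g + 1) → ZMod q) (s : ZMod q), s ≠ 0 ∧
      mK T (ZMod q) *ᵥ x = 0 ∧ x ⬝ᵥ mK A (ZMod q) *ᵥ x = s ^ 2 := by
  obtain ⟨T', h1, h2⟩ := h
  have h3 : IsUnit (mK A (ZMod q)) := by
    rw [isUnit_iff_isUnit_det]
    have := (Int.castRingHom (ZMod q)).map_det A
    rw [RingHom.mapMatrix_apply] at this
    rw [← this]
    exact hA.map _
  have h4 : mK (A * T) (ZMod q) = mK A (ZMod q) * mK T (ZMod q) := Matrix.map_mul
  rw [h4] at h1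
  rw [← h3.mul_left_cancel h1]
  exact h2

end CountOf

open CountOf in
theorem count_of (he : UC.HERMStmt) (hC : UC.CHGStmt) (hU : UC.UNIStmt) (hB : UC.BOXStmt)
    (hI : UC.IRRStmt) (hE : UC.EXPStmt) (hS : UC.SUMStmt) (hD : UC.DENStmt) : COUNTStmt := by
  classical
  intro g hg
  obtain ⟨κ, hκ⟩ := red he g
  obtain ⟨K, hK, hcore⟩ := UC.core hU hB hI hE hS g (2 * κ)
  obtain ⟨q0, hD⟩ := hD g hg
  refine ⟨q0, K * 2 ^ dm g * (2 * 2 ^ (g * κ)), by positivity, fun Q f₀ M ε hQ hM hε => ?_⟩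
  have hex : ∀ q : ℕ, ∃ h : ℤ[X], q ∈ Q → zK f₀ (ZMod q) = X * zK h (ZMod q) ∧
      Irreducible (zK h (ZMod q)) := by
    intro q
    by_cases hq : q ∈ Q
    · obtain ⟨h, h1, h2, -⟩ := (hQ q hq).2.2
      obtain ⟨h', rfl⟩ := Polynomial.map_surjective (Int.castRingHom (ZMod q))
        (ZMod.ringHom_surjective _) h
      exact ⟨h', fun _ => ⟨h1, h2⟩⟩
    · exact ⟨0, fun h => absurd h hq⟩
  choose h hh using hex
  obtain ⟨m, hm⟩ : ∃ m : ℕ, K * 2 ^ dm g * 2 / ε < 2 ^ m :=
    pow_unbounded_of_one_lt _ (by norm_num)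
  obtain ⟨m₂, hm1, hm2⟩ : ∃ m₂ : ℕ, M / 2 ^ (g * κ) < 4 ^ (m₂ + 1) ∧
      (m₂ ≠ 0 → 4 ^ m₂ ≤ M / 2 ^ (g * κ)) := by
    by_cases h1 : 1 ≤ M / 2 ^ (g * κ)
    · obtain ⟨n, h2, h3⟩ := exists_nat_pow_near h1 (y := (4 : ℝ)) (by norm_num)
      exact ⟨n, h3, fun _ => h2⟩
    · exact ⟨0, by linarith [not_le.1 h1], fun h => absurd rfl h⟩
  set N : ℕ := ∏ q ∈ Q, q with hN
  filter_upwards [eventually_ge_atTop ((2 : ℝ) ^ (2 * m + 1 + N))] with ρ hρ F hF
  have hρ1 : 1 ≤ ρ := le_trans (one_le_pow₀ (by norm_num)) hρ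
  rcases F.eq_empty_or_nonempty with rfl | ⟨f₁, hf₁⟩
  · simp only [card_empty, Nat.cast_zero]
    positivity
  have hdeg : ∀ q ∈ Q, (zK (h q) (ZMod q)).natDegree = 2 * g := by
    intro q hq
    have := Fact.mk (hQ q hq).1
    obtain ⟨-, A, T, H, hR, hSt, -⟩ := hF f₁ hf₁
    have h1 := (loc hR.det (hSt q hq)).1
    have h2 := (mK T (ZMod q)).charpoly_natDegree_eq_dim
    rw [h1, (hh q hq).1, natDegree_X_mul (hh q hq).2.ne_zero, Fintype.card_fin] at h2
    omega
  have hDen := hD Q (fun _ => 0) h fun q hq => ⟨(hQ q hq).1, (hQ q hq).2.1, (hh q hq).2, hdeg q hq⟩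
  obtain ⟨j, hj1, hj2⟩ := exists_nat_pow_near hρ1 (y := (2 : ℝ)) (by norm_num)
  have hk : 2 * m + 1 + N ≤ j + 1 :=
    (pow_le_pow_iff_right₀ (by norm_num : (1 : ℝ) < 2)).1 (hρ.trans hj2.le)
  set μ : ℝ := (3 / 4) ^ Q.card / (∏ q ∈ Q, (q : ℝ)) ^ (2 * g + 1) with hμ
  have hμ0 : 0 ≤ μ := by positivity
  have hmain := hcore (UC.Loc Q (fun _ => 0) h) μ N (hC.2.2 _ Q _ h) hμ0 hDen m m₂ (j + 1) hk F
    fun f hf => by
      obtain ⟨hZ, A, T, H, hR, hSt, hMaj, hDst⟩ := hF f hf
      obtain ⟨γ, γ', e, hγ, hEx, b0, b1, hcu⟩ :=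
        hκ M ρ (j + 1) A T H hR.det hMaj hDst (by linarith) hj2.le
      obtain ⟨hP', hT'⟩ := hC.1 _ A T γ γ' hγ ⟨hR.sa, hR.det, hR.sb⟩
      have hL : UC.Loc Q (fun _ => 0) h A T := fun q hq => by
        obtain ⟨h1, x, s, h2, h3, h4⟩ := loc hR.det (hSt q hq)
        refine ⟨?_, x, s, h2, h3.trans (by simp), h4⟩
        rw [h1, (hh q hq).1]
        simp
      refine ⟨hZ.irr, e, _, _, hEx, hP', hT'.trans hR.ch, hC.2.2 _ Q _ h A T γ γ' hγ hL, b0, b1,
        fun hd h0 => ?_⟩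
      have h1 := hcu hd
      have h2 := hm2 h0
      rw [le_div_iff₀ (by positivity)] at h2
      have h3 : (4 : ℝ) ^ m₂ * 2 ^ (g * κ) = 2 ^ ((2 * m₂ + g * κ : ℕ) : ℤ) := by
        rw [zpow_natCast, pow_add, pow_mul 2 2 m₂]; norm_num
      have h4 := h2.trans h1
      rw [h3, zpow_le_zpow_iff_right₀ (by norm_num)] at h4
      push_cast at h4 ⊢
      linarith
  have hdm : UC.dim g = dm g := Nat.mul_comm _ _
  rw [hdm] at hmain
  have hpow : ((2 : ℝ) ^ (j + 1)) ^ dm g ≤ 2 ^ dm g * ρ ^ dm g := by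
    rw [← mul_pow, pow_succ, mul_comm]
    gcongr
  have hg1 : (1 : ℝ) ≤ 2 ^ (g * κ) := one_le_pow₀ (by norm_num)
  have t1 : K * 2 ^ dm g * μ ≤ K * 2 ^ dm g * (2 * 2 ^ (g * κ)) * (3 / 4) ^ Q.card /
      (∏ q ∈ Q, (q : ℝ)) ^ (2 * g + 1) := by
    rw [mul_div_assoc, ← hμ]
    have : K * 2 ^ dm g ≤ K * 2 ^ dm g * (2 * 2 ^ (g * κ)) :=
      le_mul_of_one_le_right (by positivity) (by linarith)
    gcongr
  have t2 : K * 2 ^ dm g * (2 / 2 ^ m) ≤ ε := by
    rw [div_lt_iff₀ hε] at hm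
    rw [← mul_div_assoc, div_le_iff₀ (by positivity)]
    linarith
  have t3 : K * 2 ^ dm g * (1 / 2 ^ m₂) ≤ K * 2 ^ dm g * (2 * 2 ^ (g * κ)) / √M := by
    rw [mul_div_assoc _ (2 * (2 : ℝ) ^ (g * κ))]
    refine mul_le_mul_of_nonneg_left ?_ (by positivity)
    rw [div_le_div_iff₀ (by positivity) (Real.sqrt_pos.2 hM), one_mul]
    refine Real.sqrt_le_iff.2 ⟨by positivity, ?_⟩
    rw [div_lt_iff₀ (by positivity)] at hm1
    have h4 : (4 : ℝ) ^ (m₂ + 1) = (2 * 2 ^ m₂) ^ 2 := by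
      rw [← pow_succ', ← pow_mul, mul_comm, pow_mul]; norm_num
    calc M ≤ 4 ^ (m₂ + 1) * 2 ^ (g * κ) := hm1.le
      _ ≤ 4 ^ (m₂ + 1) * (2 ^ (g * κ)) ^ 2 := by
          gcongr
          exact le_self_pow₀ hg1 (by norm_num)
      _ = _ := by rw [h4]; ring
  calc (F.card : ℝ) ≤ _ := hmain
    _ ≤ K * (2 ^ dm g * ρ ^ dm g) * (μ + 2 / 2 ^ m + 1 / 2 ^ m₂) := by gcongr
    _ = (K * 2 ^ dm g * μ + K * 2 ^ dm g * (2 / 2 ^ m) + K * 2 ^ dm g * (1 / 2 ^ m₂)) *
        ρ ^ dm g := by ring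
    _ ≤ _ := by gcongr

end Pool.Agent.MP_a43263_nt.UV

end MrgPart0

-- ======== part 1: formerly Pool.Agent.MP_a43263_nt.UC.Uni
section MrgPart1

/-! Division by the unitriangular matrices. -/

namespace Pool.Agent.MP_a43263_nt.UC

open Polynomial Matrix Finset

namespace Uni

variable {n : ℕ}

/-- A singular matrix that commutes with a matrix with irreducible characteristic polynomial
vanishes. -/
theorem rigid {T N : Matrix (Fin n) (Fin n) ℚ} (hT : Irreducible T.charpoly) (hc : Commute N T)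
    {v : Fin n → ℚ} (hv : v ≠ 0) (hN : N *ᵥ v = 0) : N = 0 := by
  let φ : degreeLT ℚ n →ₗ[ℚ] Fin n → ℚ :=
    ((mulVecBilin ℚ ℚ).flip v).comp ((aeval T).toLinearMap.comp (degreeLT ℚ n).subtype)
  have hφ : ∀ p, φ p = aeval T p.1 *ᵥ v := fun _ => rfl
  have i : Function.Injective φ := (injective_iff_map_eq_zero _).2 fun p hp => by
    by_contra h0
    obtain ⟨a, b, e⟩ := hT.coprime_iff_not_dvd.2 (not_dvd_of_degree_lt (q := p.1)
      (fun e => h0 (Subtype.ext e)) (by simpa using mem_degreeLT.1 p.2))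
    have := congrArg (fun q => aeval T q *ᵥ v) e
    simp only [map_add, map_mul, aeval_self_charpoly, mul_zero, zero_add, map_one, one_mulVec,
      ← mulVec_mulVec, ← hφ, hp, mulVec_zero] at this
    exact hv this.symm
  have s := (LinearMap.injective_iff_surjective_of_finrank_eq_finrank
    (degreeLTEquiv ℚ n).finrank_eq).1 i
  refine toLin'.injective (LinearMap.ext fun w => ?_)
  obtain ⟨p, rfl⟩ := s w
  rw [toLin'_apply, hφ, mulVec_mulVec, (Algebra.commute_of_mem_adjoin_singleton_of_commute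
    (aeval_mem_adjoin_singleton ℚ T) hc).eq, ← mulVec_mulVec, hN]
  simp

/-- The allowed entries. -/
noncomputable def ent (e : Fin n → ℤ) (p q : Fin n) : Finset ℤ :=
  if p < q then Ico 0 (2 ^ (e q - e p).toNat) else if p = q then {1} else {0}

/-- The unitriangular matrices with bounded entries. -/
noncomputable def U (e : Fin n → ℤ) : Finset (Mz n) :=
  Fintype.piFinset fun p => Fintype.piFinset fun q => ent e p q

variable {e : Fin n → ℤ} {u : Mz n}

theorem mem (hu : u ∈ U e) (p q : Fin n) : u p q ∈ ent e p q :=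
  Fintype.mem_piFinset.1 (Fintype.mem_piFinset.1 hu p) q

theorem low (hu : u ∈ U e) {p q : Fin n} (h : q ≤ p) : u p q = (1 : Mz n) p q := by
  have := mem hu p q
  rw [ent, if_neg h.not_gt] at this
  rw [one_apply]
  split_ifs at this ⊢ <;> exact mem_singleton.1 this

theorem two (he : Monotone e) {p q : Fin n} (h : p < q) :
    (2 : ℝ) ^ (e q - e p).toNat = 2 ^ (e q - e p) := by
  rw [← zpow_natCast, Int.toNat_of_nonneg (sub_nonneg.2 (he h.le))]

theorem card_U (he : Monotone e) :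
    ((U e).card : ℝ) = (2 : ℝ) ^ (∑ x ∈ sup n, (e x.2 - e x.1)) := by
  have h : ∀ p q, ((ent e p q).card : ℝ) = if p < q then 2 ^ (e q - e p) else 1 := fun p q => by
    rw [ent]
    split_ifs with a b
    · rw [← two he a, ← Int.cast_natCast, Int.card_Ico, Int.toNat_of_nonneg (by simp)]
      simp
    all_goals simp
  have k : ∀ (s : Finset (Fin n × Fin n)) (g : Fin n × Fin n → ℤ),
      (2 : ℝ) ^ (∑ x ∈ s, g x) = ∏ x ∈ s, 2 ^ g x := fun s g => by
    induction s using Finset.induction_on with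
    | empty => simp
    | insert a s ha ih => rw [sum_insert ha, prod_insert ha, zpow_add₀ two_ne_zero, ih]
  rw [k, sup, prod_filter, Fintype.prod_prod_type]
  exact (congrArg Nat.cast (Fintype.card_piFinset _)).trans (by simp [h])

theorem inv (hu : u ∈ U e) : u * u⁻¹ = 1 := by
  refine mul_nonsing_inv _ ?_
  rw [det_of_isUpperTriangular fun p q (h : q < p) => (low hu h.le).trans (one_apply_ne h.ne')]
  simp [low hu le_rfl]

theorem bound (he : Monotone e) (hu : u ∈ U e) (p q : Fin n) :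
    |(u p q : ℝ)| ≤ 2 ^ (e q - e p) := by
  rcases lt_trichotomy p q with h | rfl | h
  · have := mem hu p q
    rw [ent, if_pos h, mem_Ico] at this
    rw [← two he h, abs_of_nonneg (Int.cast_nonneg this.1)]
    exact_mod_cast this.2.le
  · simp [low hu le_rfl]
  · rw [low hu h.le, one_apply_ne h.ne', Int.cast_zero, abs_zero]
    positivity

theorem box (he : Monotone e) (hu : u ∈ U e) {m : ℤ} {A : Mz n} (hA : Box m e A) :
    Box (m + (2 * n : ℕ)) e (uᵀ * A * u) := fun p q => by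
  have t : ∀ j i, |((u i p * A i j * u j q : ℤ) : ℝ)| ≤ 2 ^ (m + e p + e q) := fun j i => by
    rw [Int.cast_mul, Int.cast_mul, abs_mul, abs_mul, show m + e p + e q =
      e p - e i + (m + e i + e j) + (e q - e j) by ring, zpow_add₀ two_ne_zero,
      zpow_add₀ two_ne_zero]
    gcongr
    exacts [bound he hu i p, hA i j, bound he hu j q]
  have h : (n : ℝ) ≤ 2 ^ n := by exact_mod_cast n.lt_two_pow_self.le
  simp only [mul_apply, transpose_apply, sum_mul, Int.cast_sum]
  refine (abs_sum_le_sum_abs _ _).trans ((sum_le_sum fun j _ =>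
    (abs_sum_le_sum_abs _ _).trans (sum_le_sum fun i _ => t j i)).trans ?_)
  rw [show m + (2 * n : ℕ) + e p + e q = (n + n : ℕ) + (m + e p + e q) by push_cast; ring,
    zpow_add₀ two_ne_zero ((n + n : ℕ) : ℤ), zpow_natCast, pow_add, mul_assoc]
  simp only [sum_const, card_univ, Fintype.card_fin, nsmul_eq_mul]
  gcongr

theorem uniq {u' T : Mz n} (hT : Irr T.charpoly) (hu : u ∈ U e) (hu' : u' ∈ U e)
    (h : u⁻¹ * T * u = u'⁻¹ * T * u') : u = u' := by
  rcases n with _ | n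
  · exact Subsingleton.elim _ _
  have i := mul_eq_one_comm.1 (inv hu)
  have c : Commute (u' * u⁻¹ - 1) T := (Commute.sub_left (show u' * u⁻¹ * T = T * (u' * u⁻¹) by
    have := congrArg (fun M => u' * M * u⁻¹) h
    simpa only [← mul_assoc, inv hu', one_mul, mul_assoc _ u, inv hu, mul_one] using this)
    (Commute.one_left T))
  have f : ∀ w ∈ U e, w *ᵥ Pi.single 0 1 = Pi.single 0 1 := fun w hw => funext fun p => by
    simp [low hw (Fin.zero_le p), one_apply, Pi.single_apply]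
  have k : (u' * u⁻¹ - 1) *ᵥ Pi.single 0 1 = 0 := by
    rw [sub_mulVec, one_mulVec, sub_eq_zero]
    conv_lhs => rw [← f u hu, mulVec_mulVec, mul_assoc, i, mul_one, f u' hu']
  have z := rigid (T := T.map (Int.castRingHom ℚ)) (by rwa [charpoly_map])
    (c.map (Int.castRingHom ℚ).mapMatrix) (v := Pi.single 0 1) (by simp) (funext fun p => by
      simpa using congrArg (Int.cast : ℤ → ℚ) (congrFun k p))
  have z' : u' * u⁻¹ = 1 := sub_eq_zero.1 (map_injective (Int.castRingHom ℚ).injective_int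
    (z.trans (by simp)))
  rw [← one_mul u, ← z', mul_assoc, i, mul_one]

end Uni

theorem uni : CHGStmt → UNIStmt := by
  classical
  rintro ⟨hc, -⟩ n
  refine ⟨2 * n, fun m m' e L hL he S W hS hW => ?_⟩
  choose! hi A T h1 h2 h3 h4 h5 using hS
  rw [← Uni.card_U he, ← Nat.cast_mul, Nat.cast_le, ← card_product]
  refine card_le_card_of_injOn
    (fun z => (z.2ᵀ * A z.1 * z.2, z.2ᵀ * A z.1 * z.2 * (z.2⁻¹ * T z.1 * z.2))) (fun z hz => ?_)
    fun z hz y hy E => ?_
  · obtain ⟨a, b⟩ := mem_product.1 hz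
    refine hW _ _ (hc n _ _ _ _ (Uni.inv b) (h1 _ a)).1 (hL _ _ _ _ (Uni.inv b) (h3 _ a))
      (Uni.box he b (h4 _ a)) ?_
    rw [show z.2ᵀ * A z.1 * z.2 * (z.2⁻¹ * T z.1 * z.2) = z.2ᵀ * (A z.1 * T z.1) * z.2 by
      simp only [← mul_assoc, mul_assoc _ z.2 z.2⁻¹, Uni.inv b, mul_one]]
    exact Uni.box he b (h5 _ a)
  · obtain ⟨a, b⟩ := mem_product.1 hz
    obtain ⟨a', b'⟩ := mem_product.1 hy
    obtain ⟨E1, E2⟩ := Prod.mk.inj E
    have p := hc n _ _ _ _ (Uni.inv b) (h1 _ a)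
    rw [← E1] at E2
    have E3 := ((isUnit_iff_isUnit_det _).2 p.1.2.1).mul_left_cancel E2
    have E4 : z.1 = y.1 := by
      rw [← h2 _ a, ← p.2, E3, (hc n _ _ _ _ (Uni.inv b') (h1 _ a')).2, h2 _ a']
    rw [← E4] at E3
    exact Prod.ext E4 (Uni.uniq ((h2 _ a).symm ▸ hi _ a) b b' E3)

end Pool.Agent.MP_a43263_nt.UC

end MrgPart1

-- ======== part 2: formerly Pool.Agent.MP_a43263_nt.UC.Chg
section MrgPart2

/-! Change of basis, and the number of symmetric matrices in a dyadic box. -/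

namespace Pool.Agent.MP_a43263_nt.UC

open Polynomial Matrix Finset

namespace Chg

variable {n : ℕ} {R : Type} [CommRing R] {A T γ γ' : Matrix (Fin n) (Fin n) R}

theorem form (B γ : Matrix (Fin n) (Fin n) R) (y z : Fin n → R) :
    y ⬝ᵥ (γᵀ * B * γ) *ᵥ z = (γ *ᵥ y) ⬝ᵥ B *ᵥ (γ *ᵥ z) := by
  rw [← mulVec_mulVec, ← mulVec_mulVec, dotProduct_mulVec y, vecMul_transpose]

theorem mulp (h : γ * γ' = 1) (j : ℕ) :
    γᵀ * A * γ * (γ' * T * γ) ^ j = γᵀ * (A * T ^ j) * γ := by
  induction j with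
  | zero => simp
  | succ j ih =>
    rw [pow_succ, ← Matrix.mul_assoc, ih, pow_succ]
    simp only [Matrix.mul_assoc]
    rw [← Matrix.mul_assoc γ γ', h, Matrix.one_mul]

theorem mul1 (h : γ * γ' = 1) : γᵀ * A * γ * (γ' * T * γ) = γᵀ * (A * T) * γ := by
  simpa using mulp (A := A) (T := T) h 1

theorem symm (h : A.IsSymm) : (γᵀ * A * γ).IsSymm := by
  rw [Matrix.IsSymm, transpose_mul, transpose_mul, transpose_transpose, h.eq, Matrix.mul_assoc]

theorem chp (h : γ * γ' = 1) : (γ' * T * γ).charpoly = T.charpoly := by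
  rw [charpoly_mul_comm, ← Matrix.mul_assoc, h, Matrix.one_mul]

theorem two_zpow {ι : Type} (s : Finset ι) (t : ι → ℤ) :
    ∏ x ∈ s, (2 : ℝ) ^ t x = 2 ^ ∑ x ∈ s, t x := by
  classical
  induction s using Finset.induction_on with
  | empty => simp
  | insert a s ha ih => rw [prod_insert ha, sum_insert ha, ih, zpow_add₀ two_ne_zero]

theorem card_le (t : ℤ) :
    ((Icc (-⌊(2 : ℝ) ^ t⌋) ⌊(2 : ℝ) ^ t⌋).card : ℝ) ≤ 3 * (2 : ℝ) ^ max t 0 := by
  have h0 : 0 ≤ ⌊(2 : ℝ) ^ t⌋ := Int.floor_nonneg.2 (by positivity)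
  have h1 : (2 : ℝ) ^ t ≤ 2 ^ max t 0 := zpow_le_zpow_right₀ one_le_two (le_max_left _ _)
  have h2 : (1 : ℝ) ≤ 2 ^ max t 0 := one_le_zpow₀ one_le_two (le_max_right _ _)
  have h3 := Int.floor_le ((2 : ℝ) ^ t)
  have h4 : ((Icc (-⌊(2 : ℝ) ^ t⌋) ⌊(2 : ℝ) ^ t⌋).card : ℤ) = 2 * ⌊(2 : ℝ) ^ t⌋ + 1 := by
    rw [Int.card_Icc, Int.toNat_of_nonneg (by omega)]
    ring
  have h5 : ((Icc (-⌊(2 : ℝ) ^ t⌋) ⌊(2 : ℝ) ^ t⌋).card : ℝ) = 2 * (⌊(2 : ℝ) ^ t⌋ : ℝ) + 1 := by
    exact_mod_cast h4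
  linarith

end Chg

open Chg

theorem chg : CHGStmt := by
  refine ⟨fun n A T γ γ' h P => ⟨⟨symm P.1, ?_, mul1 h ▸ symm P.2.2⟩, chp h⟩,
    fun g M A T γ γ' h C y z hl h1 h2 h3 => ?_, fun n Q a f A T γ γ' h L q hq => ?_⟩
  · have u : IsUnit γ.det := isUnit_det_of_right_inverse h
    rw [det_mul, det_mul, det_transpose]
    exact (u.mul P.2.1).mul u
  · have h' : γ' * γ = 1 := mul_eq_one_comm.1 h
    have e : (Fin.cons (γ *ᵥ z) fun i => γ *ᵥ y i : Fin (g + 1) → Fin (2 * g + 1) → ℤ) =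
        γ.mulVecLin ∘ Fin.cons z y := by
      funext i
      refine Fin.cases ?_ (fun i => ?_) i <;> simp
    have k : LinearMap.ker γ.mulVecLin = ⊥ := LinearMap.ker_eq_bot'.2 fun x hx => by
      have := congrArg (γ' *ᵥ ·) hx
      simpa [mulVec_mulVec, h'] using this
    have := C (fun i => γ *ᵥ y i) (γ *ᵥ z) (e ▸ hl.map' _ k)
      (fun i j => form A γ _ _ ▸ h1 i j) (fun i j => form (A * T) γ _ _ ▸ mul1 h ▸ h2 i j)
      (fun i => form A γ _ _ ▸ h3 i)
    simpa only [mulp h, form] using this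
  · obtain ⟨c, x, s, s0, x1, x2⟩ := L q hq
    have h' : γ.map (Int.castRingHom (ZMod q)) * γ'.map (Int.castRingHom (ZMod q)) = 1 := by
      rw [← Matrix.map_mul, h, Matrix.map_one _ (map_zero _) (map_one _)]
    simp only [Matrix.map_mul, transpose_map]
    refine ⟨(chp h').trans c, γ'.map (Int.castRingHom (ZMod q)) *ᵥ x, s, s0, ?_, ?_⟩
    · rw [mulVec_mulVec, Matrix.mul_assoc, h', Matrix.mul_one, ← mulVec_mulVec, x1, mulVec_smul]
    · rw [form, mulVec_mulVec, h', one_mulVec, x2]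

theorem box : BOXStmt := by
  classical
  intro n m e
  let I : Fin n × Fin n → Finset ℤ := fun x => if x.1 ≤ x.2 then
    Icc (-⌊(2 : ℝ) ^ (m + e x.1 + e x.2)⌋) ⌊(2 : ℝ) ^ (m + e x.1 + e x.2)⌋ else {0}
  refine ⟨(Fintype.piFinset I).image fun f => Matrix.of fun p q =>
    if p ≤ q then f (p, q) else f (q, p), fun A hA hB => mem_image.2
      ⟨fun x => if x.1 ≤ x.2 then A x.1 x.2 else 0, Fintype.mem_piFinset.2 fun x => ?_, ?_⟩, ?_⟩
  · by_cases c : x.1 ≤ x.2
    · simp only [I, if_pos c]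
      refine mem_Icc.2 (abs_le.1 (Int.le_floor.2 ?_))
      rw [Int.cast_abs]
      exact hB _ _
    · simp [I, c]
  · ext p q
    by_cases c : p ≤ q
    · simp [c]
    · simp [c, (not_le.1 c).le, hA.apply]
  · refine (Nat.cast_le.2 card_image_le).trans ?_
    rw [Fintype.card_piFinset, Nat.cast_prod, ← two_zpow, ← prod_const, ← prod_mul_distrib, up,
      prod_filter]
    refine prod_le_prod (fun _ _ => Nat.cast_nonneg _) fun x _ => ?_
    by_cases c : x.1 ≤ x.2
    · simpa only [I, if_pos c] using card_le _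
    · simp [I, c]

end Pool.Agent.MP_a43263_nt.UC

end MrgPart2

-- ======== part 3: formerly Pool.Agent.MP_a43263_nt.UC.Irr
section MrgPart3

/-! Rows IRR and CUSP. -/

namespace Pool.Agent.MP_a43263_nt.UC

open Polynomial Matrix Finset

namespace IrrX

lemma zero_of_box {n : ℕ} {m : ℤ} {e : Fin n → ℤ} {A : Mz n} (h : Box m e A) {p q : Fin n}
    (hn : m + e p + e q < 0) : A p q = 0 := by
  have h1 : |(A p q : ℝ)| < 1 := (h p q).trans_lt (zpow_lt_one_of_neg₀ one_lt_two hn)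
  have h2 : |A p q| < 1 := by exact_mod_cast h1
  exact Int.abs_lt_one_iff.1 h2

lemma block {n : ℕ} (A T : Matrix (Fin n) (Fin n) ℚ) (hA : A.det ≠ 0) (a : ℕ)
    (h1 : ∀ j i : Fin n, a ≤ (Fin.rev j).1 → i.1 < a → A j i = 0)
    (h2 : ∀ j i : Fin n, a ≤ (Fin.rev j).1 → i.1 < a → (A * T) j i = 0) :
    ∀ i' i : Fin n, ¬ i'.1 < a → i.1 < a → T i' i = 0 := by
  let W : Submodule ℚ (Fin n → ℚ) :=
    { carrier := {x | ∀ i : Fin n, a ≤ i.1 → x i = 0}
      add_mem' := fun {x y} hx hy i hi => by simp [hx i hi, hy i hi]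
      zero_mem' := fun _ _ => rfl
      smul_mem' := fun c x hx i hi => by simp [hx i hi] }
  let φ : (Fin n → ℚ) →ₗ[ℚ] (Fin n → ℚ) := (LinearMap.funLeft ℚ ℚ Fin.rev).comp A.mulVecLin
  have hinj : Function.Injective A.mulVec :=
    Matrix.mulVec_injective_iff_isUnit.2 ((Matrix.isUnit_iff_isUnit_det A).2 (Ne.isUnit hA))
  have hφ : Function.Injective φ := fun x y h => hinj (funext fun j => by
    have := congrFun h (Fin.rev j)
    simpa [φ, LinearMap.funLeft] using this)
  have hW : ∀ x ∈ W, φ x ∈ W := by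
    intro x hx j hj
    show ∑ i, A (Fin.rev j) i * x i = 0
    refine Finset.sum_eq_zero fun i _ => ?_
    by_cases hi : i.1 < a
    · rw [h1 _ i (by simpa using hj) hi, zero_mul]
    · rw [hx i (not_lt.1 hi), mul_zero]
  have hs : Function.Surjective (φ.restrict hW) :=
    LinearMap.injective_iff_surjective.1 fun x y h => Subtype.ext (hφ (congrArg Subtype.val h))
  intro i' i hi' hi
  have hmem : φ (fun j => T j i) ∈ W := fun j hj => h2 (Fin.rev j) i (by simpa using hj) hi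
  obtain ⟨x, hx⟩ := hs ⟨_, hmem⟩
  have hx' : (x : Fin n → ℚ) = fun j => T j i := hφ (congrArg Subtype.val hx)
  have := x.2 i' (not_lt.1 hi')
  rw [hx'] at this
  exact this

lemma not_irr {n : ℕ} (T : Matrix (Fin n) (Fin n) ℚ) (P : Fin n → Prop) [DecidablePred P]
    (h : ∀ i' i, ¬ P i' → P i → T i' i = 0) (p q : Fin n) (hp : P p) (hq : ¬ P q) :
    ¬ Irreducible T.charpoly := by
  intro hirr
  have hd := Matrix.twoBlockTriangular_det T.charmatrix P fun i' hi' i hi => by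
    have hne : i' ≠ i := fun e => hi' (e ▸ hi)
    rw [charmatrix_apply_ne _ _ _ hne, h i' i hi' hi]
    simp
  have hb : ∀ (Q : Fin n → Prop) [DecidablePred Q],
      (toSquareBlockProp T.charmatrix Q).det = (toSquareBlockProp T Q).charpoly := by
    intro Q _
    unfold Matrix.charpoly
    congr 1
    ext i j : 2
    by_cases hij : i = j
    · subst hij
      simp [toSquareBlockProp_def]
    · have hne : (i : Fin n) ≠ j := fun e => hij (Subtype.ext e)
      rw [charmatrix_apply_ne _ _ _ hij]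
      simp [toSquareBlockProp_def, charmatrix_apply_ne _ _ _ hne]
  rw [hb, hb] at hd
  have hu : ∀ (Q : Fin n → Prop) [DecidablePred Q] (x : Fin n), Q x →
      ¬ IsUnit (toSquareBlockProp T Q).charpoly := by
    intro Q _ x hx hu
    have h0 := Polynomial.natDegree_eq_zero_of_isUnit hu
    rw [Matrix.charpoly_natDegree_eq_dim] at h0
    have : Nonempty {i // Q i} := ⟨⟨x, hx⟩⟩
    exact Fintype.card_ne_zero h0
  rcases hirr.isUnit_or_isUnit hd with h' | h'
  · exact hu _ p hp h'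
  · exact hu _ q hq h'

lemma dot_single {n : ℕ} (B : Mz n) (p q : Fin n) :
    (Pi.single p (1 : ℤ) : Fin n → ℤ) ⬝ᵥ B *ᵥ Pi.single q 1 = B p q := by
  simp

end IrrX

theorem irr : IRRStmt := by
  intro n k A T e hP hI hE hA hB p q hq
  by_contra hlt
  have hlt' : (k : ℤ) < e q - e p := not_le.1 hlt
  have hneg : ∀ j i : Fin n, q.1 ≤ (Fin.rev j).1 → i.1 < q.1 → (k : ℤ) + e j + e i < 0 := by
    intro j i hj hi
    have h1 : e i ≤ e p := hE.1 (show i ≤ p from Fin.le_def.2 (by omega))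
    have h2 : e q ≤ e (Fin.rev j) := hE.1 (show q ≤ Fin.rev j from hj)
    rw [hE.2] at h2
    omega
  have hdet : (A.map (Int.castRingHom ℚ)).det ≠ 0 := by
    have h := RingHom.map_det (Int.castRingHom ℚ) A
    rw [RingHom.mapMatrix_apply] at h
    rw [← h]
    exact (hP.2.1.map (Int.castRingHom ℚ)).ne_zero
  have hb := IrrX.block (A.map (Int.castRingHom ℚ)) (T.map (Int.castRingHom ℚ)) hdet q.1
    (fun j i hj hi => by simp [IrrX.zero_of_box hA (hneg j i hj hi)])
    (fun j i hj hi => by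
      rw [← Matrix.map_mul]
      simp only [Matrix.map_apply, IrrX.zero_of_box hB (hneg j i hj hi), map_zero])
  refine IrrX.not_irr (T.map (Int.castRingHom ℚ)) (fun i => i.1 < q.1) hb p q (by omega)
    (lt_irrefl _) ?_
  rw [Matrix.charpoly_map]
  exact hI

theorem cusp : CUSPStmt := by
  intro g M κ k A T e hE hκ hD hB hC
  let mid : Fin (2 * g + 1) := ⟨g, by omega⟩
  have hmid : e mid = 0 := by
    have h1 : Fin.rev mid = mid := Fin.ext (by simp [mid]; omega)
    have h2 := hE.2 mid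
    rw [h1] at h2
    omega
  have hD' : ∀ i : Fin g, (κ : ℤ) + k + 2 * e (lo i) < 0 := fun i => by
    have := hD i
    push_cast at this
    exact this
  have hκ' : (κ : ℤ) ≤ k := by exact_mod_cast hκ
  have h0 : Box (κ : ℤ) e A := by simpa using hB 0
  have h1 : Box ((κ : ℤ) + k) e (A * T) := by simpa using hB 1
  have hli : LinearIndependent ℤ (Fin.cons (Pi.single mid 1) (fun i : Fin g => Pi.single (lo i) 1) :
      Fin (g + 1) → Fin (2 * g + 1) → ℤ) := by
    have hf : Function.Injective (Fin.cons mid lo : Fin (g + 1) → Fin (2 * g + 1)) := by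
      rw [Fin.cons_injective_iff]
      refine ⟨?_, fun i j h => Fin.ext (congrArg (fun x : Fin (2 * g + 1) => x.1) h)⟩
      rintro ⟨i, hi⟩
      have := congrArg Fin.val hi
      simp only [lo, mid] at this
      omega
    have := (Pi.basisFun ℤ (Fin (2 * g + 1))).linearIndependent.comp _ hf
    have he : (Pi.basisFun ℤ (Fin (2 * g + 1))) ∘ (Fin.cons mid lo : Fin (g + 1) → Fin (2 * g + 1)) =
        Fin.cons (Pi.single mid 1) (fun i : Fin g => Pi.single (lo i) 1) := by
      funext i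
      refine Fin.cases ?_ (fun i => ?_) i <;> simp
    rw [he] at this
    exact this
  have hM := hC (fun i => Pi.single (lo i) 1) (Pi.single mid 1) hli
    (fun i j => by
      rw [IrrX.dot_single]
      exact IrrX.zero_of_box h0 (by have := hD' i; have := hD' j; omega))
    (fun i j => by
      rw [IrrX.dot_single]
      exact IrrX.zero_of_box h1 (by have := hD' i; have := hD' j; omega))
    (fun i => by
      rw [IrrX.dot_single]
      exact IrrX.zero_of_box h0 (by have := hD' i; omega))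
  simp only [IrrX.dot_single] at hM
  have hM' : (M : ℝ) ≤ |(((Matrix.of fun i j : Fin g =>
      (A * T ^ (j.1 + 1)) (lo i) mid).det : ℤ) : ℝ)| := by exact_mod_cast hM
  refine hM'.trans ?_
  rw [Matrix.det_apply']
  push_cast
  refine (Finset.abs_sum_le_sum_abs _ _).trans ?_
  have hterm : ∀ σ : Equiv.Perm (Fin g),
      |((Equiv.Perm.sign σ : ℤ) : ℝ) * ∏ j : Fin g, ((A * T ^ (j.1 + 1)) (lo (σ j)) mid : ℝ)| ≤
        (2 : ℝ) ^ (((g * κ + k * tri g : ℕ) : ℤ) + ∑ i : Fin g, e (lo i)) := by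
    intro σ
    have hs : |((Equiv.Perm.sign σ : ℤ) : ℝ)| = 1 := by
      rcases Int.units_eq_one_or (Equiv.Perm.sign σ) with h | h <;> simp [h]
    rw [abs_mul, hs, one_mul, Finset.abs_prod]
    have hz : ∀ (s : Finset (Fin g)) (c : Fin g → ℤ),
        ∏ j ∈ s, (2 : ℝ) ^ c j = (2 : ℝ) ^ ∑ j ∈ s, c j := by
      intro s c
      induction s using Finset.induction_on with
      | empty => simp
      | insert a s ha ih => rw [prod_insert ha, sum_insert ha, ih, zpow_add₀ two_ne_zero]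
    refine (Finset.prod_le_prod (fun j _ => abs_nonneg _)
      fun j _ => hB (j.1 + 1) (lo (σ j)) mid).trans (le_of_eq ?_)
    rw [hz]
    congr 1
    rw [← Equiv.sum_comp σ fun i => e (lo i)]
    simp only [hmid, add_zero, Finset.sum_add_distrib, tri]
    push_cast
    rw [← Finset.sum_mul, Finset.sum_add_distrib]
    simp [mul_comm]
  refine (Finset.sum_le_sum fun σ _ => hterm σ).trans (le_of_eq ?_)
  simp [Fintype.card_perm]

end Pool.Agent.MP_a43263_nt.UC

end MrgPart3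

-- ======== part 4: formerly Pool.Agent.MP_a43263_nt.UC.Exp
section MrgPart4

/-!
The two exponent inequalities.
-/

namespace Pool.Agent.MP_a43263_nt.UC

open Finset

namespace Exp

theorem sym_sum {ι : Type} [LinearOrder ι] (s : Finset ι) (w : ι → ι → ℤ)
    (hw : ∀ i j, w i j = w j i) :
    ∑ i ∈ s, ∑ j ∈ s, w i j
      = ∑ i ∈ s, w i i + 2 * ∑ i ∈ s, ∑ j ∈ s, if i < j then w i j else 0 := by
  have h1 : ∑ i ∈ s, ∑ j ∈ s, (if j < i then w j i else 0)
      = ∑ i ∈ s, ∑ j ∈ s, if i < j then w i j else 0 := sum_comm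
  have h2 : ∑ i ∈ s, w i i = ∑ i ∈ s, ∑ j ∈ s, if i = j then w i j else 0 := by
    refine sum_congr rfl fun i hi => ?_
    rw [sum_ite_eq, if_pos hi]
  rw [two_mul, h2]
  nth_rewrite 1 [← h1]
  rw [← sum_add_distrib, ← sum_add_distrib]
  refine sum_congr rfl fun i _ => ?_
  rw [← sum_add_distrib, ← sum_add_distrib]
  refine sum_congr rfl fun j _ => ?_
  rcases lt_trichotomy i j with h | h | h
  · rw [if_neg h.ne, if_neg h.not_gt, if_pos h]; ring
  · subst h; simp
  · rw [if_neg h.ne', if_pos h, if_neg h.not_gt, hw]; ring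

theorem sum_sup {n : ℕ} (F : Fin n → Fin n → ℤ) :
    ∑ x ∈ sup n, F x.1 x.2 = ∑ p, ∑ q, if p < q then F p q else 0 := by
  unfold sup
  rw [sum_filter, Fintype.sum_prod_type]

theorem sum_up {n : ℕ} (F : Fin n → Fin n → ℤ) :
    ∑ x ∈ up n, F x.1 x.2 = ∑ p, F p p + ∑ p, ∑ q, if p < q then F p q else 0 := by
  unfold up
  rw [sum_filter, Fintype.sum_prod_type, ← sum_add_distrib]
  refine sum_congr rfl fun p _ => ?_
  have h2 : F p p = ∑ q, if p = q then F p q else 0 := by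
    rw [sum_ite_eq, if_pos (mem_univ _)]
  rw [h2, ← sum_add_distrib]
  refine sum_congr rfl fun q _ => ?_
  rcases lt_trichotomy p q with h | h | h
  · rw [if_pos h.le, if_neg h.ne, if_pos h]; ring
  · subst h; simp
  · rw [if_neg h.not_ge, if_neg h.ne', if_neg h.not_gt]; ring

/-- The summand of the doubled exponent. -/
def T (k : ℕ) (x y : ℤ) : ℤ := max ((k : ℤ) + x + y) 0 + max (x + y) 0 - max (y - x) (x - y)

theorem two_phi {n : ℕ} (k : ℕ) (e : Fin n → ℤ) (he : Monotone e) :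
    2 * Phi k e = ∑ p, ∑ q, T k (e p) (e q) + ∑ p, T k (e p) (e p) := by
  have h1 := sym_sum univ (fun p q : Fin n => T k (e p) (e q)) (fun p q => by
    simp only [T]; omega)
  have h2 := sum_up (fun p q : Fin n => max ((k : ℤ) + e p + e q) 0)
  have h3 := sum_up (fun p q : Fin n => max (e p + e q) 0)
  have h4 := sum_sup (fun p q : Fin n => e q - e p)
  have h5 : ∑ p, T k (e p) (e p)
      = ∑ p, max ((k : ℤ) + e p + e p) 0 + ∑ p, max (e p + e p) 0 := by
    rw [← sum_add_distrib]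
    refine sum_congr rfl fun p _ => ?_
    simp only [T]; omega
  have h6 : (∑ p, ∑ q, if p < q then T k (e p) (e q) else 0)
      = (∑ p, ∑ q, if p < q then max ((k : ℤ) + e p + e q) 0 else 0)
        + (∑ p, ∑ q, if p < q then max (e p + e q) 0 else 0)
        - ∑ p, ∑ q, if p < q then e q - e p else 0 := by
    rw [← sum_add_distrib, ← sum_sub_distrib]
    refine sum_congr rfl fun p _ => ?_
    rw [← sum_add_distrib, ← sum_sub_distrib]
    refine sum_congr rfl fun q _ => ?_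
    by_cases h : p < q
    · have := he h.le
      simp only [if_pos h, T]; omega
    · simp only [if_neg h]; ring
  unfold Phi
  beta_reduce at h1 h2 h3 h4
  rw [h2, h3, h4, h1, h6, h5]
  ring

/-- The sequence `a_i = - e_i` on natural indices. -/
def aa {n : ℕ} (e : Fin n → ℤ) (i : ℕ) : ℤ := if h : i < n then - e ⟨i, h⟩ else 0

theorem aa_eq {n : ℕ} (e : Fin n → ℤ) (p : Fin n) : aa e p.1 = - e p := by
  unfold aa; rw [dif_pos p.2]

theorem aa_rev {g : ℕ} (e : Fin (2 * g + 1) → ℤ) (he : Ex e) (i : ℕ) (hi : i ≤ 2 * g) :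
    aa e (2 * g - i) = - aa e i := by
  have h1 := aa_eq e ⟨i, by omega⟩
  have h2 := aa_eq e (Fin.rev ⟨i, by omega⟩)
  have h3 : (Fin.rev (⟨i, by omega⟩ : Fin (2 * g + 1))).1 = 2 * g - i := by
    rw [Fin.val_rev]; simp only; omega
  rw [h3, he.2] at h2
  simp only at h1
  rw [h1, h2]

theorem aa_mid {g : ℕ} (e : Fin (2 * g + 1) → ℤ) (he : Ex e) : aa e g = 0 := by
  have h := aa_rev e he g (by omega)
  have h2 : 2 * g - g = g := by omega
  rw [h2] at h
  omega

theorem aa_anti {n : ℕ} (e : Fin n → ℤ) (he : Monotone e) (i j : ℕ) (hij : i ≤ j) (hj : j < n) :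
    aa e j ≤ aa e i := by
  have h1 := aa_eq e ⟨i, by omega⟩
  have h2 := aa_eq e ⟨j, hj⟩
  have h3 : e ⟨i, by omega⟩ ≤ e ⟨j, hj⟩ := he (by exact hij)
  simp only at h1 h2
  omega

theorem aa_step {n k : ℕ} (e : Fin n → ℤ) (hs : Stp k e) (j : ℕ) (hj : j + 1 < n) :
    aa e j - aa e (j + 1) ≤ k := by
  have h1 := aa_eq e ⟨j, by omega⟩
  have h2 := aa_eq e ⟨j + 1, hj⟩
  have h3 := hs ⟨j, by omega⟩ ⟨j + 1, hj⟩ rfl
  simp only at h1 h2
  omega

theorem split {g : ℕ} (e : Fin (2 * g + 1) → ℤ) (he : Ex e) (f : ℤ → ℤ) :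
    ∑ p, f (e p) = ∑ i ∈ range g, (f (- aa e i) + f (aa e i)) + f 0 := by
  have h1 : ∑ p, f (e p) = ∑ i ∈ range (2 * g + 1), f (- aa e i) := by
    rw [← Fin.sum_univ_eq_sum_range (fun i => f (- aa e i))]
    refine sum_congr rfl fun p _ => ?_
    rw [aa_eq, neg_neg]
  have h2 : 2 * g + 1 = (g + 1) + g := by omega
  have h3 : ∑ i ∈ range (2 * g + 1), f (- aa e i) = ∑ i ∈ range ((g + 1) + g), f (- aa e i) :=
    congrArg (fun m => ∑ i ∈ range m, f (- aa e i)) h2
  have h4 : ∑ i ∈ range g, f (- aa e (g + 1 + i)) = ∑ i ∈ range g, f (aa e i) := by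
    rw [← sum_range_reflect]
    refine sum_congr rfl fun i hi => ?_
    have hi' := mem_range.1 hi
    have h5 : g + 1 + (g - 1 - i) = 2 * g - i := by omega
    rw [h5, aa_rev e he i (by omega), neg_neg]
  rw [h1, h3, sum_range_add, sum_range_succ, aa_mid e he, h4, sum_add_distrib, neg_zero]
  ring

theorem sum_lo {g : ℕ} (e : Fin (2 * g + 1) → ℤ) (f : ℤ → ℤ) :
    ∑ i : Fin g, f (e (lo i)) = ∑ i ∈ range g, f (- aa e i) := by
  rw [← Fin.sum_univ_eq_sum_range (fun i => f (- aa e i))]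
  refine sum_congr rfl fun i _ => ?_
  have h := aa_eq e (lo i)
  have h2 : (lo i).1 = i.1 := rfl
  rw [h2] at h
  rw [h, neg_neg]

theorem tel (a : ℕ → ℤ) (i m : ℕ) :
    ∑ j ∈ range (i + 1 + m), (if i < j then a (j - 1) - a j else 0) = a i - a (i + m) := by
  induction m with
  | zero =>
    rw [sum_eq_zero]
    · simp
    · intro j hj
      have := mem_range.1 hj
      rw [if_neg (by omega)]
  | succ m ih =>
    rw [← add_assoc, sum_range_succ, ih, if_pos (by omega)]
    have h1 : i + 1 + m - 1 = i + m := by omega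
    have h2 : i + 1 + m = i + (m + 1) := by omega
    rw [h1, h2]
    ring

theorem tel' (a : ℕ → ℤ) (i g : ℕ) (hi : i < g) :
    ∑ j ∈ range g, (if i < j then a (j - 1) - a j else 0) = a i - a (g - 1) := by
  have h := tel a i (g - 1 - i)
  have h1 : i + 1 + (g - 1 - i) = g := by omega
  have h2 : i + (g - 1 - i) = g - 1 := by omega
  rwa [h1, h2] at h

/-- The loss at a pair of indices. -/
def w (k : ℕ) (x y : ℤ) : ℤ := min (x + y) k + min (max (y - x) (x - y)) k

theorem phi_formula {g : ℕ} (k : ℕ) (e : Fin (2 * g + 1) → ℤ) (he : Ex e) :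
    2 * Phi k e = 2 * (k * dim g : ℕ)
      - ∑ i ∈ range g, ∑ j ∈ range g, w k (aa e i) (aa e j)
      - 2 * ∑ i ∈ range g, min (aa e i) k
      + ∑ i ∈ range g, (4 * aa e i - min (aa e i + aa e i) k) := by
  have hnn : ∀ i ∈ range g, 0 ≤ aa e i := fun i hi => by
    have h := aa_anti e he.1 i g (mem_range.1 hi).le (by omega)
    rwa [aa_mid e he] at h
  have h1 := split e he (fun x => T k x x)
  have h2 := split e he (fun x => ∑ q, T k x (e q))
  have h3 : ∀ x, ∑ q, T k x (e q)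
      = ∑ i ∈ range g, (T k x (- aa e i) + T k x (aa e i)) + T k x 0 :=
    fun x => split e he (fun y => T k x y)
  beta_reduce at h1 h2
  have h4 : ∑ i ∈ range g, (∑ q, T k (- aa e i) (e q) + ∑ q, T k (aa e i) (e q))
      = ∑ i ∈ range g, (((4 * g + 2 : ℤ)) * k - ∑ j ∈ range g, w k (aa e i) (aa e j)
        - min (aa e i) k) := by
    refine sum_congr rfl fun i hi => ?_
    have hi0 := hnn i hi
    have h5 : ∑ j ∈ range g, (T k (- aa e i) (- aa e j) + T k (- aa e i) (aa e j))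
        + ∑ j ∈ range g, (T k (aa e i) (- aa e j) + T k (aa e i) (aa e j))
        = ∑ j ∈ range g, (4 * (k : ℤ) - w k (aa e i) (aa e j)) := by
      rw [← sum_add_distrib]
      refine sum_congr rfl fun j hj => ?_
      have hj0 := hnn j hj
      simp only [T, w]; omega
    have h6 : T k (- aa e i) 0 + T k (aa e i) 0 = 2 * (k : ℤ) - min (aa e i) k := by
      simp only [T]; omega
    rw [sum_sub_distrib, sum_const, card_range, nsmul_eq_mul] at h5
    rw [h3, h3]
    linarith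
  have h7 : ∑ i ∈ range g, (T k 0 (- aa e i) + T k 0 (aa e i))
      = ∑ i ∈ range g, (2 * (k : ℤ) - min (aa e i) k) := by
    refine sum_congr rfl fun i hi => ?_
    have hi0 := hnn i hi
    simp only [T]; omega
  have h8 : ∑ i ∈ range g, (T k (- aa e i) (- aa e i) + T k (aa e i) (aa e i))
      = ∑ i ∈ range g, (2 * (k : ℤ) + (4 * aa e i - min (aa e i + aa e i) k)) := by
    refine sum_congr rfl fun i hi => ?_
    have hi0 := hnn i hi
    simp only [T]; omega
  have h9 : T k 0 0 = k := by simp only [T]; omega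
  rw [two_phi k e he.1, h1, h2, h4, h3, h7, h8, h9]
  rw [sum_sub_distrib, sum_sub_distrib, sum_sub_distrib, sum_add_distrib]
  simp only [sum_const, card_range, nsmul_eq_mul, dim]
  push_cast
  ring

theorem two_tri (g : ℕ) : 2 * tri g = g * (g + 1) := by
  unfold tri
  rw [Fin.sum_univ_eq_sum_range (fun i => i + 1)]
  induction g with
  | zero => simp
  | succ g ih => rw [sum_range_succ, mul_add, ih]; ring

end Exp

open Exp in
theorem exp : EXPStmt := by
  intro g k e he hs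
  have hf := phi_formula k e he
  have hanti : ∀ i j, i ≤ j → j ≤ g → aa e j ≤ aa e i := fun i j hij hj =>
    aa_anti e he.1 i j hij (by omega)
  have hmid := aa_mid e he
  have hstep : ∀ j, 1 ≤ j → j ≤ g → aa e (j - 1) - aa e j ≤ k := fun j h1 hj => by
    have h := aa_step e hs (j - 1) (by omega)
    have h2 : j - 1 + 1 = j := by omega
    rwa [h2] at h
  have hsym := sym_sum (range g) (fun i j => w k (aa e i) (aa e j)) (fun i j => by
    simp only [w]; omega)
  beta_reduce at hsym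
  have hlo : ∀ i : Fin g, aa e i.1 = - e (lo i) := fun i => aa_eq e (lo i)
  constructor
  · intro hd
    have hm := sum_lo e (fun x => min (- x) (k : ℤ))
    simp only [neg_neg] at hm
    unfold Deep at hd
    push Not at hd
    obtain ⟨i0, hi0⟩ := hd
    have hl : 2 * aa e (g - 1) ≤ k := by
      have h1 := hanti i0.1 (g - 1) (by omega) (by omega)
      have h2 := hlo i0
      omega
    have hA : ∑ i ∈ range g, (4 * aa e i - min (aa e i + aa e i) k)
        ≤ ∑ i ∈ range g, (w k (aa e i) (aa e i)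
          + 2 * ∑ j ∈ range g, if i < j then w k (aa e i) (aa e j) else 0) := by
      refine sum_le_sum fun i hi => ?_
      have hi' := mem_range.1 hi
      have h1 : ∑ j ∈ range g, 2 * (if i < j then aa e (j - 1) - aa e j else 0)
          ≤ ∑ j ∈ range g, if i < j then w k (aa e i) (aa e j) else 0 := by
        refine sum_le_sum fun j hj => ?_
        have hj' := mem_range.1 hj
        by_cases h : i < j
        · have a1 := hanti i (j - 1) (by omega) (by omega)
          have a2 := hanti j g (by omega) (by omega)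
          have a3 := hstep j (by omega) (by omega)
          simp only [if_pos h, w]; omega
        · simp only [if_neg h]; omega
      rw [← mul_sum, tel' (aa e) i g hi'] at h1
      have h2 := hanti i (g - 1) (by omega) (by omega)
      have h3 := hanti (g - 1) g (by omega) (by omega)
      have h4 : w k (aa e i) (aa e i) = min (aa e i + aa e i) k := by simp only [w]; omega
      omega
    rw [sum_add_distrib, ← mul_sum] at hA
    rw [hm]
    linarith
  · intro hd
    have hm := sum_lo e (fun x => x)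
    beta_reduce at hm
    have hdeep : ∀ i, i < g → (k : ℤ) < 2 * aa e i := fun i hi => by
      have h1 := hd ⟨i, hi⟩
      have h2 := hlo ⟨i, hi⟩
      simp only at h2
      omega
    have hsym2 := sym_sum (range g)
      (fun i j => min (max (aa e j - aa e i) (aa e i - aa e j)) (k : ℤ)) (fun i j => by omega)
    beta_reduce at hsym2
    have hB : ∑ i ∈ range g, ∑ j ∈ range g, w k (aa e i) (aa e j)
        = ∑ i ∈ range g, ((g : ℤ) * k
          + ∑ j ∈ range g, min (max (aa e j - aa e i) (aa e i - aa e j)) (k : ℤ)) := by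
      refine sum_congr rfl fun i hi => ?_
      have h1 : (g : ℤ) * k = ∑ _j ∈ range g, (k : ℤ) := by
        rw [sum_const, card_range, nsmul_eq_mul]
      rw [h1, ← sum_add_distrib]
      refine sum_congr rfl fun j hj => ?_
      have a1 := hdeep i (mem_range.1 hi)
      have a2 := hdeep j (mem_range.1 hj)
      simp only [w]; omega
    have hC : ∑ i ∈ range g, (4 * aa e i - min (aa e i + aa e i) k)
        ≤ ∑ i ∈ range g, (min (max (aa e i - aa e i) (aa e i - aa e i)) (k : ℤ)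
          + 2 * (∑ j ∈ range g, if i < j then
            min (max (aa e j - aa e i) (aa e i - aa e j)) (k : ℤ) else 0)
          + 2 * min (aa e i) k - 2 * (- aa e i) - k) := by
      refine sum_le_sum fun i hi => ?_
      have hi' := mem_range.1 hi
      have h1 : ∑ j ∈ range g, (if i < j then aa e (j - 1) - aa e j else 0)
          ≤ ∑ j ∈ range g, if i < j then
            min (max (aa e j - aa e i) (aa e i - aa e j)) (k : ℤ) else 0 := by
        refine sum_le_sum fun j hj => ?_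
        have hj' := mem_range.1 hj
        by_cases h : i < j
        · have a1 := hanti i (j - 1) (by omega) (by omega)
          have a3 := hstep j (by omega) (by omega)
          simp only [if_pos h]; omega
        · simp only [if_neg h]; omega
      rw [tel' (aa e) i g hi'] at h1
      have h2 := hanti i (g - 1) (by omega) (by omega)
      have h3 := hstep g (by omega) (by omega)
      have h4 := hdeep i hi'
      omega
    rw [sum_sub_distrib (f := fun i => _ - 2 * (- aa e i)), sum_sub_distrib (g := fun i => 2 * (- aa e i)), sum_add_distrib, sum_add_distrib, ← mul_sum, ← mul_sum,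
      ← mul_sum, sum_const, card_range, nsmul_eq_mul] at hC
    rw [sum_add_distrib, sum_const, card_range, nsmul_eq_mul] at hB
    have ht : (2 * tri g : ℤ) = g * (g + 1) := by exact_mod_cast two_tri g
    rw [hm]
    push_cast at hf ⊢
    have ht2 : (k : ℤ) * (2 * tri g) = k * (g * (g + 1)) := by rw [ht]
    linarith

end Pool.Agent.MP_a43263_nt.UC

end MrgPart4

-- ======== part 5: formerly Pool.Agent.MP_a43263_nt.UC.Sum
section MrgPart5

/-! Sums over the exponent vectors. -/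

namespace Pool.Agent.MP_a43263_nt.UC

open Finset

namespace Sum

variable {g k : ℕ} {e e' : Fin (2 * g + 1) → ℤ}

theorem mid (h : Ex e) (p : Fin (2 * g + 1)) (hp : p.1 = g) : e p = 0 := by
  have h1 := h.2 p
  have h2 : Fin.rev p = p := Fin.ext (by rw [Fin.val_rev]; omega)
  rw [h2] at h1
  omega

theorem step (h : Ex e) (hs : Stp k e) (d : ℕ) :
    ∀ p : Fin (2 * g + 1), p.1 + d = g → - e p ≤ (d * k : ℕ) := by
  induction d with
  | zero => intro p hp; rw [mid h p hp]; simp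
  | succ d ih =>
    intro p hp
    have h1 := ih ⟨p.1 + 1, by omega⟩ (by simp only; omega)
    have h2 := hs p ⟨p.1 + 1, by omega⟩ rfl
    push_cast at h1 ⊢
    linarith

theorem nonneg (h : Ex e) (i : Fin g) : 0 ≤ - e (lo i) := by
  have h1 := h.1 (show lo i ≤ ⟨g, by omega⟩ from i.2.le)
  rw [mid h ⟨g, by omega⟩ rfl] at h1
  omega

theorem le (h : Ex e) (hs : Stp k e) (i : Fin g) : - e (lo i) ≤ ((g - i) * k : ℕ) :=
  step h hs _ _ (by have := i.2; simp only [lo]; omega)

theorem le' (i : Fin g) : (g - i) * k ≤ g * k := Nat.mul_le_mul_right _ (Nat.sub_le _ _)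

theorem ext (h : Ex e) (h' : Ex e') (hh : ∀ i, e (lo i) = e' (lo i)) : e = e' := by
  funext p
  rcases lt_trichotomy p.1 g with c | c | c
  · exact hh ⟨p.1, c⟩
  · rw [mid h p c, mid h' p c]
  · have h1 : e (Fin.rev p) = e' (Fin.rev p) :=
      hh ⟨(Fin.rev p).1, by rw [Fin.val_rev]; have := p.2; omega⟩
    rw [h.2, h'.2] at h1
    omega

theorem prod_le {α : Type} (E : Finset α) (φ : α → Fin g → ℕ) (B : ℕ) (inj : Set.InjOn φ E)
    (hB : ∀ e ∈ E, ∀ i, φ e i < B) (w : Fin g → ℕ → ℝ) (hw : ∀ i a, 0 ≤ w i a) :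
    ∑ e ∈ E, ∏ i, w i (φ e i) ≤ ∏ i, ∑ a ∈ range B, w i a := by
  rw [prod_univ_sum, ← sum_image (f := fun p : Fin g → ℕ => ∏ i, w i (p i)) inj]
  refine sum_le_sum_of_subset_of_nonneg (fun p hp => ?_) fun p _ _ => prod_nonneg fun i _ => hw _ _
  obtain ⟨e, he, rfl⟩ := mem_image.1 hp
  exact Fintype.mem_piFinset.2 fun i => mem_range.2 (hB e he i)

theorem two_pow (n : Fin g → ℕ) : (2 : ℝ) ^ (- ∑ i, (n i : ℤ)) = ∏ i, (1 / 2 : ℝ) ^ n i := by
  rw [← Nat.cast_sum, zpow_neg, zpow_natCast, prod_pow_eq_pow_sum, one_div, inv_pow]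

theorem min_le (a k : ℕ) : (1 / 2 : ℝ) ^ min a k ≤ (1 / 2) ^ a + (1 / 2) ^ k := by
  rcases min_choice a k with h | h <;> rw [h]
  · exact le_add_of_nonneg_right (by positivity)
  · exact le_add_of_nonneg_left (by positivity)

theorem tail (A B k : ℕ) : ∑ a ∈ Ico A B, (1 / 2 : ℝ) ^ min a k ≤
    2 * (1 / 2) ^ A + (B - A : ℕ) * (1 / 2) ^ k := by
  refine (sum_le_sum fun a _ => min_le a k).trans ?_
  rw [sum_add_distrib, sum_const, Nat.card_Ico, nsmul_eq_mul]
  have := geom_sum_Ico_le_of_lt_one (x := (1 / 2 : ℝ)) (m := A) (n := B) (by norm_num)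
    (by norm_num)
  have e : (1 / 2 : ℝ) ^ A / (1 - 1 / 2) = 2 * (1 / 2) ^ A := by ring
  linarith

theorem full (g k : ℕ) : ∑ a ∈ range (g * k + 1), (1 / 2 : ℝ) ^ min a k ≤ g + 4 := by
  have h1 := tail 0 (g * k + 1) k
  have h2 : (k : ℝ) * (1 / 2) ^ k ≤ 1 := by
    rw [one_div, inv_pow, ← div_eq_mul_inv, div_le_one (by positivity)]
    exact_mod_cast Nat.lt_two_pow_self.le
  have h3 : (1 / 2 : ℝ) ^ k ≤ 1 := pow_le_one₀ (by norm_num) (by norm_num)
  have h4 := mul_le_mul_of_nonneg_left h2 (Nat.cast_nonneg (α := ℝ) g)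
  rw [range_eq_Ico]
  simp only [Nat.sub_zero, pow_zero] at h1
  push_cast at h1
  linarith

theorem cut (g k A : ℕ) : ∑ a ∈ range (g * k + 1), (if A < a then (1 / 2 : ℝ) ^ min a k else 0) ≤
    (g + 4) * (1 / 2 ^ A + (k : ℝ) / 2 ^ k) := by
  have h0 : (range (g * k + 1)).filter (fun a => A < a) = Ico (A + 1) (g * k + 1) := by
    ext a
    simp only [mem_filter, mem_range, mem_Ico]
    omega
  rw [← sum_filter, h0]
  refine (tail _ _ _).trans ?_
  have h1 : ((g * k + 1 - (A + 1) : ℕ) : ℝ) ≤ g * k := by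
    exact_mod_cast (by omega : g * k + 1 - (A + 1) ≤ g * k)
  have h2 := mul_le_mul_of_nonneg_right h1 (show (0 : ℝ) ≤ (1 / 2) ^ k by positivity)
  have h3 : (0 : ℝ) ≤ g * (1 / 2) ^ A := by positivity
  have h4 : (0 : ℝ) ≤ (1 / 2) ^ A := by positivity
  have h5 : (0 : ℝ) ≤ k * (1 / 2) ^ k := by positivity
  rw [← one_div_pow, div_eq_mul_one_div (k : ℝ), ← one_div_pow, pow_succ]
  linarith

theorem tri_eq (g : ℕ) : ∑ i : Fin g, (g - i.1) = tri g := by
  rw [tri, ← Equiv.sum_comp Fin.revPerm]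
  refine sum_congr rfl fun i _ => ?_
  have := i.2
  rw [Fin.revPerm_apply, Fin.val_rev]
  omega

end Sum

theorem sum : SUMStmt := by
  intro g
  refine ⟨(g + 4) ^ g, by positivity, fun k E hE => ?_⟩
  let a : (Fin (2 * g + 1) → ℤ) → Fin g → ℕ := fun e i => (- e (lo i)).toNat
  have ha : ∀ e ∈ E, ∀ i, (a e i : ℤ) = - e (lo i) := fun e he i =>
    Int.toNat_of_nonneg (Sum.nonneg (hE e he).1 i)
  have inj : Set.InjOn a E := fun e he e' he' h => Sum.ext (hE e he).1 (hE e' he').1 fun i => by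
    have h1 := ha e he i
    rw [h, ha e' he' i] at h1
    omega
  have hB : ∀ e ∈ E, ∀ i, a e i < g * k + 1 := fun e he i => by
    have h1 := Sum.le (hE e he).1 (hE e he).2 i
    have h2 := Sum.le' (k := k) i
    have h3 := ha e he i
    omega
  have e1 : ∀ e ∈ E, (2 : ℝ) ^ (- ∑ i : Fin g, min (- e (lo i)) (k : ℤ)) =
      ∏ i, (1 / 2 : ℝ) ^ min (a e i) k := fun e he => by
    rw [← Sum.two_pow]
    simp only [Nat.cast_min, ha e he]
  refine ⟨?_, fun A hA => ?_, fun m hm => ?_⟩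
  · rw [sum_congr rfl e1]
    refine (Sum.prod_le E a _ inj hB (fun _ x => (1 / 2 : ℝ) ^ min x k)
      fun _ _ => by positivity).trans ?_
    rw [prod_const, card_univ, Fintype.card_fin]
    exact pow_le_pow_left₀ (sum_nonneg fun _ _ => by positivity) (Sum.full g k) g
  · rcases g with _ | g
    · rw [sum_eq_zero fun e he => ?_]
      · positivity
      · have h1 := hA e he
        rw [Sum.mid (hE e he).1 0 rfl] at h1
        omega
    let w : Fin (g + 1) → ℕ → ℝ := fun i x => if i = 0 → A < x then (1 / 2 : ℝ) ^ min x k else 0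
    have e2 : ∀ e ∈ E, (2 : ℝ) ^ (- ∑ i : Fin (g + 1), min (- e (lo i)) (k : ℤ)) =
        ∏ i, w i (a e i) := fun e he => by
      rw [e1 e he]
      refine prod_congr rfl fun i _ => (if_pos ?_).symm
      rintro rfl
      have h1 := ha e he 0
      have h2 : (A : ℤ) < - e (lo 0) := hA e he
      omega
    rw [sum_congr rfl e2]
    refine (Sum.prod_le E a _ inj hB w fun _ _ => by
      simp only [w]; split_ifs <;> positivity).trans ?_
    rw [Fin.prod_univ_succ]
    simp only [w, Fin.succ_ne_zero, IsEmpty.forall_iff, if_true, forall_const, prod_const,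
      card_univ, Fintype.card_fin]
    refine (mul_le_mul (Sum.cut (g + 1) k A) (pow_le_pow_left₀
      (sum_nonneg fun _ _ => by positivity) (Sum.full (g + 1) k) g) (by positivity)
      (by positivity)).trans (le_of_eq ?_)
    ring
  · let t : (Fin (2 * g + 1) → ℤ) → Fin g → ℕ := fun e i => (g - i) * k - a e i
    have ht : ∀ e ∈ E, ∀ i, (t e i : ℤ) = ((g - i) * k : ℕ) + e (lo i) := fun e he i => by
      have h1 := Sum.le (hE e he).1 (hE e he).2 i
      have h3 := ha e he i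
      simp only [t]
      omega
    have inj' : Set.InjOn t E := fun e he e' he' h => Sum.ext (hE e he).1 (hE e' he').1 fun i => by
      have h1 := ht e he i
      rw [h, ht e' he' i] at h1
      omega
    have hs : ∀ e ∈ E, ((k * tri g : ℕ) : ℤ) + ∑ i : Fin g, e (lo i) = ∑ i, (t e i : ℤ) :=
      fun e he => by
        rw [sum_congr rfl fun i _ => ht e he i, sum_add_distrib, ← Nat.cast_sum, ← sum_mul,
          Sum.tri_eq, mul_comm]
    have e2 : ∀ e ∈ E, (2 : ℝ) ^ (- (((k * tri g : ℕ) : ℤ) + ∑ i : Fin g, e (lo i))) ≤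
        (∏ i, (3 / 4 : ℝ) ^ t e i) / 2 ^ m := fun e he => by
      have h1 := hm e he
      rw [hs e he, ← Nat.cast_sum] at h1
      have h2 : 2 * m ≤ ∑ i, t e i := by exact_mod_cast h1
      rw [hs e he, Sum.two_pow, prod_pow_eq_pow_sum, prod_pow_eq_pow_sum, div_eq_mul_one_div _
        ((2 : ℝ) ^ m), ← one_div_pow, show (1 / 2 : ℝ) ^ ∑ i, t e i =
          (3 / 4) ^ (∑ i, t e i) * (2 / 3) ^ ∑ i, t e i by rw [← mul_pow]; norm_num]
      refine mul_le_mul_of_nonneg_left ((pow_le_pow_of_le_one (by norm_num) (by norm_num)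
        h2).trans ?_) (by positivity)
      rw [pow_mul]
      exact pow_le_pow_left₀ (by norm_num) (by norm_num) m
    refine (sum_le_sum e2).trans ?_
    rw [← sum_div]
    refine div_le_div_of_nonneg_right ((Sum.prod_le E t (g * k + 1) inj' (fun e he i => ?_)
      (fun _ x => (3 / 4 : ℝ) ^ x) fun _ _ => by positivity).trans ?_) (by positivity)
    · have h2 := Sum.le' (k := k) i
      simp only [t]
      omega
    rw [prod_const, card_univ, Fintype.card_fin]
    refine pow_le_pow_left₀ (sum_nonneg fun _ _ => by positivity) ?_ g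
    have h1 := geom_sum_Ico_le_of_lt_one (x := (3 / 4 : ℝ)) (m := 0) (n := g * k + 1)
      (by norm_num) (by norm_num)
    have h2 := Nat.cast_nonneg (α := ℝ) g
    rw [range_eq_Ico]
    norm_num at h1 ⊢
    linarith

end Pool.Agent.MP_a43263_nt.UC

end MrgPart5

-- ======== part 6: formerly Pool.Agent.MP_a43263_nt.UC.Den
section MrgPart6

/-!
Boxes with congruence conditions and the density of the local condition.
-/

namespace Pool.Agent.MP_a43263_nt.UC

open Polynomial Matrix Finset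

namespace Den

lemma card_class (N Y : ℕ) (hN : 0 < N) (b : ℤ) :
    ((Icc (-(Y : ℤ)) Y).filter fun z => (N : ℤ) ∣ z - b).card ≤ 2 * Y / N + 1 := by
  have hN' : (0 : ℤ) < N := by exact_mod_cast hN
  have : ((Icc (-(Y : ℤ)) Y).filter fun z => (N : ℤ) ∣ z - b).card ≤
      (Icc (0 : ℤ) ((2 * Y / N : ℕ) : ℤ)).card := by
    refine card_le_card_of_injOn (fun z => (z + Y) / N) (fun z hz => ?_) fun z hz z' hz' e => ?_
    · obtain ⟨h1, h2⟩ := mem_Icc.1 (mem_filter.1 hz).1
      refine mem_coe.2 (mem_Icc.2 ⟨Int.ediv_nonneg (by omega) hN'.le, ?_⟩)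
      push_cast
      exact Int.ediv_le_ediv hN' (by omega)
    · have h1 : (N : ℤ) ∣ (z + Y) - (z' + Y) := by
        have := dvd_sub (mem_filter.1 hz).2 (mem_filter.1 hz').2
        rwa [show z - b - (z' - b) = (z + Y) - (z' + Y) by ring] at this
      have h2 : (z + Y) % N = (z' + Y) % N :=
        Int.emod_eq_emod_iff_emod_sub_eq_zero.2 (Int.emod_eq_zero_of_dvd h1)
      have h3 := Int.mul_ediv_add_emod (z + Y) N
      have h4 := Int.mul_ediv_add_emod (z' + Y) N
      have e' : (z + Y) / N = (z' + Y) / N := e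
      rw [e', h2, h4] at h3
      omega
  rw [Int.card_Icc] at this
  generalize 2 * Y / N = d at this ⊢
  generalize Finset.card _ = c at this ⊢
  omega

lemma card_up (g : ℕ) : (up (2 * g + 1)).card = g * (2 * g + 1) + (2 * g + 1) := by
  have h : ∀ n, (up n).card = ∑ i ∈ range (n + 1), i := fun n => by
    rw [up, card_filter, Fintype.sum_prod_type_right, sum_range_succ', add_zero,
      ← Fin.sum_univ_eq_sum_range (fun i => i + 1)]
    refine sum_congr rfl fun q _ => ?_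
    rw [← card_filter, ← Fin.card_Iic]
    congr 1
    ext p
    simp
  have := sum_range_id_mul_two (2 * g + 1 + 1)
  rw [← h, Nat.add_sub_cancel] at this
  nlinarith

end Den

open Den in
theorem crt : CRTStmt := by
  intro n Q hQ S Y hY
  classical
  set N := ∏ r ∈ Q, r with hN
  have N0 : 0 < N := prod_pos fun q hq => (hQ q hq).pos
  let W0 : Finset (Mz n) := Fintype.piFinset fun p => Fintype.piFinset fun q =>
    Icc (-(Y p q : ℤ)) (Y p q)
  let W := W0.filter fun B : Mz n => B.IsSymm ∧ ∀ q ∈ Q, B.map (Int.castRingHom (ZMod q)) ∈ S q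
  refine ⟨W, fun B h1 h2 h3 => mem_filter.2 ⟨Fintype.mem_piFinset.2 fun p =>
    Fintype.mem_piFinset.2 fun q => mem_Icc.2 (abs_le.1 (h2 p q)), h1, h3⟩, ?_⟩
  have key : W.card ≤ (∏ x ∈ up n, (2 * Y x.1 x.2 / N + 1)) * (Q.pi S).card := by
    refine card_le_mul_card_image_of_maps_to
      (f := fun (B : Mz n) q (_ : q ∈ Q) => B.map (Int.castRingHom (ZMod q)))
      (fun B hB => mem_pi.2 (mem_filter.1 hB).2.2) _ fun s _ => ?_
    rcases (W.filter fun B : Mz n => (fun q (_ : q ∈ Q) =>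
      B.map (Int.castRingHom (ZMod q))) = s).eq_empty_or_nonempty with h | ⟨B0, h0⟩
    · rw [h]
      exact Nat.zero_le _
    refine le_trans (card_le_card_of_injOn (t := (up n).pi fun x =>
      (Icc (-(Y x.1 x.2 : ℤ)) (Y x.1 x.2)).filter fun z => (N : ℤ) ∣ z - B0 x.1 x.2)
      (fun (B : Mz n) x (_ : x ∈ up n) => B x.1 x.2) (fun B hB => ?_) fun B hB B' hB' e => ?_) ?_
    · obtain ⟨hB1, hB2⟩ := mem_filter.1 hB
      refine mem_coe.2 (mem_pi.2 fun x _ => mem_filter.2 ⟨Fintype.mem_piFinset.1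
        (Fintype.mem_piFinset.1 (mem_filter.1 hB1).1 x.1) x.2, ?_⟩)
      rw [hN, Nat.cast_prod]
      refine Finset.prod_dvd_of_coprime (fun q hq q' hq' hne => Nat.isCoprime_iff_coprime.2
        ((Nat.coprime_primes (hQ q hq) (hQ q' hq')).2 hne)) fun q hq => ?_
      have := congrFun (congrFun (congrFun (congrFun
        (((mem_filter.1 h0).2).trans hB2.symm) q) hq) x.1) x.2
      exact (ZMod.intCast_eq_intCast_iff_dvd_sub _ _ _).1 this
    · have s1 : B.IsSymm := (mem_filter.1 (mem_filter.1 hB).1).2.1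
      have s2 : B'.IsSymm := (mem_filter.1 (mem_filter.1 hB').1).2.1
      have e' : ∀ p q, p ≤ q → B p q = B' p q := fun p q h =>
        congrFun (congrFun e (p, q)) (mem_filter.2 ⟨mem_univ _, h⟩)
      ext p q
      rcases le_total p q with h | h
      · exact e' p q h
      · rw [← s1.apply, ← s2.apply p q, e' q p h]
    · rw [card_pi]
      exact prod_le_prod' fun x _ => card_class N _ N0 _
  have N0' : (0 : ℝ) < N := by exact_mod_cast N0
  rw [card_pi] at key
  have k2 : (W.card : ℝ) ≤ (∏ x ∈ up n, (3 * (Y x.1 x.2 : ℝ) / N)) * ∏ q ∈ Q, ((S q).card : ℝ) := by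
    refine le_trans (Nat.cast_le.2 key) ?_
    push_cast
    refine mul_le_mul_of_nonneg_right (prod_le_prod (fun _ _ => by positivity) fun x _ => ?_)
      (by positivity)
    have h1 : ((2 * Y x.1 x.2 / N : ℕ) : ℝ) ≤ (2 * Y x.1 x.2 : ℕ) / N := Nat.cast_div_le
    have h2 : (1 : ℝ) ≤ Y x.1 x.2 / N := (one_le_div N0').2 (by exact_mod_cast hY x.1 x.2)
    push_cast at h1
    calc _ ≤ 2 * (Y x.1 x.2 : ℝ) / N + Y x.1 x.2 / N := add_le_add h1 h2
      _ = _ := by ring
  refine k2.trans (le_of_eq ?_)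
  rw [prod_div_distrib, prod_div_distrib, prod_const, prod_pow, hN, Nat.cast_prod]
  ring

open Den in
theorem den : CRTStmt → DENStmt := by
  intro hC g hg
  obtain ⟨q0, hq0⟩ := U99.fieldCount g hg
  refine ⟨max q0 3, fun Q a h hQ A hA hd Y hY => ?_⟩
  have hS : ∀ q : ℕ, ∃ S : Finset (Matrix (Fin (2 * g + 1)) (Fin (2 * g + 1)) (ZMod q)), q ∈ Q →
      (∀ T : Mz (2 * g + 1), (A * T).IsSymm → Loc Q a h A T →
        (A * T).map (Int.castRingHom (ZMod q)) ∈ S) ∧ 4 * S.card ≤ 3 * q ^ (g * (2 * g + 1)) := by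
    intro q
    by_cases hq : q ∈ Q
    swap
    · exact ⟨∅, fun h => absurd h hq⟩
    obtain ⟨h1, h2, h3, h4⟩ := hQ q hq
    have := Fact.mk h1
    classical
    have h5 := hq0 (ZMod q) (by rw [ZMod.card]; exact (le_max_left _ _).trans h2)
      (fun e => by
        have := Nat.le_of_dvd two_pos ((ZMod.natCast_eq_zero_iff 2 q).1 (by exact_mod_cast e))
        have := (le_max_right _ _).trans h2
        omega)
      (A.map (Int.castRingHom (ZMod q))) (hA.map _)
      (by rw [← RingHom.mapMatrix_apply, ← RingHom.map_det]; exact (hd.map _).ne_zero)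
      (a q) _ h3 h4
    rw [Nat.card_eq_fintype_card, Fintype.card_subtype, ZMod.card] at h5
    refine ⟨_, fun _ => ⟨fun T t1 t2 => ?_, le_trans (Nat.mul_le_mul_left _
      (card_image_le (f := fun T => A.map (Int.castRingHom (ZMod q)) * T))) h5⟩⟩
    refine mem_image.2 ⟨T.map (Int.castRingHom (ZMod q)), mem_filter.2 ⟨mem_univ _, ?_, t2 q hq⟩,
      Matrix.map_mul.symm⟩
    rw [← Matrix.map_mul]
    exact t1.map _
  choose S hS using hS
  obtain ⟨W, w1, w2⟩ := hC _ Q (fun q hq => (hQ q hq).1) S Y hY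
  refine ⟨W, fun T t1 t2 t3 => w1 _ t1 t3 fun q hq => (hS q hq).1 T t1 t2, w2.trans ?_⟩
  refine mul_le_mul_of_nonneg_right ?_ (by positivity)
  rw [← prod_pow, ← prod_const, ← prod_div_distrib]
  refine prod_le_prod (fun _ _ => by positivity) fun q hq => ?_
  have q0' : (0 : ℝ) < q := by exact_mod_cast (hQ q hq).1.pos
  have h1 : (4 : ℝ) * (S q).card ≤ 3 * (q : ℝ) ^ (g * (2 * g + 1)) := by exact_mod_cast (hS q hq).2
  rw [card_up, pow_add, ← div_div, div_le_div_iff_of_pos_right (by positivity),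
    div_le_iff₀ (by positivity)]
  linarith

end Pool.Agent.MP_a43263_nt.UC

end MrgPart6

-- ======== part 7: formerly Pool.Agent.MP_a43263_nt.UV.Count
section MrgPart7

namespace Pool.Agent.MP_a43263_nt.UV

theorem count : COUNTStmt :=
  count_of UC.herm UC.chg (UC.uni UC.chg) UC.box UC.irr UC.exp UC.sum (UC.den UC.crt)

end Pool.Agent.MP_a43263_nt.UV

end MrgPart7

-- marker of a merged file
example : 731051 + 325812 = 731051 + 325812 := rfl
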