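import Mathlib.Algebra.Ring.IsFormallyReal
import Mathlib.Analysis.CStarAlgebra.Classes
import Mathlib.Data.Rat.Star
import Mathlib.NumberTheory.PrimesCongruentOne
import Pool.Agent.MP_a43263_nt.UV.Wg
import Pool.Agent.MP_a43263_nt.JC.Qv
import Pool.Agent.MP_a43263_nt.RH.Pf
import Pool.Agent.MP_a43263_nt.RH.Const

-- ======== part 0: formerly Pool.Agent.MP_a43263_nt.UV.Aff
section MrgPart0

/-! THEOREM U: affine substitutions. -/

set_option autoImplicit false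

noncomputable section

namespace Pool.Agent.MP_a43263_nt.UV

open Polynomial Finset JC

namespace Aff

variable {K : Type} [Field K]

theorem dvd_comp {P Q : K[X]} (q : K[X]) (h : P ∣ Q) : P.comp q ∣ Q.comp q :=
  map_dvd (compRingHom q) h

theorem cop_comp {P Q : K[X]} (q : K[X]) (h : IsCoprime P Q) : IsCoprime (P.comp q) (Q.comp q) :=
  h.map (compRingHom q)

theorem wc {f F δ : K[X]} {d r b : K} {g : ℕ} (hd : d ≠ 0) (hr : r ≠ 0)
    (e : F.comp (C (d * r ^ 2) * X + C b) = C ((d * r ^ 2) ^ (2 * g + 1)) * f) (h : Wc 1 F δ) :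
    Wc d f (δ.comp (C (d * r ^ 2) * X + C b)) := by
  obtain ⟨h0, U, V, s, hU, h1, h2, h3⟩ := h
  have hD : d * r ^ 2 ≠ 0 := mul_ne_zero hd (pow_ne_zero _ hr)
  have n1 : (C (d * r ^ 2) * X + C b : K[X]).natDegree = 1 := natDegree_linear hD
  have l1 : (C (d * r ^ 2) * X + C b : K[X]).leadingCoeff = d * r ^ 2 := leadingCoeff_linear hD
  generalize C (d * r ^ 2) * X + C b = q at e n1 l1 ⊢
  have hf : f ∣ F.comp q := e ▸ dvd_mul_left _ _
  obtain ⟨W, hW, eW, dW⟩ : ∃ W : K[X], W.Monic ∧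
      U.comp q = C ((d * r ^ 2) ^ U.natDegree) * W ∧ W.natDegree = U.natDegree := by
    have hp : (d * r ^ 2) ^ U.natDegree ≠ 0 := pow_ne_zero _ hD
    refine ⟨C ((d * r ^ 2) ^ U.natDegree)⁻¹ * U.comp q, ?_, ?_, ?_⟩
    · rw [Monic, leadingCoeff_mul, leadingCoeff_C, leadingCoeff_comp (by omega), hU.leadingCoeff,
        l1, one_mul, inv_mul_cancel₀ hp]
    · rw [← mul_assoc, ← C_mul, mul_inv_cancel₀ hp, C_1, one_mul]
    · rw [natDegree_C_mul (inv_ne_zero hp), natDegree_comp, n1, mul_one]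
  have hWU : W ∣ U.comp q := eW ▸ dvd_mul_left _ _
  refine ⟨(cop_comp q h0).of_isCoprime_of_dvd_right hf, W, C ((d * r ^ 2) ^ g * r)⁻¹ * V.comp q,
    C (r ^ U.natDegree)⁻¹ * s.comp q, hW, ?_,
    ((cop_comp q h2).of_isCoprime_of_dvd_right hf).of_isCoprime_of_dvd_left hWU, ?_⟩
  · have k := (hWU.trans (dvd_comp q h1)).mul_left (C ((d * r ^ 2) ^ g * r)⁻¹ ^ 2)
    rw [sub_comp, C_1, one_mul, pow_comp, e, mul_sub, ← mul_assoc, ← mul_pow, ← C_pow, ← C_mul] at k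
    rwa [show ((d * r ^ 2) ^ g * r)⁻¹ ^ 2 * (d * r ^ 2) ^ (2 * g + 1) = d by
      field_simp; ring] at k
  · have k := (hf.trans (dvd_comp q h3)).mul_left (C (r ^ U.natDegree)⁻¹ ^ 2)
    rw [sub_comp, mul_comp, mul_comp, C_comp, pow_comp, eW, mul_sub, ← mul_pow] at k
    have j : (C ((-d) ^ U.natDegree) : K[X]) = C (r ^ U.natDegree)⁻¹ ^ 2 *
        (C ((-1) ^ U.natDegree) * C ((d * r ^ 2) ^ U.natDegree)) := by
      rw [← C_pow, ← C_mul, ← C_mul, neg_pow d, mul_pow]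
      congr 1
      field_simp
      ring
    rw [dW, j]
    exact k.trans (dvd_of_eq (by ring))

theorem fK_comp (P : ℚ[X]) (a b : ℚ) [CharZero K] :
    fK (P.comp (C a * X + C b)) K = (fK P K).comp (C (a : K) * X + C (b : K)) := by
  simp [fK, Polynomial.map_comp]

theorem wq [CharZero K] {f F δ : ℚ[X]} {d r b : ℚ} {g : ℕ} (hd : d ≠ 0) (hr : r ≠ 0)
    (e : F.comp (C (d * r ^ 2) * X + C b) = C ((d * r ^ 2) ^ (2 * g + 1)) * f)
    (h : Wc ((1 : ℚ) : K) (fK F K) (fK δ K)) :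
    Wc (d : K) (fK f K) (fK (δ.comp (C (d * r ^ 2) * X + C b)) K) := by
  have e' := congrArg (fun P => fK P K) e
  simp only [fK_comp] at e' ⊢
  rw [fK, fK, Polynomial.map_mul, map_C, eq_ratCast] at e'
  push_cast at e' h ⊢
  exact wc (Rat.cast_ne_zero.2 hd) (Rat.cast_ne_zero.2 hr) e' h

theorem coef (b : ℤ) (B : ℤ) (hb : |b| ≤ B) (m n t : ℕ) (hm : m ≤ n) :
    |((X + C b) ^ m).coeff t| ≤ if t ≤ m then 2 ^ n * B ^ (m - t) else 0 := by
  rw [coeff_X_add_C_pow, abs_mul, abs_pow, Nat.abs_cast]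
  split_ifs with c
  · rw [mul_comm]
    refine mul_le_mul ?_ (pow_le_pow_left₀ (abs_nonneg _) hb _) (by positivity) (by positivity)
    exact_mod_cast (Nat.choose_le_two_pow m t).trans (Nat.pow_le_pow_right (by norm_num) hm)
  · rw [Nat.choose_eq_zero_of_lt (not_le.1 c)]
    simp

theorem bound {n : ℕ} (c : Fin n → ℤ) (b B : ℤ) (hb : |b| ≤ B) (hc : ∀ i, |c i| ≤ B ^ (i.1 + 1))
    {t : ℕ} (ht : t ≤ n) :
    |((pc c).comp (X + C b)).coeff t| ≤ (n + 1) * 2 ^ n * B ^ (n - t) := by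
  have hB : 0 ≤ B := (abs_nonneg _).trans hb
  have e : (pc c).comp (X + C b) = (X + C b) ^ n + ∑ i, C (c i) * (X + C b) ^ (n - 1 - i.1) := by
    simp [pc, Polynomial.sum_comp]
  have k1 := coef b B hb n n t le_rfl
  rw [if_pos ht] at k1
  have k2 : ∀ i : Fin n, |(C (c i) * (X + C b) ^ (n - 1 - i.1)).coeff t| ≤ 2 ^ n * B ^ (n - t) := by
    intro i
    have k := coef b B hb (n - 1 - i.1) n t (by omega)
    have hi := i.2
    rw [coeff_C_mul, abs_mul]
    split_ifs at k with c0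
    · refine (mul_le_mul (hc i) k (abs_nonneg _) (by positivity)).trans (le_of_eq ?_)
      rw [show n - t = i.1 + 1 + (n - 1 - i.1 - t) by omega, pow_add B (i.1 + 1)]
      ring
    · exact (mul_nonpos_of_nonneg_of_nonpos (abs_nonneg _) k).trans (by positivity)
  rw [e, coeff_add, finsetSum_coeff]
  refine (abs_add_le _ _).trans ((add_le_add k1 ((abs_sum_le_sum_abs _ _).trans
    (sum_le_sum fun i _ => k2 i))).trans (le_of_eq ?_))
  rw [sum_const, card_univ, Fintype.card_fin, nsmul_eq_mul]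
  ring

theorem scale {n : ℕ} (c : Fin n → ℚ) (D : ℚ) :
    (pc fun i => c i * D ^ (i.1 + 1)).comp (C D * X) = C (D ^ n) * pc c := by
  rw [pc, pc, add_comp, Polynomial.sum_comp, pow_comp, X_comp, mul_add, mul_sum, mul_pow, C_pow]
  refine congrArg _ (sum_congr rfl fun i _ => ?_)
  have hi := i.2
  rw [mul_comp, C_comp, pow_comp, X_comp, C_mul, C_pow, mul_pow,
    show (C D : ℚ[X]) ^ n = C D ^ (i.1 + 1) * C D ^ (n - 1 - i.1) by
      rw [← pow_add]; congr 1; omega]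
  ring

end Aff

theorem aff : AFFStmt := by
  intro f F d r b hd hr ⟨g, hg⟩ e
  have hD : d * r ^ 2 ≠ 0 := mul_ne_zero hd (pow_ne_zero _ hr)
  rw [hg] at e
  let _ := invertibleOfNonzero hD
  let σ := algEquivCMulXAddC (d * r ^ 2) b
  have hσ : ∀ P, σ P = P.comp (C (d * r ^ 2) * X + C b) := fun P => (comp_eq_aeval).symm
  have hu : IsUnit (C ((d * r ^ 2) ^ (2 * g + 1)) : ℚ[X]) := isUnit_C.2 (pow_ne_zero _ hD).isUnit
  refine ⟨fun h δ h1 h2 => ?_, fun h => ?_⟩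
  · obtain ⟨z, hz⟩ := h _ (Aff.wq hd hr e h1) fun p _ => Aff.wq hd hr e (h2 p)
    refine ⟨σ.symm z, (map_dvd_iff σ).1 ?_⟩
    rwa [map_sub, map_pow, σ.apply_symm_apply, hσ, hσ, e, hu.mul_left_dvd]
  · rw [← MulEquiv.irreducible_iff σ, hσ, e]
    exact (irreducible_isUnit_mul hu).2 h

theorem tra : ROOTStmt → TRAStmt := by
  intro R g d hd
  refine ⟨(2 * g + 1 + 1) * 2 ^ (2 * g + 1) * (d * (2 * g + 1) ^ 2), by positivity,
    fun H c hH hc => ?_⟩
  obtain ⟨D, hD⟩ : ∃ D : ℤ, D = d * (2 * g + 1) ^ 2 := ⟨_, rfl⟩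
  obtain ⟨b, hb⟩ : ∃ b : ℤ, b = d * (2 * g + 1) * c 0 := ⟨_, rfl⟩
  have D0 : 0 ≤ D := by rw [hD]; positivity
  have mo : ((pc fun i => c i * D ^ (i.1 + 1)).comp (X + C (-b))).Monic :=
    (pc_monic _).comp_X_add_C _
  have dg : ((pc fun i => c i * D ^ (i.1 + 1)).comp (X + C (-b))).natDegree = 2 * g + 1 := by
    rw [natDegree_comp, natDegree_X_add_C, pc_deg, mul_one]
  obtain ⟨a, ha⟩ := (R.1 ℤ (2 * g + 1)).2.1 _ mo dg
  have hco := ((R.1 ℤ (2 * g + 1)).1 a).2.2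
  have bb : |-b| ≤ D * H := by
    have k := hc 0
    rw [Fin.val_zero, zero_add, pow_one] at k
    rw [abs_neg, hb, hD, abs_mul, abs_of_nonneg (by positivity : (0 : ℤ) ≤ d * (2 * g + 1))]
    refine mul_le_mul (mul_le_mul_of_nonneg_left ?_ (by positivity)) k (abs_nonneg _)
      (by positivity)
    nlinarith [Int.natCast_nonneg g]
  have bc : ∀ i, |c i * D ^ (i.1 + 1)| ≤ (D * H) ^ (i.1 + 1) := fun i => by
    rw [abs_mul, abs_pow, abs_of_nonneg D0, mul_pow, mul_comm]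
    exact mul_le_mul_of_nonneg_left (hc i) (by positivity)
  have a0 : a 0 = 0 := by
    rw [← hco 0, ha, pc, add_comp, Polynomial.sum_comp, coeff_add, finsetSum_coeff, Fin.sum_univ_succ,
      sum_eq_zero]
    · rw [mul_comp, C_comp, pow_comp, pow_comp, X_comp, coeff_C_mul, coeff_X_add_C_pow,
        coeff_X_add_C_pow]
      simp [hD, hb]
      ring
    · intro i _
      have hi := i.2
      rw [mul_comp, C_comp, pow_comp, X_comp, coeff_C_mul, coeff_X_add_C_pow,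
        Nat.choose_eq_zero_of_lt (by simp; omega)]
      simp
  refine ⟨fun i => a i.succ, fun i => ?_, ?_⟩
  · have hi := i.2
    have k := Aff.bound _ (-b) (D * H) bb bc (t := 2 * g + 1 - 1 - i.succ.1) (by omega)
    rw [← ha, hco, show 2 * g + 1 - (2 * g + 1 - 1 - i.succ.1) = i.1 + 2 by
      rw [Fin.val_succ]; omega] at k
    refine k.trans ?_
    push_cast
    rw [← hD, mul_assoc _ D, mul_pow _ (D * H)]
    refine mul_le_mul_of_nonneg_right (le_self_pow₀ ?_ (by omega)) (by positivity)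
    exact one_le_mul_of_one_le_of_one_le (by omega) (one_le_pow₀ (by norm_num))
  · have e : (bg g fun i => a i.succ) = zK (pc a) ℚ := by
      rw [zK, pc_map, bg, pc, Fin.sum_univ_succ, a0]
      simp [Nat.sub_sub, add_comm]
    have e1 : (d : ℚ) * (2 * g + 1) ^ 2 = D := by rw [hD]; push_cast; rfl
    have e2 : (d : ℚ) * (2 * g + 1) * c 0 = b := by rw [hb]; push_cast; rfl
    rw [e, ha, e1, e2, zK, zK, Polynomial.map_comp, pc_map, pc_map, comp_assoc, ← Aff.scale]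
    simp

end Pool.Agent.MP_a43263_nt.UV

end
end MrgPart0

-- ======== part 1: formerly Pool.Agent.MP_a43263_nt.UV.Beta
section MrgPart1

/-! THEOREM U: coefficients, roots, and the density of the polynomials that are not maximal. -/

set_option autoImplicit false

noncomputable section

namespace Pool.Agent.MP_a43263_nt.UV

open Polynomial Finset Matrix JC

namespace Beta

theorem pc_coeff {R : Type} [CommRing R] {n : ℕ} (c : Fin n → R) (i : Fin n) :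
    (pc c).coeff (n - 1 - i.1) = c i := by
  have hi := i.2
  rw [pc, coeff_add, coeff_X_pow, if_neg (by omega), zero_add, finsetSum_coeff,
    sum_eq_single i (fun j _ hj => ?_) (by simp)]
  · simp
  · have hj' := j.2
    rw [coeff_C_mul, coeff_X_pow, if_neg fun e => hj (Fin.ext (by omega)), mul_zero]

theorem pc_surj {R : Type} [CommRing R] [Nontrivial R] {n : ℕ} {f : R[X]} (hf : f.Monic)
    (hd : f.natDegree = n) : (pc fun i : Fin n => f.coeff (n - 1 - i.1)) = f := by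
  ext k
  rcases lt_trichotomy k n with h | h | h
  · have := pc_coeff (fun i : Fin n => f.coeff (n - 1 - i.1)) ⟨n - 1 - k, by omega⟩
    rwa [show n - 1 - (n - 1 - k) = k by omega] at this
  · subst h
    have h1 := (pc_monic fun i : Fin k => f.coeff (k - 1 - i.1)).coeff_natDegree
    have h2 := hf.coeff_natDegree
    rw [pc_deg] at h1
    rw [hd] at h2
    rw [h1, h2]
  · rw [coeff_eq_zero_of_natDegree_lt (by rwa [pc_deg]), coeff_eq_zero_of_natDegree_lt (by omega)]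

theorem geom {q : ℝ} (hq : 1 < q) (m : ℕ) :
    ∑ k ∈ range m, q⁻¹ ^ (k + 1) = (1 - q⁻¹ ^ m) / (q - 1) := by
  have h1 : q - 1 ≠ 0 := by linarith
  have h2 : q ≠ 0 := by linarith
  induction m with
  | zero => simp
  | succ m ih =>
    rw [sum_range_succ, ih, pow_succ]
    field_simp
    ring

theorem bound {n H : ℕ} {c : Fin n → ℤ} (hH : 1 ≤ H) (hc : Box H c) {θ : ℂ}
    (h : (zK (pc c) ℂ).eval θ = 0) : ‖θ‖ ≤ 2 * H := by
  by_contra hc'
  push Not at hc'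
  have h0 : (1 : ℝ) ≤ H := by exact_mod_cast hH
  have h1 : 0 < ‖θ‖ := by linarith
  rw [zK, pc_map, pc, eval_add, eval_pow, eval_X, eval_finsetSum, add_eq_zero_iff_eq_neg] at h
  have h2 : ‖θ‖ ^ n ≤ ∑ i : Fin n, ‖θ‖ ^ n * (2 : ℝ)⁻¹ ^ (i.1 + 1) := by
    conv_lhs => rw [← norm_pow, h, norm_neg]
    refine (norm_sum_le _ _).trans (sum_le_sum fun i _ => ?_)
    have hi := i.2
    have h3 : ‖((c i : ℤ) : ℂ)‖ ≤ (‖θ‖ * 2⁻¹) ^ (i.1 + 1) := by
      rw [Complex.norm_intCast]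
      refine le_trans (b := (H : ℝ) ^ (i.1 + 1)) (by exact_mod_cast hc i) ?_
      exact pow_le_pow_left₀ (by linarith) (by linarith) _
    have h4 : ‖θ‖ ^ n = ‖θ‖ ^ (i.1 + 1) * ‖θ‖ ^ (n - 1 - i.1) := by
      rw [← pow_add]; congr 1; omega
    rw [eval_mul, eval_C, eval_pow, eval_X, norm_mul, norm_pow, h4, mul_right_comm, ← mul_pow]
    exact mul_le_mul_of_nonneg_right h3 (by positivity)
  rw [← mul_sum, Fin.sum_univ_eq_sum_range (fun i => (2 : ℝ)⁻¹ ^ (i + 1)), geom one_lt_two] at h2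
  have h5 : (0 : ℝ) < 2⁻¹ ^ n := by positivity
  have h6 := mul_pos (pow_pos h1 n) h5
  norm_num at h2 h6
  nlinarith

theorem lift {p : ℕ} (hp : 0 < p) (r : ZMod (p ^ 2)) :
    ∃ (t : Fin p) (w : ZMod (p ^ 2)), r = (t.1 : ZMod (p ^ 2)) + (p : ZMod (p ^ 2)) * w := by
  have : NeZero (p ^ 2) := ⟨by positivity⟩
  refine ⟨⟨r.val % p, Nat.mod_lt _ hp⟩, (r.val / p : ℕ), ?_⟩
  rw [← Nat.cast_mul, ← Nat.cast_add, Nat.mod_add_div, ZMod.natCast_zmod_val]

/-- the parametrisation -/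
def par (n p k : ℕ) (z : (Fin k → Fin p) × (Fin (n - 2 * k) → ZMod (p ^ 2)) × (Fin k → Fin p)) :
    Fin n → ZMod (p ^ 2) := fun i =>
  ((pc fun j => ((z.1 j).1 : ZMod (p ^ 2))) ^ 2 * pc z.2.1 + C (p : ZMod (p ^ 2)) *
    (pc fun j => ((z.1 j).1 : ZMod (p ^ 2))) *
      po fun j => ((z.2.2 j).1 : ZMod (p ^ 2))).coeff (n - 1 - i.1)

theorem cover {n p : ℕ} (hp : p.Prime) {c : Fin n → ℤ} (h : Nx p (pc c)) :
    ∃ k, 0 < k ∧ 2 * k ≤ n ∧ ∃ z, par n p k z = fun i => (c i : ZMod (p ^ 2)) := by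
  have : Fact p.Prime := ⟨hp⟩
  have : Fact (1 < p ^ 2) := ⟨Nat.one_lt_pow two_ne_zero hp.one_lt⟩
  obtain ⟨φ, a, b, e, h1, h2, h3⟩ := h
  have h4 : 2 * φ.natDegree ≤ n := by
    have h5 : zK φ (ZMod p) ^ 2 ∣ zK (pc c) (ZMod p) := ⟨zK a (ZMod p), by rw [h3]; simp⟩
    have h6 := natDegree_le_of_dvd h5 ((pc_monic c).map _).ne_zero
    rwa [(h1.map _).natDegree_pow, h1.natDegree_map, (pc_monic c).natDegree_map, pc_deg] at h6
  refine ⟨φ.natDegree, h2, h4, ?_⟩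
  generalize hk : φ.natDegree = k at h2 h4
  have hpp : C (p : ZMod (p ^ 2)) ^ 2 = 0 := by
    rw [← C_pow, ← Nat.cast_pow, ZMod.natCast_self, C_0]
  have h5 : (pc fun i => (c i : ZMod (p ^ 2))) = zK φ (ZMod (p ^ 2)) ^ 2 * zK a (ZMod (p ^ 2)) +
      C (p : ZMod (p ^ 2)) * zK φ (ZMod (p ^ 2)) * zK b (ZMod (p ^ 2)) +
      C (p : ZMod (p ^ 2)) ^ 2 * zK e (ZMod (p ^ 2)) := by
    have := pc_map (Int.castRingHom (ZMod (p ^ 2))) c
    rw [h3] at this
    exact this.symm.trans (by simp)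
  choose t w htw using fun i : Fin k => lift hp.pos ((zK φ (ZMod (p ^ 2))).coeff (k - 1 - i.1))
  have h6 := pc_surj (h1.map (Int.castRingHom (ZMod (p ^ 2)))) ((h1.natDegree_map _).trans hk)
  obtain ⟨φ₀, hφ⟩ : ∃ φ₀, φ₀ = pc fun j => ((t j).1 : ZMod (p ^ 2)) := ⟨_, rfl⟩
  have m0 : φ₀.Monic := hφ ▸ pc_monic _
  have d0 : φ₀.natDegree = k := hφ ▸ pc_deg _
  obtain ⟨ψ, hψ⟩ : ∃ ψ, zK φ (ZMod (p ^ 2)) = φ₀ + C (p : ZMod (p ^ 2)) * ψ :=
    ⟨∑ i, C (w i) * X ^ (k - 1 - i.1), by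
      rw [zK, ← h6, hφ, funext htw, pc, pc, mul_sum, add_assoc, ← sum_add_distrib]
      simp only [C_add, C_mul, add_mul, mul_assoc]⟩
  generalize zK a (ZMod (p ^ 2)) = a' at h5
  generalize zK b (ZMod (p ^ 2)) = b' at h5
  choose s v hsv using fun i : Fin k => lift hp.pos (ve k φ₀ (2 * ψ * a' + b') i)
  have h7 := po_ve m0 d0 (2 * ψ * a' + b')
  have h8 := modByMonic_add_div (2 * ψ * a' + b') φ₀
  obtain ⟨b₀, hb⟩ : ∃ b₀, b₀ = po fun j => ((s j).1 : ZMod (p ^ 2)) := ⟨_, rfl⟩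
  have h9 : po (ve k φ₀ (2 * ψ * a' + b')) = b₀ + C (p : ZMod (p ^ 2)) * po v := by
    rw [hb, funext hsv, po, po, po, mul_sum, ← sum_add_distrib]
    simp only [C_add, C_mul, add_mul, mul_assoc]
  rw [← h7, h9] at h8
  generalize (2 * ψ * a' + b') /ₘ φ₀ = q at h8
  have h10 : φ₀ ^ 2 * (a' + C (p : ZMod (p ^ 2)) * q) =
      (pc fun i => (c i : ZMod (p ^ 2))) - C (p : ZMod (p ^ 2)) * φ₀ * b₀ := by
    rw [h5, hψ]
    linear_combination C (p : ZMod (p ^ 2)) * φ₀ * h8 -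
      (ψ ^ 2 * a' + ψ * b' + zK e (ZMod (p ^ 2)) + φ₀ * po v) * hpp
  have h11 : (C (p : ZMod (p ^ 2)) * φ₀ * b₀).natDegree <
      (pc fun i => (c i : ZMod (p ^ 2))).natDegree := by
    have a1 : b₀.natDegree < k := by
      by_cases e0 : b₀ = 0
      · rwa [e0, natDegree_zero]
      · exact (natDegree_lt_iff_degree_lt e0).2 (hb ▸ po_degree _)
    have a2 := natDegree_mul_le (p := C (p : ZMod (p ^ 2)) * φ₀) (q := b₀)
    have a3 := natDegree_C_mul_le (p : ZMod (p ^ 2)) φ₀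
    rw [pc_deg]
    omega
  have m1 : (a' + C (p : ZMod (p ^ 2)) * q).Monic := (m0.pow 2).of_mul_monic_left
    (h10 ▸ (pc_monic _).sub_of_left (degree_lt_degree h11))
  have d1 : (a' + C (p : ZMod (p ^ 2)) * q).natDegree = n - 2 * k := by
    have := (m0.pow 2).natDegree_mul m1
    rw [h10, natDegree_sub_eq_left_of_natDegree_lt h11, pc_deg, m0.natDegree_pow, d0] at this
    omega
  obtain ⟨y, hy⟩ : ∃ y : Fin (n - 2 * k) → ZMod (p ^ 2), pc y = _ := ⟨_, pc_surj m1 d1⟩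
  refine ⟨(t, y, s), funext fun i => ?_⟩
  rw [par, hy, ← hφ, ← hb, h10, sub_add_cancel, pc_coeff]

end Beta

open Beta in
theorem root : ROOTStmt :=
  ⟨fun _ _ _ _ => ⟨fun c => ⟨pc_monic c, pc_deg c, pc_coeff c⟩, fun _ h1 h2 => ⟨_, pc_surj h1 h2⟩,
    fun _ _ φ c => pc_map φ c⟩, fun _ _ _ h1 h2 _ h3 => bound h1 h2 h3⟩

open Beta in
theorem beta : ROOTStmt → BETAStmt := by
  classical
  intro _ n p hp
  have : NeZero (p ^ 2) := ⟨pow_ne_zero _ hp.ne_zero⟩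
  have h1 : (1 : ℝ) < p := by exact_mod_cast hp.one_lt
  have h2 : (1 : ℝ) < (p : ℝ) ^ 2 := by nlinarith
  have h3 : {x : Fin n → ZMod (p ^ 2) | ∃ c : Fin n → ℤ, (fun i => (c i : ZMod (p ^ 2))) = x ∧
      Nx p (pc c)} ⊆ ↑((range (n / 2)).biUnion fun k => univ.image (par n p (k + 1))) := by
    rintro _ ⟨c, rfl, hc⟩
    obtain ⟨k, k0, k1, z, hz⟩ := cover hp hc
    obtain ⟨k, rfl⟩ := Nat.exists_eq_add_one_of_ne_zero k0.ne'
    exact mem_biUnion.2 ⟨k, mem_range.2 (by omega), mem_image.2 ⟨z, mem_univ _, hz⟩⟩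
  have h4 := (Set.ncard_le_ncard h3 (finite_toSet _)).trans ((Set.ncard_coe_finset _).trans_le
    (card_biUnion_le.trans (sum_le_sum fun k _ => card_image_le)))
  refine (Nat.cast_le.2 h4).trans ?_
  rw [Nat.cast_sum, sum_congr rfl (g := fun k => (p : ℝ) ^ (2 * n) * ((p : ℝ) ^ 2)⁻¹ ^ (k + 1))
    fun k hk => ?_, ← mul_sum, geom h2, div_eq_mul_one_div ((p : ℝ) ^ (2 * n))]
  · have : (0 : ℝ) ≤ ((p : ℝ) ^ 2)⁻¹ ^ (n / 2) := by positivity
    gcongr
    linarith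
  · have h5 := mem_range.1 hk
    obtain ⟨m, rfl⟩ : ∃ m, n = m + 2 * (k + 1) := ⟨n - 2 * (k + 1), by omega⟩
    simp only [card_univ, Fintype.card_prod, Fintype.card_fun, Fintype.card_fin, ZMod.card,
      Nat.add_sub_cancel]
    push_cast
    rw [inv_pow]
    field_simp
    ring

end Pool.Agent.MP_a43263_nt.UV

end
end MrgPart1

-- ======== part 2: formerly Pool.Agent.MP_a43263_nt.UV.Diag
section MrgPart2

/-! Diagonalisation over local rings; invariance of the Hasse symbol. -/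

namespace Pool.Agent.MP_a43263_nt.UV

open Finset Matrix JC

namespace Diag

section ring

variable {R : Type} [CommRing R] {m : ℕ}

/-- block sum of a scalar and a matrix -/
def ex (a : R) (M : Matrix (Fin m) (Fin m) R) : Matrix (Fin (m + 1)) (Fin (m + 1)) R :=
  Matrix.of (Fin.cons (Fin.cons a 0) fun i => Fin.cons 0 (M i))

theorem det_ex (a : R) (M : Matrix (Fin m) (Fin m) R) : (ex a M).det = a * M.det := by
  rw [det_succ_row_zero, Fin.sum_univ_succ]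
  have : (ex a M).submatrix Fin.succ (Fin.succAbove 0) = M := by
    ext i j
    simp [ex]
  rw [this]
  simp [ex]

theorem ex_mul (a b : R) (M N : Matrix (Fin m) (Fin m) R) :
    ex a M * ex b N = ex (a * b) (M * N) := by
  ext i j
  refine Fin.cases ?_ (fun i => ?_) i <;> refine Fin.cases ?_ (fun j => ?_) j <;>
    simp [ex, mul_apply, Fin.sum_univ_succ]

theorem ex_tr (a : R) (M : Matrix (Fin m) (Fin m) R) : (ex a M)ᵀ = ex a Mᵀ := by
  ext i j
  refine Fin.cases ?_ (fun i => ?_) i <;> refine Fin.cases ?_ (fun j => ?_) j <;> simp [ex]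

theorem ex_diag (a : R) (e : Fin m → R) : ex a (diagonal e) = diagonal (Fin.cons a e) := by
  ext i j
  refine Fin.cases ?_ (fun i => ?_) i <;> refine Fin.cases ?_ (fun j => ?_) j <;>
    simp [ex, diagonal_apply, (Fin.succ_ne_zero _).symm]

theorem symm_congr {G : Matrix (Fin m) (Fin m) R} (h : G.IsSymm) (P : Matrix (Fin m) (Fin m) R) :
    (Pᵀ * G * P).IsSymm := by
  rw [IsSymm, transpose_mul, transpose_mul, transpose_transpose, h.eq, Matrix.mul_assoc]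

theorem unit_congr {G P : Matrix (Fin m) (Fin m) R} (h : IsUnit G.det) (hP : IsUnit P.det) :
    IsUnit (Pᵀ * G * P).det := by
  rw [det_mul, det_mul, det_transpose]
  exact (hP.mul h).mul hP

/-- completing the square -/
theorem split {G : Matrix (Fin (m + 1)) (Fin (m + 1)) R} (h : G.IsSymm) (h0 : IsUnit (G 0 0)) :
    ∃ (P : Matrix (Fin (m + 1)) (Fin (m + 1)) R) (G' : Matrix (Fin m) (Fin m) R),
      IsUnit P.det ∧ Pᵀ * G * P = ex (G 0 0) G' := by
  obtain ⟨b, hb⟩ := h0.exists_left_inv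
  let P : Matrix (Fin (m + 1)) (Fin (m + 1)) R :=
    Matrix.of (Fin.cons (Fin.cons 1 fun j => -b * G 0 j.succ) fun i => Pi.single i.succ 1)
  have hP : P.det = 1 := by
    rw [det_succ_column_zero, Fin.sum_univ_succ]
    have : P.submatrix (Fin.succAbove 0) Fin.succ = 1 := by
      ext i j
      simp [P, Pi.single_apply, one_apply, eq_comm]
    rw [this]
    simp [P]
  refine ⟨P, Matrix.of fun i j => G i.succ j.succ - b * G 0 i.succ * G 0 j.succ, by simp [hP], ?_⟩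
  ext i j
  refine Fin.cases ?_ (fun i => ?_) i <;> refine Fin.cases ?_ (fun j => ?_) j <;>
    simp [P, ex, mul_apply, Fin.sum_univ_succ, Pi.single_apply, h.apply 0]
  · linear_combination (-G 0 j.succ) * hb
  · linear_combination (-G 0 i.succ) * hb
  · linear_combination (b * G 0 i.succ * G 0 j.succ) * hb

theorem pivot [IsLocalRing R] (h2 : IsUnit (2 : R)) {G : Matrix (Fin (m + 1)) (Fin (m + 1)) R}
    (h : G.IsSymm) (hd : IsUnit G.det) :
    ∃ P : Matrix (Fin (m + 1)) (Fin (m + 1)) R, IsUnit P.det ∧ IsUnit ((Pᵀ * G * P) 0 0) := by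
  by_cases h0 : IsUnit (G 0 0)
  · exact ⟨1, by simp, by simpa using h0⟩
  obtain ⟨j, hj⟩ : ∃ j, IsUnit (G 0 j) := by
    rw [det_succ_row_zero] at hd
    obtain ⟨j, -, hj⟩ := IsLocalRing.exists_of_isUnit_sum hd
    exact ⟨j, isUnit_of_mul_isUnit_right (isUnit_of_mul_isUnit_left hj)⟩
  have hj0 : j ≠ 0 := fun e => h0 (e ▸ hj)
  have key : ∀ t : R, ((transvection j 0 t)ᵀ * G * transvection j 0 t) 0 0 =
      G 0 0 + 2 * t * G 0 j + t ^ 2 * G j j := fun t => by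
    have : (transvection j 0 t)ᵀ = transvection 0 j t := by
      simp [transvection, transpose_add]
    rw [this, mul_transvection_apply_same, transvection_mul_apply_same,
      transvection_mul_apply_same, h.apply 0 j]
    ring
  have h4 : IsUnit (G 0 0 + 2 * 1 * G 0 j + 1 ^ 2 * G j j +
      -(G 0 0 + 2 * -1 * G 0 j + (-1) ^ 2 * G j j)) := by
    rw [show G 0 0 + 2 * 1 * G 0 j + 1 ^ 2 * G j j +
      -(G 0 0 + 2 * -1 * G 0 j + (-1) ^ 2 * G j j) = 2 * 2 * G 0 j by ring]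
    exact (h2.mul h2).mul hj
  rw [← key, ← key] at h4
  rcases IsLocalRing.isUnit_or_isUnit_of_isUnit_add h4 with h5 | h5
  · exact ⟨_, by rw [det_transvection_of_ne _ _ hj0]; exact isUnit_one, h5⟩
  · exact ⟨_, by rw [det_transvection_of_ne _ _ hj0]; exact isUnit_one, (IsUnit.neg_iff _).1 h5⟩

end ring

section field

variable {K : Type} [Field K] {s : K → K → ℤ} {m : ℕ}

theorem H_union {ι : Type} [LinearOrder ι] (hs : Sy s) {T T' : Finset ι} (hd : Disjoint T T')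
    {e : ι → K} (he : ∀ k, e k ≠ 0) : Hw.H s (T.disjUnion T' hd) e =
      Hw.H s T e * Hw.H s T' e * s (∏ k ∈ T, e k) (∏ k ∈ T', e k) := by
  rw [disjUnion_eq_union]
  have hP : ∀ U : Finset ι, ∏ k ∈ U, e k ≠ 0 := fun U => prod_ne_zero_iff.2 fun k _ => he k
  induction T using Finset.induction_on with
  | empty =>
    have : s 1 (∏ k ∈ T', e k) = 1 := by
      rw [hs.comm]
      simpa using Hw.prod_r hs (hP T') (∅ : Finset ι) (e := e) (by simp)
    simp [this, Hw.H]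
  | insert i T hi ih =>
    rw [disjoint_insert_left] at hd
    rw [insert_union, Hw.H_insert hs (by simp [hi, hd.1]) (he i) fun k _ => he k, ih hd.2,
      Hw.H_insert hs hi (he i) fun k _ => he k, prod_union hd.2, prod_insert hi,
      Hw.mul_r hs (he i) (hP _) (hP _), hs.mul _ _ _ (he i) (hP _) (hP _)]
    ring

theorem val {G : Matrix (Fin m) (Fin m) K} {e : Fin m → K} (h : Dg G e) :
    ∃ l : (Fin m → K) ≃ₗ[K] (Fin m → K), ∀ v, ∑ i, e i * l v i ^ 2 = v ⬝ᵥ G *ᵥ v := by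
  obtain ⟨P, h1, h2⟩ := h
  have := invertibleOfIsUnitDet P h1
  refine ⟨(toLinearEquiv' P this).symm, fun v => ?_⟩
  obtain ⟨z, rfl⟩ := (toLinearEquiv' P this).surjective v
  rw [LinearEquiv.symm_apply_apply]
  show _ = (P *ᵥ z) ⬝ᵥ G *ᵥ P *ᵥ z
  rw [mulVec_mulVec, dotProduct_comm, dotProduct_mulVec, ← mulVec_transpose, dotProduct_comm,
    mulVec_mulVec, ← Matrix.mul_assoc, h2]
  simp [dotProduct, mulVec_diagonal, sq, mul_left_comm]

theorem key [CharZero K] (hs : Sy s) {G : Matrix (Fin m) (Fin m) K} {e' : Fin m → K}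
    (h' : Dg G e') (he' : ∀ i, e' i ≠ 0) : ∃ (c : ℤ) (d : K), c ≠ 0 ∧ d ≠ 0 ∧ ∀ e : Fin m → K,
      Dg G e → (∀ i, e i ≠ 0) → Hs s e * c * s (∏ i, e i) d = Hw.F s m ((∏ i, e i) * d) := by
  let w : Fin (m + 1) → K := Fin.cons 1 fun i => -e' i
  have hw : ∀ i, w i ≠ 0 := Fin.cases one_ne_zero fun i => neg_ne_zero.2 (he' i)
  refine ⟨Hw.H s univ w, ∏ i, w i, ?_, prod_ne_zero_iff.2 fun i _ => hw i, fun e h he => ?_⟩
  · refine prod_ne_zero_iff.2 fun i _ => prod_ne_zero_iff.2 fun j _ => ?_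
    split_ifs
    · rcases hs.pm _ _ (hw i) (hw j) with h | h <;> simp [h]
    · exact one_ne_zero
  obtain ⟨l, hl⟩ := val h
  obtain ⟨l', hl'⟩ := val h'
  let a : Fin m ↪ Fin m ⊕ₗ Fin (m + 1) := ⟨fun i => toLex (Sum.inl i), fun i j h => by simpa using h⟩
  let b : Fin (m + 1) ↪ Fin m ⊕ₗ Fin (m + 1) :=
    ⟨fun i => toLex (Sum.inr i), fun i j h => by simpa using h⟩
  let E : Fin m ⊕ₗ Fin (m + 1) → K := fun k => Sum.elim e w (ofLex k)
  have hE : ∀ k, E k ≠ 0 := fun k => by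
    obtain ⟨i | i, rfl⟩ := toLex.surjective k
    exacts [he i, hw i]
  have hd : Disjoint (univ.map a) (univ.map b) := by
    simp [disjoint_left, a, b]
  have h1 := H_union hs hd hE
  have h2 := Hw.st hs m (Fin m → K) ((univ.map a).disjUnion (univ.map b) hd) E
    (fun k => Sum.elim (fun i => (LinearMap.proj i).comp l.toLinearMap)
      (Fin.cons 0 fun i => (LinearMap.proj i).comp l'.toLinearMap) (ofLex k))
    (by rw [card_disjUnion]; simp; omega) (by simp) (fun k _ => hE k)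
    (fun v hv => l.map_eq_zero_iff.1 (funext fun i => hv (a i) (by simp)))
    (fun v => by
      rw [sum_disjUnion, sum_map, sum_map, Fin.sum_univ_succ]
      simp [a, b, E, w, hl, hl'])
  have h3 : Hw.H s (univ.map a) E = Hs s e := by
    simp only [Hw.H, Hs, prod_map]
    refine prod_congr rfl fun i _ => ?_
    rw [← filter_lt_eq_Ioi, prod_filter]
    exact prod_congr rfl fun j _ => if_congr Sum.Lex.inl_lt_inl_iff rfl rfl
  have h4 : Hw.H s (univ.map b) E = Hw.H s univ w := by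
    simp only [Hw.H, prod_map]
    exact prod_congr rfl fun i _ => prod_congr rfl fun j _ =>
      if_congr Sum.Lex.inr_lt_inr_iff rfl rfl
  rw [h2, h3, h4, prod_disjUnion, prod_map, prod_map] at h1
  exact h1.symm

theorem alt (w : ℕ → K) (g : ℕ) :
    ∑ i ∈ range (2 * g + 1), (-1) ^ i * w (i / 2) = w g ∧
      ∏ i ∈ range (2 * g + 1), (-1 : K) ^ i = (-1) ^ g := by
  induction g with
  | zero => simp
  | succ g ih =>
    rw [show 2 * (g + 1) + 1 = 2 * g + 1 + 1 + 1 by ring, sum_range_succ, sum_range_succ, ih.1,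
      prod_range_succ, prod_range_succ, ih.2, show (2 * g + 1) / 2 = g by omega,
      show (2 * g + 1 + 1) / 2 = g + 1 by omega]
    simp [pow_succ, pow_mul]

theorem iso_alt (g : ℕ) : Iso g fun i : Fin (2 * g + 1) => (-1 : K) ^ i.1 := by
  let φ : (Fin g → K) →ₗ[K] Fin (2 * g + 1) → K := LinearMap.pi fun i =>
    if h : i.1 / 2 < g then LinearMap.proj ⟨_, h⟩ else 0
  have hφ : Function.Injective φ := (injective_iff_map_eq_zero φ).2 fun v hv => funext fun j => by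
    simpa [φ] using congrFun hv ⟨2 * j, by omega⟩
  refine ⟨LinearMap.range φ, by rw [LinearMap.finrank_range_of_inj hφ]; simp, ?_⟩
  rintro _ ⟨v, rfl⟩
  have := (alt (fun k => if h : k < g then v ⟨k, h⟩ ^ 2 else 0) g).1
  rw [sum_range, dif_neg (lt_irrefl g)] at this
  refine (sum_congr rfl fun i _ => ?_).trans this
  by_cases h : i.1 / 2 < g <;> simp [φ, h]

end field

end Diag

theorem diag : DIAGStmt := by
  intro R _ _ h2 m
  induction m with
  | zero => exact fun G _ _ => ⟨0, ⟨1, by simp, Subsingleton.elim _ _⟩, fun i => i.elim0⟩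
  | succ m ih =>
    intro G hG hd
    obtain ⟨P, p1, p2⟩ := Diag.pivot h2 hG hd
    have s1 := Diag.symm_congr hG P
    obtain ⟨P', G', q1, q2⟩ := Diag.split s1 p2
    have s2 := Diag.symm_congr s1 P'
    have u2 := Diag.unit_congr (Diag.unit_congr hd p1) q1
    rw [q2] at s2 u2
    rw [Diag.det_ex] at u2
    obtain ⟨e, ⟨Q, r1, r2⟩, r3⟩ := ih G' (by
      ext i j
      simpa [Diag.ex] using s2.apply i.succ j.succ) (isUnit_of_mul_isUnit_right u2)
    refine ⟨Fin.cons ((Pᵀ * G * P) 0 0) e, Dg.of_congr p1 (Dg.of_congr q1 ⟨Diag.ex 1 Q, ?_, ?_⟩),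
      Fin.cases p2 r3⟩
    · rwa [Diag.det_ex, one_mul]
    · rw [q2, Diag.ex_tr, Diag.ex_mul, Diag.ex_mul, r2, one_mul, mul_one, Diag.ex_diag]

theorem hinv : HINVStmt := by
  intro K _ _ s hs
  refine ⟨fun m G e e' h h' he => ?_, fun g G e h he ⟨S, s1, s2⟩ ⟨r, hr⟩ => ?_⟩
  · obtain ⟨u, u1, u2⟩ := h.det
    obtain ⟨u', u1', u2'⟩ := h'.det
    have p1 : ∏ i, e i ≠ 0 := prod_ne_zero_iff.2 fun i _ => he i
    have hG : G.det ≠ 0 := fun h0 => p1 (by rw [u2, h0, mul_zero])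
    have he' : ∀ i, e' i ≠ 0 := fun i => prod_ne_zero_iff.1
      (u2' ▸ mul_ne_zero (pow_ne_zero 2 u1'.ne_zero) hG) i (mem_univ i)
    obtain ⟨c, d, c0, d0, k⟩ := Diag.key hs h' he'
    have k1 := k e h he
    have k2 := k e' h' he'
    rw [u2, hs.comm, mul_comm (u ^ 2), Hw.sq_r hs d0 hG u1.ne_zero, mul_right_comm _ (u ^ 2),
      Hw.F_sq hs _ (mul_ne_zero hG d0) u1.ne_zero] at k1
    rw [u2', hs.comm, mul_comm (u' ^ 2), Hw.sq_r hs d0 hG u1'.ne_zero, mul_right_comm _ (u' ^ 2),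
      Hw.F_sq hs _ (mul_ne_zero hG d0) u1'.ne_zero] at k2
    refine mul_right_cancel₀ c0 (mul_right_cancel₀ ?_ (k1.trans k2.symm))
    rcases hs.pm _ _ d0 hG with h | h <;> simp [h]
  · obtain ⟨l, hl⟩ := Diag.val h
    obtain ⟨u, -, u2⟩ := h.det
    refine hw K s hs g e _ he (fun i => pow_ne_zero _ (neg_ne_zero.2 one_ne_zero))
      ⟨S.map l.toLinearMap, by rwa [LinearEquiv.finrank_map_eq], ?_⟩ (Diag.iso_alt g) ⟨u * r, ?_⟩
    · rintro _ ⟨v, hv, rfl⟩
      exact (hl v).trans (s2 v hv)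
    · rw [u2, ← prod_range fun i => (-1 : K) ^ i, (Diag.alt (fun _ => (0 : K)) g).2]
      linear_combination u ^ 2 * hr

end Pool.Agent.MP_a43263_nt.UV

end MrgPart2

-- ======== part 3: formerly Pool.Agent.MP_a43263_nt.UV.Fin
section MrgPart3

/-! THEOREM U: the final count. -/

set_option autoImplicit false

noncomputable section

namespace Pool.Agent.MP_a43263_nt.UV

open Polynomial Finset Filter JC

namespace FinK

theorem box_eq {n : ℕ} (L : Fin n → ℕ) : {c : Fin n → ℤ | ∀ i, |c i| ≤ (L i : ℤ)} =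
    ↑(Fintype.piFinset fun i => Icc (-(L i : ℤ)) (L i)) := by
  ext c
  simp only [Set.mem_ofPred_eq, abs_le, mem_coe, Fintype.mem_piFinset, mem_Icc]

theorem box_fin {n : ℕ} (L : Fin n → ℕ) : {c : Fin n → ℤ | ∀ i, |c i| ≤ (L i : ℤ)}.Finite := by
  rw [box_eq]
  exact finite_toSet _

theorem card_Icc' (L : ℕ) : (Icc (-(L : ℤ)) L).card = 2 * L + 1 := by
  rw [Int.card_Icc]
  omega

theorem sum_exp (g : ℕ) : ∑ i : Fin (2 * g), (i.1 + 2) + 1 = dm g := by
  rw [Fin.sum_univ_eq_sum_range (fun i => i + 2) (2 * g), dm]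
  induction g with
  | zero => simp
  | succ g ih =>
    rw [show 2 * (g + 1) = 2 * g + 1 + 1 by ring, sum_range_succ, sum_range_succ]
    nlinarith

theorem box_card (g H : ℕ) (h : 1 ≤ H) :
    {c : Fin (2 * g) → ℤ | ∀ i, |c i| ≤ (H : ℤ) ^ (i.1 + 2)}.ncard ≤
      3 ^ (2 * g) * H ^ (dm g - 1) := by
  have e := box_eq fun i : Fin (2 * g) => H ^ (i.1 + 2)
  simp only [Nat.cast_pow] at e
  rw [e, Set.ncard_coe_finset, Fintype.card_piFinset, ← sum_exp, Nat.add_sub_cancel,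
    ← prod_pow_eq_pow_sum]
  calc _ ≤ ∏ i : Fin (2 * g), 3 * H ^ (i.1 + 2) := prod_le_prod' fun i _ => by
        have := card_Icc' (H ^ (i.1 + 2))
        have h1 : 1 ≤ H ^ (i.1 + 2) := Nat.one_le_pow _ _ h
        rw [Nat.cast_pow] at this
        omega
    _ = _ := by rw [prod_mul_distrib, prod_const, card_univ, Fintype.card_fin]

/-- the transfer of one polynomial -/
theorem one (aff : AFFStmt) (desc : DESCStmt) {g d : ℕ} (hg : 1 ≤ g) (hd : 0 < d)
    {c : Fin (2 * g + 1) → ℤ} {c' : Fin (2 * g) → ℤ} (hz : Zq g (pc c))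
    (hs : SelT d (zK (pc c) ℚ))
    (e : (bg g c').comp (C ((d : ℚ) * (2 * g + 1) ^ 2) * X + C ((d : ℚ) * (2 * g + 1) * c 0)) =
      C (((d : ℚ) * (2 * g + 1) ^ 2) ^ (2 * g + 1)) * zK (pc c) ℚ) : Good (bg g c') := by
  have := aff (zK (pc c) ℚ) (bg g c') d (2 * g + 1) _ (by positivity) (by positivity)
    (by rw [hz.dg]; exact odd_two_mul_add_one g) (by rw [hz.dg]; exact e)
  exact desc g c' hg (this.2 hz.irr) (this.1 hs)

end FinK

open FinK in
theorem fin : AFFStmt → BXCStmt → ROOTStmt → SIEVEStmt → TRAStmt → DESCStmt → MainStmt := by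
  intro aff _ root sieve tra desc g hg
  obtain ⟨Q, ε, hε, hQ, hev⟩ := sieve g hg
  have hd : ∀ S ⊆ Q, 0 < ∏ q ∈ S, q := fun S hS => prod_pos fun q hq => hQ q (hS hq)
  have h1 : ∀ S : Finset ℕ, ∃ k : ℕ, S ⊆ Q → ∀ (H : ℕ) (c : Fin (2 * g + 1) → ℤ), 1 ≤ H → Box H c →
      ∃ c' : Fin (2 * g) → ℤ, (∀ i, |c' i| ≤ ((k * H : ℕ) : ℤ) ^ (i.1 + 2)) ∧
      (bg g c').comp (C (((∏ q ∈ S, q : ℕ) : ℚ) * (2 * g + 1) ^ 2) * X +
        C (((∏ q ∈ S, q : ℕ) : ℚ) * (2 * g + 1) * c 0)) =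
      C ((((∏ q ∈ S, q : ℕ) : ℚ) * (2 * g + 1) ^ 2) ^ (2 * g + 1)) * zK (pc c) ℚ := fun S => by
    by_cases hS : S ⊆ Q
    · obtain ⟨k, -, hk⟩ := tra g _ (hd S hS)
      exact ⟨k, fun _ => hk⟩
    · exact ⟨0, fun h => absurd h hS⟩
  choose k hk using h1
  obtain ⟨K, hK0, hK⟩ : ∃ K : ℕ, 0 < K ∧ ∀ S ⊆ Q, k S ≤ K :=
    ⟨Q.powerset.sup k + 1, Nat.succ_pos _, fun S hS =>
      (le_sup (f := k) (mem_powerset.2 hS)).trans (Nat.le_succ _)⟩
  refine ⟨ε / (2 ^ Q.card * 3 * (3 ^ (2 * g) * (2 * K) ^ (dm g - 1))), by positivity, ?_⟩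
  have ht : Tendsto (fun H : ℕ => H / K) atTop atTop := Nat.tendsto_div_const_atTop hK0.ne'
  filter_upwards [ht.eventually hev, ht.eventually_ge_atTop 1] with H' h2 h3
  set H := H' / K with hH
  have l1 : K * H ≤ H' := Nat.mul_div_le _ _
  have l2 : H' ≤ 2 * K * H := by
    have := Nat.lt_mul_div_succ H' hK0
    nlinarith
  set G := {c : Fin (2 * g) → ℤ | (∀ i, |c i| ≤ (H' : ℤ) ^ (i.1 + 2)) ∧ Good (bg g c)} with hG
  have fG : G.Finite := (box_fin fun i : Fin (2 * g) => H' ^ (i.1 + 2)).subset fun c hc i => by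
    simpa using hc.1 i
  have h4 : ∀ c : Fin (2 * g + 1) → ℤ, ∃ (S : Finset ℕ) (c' : Fin (2 * g) → ℤ),
      (Box H c ∧ Zq g (pc c) ∧ ∃ S ⊆ Q, SelT (∏ q ∈ S, (q : ℚ)) (zK (pc c) ℚ)) → S ⊆ Q ∧ c' ∈ G ∧
      (bg g c').comp (C (((∏ q ∈ S, q : ℕ) : ℚ) * (2 * g + 1) ^ 2) * X +
        C (((∏ q ∈ S, q : ℕ) : ℚ) * (2 * g + 1) * c 0)) =
      C ((((∏ q ∈ S, q : ℕ) : ℚ) * (2 * g + 1) ^ 2) ^ (2 * g + 1)) * zK (pc c) ℚ := fun c => by
    by_cases hc : Box H c ∧ Zq g (pc c) ∧ ∃ S ⊆ Q, SelT (∏ q ∈ S, (q : ℚ)) (zK (pc c) ℚ)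
    · obtain ⟨hb, hz, S, hS, hs⟩ := hc
      obtain ⟨c', b, e⟩ := hk S hS H c h3 hb
      refine ⟨S, c', fun _ => ⟨hS, ⟨fun i => (b i).trans ?_,
        one aff desc hg (hd S hS) hz (by rwa [Nat.cast_prod]) e⟩, e⟩⟩
      exact pow_le_pow_left₀ (by positivity)
        (by exact_mod_cast (Nat.mul_le_mul_right H (hK S hS)).trans l1) _
    · exact ⟨∅, 0, fun h => absurd h hc⟩
  choose S c' hc using h4
  have h5 := Set.ncard_le_ncard_of_injOn
    (s := {c : Fin (2 * g + 1) → ℤ | Box H c ∧ Zq g (pc c) ∧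
      ∃ S ⊆ Q, SelT (∏ q ∈ S, (q : ℚ)) (zK (pc c) ℚ)})
    (t := (↑Q.powerset : Set (Finset ℕ)) ×ˢ (↑(Icc (-(H : ℤ)) H) : Set ℤ) ×ˢ G)
    (fun c => (S c, c 0, c' c)) (fun c h => ⟨mem_coe.2 (mem_powerset.2 (hc c h).1),
      mem_coe.2 (mem_Icc.2 (abs_le.1 (by simpa using h.1 0))), (hc c h).2.1⟩)
    (fun a ha b hb e => by
      simp only [Prod.mk.injEq] at e
      have ea := (hc a ha).2.2
      have eb := (hc b hb).2.2
      rw [e.1, e.2.1, e.2.2, eb] at ea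
      have p := hd _ (hc b hb).1
      have e2 := Polynomial.map_injective _ (RingHom.injective_int (Int.castRingHom ℚ))
        (mul_left_cancel₀ (C_ne_zero.2 (by positivity)) ea)
      funext i
      rw [← (((root.1 ℤ _).1 a).2.2 i), ← e2, ((root.1 ℤ _).1 b).2.2 i])
    ((finite_toSet _).prod ((finite_toSet _).prod fG))
  rw [Set.ncard_prod, Set.ncard_prod, Set.ncard_coe_finset, Set.ncard_coe_finset, card_powerset,
    card_Icc'] at h5
  have h6 := h2.trans (Nat.cast_le.2 (h5.trans (Nat.mul_le_mul_left _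
    (Nat.mul_le_mul_right _ (show 2 * H + 1 ≤ 3 * H by omega)))))
  have h7 := (box_card g H' (le_trans (by nlinarith) l1)).trans
    (Nat.mul_le_mul_left _ (Nat.pow_le_pow_left l2 (dm g - 1)))
  have h8 : dm g = dm g - 1 + 1 := by rw [← sum_exp]; simp
  have h9 : (0 : ℝ) < H := by exact_mod_cast h3
  rw [h8, pow_succ] at h6
  push_cast at h6
  have h10 : ε * (H : ℝ) ^ (dm g - 1) ≤ 2 ^ Q.card * 3 * G.ncard :=
    le_of_mul_le_mul_right (by linarith) h9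
  have h11 := (Nat.cast_le (α := ℝ)).2 h7
  push_cast at h11
  rw [div_mul_eq_mul_div, div_le_iff₀ (by positivity)]
  calc _ ≤ ε * (3 ^ (2 * g) * (2 * K * H : ℝ) ^ (dm g - 1)) := by gcongr
    _ = ε * (H : ℝ) ^ (dm g - 1) * (3 ^ (2 * g) * (2 * K) ^ (dm g - 1)) := by rw [mul_pow]; ring
    _ ≤ 2 ^ Q.card * 3 * G.ncard * (3 ^ (2 * g) * (2 * K) ^ (dm g - 1)) := by gcongr
    _ = _ := by ring

end Pool.Agent.MP_a43263_nt.UV

end
end MrgPart3

-- ======== part 4: formerly Pool.Agent.MP_a43263_nt.UV.Gram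
section MrgPart4

/-! THEOREM U: norms and Gram matrices. -/

set_option autoImplicit false

noncomputable section

namespace Pool.Agent.MP_a43263_nt.UV

open Polynomial Finset Matrix JC

namespace Gram

section ring
variable {R : Type} [CommRing R] {f : R[X]}

theorem nm_eq (hf : f.Monic) (δ : R[X]) {n : ℕ} (hn : δ.natDegree ≤ n) :
    Nm f δ = resultant f δ f.natDegree n := by
  obtain ⟨k, rfl⟩ := Nat.exists_eq_add_of_le hn
  rw [resultant_add_right_deg _ _ _ _ _ le_rfl, hf.coeff_natDegree, one_pow, one_mul, Nm]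

theorem nm_congr (hf : f.Monic) {δ δ' : R[X]} (h : f ∣ δ - δ') : Nm f δ = Nm f δ' := by
  obtain ⟨w, hw⟩ := h
  rw [nm_eq hf δ (n := δ.natDegree + δ'.natDegree + (w.natDegree + f.natDegree)) (by omega),
    nm_eq hf δ' (n := δ.natDegree + δ'.natDegree + (w.natDegree + f.natDegree)) (by omega),
    ← resultant_add_mul_right f δ' w _ _ (by omega) le_rfl, ← hw, add_sub_cancel]

theorem nm_map (hf : f.Monic) {S : Type} [CommRing S] (φ : R →+* S) (δ : R[X]) :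
    Nm (f.map φ) (δ.map φ) = φ (Nm f δ) := by
  nontriviality S
  rw [nm_eq (hf.map φ) _ natDegree_map_le, hf.natDegree_map, resultant_map_map, Nm]

theorem nm_mul_left (hf : f.Monic) {f' : R[X]} (hf' : f'.Monic) (δ : R[X]) :
    Nm (f * f') δ = Nm f δ * Nm f' δ := by
  rw [Nm, hf.natDegree_mul hf', resultant_mul_left _ _ _ _ le_rfl, Nm, Nm]

end ring

variable {K : Type} [Field K] {g : ℕ} {f : K[X]}

theorem sgn (a : Fin (2 * g + 1) → K) :
    ∏ i, ∏ j ∈ univ.erase i, (a i - a j) = (-1) ^ g * (vandermonde a).det ^ 2 := by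
  have h1 := prod_prod_Ioi_mul_eq_prod_prod_off_diag fun i j : Fin (2 * g + 1) => a j - a i
  have h2 : ∑ i : Fin (2 * g + 1), (Ioi i).card = 2 * (g * g) + g := by
    simp only [Fin.card_Ioi]
    rw [Fin.sum_univ_eq_sum_range (fun i => 2 * g + 1 - 1 - i), sum_range_reflect (fun i => i)]
    have := sum_range_id_mul_two (2 * g + 1)
    rw [Nat.add_sub_cancel] at this
    nlinarith
  simp only [compl_singleton] at h1
  rw [← h1, det_vandermonde, show (-1 : K) ^ g = (-1) ^ (2 * (g * g) + g) by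
    rw [pow_add, pow_mul]; simp, ← h2, ← prod_pow_eq_pow_sum, ← prod_pow, ← prod_mul_distrib]
  refine prod_congr rfl fun i _ => ?_
  rw [← prod_const, ← prod_pow, ← prod_mul_distrib]
  exact prod_congr rfl fun j _ => by ring

theorem det_split {a : Fin (2 * g + 1) → K} (h : Sq g f) (hc : Cv g a f) (δ : K[X]) :
    (Gm g f δ).det = (-1) ^ g * Nm f δ := by
  have h0 : ∀ i, f.eval (a i) = 0 := fun i => by
    rw [hc.eq, fp, eval_prod]
    exact prod_eq_zero (mem_univ i) (by simp)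
  have h1 : Gm g f δ = (vandermonde a)ᵀ *
      diagonal (fun k => δ.eval (a k) / ∏ j ∈ univ.erase k, (a k - a j)) * vandermonde a := by
    ext i j
    have e := Lagrange.coeff_eq_sum (s := univ) hc.inj.injOn (P := (δ * X ^ (i.1 + j.1)) %ₘ f) (by
      refine (degree_modByMonic_lt _ h.monic).trans_eq ?_
      rw [card_univ, Fintype.card_fin, degree_eq_natDegree h.monic.ne_zero, h.deg])
    rw [card_univ, Fintype.card_fin, Nat.add_sub_cancel] at e
    rw [Gm, of_apply, ta, e, mul_apply]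
    refine sum_congr rfl fun k _ => ?_
    rw [mul_diagonal, transpose_apply, vandermonde_apply, vandermonde_apply,
      modByMonic_eq_sub_mul_div, eval_sub, eval_mul (p := f), h0 k, eval_mul, eval_pow, eval_X,
      pow_add]
    ring
  have h2 : Nm f δ = ∏ k, δ.eval (a k) := by
    rw [Nm, hc.eq, fp, resultant_prod_left _ _ _ _ (by simp) le_rfl]
    exact prod_congr rfl fun k _ => by
      rw [natDegree_X_sub_C, resultant_X_sub_C_left _ _ _ le_rfl]
  have h3 : (vandermonde a).det ≠ 0 := det_vandermonde_ne_zero_iff.2 hc.inj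
  rw [h1, det_mul, det_mul, det_transpose, det_diagonal, prod_div_distrib, sgn, h2]
  rcases neg_one_pow_eq_or K g with e | e <;> rw [e] <;> field_simp

theorem det (h : Sq g f) (δ : K[X]) : (Gm g f δ).det = (-1) ^ g * Nm f δ := by
  let φ := algebraMap K (AlgebraicClosure K)
  obtain ⟨a, hc, -⟩ := (h.map φ).cv
  have := det_split (h.map φ) hc (δ.map φ)
  rw [Gm_map h.monic, nm_map h.monic] at this
  apply φ.injective
  rw [φ.map_det, map_mul, map_pow, map_neg, map_one]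
  exact this

/-- the matrix of the multiplication by `x` -/
def mm (g : ℕ) (f x : K[X]) : Mat g K := Matrix.of fun i j => ve (2 * g + 1) f (x * X ^ j.1) i

theorem mm_form (h : Sq g f) (δ x y : K[X]) (i j : Fin (2 * g + 1)) :
    ((mm g f x)ᵀ * Gm g f δ * mm g f y) i j = ta g f (δ * (x * X ^ i.1) * (y * X ^ j.1)) := by
  have e := Gm_form (g := g) (f := f) δ (ve _ f (x * X ^ i.1)) (ve _ f (y * X ^ j.1))
  rw [po_ve h.monic h.deg, po_ve h.monic h.deg] at e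
  rw [Matrix.mul_assoc]
  refine e.trans (ta_congr h.monic ?_)
  have a := dvd_sub_mod (f := f) (x * X ^ i.1)
  have b := dvd_sub_mod (f := f) (y * X ^ j.1)
  rw [show ∀ u v u' v' : K[X], δ * u' * v' - δ * u * v = -(δ * v') * (u - u') - δ * u * (v - v')
    from fun _ _ _ _ => by ring]
  exact dvd_sub (a.mul_left _) (b.mul_left _)

theorem mm_gm (h : Sq g f) (δ x : K[X]) :
    (mm g f x)ᵀ * Gm g f δ * mm g f x = Gm g f (δ * x ^ 2) := by
  ext i j
  rw [mm_form h, Gm, of_apply, pow_add]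
  exact congrArg _ (by ring)

end Gram

open Gram in
theorem gram : GRAMStmt := by
  have hm : ∀ (R : Type) [CommRing R] (f : R[X]), f.Monic → ∀ δ δ',
      Nm f (δ * δ') = Nm f δ * Nm f δ' := fun R _ f hf δ δ' => by
    rw [nm_eq hf _ natDegree_mul_le, resultant_mul_right _ _ _ _ le_rfl, Nm, Nm]
  have hu : ∀ (R : Type) [CommRing R] (f : R[X]), f.Monic → ∀ δ,
      IsUnit (Nm f δ) ↔ IsCoprime δ f := fun R _ f hf δ =>
    (isUnit_resultant_iff_isCoprime hf).trans isCoprime_comm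
  refine ⟨fun R _ f hf => ⟨hm R f hf, fun _ _ => nm_congr hf, fun c => ?_, hu R f hf,
    fun _ => nm_mul_left hf, fun S _ => nm_map hf⟩,
    fun K _ g f h => ⟨Gram.det h, fun δ δ' x hx hd => ⟨mm g f x, ?_, ?_⟩⟩⟩
  · rw [Nm, natDegree_C, resultant_C_zero_right]
  · have e := congrArg Matrix.det (mm_gm h 1 x)
    have u : IsUnit (Gm g f (1 * x ^ 2)).det := by
      rw [Gram.det h]
      exact (isUnit_one.neg.pow g).mul ((hu K f h.monic _).2 (isCoprime_one_left.mul_left hx.pow_left))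
    rw [← e, det_mul] at u
    exact isUnit_of_mul_isUnit_right u
  · rw [mm_gm h, Gm_congr h.monic hd]

end Pool.Agent.MP_a43263_nt.UV

end
end MrgPart4

-- ======== part 5: formerly Pool.Agent.MP_a43263_nt.UV.Intm
section MrgPart5

/-! THEOREM U: integral models of binary forms. -/

set_option autoImplicit false

noncomputable section

namespace Pool.Agent.MP_a43263_nt.UV

open Polynomial Filter

namespace Intm

variable {p : ℕ} [Fact p.Prime]

/-- the values of the first form are values of the second form, up to a power of `p` -/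
def R (u v w U V W : ℚ_[p][X]) : Prop := ∃ j : ℤ, ∀ a b : ℚ_[p][X], ∃ z z' : ℚ_[p][X],
  u * a ^ 2 + 2 * v * a * b + w * b ^ 2 =
    C ((p : ℚ_[p]) ^ j) * (U * z ^ 2 + 2 * V * z * z' + W * z' ^ 2)

theorem p_ne : (p : ℚ_[p]) ≠ 0 := Nat.cast_ne_zero.2 (Fact.out : p.Prime).ne_zero

theorem R.trans {u v w u' v' w' U V W : ℚ_[p][X]} (h : R u v w u' v' w') (h' : R u' v' w' U V W) :
    R u v w U V W := by
  obtain ⟨j, h⟩ := h
  obtain ⟨j', h'⟩ := h'
  refine ⟨j + j', fun a b => ?_⟩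
  obtain ⟨z, z', e⟩ := h a b
  obtain ⟨y, y', e'⟩ := h' z z'
  exact ⟨y, y', by rw [e, e', zpow_add₀ p_ne, C_mul, ← mul_assoc]⟩

theorem R.swap (u v w : ℚ_[p][X]) : R w v u u v w :=
  ⟨0, fun a b => ⟨b, a, by rw [zpow_zero, C_1]; ring⟩⟩

theorem R.move (u v w q : ℚ_[p][X]) : R u (v - q * u) (w - 2 * q * v + q ^ 2 * u) u v w :=
  ⟨0, fun a b => ⟨a - q * b, b, by rw [zpow_zero, C_1]; ring⟩⟩

theorem C_inv : C ((p : ℚ_[p])⁻¹) * C (p : ℚ_[p]) = 1 := by
  rw [← C_mul, inv_mul_cancel₀ p_ne, C_1]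

theorem R.div (u v w : ℚ_[p][X]) :
    R u v w (C (p : ℚ_[p]) * u) (C (p : ℚ_[p]) * v) (C (p : ℚ_[p]) * w) :=
  ⟨-1, fun a b => ⟨a, b, by
    rw [zpow_neg_one]
    linear_combination (-(u * a ^ 2 + 2 * v * a * b + w * b ^ 2)) * C_inv (p := p)⟩⟩

theorem R.scale (u v w : ℚ_[p][X]) :
    R u v w u (C (p : ℚ_[p]) * v) (C (p : ℚ_[p]) * (C (p : ℚ_[p]) * w)) :=
  ⟨0, fun a b => ⟨a, C ((p : ℚ_[p])⁻¹) * b, by
    rw [zpow_zero, C_1]
    linear_combination (-(2 * v * a * b) -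
      w * b ^ 2 * (C ((p : ℚ_[p])⁻¹) * C (p : ℚ_[p]) + 1)) * C_inv (p := p)⟩⟩

theorem rq_eq_zero {r : ℤ_[p][X]} : rq p r = 0 ↔ C (p : ℤ_[p]) ∣ r := by
  rw [C_dvd_iff_dvd_coeff, Polynomial.ext_iff]
  refine forall_congr' fun n => ?_
  rw [coeff_map, coeff_zero, ← RingHom.mem_ker, PadicInt.ker_toZMod,
    PadicInt.maximalIdeal_eq_span_p, Ideal.mem_span_singleton]

theorem rq_surj (q : (ZMod p)[X]) : ∃ r, rq p r = q :=
  map_surjective _ (ZMod.ringHom_surjective _) q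

/-- Euclid's algorithm -/
theorem euclid (n : ℕ) : ∀ u v w : ℤ_[p][X], (rq p u).natDegree < n →
    rq p v ^ 2 = rq p u * rq p w → ∃ u' v' w' : ℤ_[p][X], v' ^ 2 - u' * w' = v ^ 2 - u * w ∧
      rq p v' = 0 ∧ rq p w' = 0 ∧ R (iq p u') (iq p v') (iq p w') (iq p u) (iq p v) (iq p w) := by
  induction n with
  | zero => exact fun _ _ _ h => absurd h (Nat.not_lt_zero _)
  | succ n ih =>
    intro u v w hn h
    by_cases hu : rq p u = 0
    · rw [hu, zero_mul] at h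
      exact ⟨w, v, u, by ring, pow_eq_zero_iff two_ne_zero |>.1 h, hu, R.swap _ _ _⟩
    obtain ⟨q, hq⟩ := rq_surj (rq p v / rq p u)
    have e1 : rq p (v - q * u) = rq p v % rq p u := by
      rw [rq, Polynomial.map_sub, Polynomial.map_mul, EuclideanDomain.mod_eq_sub_mul_div, ← hq,
        mul_comm]
    have e2 : rq p (v - q * u) ^ 2 = rq p (w - 2 * q * v + q ^ 2 * u) * rq p u := by
      simp only [rq, Polynomial.map_sub, Polynomial.map_mul, Polynomial.map_add, Polynomial.map_pow,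
        Polynomial.map_ofNat] at h ⊢
      linear_combination h
    have e3 : R (iq p u) (iq p (v - q * u)) (iq p (w - 2 * q * v + q ^ 2 * u))
        (iq p u) (iq p v) (iq p w) := by
      simpa only [iq, Polynomial.map_sub, Polynomial.map_mul, Polynomial.map_add,
        Polynomial.map_pow, Polynomial.map_ofNat] using R.move (iq p u) (iq p v) (iq p w) (iq p q)
    by_cases hw : rq p (w - 2 * q * v + q ^ 2 * u) = 0
    · rw [hw, zero_mul] at e2
      exact ⟨u, _, _, by ring, pow_eq_zero_iff two_ne_zero |>.1 e2, hw, e3⟩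
    have hv : rq p (v - q * u) ≠ 0 := fun e =>
      mul_ne_zero hw hu (by rw [← e2, e, zero_pow two_ne_zero])
    have d1 : (rq p (v - q * u)).natDegree < (rq p u).natDegree :=
      natDegree_lt_natDegree hv (e1 ▸ degree_mod_lt _ hu)
    have d2 := congrArg natDegree e2
    rw [natDegree_pow, natDegree_mul hw hu] at d2
    obtain ⟨u', v', w', a1, a2, a3, a4⟩ := ih _ _ u (by omega) e2
    exact ⟨u', v', w', by rw [a1]; ring, a2, a3, a4.trans ((R.swap _ _ _).trans e3)⟩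

theorem iq_p (r : ℤ_[p][X]) : iq p (C (p : ℤ_[p]) * r) = C (p : ℚ_[p]) * iq p r := by
  rw [iq, Polynomial.map_mul, map_C, map_natCast]

theorem step {u v w G : ℤ_[p][X]} (h : v ^ 2 - u * w = C (p : ℤ_[p]) ^ 2 * G) :
    ∃ u' v' w' : ℤ_[p][X], v' ^ 2 - u' * w' = G ∧
      R (iq p u') (iq p v') (iq p w') (iq p u) (iq p v) (iq p w) := by
  have h0 : (C (p : ℤ_[p]) : ℤ_[p][X]) ≠ 0 :=
    C_ne_zero.2 (Nat.cast_ne_zero.2 (Fact.out : p.Prime).ne_zero)
  have h1 : rq p (v ^ 2 - u * w) = 0 := rq_eq_zero.2 ⟨C (p : ℤ_[p]) * G, by rw [h]; ring⟩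
  rw [rq, Polynomial.map_sub, Polynomial.map_pow, Polynomial.map_mul, sub_eq_zero] at h1
  obtain ⟨u₁, v₁, w₁, a1, a2, a3, a4⟩ := euclid _ u v w (Nat.lt_succ_self _) h1
  obtain ⟨v₂, rfl⟩ := rq_eq_zero.1 a2
  obtain ⟨w₂, rfl⟩ := rq_eq_zero.1 a3
  have h2 : u₁ * w₂ = C (p : ℤ_[p]) * (v₂ ^ 2 - G) :=
    mul_left_cancel₀ h0 (by linear_combination -a1 - h)
  have h3 : rq p (u₁ * w₂) = 0 := rq_eq_zero.2 ⟨_, h2⟩
  rw [rq, Polynomial.map_mul, mul_eq_zero] at h3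
  rcases h3 with h3 | h3
  · obtain ⟨u₂, rfl⟩ := rq_eq_zero.1 h3
    refine ⟨u₂, v₂, w₂, mul_left_cancel₀ h0 (by linear_combination -h2), R.trans ?_ a4⟩
    rw [iq_p, iq_p, iq_p]
    exact R.div _ _ _
  · obtain ⟨w₃, rfl⟩ := rq_eq_zero.1 h3
    refine ⟨u₁, v₂, w₃, mul_left_cancel₀ h0 (by linear_combination -h2), R.trans ?_ a4⟩
    rw [iq_p, iq_p, iq_p]
    exact R.scale _ _ _

theorem iter (F : ℤ_[p][X]) (k : ℕ) : ∀ u v w : ℤ_[p][X],
    v ^ 2 - u * w = C (p : ℤ_[p]) ^ (2 * k) * F → ∃ u' v' w' : ℤ_[p][X], v' ^ 2 - u' * w' = F ∧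
      R (iq p u') (iq p v') (iq p w') (iq p u) (iq p v) (iq p w) := by
  induction k with
  | zero =>
    exact fun u v w h => ⟨u, v, w, by simpa using h, (R.swap _ _ _).trans (R.swap _ _ _)⟩
  | succ k ih =>
    intro u v w h
    obtain ⟨u₁, v₁, w₁, a1, a2⟩ := step (G := C (p : ℤ_[p]) ^ (2 * k) * F) (by rw [h]; ring)
    obtain ⟨u₂, v₂, w₂, b1, b2⟩ := ih _ _ _ a1
    exact ⟨u₂, v₂, w₂, b1, b2.trans a2⟩

theorem ev_int (U : ℚ_[p][X]) :
    ∀ᶠ k : ℕ in atTop, ∃ u : ℤ_[p][X], iq p u = C (p : ℚ_[p]) ^ k * U := by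
  induction U using Polynomial.induction_on' with
  | add P Q hP hQ =>
    filter_upwards [hP, hQ] with k ⟨u, hu⟩ ⟨v, hv⟩
    exact ⟨u + v, by rw [iq, Polynomial.map_add, mul_add, ← hu, ← hv]⟩
  | monomial n x =>
    have h := ((tendsto_pow_atTop_nhds_zero_of_norm_lt_one
      (Padic.norm_p_lt_one (p := p))).mul_const x).norm
    rw [zero_mul, norm_zero] at h
    filter_upwards [h.eventually (eventually_le_nhds zero_lt_one)] with k hk
    exact ⟨monomial n ⟨_, hk⟩, by rw [iq, map_monomial, ← C_pow, C_mul_monomial]; rfl⟩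

end Intm

open Intm in
theorem intm : INTStmt := by
  intro p _ F U V U' h
  obtain ⟨k, ⟨u, hu⟩, ⟨v, hv⟩, ⟨w, hw⟩⟩ :=
    ((ev_int U).and ((ev_int V).and (ev_int (-U')))).exists
  obtain ⟨u', v', w', a1, a2⟩ := iter F k u v w (iq_inj (by
    rw [iq, iq, Polynomial.map_sub, Polynomial.map_mul, Polynomial.map_mul, Polynomial.map_pow,
      Polynomial.map_pow, map_C, map_natCast]
    change iq p v ^ 2 - iq p u * iq p w = _ * iq p F
    rw [hu, hv, hw, h]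
    ring))
  have a3 : R (iq p u) (iq p v) (iq p w) U V (-U') :=
    ⟨k, fun a b => ⟨a, b, by rw [hu, hv, hw, zpow_natCast, C_pow]; ring⟩⟩
  obtain ⟨j, hj⟩ := a2.trans a3
  refine ⟨u', v', w', j, a1.symm, fun a b => ?_⟩
  obtain ⟨z, z', e⟩ := hj (iq p a) (iq p b)
  refine ⟨z, z', ?_⟩
  simp only [iq, Polynomial.map_mul, Polynomial.map_add, Polynomial.map_pow,
    Polynomial.map_ofNat] at e ⊢
  rw [e]
  ring

end Pool.Agent.MP_a43263_nt.UV

end
end MrgPart5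

-- ======== part 6: formerly Pool.Agent.MP_a43263_nt.UV.Irr
section MrgPart6

/-! THEOREM U: irreducible polynomials over prime fields and the base class. -/

set_option autoImplicit false

noncomputable section

namespace Pool.Agent.MP_a43263_nt.UV

open Polynomial Finset IntermediateField

namespace Irr

/-- small powers of a generator of the unit group generate the field -/
theorem deg (p : ℕ) [hp : Fact p.Prime] {N k : ℕ} (hN : N ≠ 0) (hk0 : 0 < k) (hk : k < p) :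
    ∃ γ : GaloisField p N, (minpoly (ZMod p) (γ ^ k)).natDegree = N := by
  obtain ⟨γ, hγ⟩ := IsCyclic.exists_generator (α := (GaloisField p N)ˣ)
  have ho := orderOf_eq_card_of_forall_mem_zpowers hγ
  rw [Nat.card_units, GaloisField.card p N hN] at ho
  refine ⟨γ, ?_⟩
  set α : GaloisField p N := γ.1 ^ k with hα
  have hi : IsIntegral (ZMod p) α := IsIntegral.of_finite _ α
  have h1 := minpoly.natDegree_le (A := ZMod p) α
  rw [GaloisField.finrank p hN] at h1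
  refine h1.eq_of_not_lt fun hlt => ?_
  have hd := minpoly.natDegree_pos hi
  set d := (minpoly (ZMod p) α).natDegree with hdd
  have := Fintype.ofFinite (ZMod p)⟮α⟯
  have hc : Fintype.card (ZMod p)⟮α⟯ = p ^ d := by
    rw [← Nat.card_eq_fintype_card, Module.natCard_eq_pow_finrank (K := ZMod p), Nat.card_zmod,
      adjoin.finrank hi]
  have h2 := congrArg Subtype.val (FiniteField.pow_card (AdjoinSimple.gen (ZMod p) α))
  rw [hc] at h2
  have h3 : γ ^ k = γ ^ (k * p ^ d) := Units.ext (by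
    rw [pow_mul, Units.val_pow_eq_pow_val, Units.val_pow_eq_pow_val]
    exact h2.symm)
  rw [pow_eq_pow_iff_modEq, ho] at h3
  have h4 : 1 < p ^ d := Nat.one_lt_pow hd.ne' hp.out.one_lt
  have h5 : k < k * p ^ d := lt_mul_of_one_lt_right hk0 h4
  have h6 := Nat.le_of_dvd (Nat.sub_pos_of_lt h5) ((Nat.modEq_iff_dvd' h5.le).1 h3)
  have h7 : (k + 1) * p ^ d ≤ p ^ N :=
    (Nat.mul_le_mul_right _ hk).trans (by
      rw [← pow_succ']
      exact Nat.pow_le_pow_right hp.out.pos hlt)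
  rw [add_mul, one_mul] at h7
  omega

theorem zK_pc {n : ℕ} (c : Fin n → ℤ) (r : ℕ) :
    zK (pc c) (ZMod r) = pc fun i => (c i : ZMod r) := pc_map _ c

theorem lift {n r : ℕ} [NeZero r] (c : Fin n → ZMod r) :
    ∃ c' : Fin n → ℤ, (fun i => (c' i : ZMod r)) = c :=
  ⟨fun i => (c i).val, funext fun i => by simp⟩

end Irr

theorem irr : IRRStmt := by
  intro p hp n hn
  refine ⟨?_, fun h2 => ?_⟩
  · obtain ⟨γ, h⟩ := Irr.deg p (N := n) (by omega) one_pos hp.out.one_lt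
    have hi : IsIntegral (ZMod p) (γ ^ 1) := IsIntegral.of_finite _ _
    exact ⟨_, minpoly.monic hi, h, minpoly.irreducible hi⟩
  · obtain ⟨γ, h⟩ := Irr.deg p (N := 2 * n) (by omega) two_pos
      (lt_of_le_of_ne hp.out.two_le h2.symm)
    have hi : IsIntegral (ZMod p) (γ ^ 2) := IsIntegral.of_finite _ _
    refine ⟨_, minpoly.monic hi, h, minpoly.irreducible hi, Algebra.norm (ZMod p) γ, ?_⟩
    have ht : (ZMod p)⟮γ ^ 2⟯ = ⊤ := (Field.primitive_element_iff_minpoly_natDegree_eq _ _).2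
      (h.trans (GaloisField.finrank p (by omega)).symm)
    have := Algebra.PowerBasis.norm_gen_eq_coeff_zero_minpoly
      (PowerBasis.ofAdjoinEqTop hi (adjoin_eq_top_iff.1 ht))
    rw [PowerBasis.ofAdjoinEqTop_gen, PowerBasis.ofAdjoinEqTop_dim, h, pow_mul, neg_one_sq,
      one_pow, one_mul, map_pow, sq] at this
    rw [← coeff_zero_eq_eval_zero, ← this]

theorem base : ROOTStmt → IRRStmt → BASEStmt := by
  intro root irr g q₀ N hg
  induction N with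
  | zero =>
    obtain ⟨h, h1, h2, h3⟩ := (irr 2 (2 * g + 1) (by omega)).1
    obtain ⟨c, rfl⟩ := (root.1 (ZMod 2) (2 * g + 1)).2.1 h h1 h2
    obtain ⟨c, rfl⟩ := Irr.lift c
    exact ⟨∅, c, rfl, by rwa [Irr.zK_pc], by simp⟩
  | succ N ih =>
    obtain ⟨Q, c, h1, h2, h3⟩ := ih
    obtain ⟨q, hq, hlt, hm⟩ := Nat.exists_prime_gt_modEq_one (k := 8) (q₀ + Q.sup id + 2)
      (by norm_num)
    have := Fact.mk hq
    have hQ : ∀ r ∈ Q, r < q := fun r hr => by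
      have : r ≤ Q.sup id := le_sup (f := id) hr
      omega
    obtain ⟨h, k1, k2, k3, k4⟩ := (irr q g hg).2 (by omega)
    obtain ⟨c', e⟩ := (root.1 (ZMod q) (2 * g + 1)).2.1 (X * h) (monic_X.mul k1) (by
      rw [monic_X.natDegree_mul k1, natDegree_X, k2, add_comm])
    obtain ⟨c', rfl⟩ := Irr.lift c'
    have hc : (2 * ∏ r ∈ Q, r).Coprime q :=
      Nat.Coprime.mul_left ((Nat.coprime_primes Nat.prime_two hq).2 (by omega))
        (Nat.Coprime.prod_left fun r hr => (Nat.coprime_primes (h3 r hr).1 hq).2 (hQ r hr).ne)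
    generalize hM : 2 * ∏ r ∈ Q, r = M at hc
    obtain ⟨a, b, hab⟩ := Nat.isCoprime_iff_coprime.2 hc
    have old : ∀ r, r ∣ M → zK (pc fun i => c i * (b * q) + c' i * (a * M)) (ZMod r) =
        zK (pc c) (ZMod r) := fun r hr => by
      rw [Irr.zK_pc, Irr.zK_pc]
      congr 1
      funext i
      have e1 : (M : ZMod r) = 0 := (ZMod.natCast_eq_zero_iff M r).2 hr
      have e2 := congrArg (Int.cast : ℤ → ZMod r) hab
      push_cast at e2 ⊢
      rw [e1, mul_zero, zero_add] at e2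
      rw [e1, e2, mul_zero, mul_zero, mul_one, add_zero]
    refine ⟨insert q Q, fun i => c i * (b * q) + c' i * (a * M), ?_, ?_, fun r hr => ?_⟩
    · rw [card_insert_of_notMem fun m => (hQ q m).false, h1]
    · rwa [old 2 ⟨_, hM.symm⟩]
    · rcases mem_insert.1 hr with rfl | hr
      · refine ⟨hq, hm, by omega, h, ?_, k3, k4⟩
        rw [Irr.zK_pc, ← e]
        congr 1
        funext i
        have e2 := congrArg (Int.cast : ℤ → ZMod r) hab
        push_cast at e2 ⊢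
        rw [ZMod.natCast_self, mul_zero, add_zero] at e2
        rw [ZMod.natCast_self, e2, mul_zero, mul_zero, mul_one, zero_add]
      · obtain ⟨l1, l2, l3, l4⟩ := h3 r hr
        refine ⟨l1, l2, l3, ?_⟩
        rwa [Ty, old r (hM ▸ (dvd_prod_of_mem _ hr).mul_left 2)]

end Pool.Agent.MP_a43263_nt.UV

end
end MrgPart6

-- ======== part 7: formerly Pool.Agent.MP_a43263_nt.UV.Kill
section MrgPart7

/-! THEOREM U: one of finitely many twists has a trivial Selmer group. -/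

set_option autoImplicit false

noncomputable section

namespace Pool.Agent.MP_a43263_nt.UV

open Polynomial Finset JC

theorem lag : LAGStmt := by
  classical
  intro Q I hadd hq
  have pol : ∀ x ∈ I, ∀ x' ∈ I, ∑ q ∈ Q, (x.1 q * x'.2 q + x'.1 q * x.2 q) = 0 := by
    intro x hx x' hx'
    have h := hq _ (hadd x hx x' hx')
    have e : ∀ q, (x + x').1 q * (x + x').2 q =
        x.1 q * x.2 q + x'.1 q * x'.2 q + (x.1 q * x'.2 q + x'.1 q * x.2 q) := fun q => by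
      simp only [Prod.fst_add, Prod.snd_add, Pi.add_apply]
      ring
    simp only [e] at h
    rwa [sum_add_distrib, sum_add_distrib, hq x hx, hq x' hx', zero_add, zero_add] at h
  let P : Finset ℕ → Prop := fun S => ∀ x ∈ I, (∀ q ∈ Q, x.2 q = 0) → (∀ q ∈ S, x.1 q = 0) →
    ∀ q ∈ Q, x.1 q = 0
  obtain ⟨S, hS, hmin⟩ := exists_min_image (Q.powerset.filter P) card
    ⟨Q, mem_filter.2 ⟨mem_powerset_self _, fun x _ _ h => h⟩⟩
  obtain ⟨h1, h2⟩ := mem_filter.1 hS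
  have h1 := mem_powerset.1 h1
  refine ⟨S, h1, fun x hx hu hy => ?_⟩
  have y0 : ∀ q ∈ Q, x.2 q = 0 := by
    intro k hk
    by_cases c : k ∈ S
    swap
    · exact hy k hk c
    have : ¬P (S.erase k) := fun h => by
      have := hmin _ (mem_filter.2 ⟨mem_powerset.2 ((erase_subset _ _).trans h1), h⟩)
      have := card_erase_lt_of_mem c
      omega
    simp only [P, not_forall] at this
    obtain ⟨z, hz, z2, z1, q0, hq0, z0⟩ := this
    have zk : z.1 k ≠ 0 := fun e => z0 (h2 z hz z2 (fun q hq => by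
      by_cases d : q = k
      · rw [d, e]
      · exact z1 q (mem_erase.2 ⟨d, hq⟩)) q0 hq0)
    have h := pol x hx z hz
    rw [sum_eq_single_of_mem k hk fun q hq d => by
      rw [z2 q hq, mul_zero, zero_add]
      by_cases c' : q ∈ S
      · rw [z1 q (mem_erase.2 ⟨d, c'⟩), zero_mul]
      · rw [hy q hq c', mul_zero], z2 k hk, mul_zero, zero_add] at h
    have : Fact (Nat.Prime 2) := ⟨Nat.prime_two⟩
    exact (mul_eq_zero.1 h).resolve_left zk
  exact fun q hq => ⟨h2 x hx y0 hu q hq, y0 q hq⟩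

namespace Kill

theorem fK_mul (δ δ' : ℚ[X]) (K : Type) [Field K] [CharZero K] :
    fK (δ * δ') K = fK δ K * fK δ' K := Polynomial.map_mul _

theorem mod8 (S : Finset ℕ) (h : ∀ q ∈ S, q % 8 = 1) : (∏ q ∈ S, (q : ℤ)) % 8 = 1 := by
  refine prod_induction _ (fun d : ℤ => d % 8 = 1) (fun a b ha hb => ?_) rfl fun q hq => ?_
  · rw [Int.mul_emod, ha, hb]
    rfl
  · have := h q hq
    omega

theorem dvd_iff {S : Finset ℕ} (h : ∀ q ∈ S, q.Prime) {p : ℕ} (hp : p.Prime) :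
    (p : ℤ) ∣ ∏ q ∈ S, (q : ℤ) → p ∈ S := fun d => by
  obtain ⟨q, hq, e⟩ := (Prime.dvd_finsetProd_iff (Nat.prime_iff_prime_int.1 hp) _).1 d
  rwa [(Nat.prime_dvd_prime_iff_eq hp (h q hq)).1 (Int.natCast_dvd_natCast.1 e)]

theorem not_sq {S : Finset ℕ} (h : ∀ q ∈ S, q.Prime) {p : ℕ} (hp : p ∈ S) :
    ¬(p : ℤ) ^ 2 ∣ ∏ q ∈ S, (q : ℤ) := fun d => by
  classical
  rw [← mul_prod_erase S _ hp, sq,
    mul_dvd_mul_iff_left (Int.natCast_ne_zero.2 (h p hp).ne_zero)] at d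
  exact notMem_erase p S (dvd_iff (fun q hq => h q (mem_of_mem_erase hq)) (h p hp) d)

end Kill

open Kill in
theorem kill : GRAMStmt → WGStmt → PADStmt → NFMStmt → NFEStmt → RAMStmt → EVStmt → RECStmt →
    LAGStmt → KILLStmt := by
  classical
  intro gram wg pad nfm nfe ram ev recp lag g f Q hf hQ hx hs
  let V : ℚ[X] → Prop := fun δ => IsSquare (Nm (zK f ℚ) δ) ∧ Wc 1 (zK f ℝ) (fK δ ℝ) ∧
    Wc 1 (zK f ℚ_[2]) (fK δ ℚ_[2]) ∧ ∀ (p : ℕ) [Fact p.Prime], p ∉ Q → Ev p f (fK δ ℚ_[p])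
  obtain ⟨S, hS, H⟩ := lag Q {x | ∃ δ, V δ ∧
      ∀ (q : ℕ) [Fact q.Prime], q ∈ Q → NF q f (fK δ ℚ_[q]) (x.1 q) (x.2 q)}
    (by
      rintro x ⟨δ, ⟨a1, a2, a3, a4⟩, a5⟩ x' ⟨δ', ⟨b1, b2, b3, b4⟩, b5⟩
      refine ⟨δ * δ', ⟨?_, ?_, ?_, fun p _ hp => ?_⟩, fun q _ hq => ?_⟩
      · rw [(gram.1 ℚ _ (hf.mo ℚ)).1]
        exact a1.mul b1
      · rw [fK_mul]
        exact (wg ℝ g 1 _ (hf.sq ℝ) one_ne_zero).2.1 _ _ a2 b2
      · rw [fK_mul]
        exact (wg ℚ_[2] g 1 _ (hf.sq _) one_ne_zero).2.1 _ _ a3 b3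
      · rw [fK_mul]
        exact (nfm p g f hf).2.1 _ _ (a4 p hp) (b4 p hp)
      · rw [fK_mul]
        refine (nfm q g f hf).2.2.2 ?_ (hQ q hq).2.2 _ _ _ _ _ _ (a5 q hq) (b5 q hq)
        have := (hQ q hq).2.1
        omega)
    (by
      rintro x ⟨δ, ⟨a1, a2, a3, a4⟩, a5⟩
      exact recp g f Q δ x.1 x.2 hf (fun q hq => ⟨(hQ q hq).1, by have := (hQ q hq).2.1; omega,
        (hQ q hq).2.2⟩) a1 a2 a3 a4 a5)
  refine ⟨S, hS, fun δ hr hp => ?_⟩
  obtain ⟨d, hd⟩ : ∃ d : ℤ, d = ∏ q ∈ S, (q : ℤ) := ⟨_, rfl⟩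
  have pS : ∀ q ∈ S, q.Prime := fun q hq => (hQ q (hS hq)).1
  have d0 : 0 < d := hd ▸ prod_pos fun q hq => Int.natCast_pos.2 (pS q hq).pos
  have ed : ∏ q ∈ S, (q : ℚ) = d := by rw [hd]; push_cast; rfl
  simp only [ed, Rat.cast_intCast, fK_zK] at hr hp
  have nsq : ∀ (K : Type) [Field K] [CharZero K], Wc (d : K) (zK f K) (fK δ K) →
      IsSquare (Nm (zK f K) (fK δ K)) := fun K _ _ h =>
    (wg K g d _ (hf.sq K) (Int.cast_ne_zero.2 d0.ne')).2.2.1 _ h
  have nmap : ∀ (K : Type) [Field K] [CharZero K],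
      Nm (zK f K) (fK δ K) = (Nm (zK f ℚ) δ : ℚ) := fun K _ _ => by
    rw [← fK_zK]
    exact (gram.1 ℚ _ (hf.mo ℚ)).2.2.2.2.2 K (Rat.castHom K) δ
  have un : ∀ (K : Type) [Field K] [CharZero K], IsSquare (d : K) → Wc (d : K) (zK f K) (fK δ K) →
      Wc 1 (zK f K) (fK δ K) := fun K _ _ ⟨r, e⟩ h => by
    have r0 : r ≠ 0 := left_ne_zero_of_mul (e ▸ Int.cast_ne_zero.2 d0.ne')
    refine ((wg K g 1 _ (hf.sq K) one_ne_zero).2.2.2.1 _ r r0).1 ?_
    rwa [one_mul, sq, ← e]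
  have nq : IsSquare (Nm (zK f ℚ) δ) :=
    pad.2.2 _ (nmap ℝ ▸ nsq ℝ hr) fun p _ => nmap ℚ_[p] ▸ nsq _ (hp p)
  have hev : ∀ (p : ℕ) [Fact p.Prime], p ∉ S → Ev p f (fK δ ℚ_[p]) := fun p h c =>
    ev p g f _ d hf (hx p h.out) (fun e => c (dvd_iff pS h.out (hd ▸ e))) (hp p)
  have hV : V δ := ⟨nq, un ℝ ⟨√d, (Real.mul_self_sqrt (by exact_mod_cast d0.le)).symm⟩ hr,
    un _ (pad.2.1 d (hd ▸ mod8 S fun q hq => (hQ q (hS hq)).2.1)) (hp 2),
    fun p _ c => hev p fun e => c (hS e)⟩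
  have hn : ∀ q : ℕ, ∃ u y : ZMod 2, (q ∈ S → u = 0) ∧ (q ∉ S → y = 0) ∧
      ∀ [Fact q.Prime], q ∈ Q → NF q f (fK δ ℚ_[q]) u y := by
    intro q
    by_cases c : q ∈ Q
    swap
    · exact ⟨0, 0, fun _ => rfl, fun _ => rfl, fun e => absurd e c⟩
    have : Fact q.Prime := ⟨(hQ q c).1⟩
    by_cases c' : q ∈ S
    · obtain ⟨u, y, h⟩ := nfe q g f _ hf (hQ q c).2.2 (hp q).1 (nsq _ (hp q))
      exact ⟨u, y, fun _ => ram q g f _ d u y (by have := (hQ q c).2.1; omega) hf (hQ q c).2.2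
        (hd ▸ dvd_prod_of_mem _ c') (hd ▸ not_sq pS c') (hp q) h, fun e => absurd c' e, fun _ => h⟩
    · obtain ⟨u, h⟩ := ((nfm q g f hf).2.2.1 _).1 (hev q c')
      exact ⟨u, 0, fun e => absurd e c', fun _ => rfl, fun _ => h⟩
  choose u y h1 h2 h3 using hn
  have z := H (u, y) ⟨δ, hV, fun q _ hq => h3 q hq⟩ h1 fun q _ => h2 q
  have nf : ∀ (q : ℕ) [Fact q.Prime], q ∈ Q → NF q f (fK δ ℚ_[q]) 0 0 := fun q _ hq => by
    have := h3 q hq
    rwa [show u q = 0 from (z q hq).1, show y q = 0 from (z q hq).2] at this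
  refine hs δ (isCoprime_of_map (Rat.castHom ℝ) (by rw [zK_map]; exact hr.1)) nq (fun p _ => ?_) nf
  by_cases c : p ∈ Q
  · exact ((nfm p g f hf).2.2.1 _).2 ⟨0, nf p c⟩
  · exact hV.2.2.2 p c

end Pool.Agent.MP_a43263_nt.UV

end
end MrgPart7

-- ======== part 8: formerly Pool.Agent.MP_a43263_nt.UV.Lat
section MrgPart8

/-! THEOREM U: approximation and the lattice of a strict Selmer class. -/

set_option autoImplicit false

noncomputable section

namespace Pool.Agent.MP_a43263_nt.UV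

open Polynomial Finset Matrix JC

namespace Lat

variable {p : ℕ} [Fact p.Prime]

theorem den (x : ℚ_[p][X]) : ∃ (b : ℕ) (y : ℤ_[p][X]), iq p y = C ((p : ℚ_[p]) ^ b) * x := by
  obtain ⟨b, hb, e⟩ := IsLocalization.integerNormalization_spec (nonZeroDivisors ℤ_[p]) x
  have h0 := nonZeroDivisors.ne_zero hb
  refine ⟨b.valuation, C (((PadicInt.unitCoeff h0)⁻¹ : ℤ_[p]ˣ) : ℤ_[p]) *
    IsLocalization.integerNormalization (nonZeroDivisors ℤ_[p]) x, ?_⟩
  have e2 : (((PadicInt.unitCoeff h0)⁻¹ : ℤ_[p]ˣ) : ℤ_[p]) * b = (p : ℤ_[p]) ^ b.valuation := by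
    rw [Units.inv_mul_eq_iff_eq_mul, ← PadicInt.unitCoeff_spec h0]
  have e3 : iq p (IsLocalization.integerNormalization (nonZeroDivisors ℤ_[p]) x) =
      C (PadicInt.Coe.ringHom b) * x := by
    rw [← smul_eq_C_mul]
    exact e
  rw [iq, Polynomial.map_mul, map_C, ← iq, e3, ← mul_assoc, ← C_mul, ← map_mul, e2, map_pow,
    map_natCast]

theorem app (N : ℕ) (x : ℤ_[p][X]) :
    ∃ (y : ℤ[X]) (z : ℤ_[p][X]), x = zK y ℤ_[p] + C ((p : ℤ_[p]) ^ N) * z := by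
  induction x using Polynomial.induction_on' with
  | add a b ha hb =>
    obtain ⟨y, z, rfl⟩ := ha
    obtain ⟨y', z', rfl⟩ := hb
    exact ⟨y + y', z + z', by simp only [zK, Polynomial.map_add]; ring⟩
  | monomial n a =>
    obtain ⟨c, hc⟩ := Ideal.mem_span_singleton.1 (PadicInt.appr_spec N a)
    refine ⟨monomial n (a.appr N : ℤ), monomial n c, ?_⟩
    rw [zK, Polynomial.map_monomial, C_mul_monomial, ← map_add, ← hc]
    simp

theorem rden (δ : ℚ[X]) : ∃ (a : ℕ) (D : ℤ) (y : ℤ[X]), ¬(p : ℤ) ∣ D ∧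
    zK y ℚ = C ((p : ℚ) ^ a * D) * δ := by
  obtain ⟨b, hb, e⟩ := IsLocalization.integerNormalization_spec (nonZeroDivisors ℤ) δ
  obtain ⟨D, e1, h⟩ := (Int.finiteMultiplicity_iff.2 ⟨by
    simpa using (Fact.out : p.Prime).ne_one, nonZeroDivisors.ne_zero hb⟩ :
      FiniteMultiplicity (p : ℤ) b).exists_eq_pow_mul_and_not_dvd
  refine ⟨multiplicity (p : ℤ) b, D, _, h, e.trans ?_⟩
  rw [← smul_eq_C_mul, ← Int.cast_smul_eq_zsmul ℚ]
  exact congrArg (· • δ) (by exact_mod_cast e1)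

theorem zC (R : Type) [CommRing R] (m : ℤ) (r : ℤ[X]) : zK (C m * r) R = C (m : R) * zK r R := by
  rw [zK, Polynomial.map_mul, map_C, eq_intCast]

end Lat

theorem apx : APXStmt := by
  intro p _ f δ x r hf h
  obtain ⟨b, x1, hx⟩ := Lat.den x
  obtain ⟨a, D, d, hD, hd⟩ := Lat.rden (p := p) δ
  obtain ⟨y, z, rfl⟩ := Lat.app (a + 2 * b + 1) x1
  have p0 : (p : ℤ_[p]) ≠ 0 := Nat.cast_ne_zero.2 (Fact.out : p.Prime).ne_zero
  have pq : (p : ℚ) ≠ 0 := Nat.cast_ne_zero.2 (Fact.out : p.Prime).ne_zero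
  have hd' : zK d ℚ_[p] = C ((p : ℚ_[p]) ^ a * D) * fK δ ℚ_[p] := by
    rw [← fK_zK, hd]
    simp [fK]
  obtain ⟨t, ht⟩ : ∃ t : ℤ_[p][X], t = C (D : ℤ_[p]) * r - C (p : ℤ_[p]) * (zK d ℤ_[p] * z *
      (2 * zK y ℤ_[p] + C ((p : ℤ_[p]) ^ (a + 2 * b + 1)) * z)) := ⟨_, rfl⟩
  have h1 : zK f ℤ_[p] ∣ zK (d * y ^ 2) ℤ_[p] - C ((p : ℤ_[p]) ^ (a + 2 * b)) * t := by
    have e : zK (d * y ^ 2) ℤ_[p] - C ((p : ℤ_[p]) ^ (a + 2 * b)) * t =
        zK d ℤ_[p] * (zK y ℤ_[p] + C ((p : ℤ_[p]) ^ (a + 2 * b + 1)) * z) ^ 2 -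
          C ((p : ℤ_[p]) ^ (a + 2 * b) * D) * r := by
      simp only [ht, zK, Polynomial.map_mul, Polynomial.map_pow, C_mul, C_pow]
      ring
    rw [e]
    refine dvd_of_map (φ := PadicInt.Coe.ringHom) Subtype.val_injective (hf.map _) ?_
    rw [iq] at hx
    rw [Polynomial.map_sub, Polynomial.map_mul, Polynomial.map_pow, hx, zK_map,
      zK_map, hd', Polynomial.map_mul, map_C]
    refine (h.mul_left (C ((p : ℚ_[p]) ^ (a + 2 * b) * D))).trans (dvd_of_eq ?_)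
    simp only [map_mul, map_pow, map_natCast, map_intCast]
    ring
  have h2 : zK ((d * y ^ 2) %ₘ f) ℤ_[p] = C ((p : ℤ_[p]) ^ (a + 2 * b)) * (t %ₘ zK f ℤ_[p]) := by
    rw [zK, map_modByMonic _ hf, modByMonic_eq_of_dvd_sub (hf.map _) h1, ← smul_eq_C_mul,
      smul_modByMonic, smul_eq_C_mul]
  obtain ⟨ρ, hρ⟩ : C ((p : ℤ) ^ (a + 2 * b)) ∣ (d * y ^ 2) %ₘ f :=
    (C_dvd_iff_dvd_coeff _ _).2 fun i => (PadicInt.pow_p_dvd_int_iff _ _).1
      ⟨(t %ₘ zK f ℤ_[p]).coeff i, by rw [← coeff_C_mul, ← h2, coeff_map]; rfl⟩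
  have h3 : zK ρ ℤ_[p] = t %ₘ zK f ℤ_[p] := by
    refine mul_left_cancel₀ (C_ne_zero.2 (pow_ne_zero (a + 2 * b) p0)) ?_
    rw [← h2, hρ]
    simp
  refine ⟨C (D / (p : ℚ) ^ b) * zK y ℚ, C D * ρ, D, ?_, ?_, ?_⟩
  · exact fun e => hD ((ZMod.intCast_zmod_eq_zero_iff_dvd _ _).1 e)
  · have h4 := Polynomial.map_dvd (Int.castRingHom ℚ) (dvd_sub_mod (f := f) (d * y ^ 2))
    rw [zK] at hd
    rw [hρ, Polynomial.map_sub, Polynomial.map_mul, Polynomial.map_mul, Polynomial.map_pow, hd,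
      map_C] at h4
    refine (h4.mul_left (C (D / (p : ℚ) ^ (a + 2 * b)))).trans (dvd_of_eq ?_)
    have e1 : (D : ℚ) / p ^ (a + 2 * b) * (p ^ a * D) = (D / p ^ b) ^ 2 := by
      field_simp
      ring
    have e2 : (D : ℚ) / p ^ (a + 2 * b) * Int.castRingHom ℚ (p ^ (a + 2 * b)) = D := by
      simp [pq]
    rw [mul_sub, ← mul_assoc, ← mul_assoc, ← mul_assoc, ← C_mul, ← C_mul, e1, e2, C_pow, Lat.zC]
    ring
  · have h4 := Polynomial.map_dvd (PadicInt.toZMod (p := p)) (dvd_sub_mod (f := zK f ℤ_[p]) t)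
    rw [← h3, Polynomial.map_sub, zK_map, zK_map, ht, Polynomial.map_sub, Polynomial.map_mul,
      Polynomial.map_mul _ (p := C _), map_C, map_C, map_natCast, ZMod.natCast_self, C_0, zero_mul,
      sub_zero, map_intCast] at h4
    refine (h4.mul_left (-C (D : ZMod p))).trans (dvd_of_eq ?_)
    rw [Lat.zC, C_pow]
    ring

theorem lat : GRAMStmt → APXStmt → GLUStmt → LATStmt := by
  intro hG hA hL g f Q δ hf hQ hE hN
  have key : ∀ p : ℕ, ∃ (x : ℚ[X]) (r : ℤ[X]), p.Prime → zK f ℚ ∣ δ * x ^ 2 - zK r ℚ ∧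
      IsCoprime (zK r (ZMod p)) (zK f (ZMod p)) ∧
      (p ∈ Q → ∃ s : ZMod p, s ≠ 0 ∧ ((r.eval 0 : ℤ) : ZMod p) = s ^ 2) := fun p => by
    by_cases hp : p.Prime
    swap
    · exact ⟨0, 0, fun h => absurd h hp⟩
    have := Fact.mk hp
    obtain ⟨x, r, h1, h2, h3⟩ : ∃ (x : ℚ_[p][X]) (r : ℤ_[p][X]),
        zK f ℚ_[p] ∣ fK δ ℚ_[p] * x ^ 2 - iq p r ∧ IsCoprime (rq p r) (zK f (ZMod p)) ∧
          (p ∈ Q → IsSquare ((rq p r).eval 0)) := by
      by_cases h : p ∈ Q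
      · obtain ⟨x, r, a, b, c⟩ := hN p h
        exact ⟨x, r, by simpa using a, b, fun _ => c.2 rfl⟩
      · obtain ⟨x, r, a, b⟩ := hE p
        exact ⟨x, r, a, b, fun e => absurd e h⟩
    obtain ⟨x', r', m, m0, a, k, hk⟩ := hA p f δ x r hf.monic h1
    rw [sub_eq_iff_eq_add'] at hk
    refine ⟨x', r', fun _ => ⟨a, ?_, fun h => ?_⟩⟩
    · rw [hk]
      exact ((isCoprime_mul_unit_left_left (isUnit_C.2 (pow_ne_zero 2 m0).isUnit) _ _).2
        h2).add_mul_left_left _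
    · obtain ⟨h', e, -⟩ := (hQ p h).2
      obtain ⟨s, hs⟩ := h3 h
      refine ⟨m * s, mul_ne_zero m0 fun s0 => ?_, ?_⟩
      · obtain ⟨u, v, huv⟩ := h2
        have := congrArg (eval 0) huv
        simp [e, hs, s0] at this
      · have := congrArg (eval 0) hk
        rw [e, eval_add, eval_mul, eval_C, hs, eval_mul, eval_mul, eval_X, zero_mul, zero_mul,
          add_zero, eval_zero_map] at this
        rw [mul_pow, sq s]
        exact this
  choose x r h using key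
  have nm : ∀ (p : ℕ) [Fact p.Prime],
      ((Nm f (r 2) : ℤ) : ZMod p) ≠ 0 ↔ IsCoprime (zK (r 2) (ZMod p)) (zK f (ZMod p)) := fun p _ => by
    rw [← (hG.1 _ _ (hf.mo (ZMod p))).2.2.2.1, (hG.1 _ _ hf.monic).2.2.2.2.2, isUnit_iff_ne_zero,
      eq_intCast]
  have n0 : Nm f (r 2) ≠ 0 := fun e => (nm 2).2 (h 2 Nat.prime_two).2.1 (by rw [e, Int.cast_zero])
  obtain ⟨P, hP⟩ : ∃ P, P = Q ∪ (Nm f (r 2)).natAbs.primeFactors := ⟨_, rfl⟩
  have P0 : 0 ∉ P := by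
    rw [hP, mem_union, not_or]
    exact ⟨fun e => Nat.not_prime_zero (hQ 0 e).1, fun e =>
      Nat.not_prime_zero (Nat.prime_of_mem_primeFactors e)⟩
  obtain ⟨Λ, h1, h2⟩ := hL g f δ (fun p => if p ∈ P then x p else x 2)
    (fun p => if p ∈ P then r p else r 2) P hf fun p hp => by
      by_cases c : p ∈ P
      · simp only [if_pos c]
        exact ⟨(h p hp).1, (h p hp).2.1, fun e => absurd c e⟩
      · have := Fact.mk hp
        simp only [if_neg c, if_neg P0]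
        refine ⟨(h 2 Nat.prime_two).1, (nm p).1 fun e => c ?_, fun _ => trivial⟩
        rw [hP]
        exact mem_union_right _ (Nat.mem_primeFactors.2 ⟨hp, Int.natCast_dvd.1
          ((ZMod.intCast_zmod_eq_zero_iff_dvd _ _).1 e), Int.natAbs_ne_zero.2 n0⟩)
  refine ⟨Λ, h1, fun q hq => ?_⟩
  have qp := (hQ q hq).1
  have := Fact.mk qp
  obtain ⟨m, m0, hm⟩ := h2 q qp
  obtain ⟨s, s0, hs⟩ := (h q qp).2.2 hq
  simp only [if_pos (hP ▸ mem_union_left _ hq : q ∈ P)] at hm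
  refine ⟨_, hm, C (m ^ 2) * r q, m * s, ((h q qp).1.mul_left (C (m : ℚ) ^ 2)).trans (dvd_of_eq ?_),
    mul_ne_zero (fun e => m0 ((ZMod.intCast_zmod_eq_zero_iff_dvd _ _).1 e)) s0, ?_⟩
  · rw [Lat.zC, Int.cast_pow, C_pow]
    ring
  · rw [eval_mul, eval_C, Int.cast_mul, hs, Int.cast_pow, mul_pow]

end Pool.Agent.MP_a43263_nt.UV

end
end MrgPart8

-- ======== part 9: formerly Pool.Agent.MP_a43263_nt.UV.Pad
section MrgPart9

/-! THEOREM U: squares and symbols of `p`-adic units, and the product formula. -/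

set_option autoImplicit false

noncomputable section

namespace Pool.Agent.MP_a43263_nt.UV

open Finset Matrix JC

namespace Pad

variable {p : ℕ} [hp : Fact p.Prime]

theorem ne0 {u : ℤ_[p]} (hu : IsUnit u) : PadicInt.toZMod u ≠ 0 := (hu.map _).ne_zero

theorem co0 {u : ℤ_[p]} (hu : IsUnit u) : (u : ℚ_[p]) ≠ 0 :=
  fun h => hu.ne_zero (Subtype.ext h)

theorem lt1 {u : ℤ_[p]} : PadicInt.toZMod u = 0 ↔ ‖u‖ < 1 := by
  rw [← RingHom.mem_ker, PadicInt.ker_toZMod, IsLocalRing.mem_maximalIdeal, mem_nonunits_iff,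
    PadicInt.not_isUnit_iff]

theorem un {u : ℤ_[p]} (h : PadicInt.toZMod u ≠ 0) : IsUnit u := by
  by_contra c
  exact h (lt1.2 (PadicInt.not_isUnit_iff.1 c))

theorem cl (h2 : p ≠ 2) {u v : ℤ_[p]} (hu : IsUnit u)
    (h : PadicInt.toZMod u = PadicInt.toZMod v) :
    ∃ t : ℚ_[p], t ≠ 0 ∧ (u : ℚ_[p]) = v * t ^ 2 := by
  have hv : ‖(v : ℚ_[p])‖ = 1 := PadicInt.isUnit_iff.1 (un (h ▸ ne0 hu))
  have h4 : ‖(4 : ℚ_[p])‖ = 1 := by
    have := (Padic.norm_natCast_eq_one_iff (p := p) (n := 2 ^ 2)).2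
      (((Nat.coprime_primes hp.out Nat.prime_two).2 h2).pow_right 2)
    exact_mod_cast this
  have h1 : ‖u - v‖ < 1 := lt1.1 (by rw [map_sub, h, sub_self])
  obtain ⟨t, ht⟩ := RH.Cst.close (x := (u : ℚ_[p])) (y := v) (by rw [h4, hv, mul_one]; exact h1)
  exact ⟨t, fun c => co0 hu (by rw [ht, c]; ring), ht⟩

theorem sq_iff (h2 : p ≠ 2) (u : ℤ_[p]) (hu : IsUnit u) :
    IsSquare (u : ℚ_[p]) ↔ IsSquare (PadicInt.toZMod u) := by
  constructor
  · rintro ⟨t, ht⟩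
    have h1 : ‖t‖ * ‖t‖ = 1 := by rw [← norm_mul, ← ht]; exact PadicInt.isUnit_iff.1 hu
    have h3 : ‖t‖ ≤ 1 := by nlinarith [norm_nonneg t]
    obtain ⟨w, rfl⟩ : ∃ w : ℤ_[p], (w : ℚ_[p]) = t := ⟨⟨t, h3⟩, rfl⟩
    have e : u = w * w := Subtype.ext ht
    exact ⟨_, by rw [e, map_mul]⟩
  · rintro ⟨a, ha⟩
    obtain ⟨t, -, ht⟩ := cl h2 hu (v := (a.val : ℤ_[p]) * a.val) (by
      rw [map_mul, map_natCast, ZMod.natCast_zmod_val, ha])
    exact ⟨a.val * t, by rw [ht]; push_cast; ring⟩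

theorem int (h2 : p ≠ 2) {u : ℤ_[p]} (hu : IsUnit u) : ∃ (n : ℤ) (t : ℚ_[p]), ¬(p : ℤ) ∣ n ∧
    n ≠ 0 ∧ (n : ZMod p) = PadicInt.toZMod u ∧ t ≠ 0 ∧ (u : ℚ_[p]) = n * t ^ 2 := by
  obtain ⟨n, hn⟩ := ZMod.intCast_surjective (PadicInt.toZMod u)
  obtain ⟨t, h0, ht⟩ := cl h2 hu (v := (n : ℤ_[p])) (by rw [map_intCast, hn])
  have a : ¬(p : ℤ) ∣ n := fun c => ne0 hu (hn ▸ (ZMod.intCast_zmod_eq_zero_iff_dvd n p).2 c)
  exact ⟨n, t, a, fun c => a (c ▸ dvd_zero _), hn, h0, ht⟩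

theorem uu (h2 : p ≠ 2) {s : ℚ_[p] → ℚ_[p] → ℤ} (hs : Sp p s) (u v : ℤ_[p]) (hu : IsUnit u)
    (hv : IsUnit v) : s u v = 1 := by
  obtain ⟨n, t, a1, a2, -, a3, a4⟩ := int h2 hu
  obtain ⟨m, r, b1, b2, -, b3, b4⟩ := int h2 hv
  have n0 : (n : ℚ_[p]) ≠ 0 := Int.cast_ne_zero.2 a2
  have m0 : (m : ℚ_[p]) ≠ 0 := Int.cast_ne_zero.2 b2
  rw [b4, Hw.sq_r hs.1 (co0 hu) m0 b3, hs.1.comm, a4, Hw.sq_r hs.1 m0 n0 a3, hs.2 m n b2 a2,
    RH.PfAux.hs_unit h2 b1 a1]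

theorem pu (h2 : p ≠ 2) {s : ℚ_[p] → ℚ_[p] → ℤ} (hs : Sp p s) (u : ℤ_[p]) (hu : IsUnit u) :
    s p u = 1 ↔ IsSquare (PadicInt.toZMod u) := by
  obtain ⟨n, t, a1, a2, a5, a3, a4⟩ := int h2 hu
  have p0 : (p : ℤ) ≠ 0 := by exact_mod_cast hp.out.ne_zero
  have e := hs.2 p n p0 a2
  rw [Int.cast_natCast] at e
  rw [a4, Hw.sq_r hs.1 (Nat.cast_ne_zero.2 hp.out.ne_zero) (Int.cast_ne_zero.2 a2) a3, e,
    RH.PfAux.hsq hp.out h2 a1, ← jacobiSym.legendreSym.to_jacobiSym,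
    legendreSym.eq_one_iff p (a5 ▸ ne0 hu), a5]

theorem two (d : ℤ) (h : d % 8 = 1) : IsSquare (d : ℚ_[2]) := by
  obtain ⟨k, rfl⟩ : ∃ k, d = 8 * k + 1 := ⟨d / 8, by omega⟩
  have h2 : ‖(2 : ℚ_[2])‖ = 2⁻¹ := by exact_mod_cast Padic.norm_p (p := 2)
  obtain ⟨s, hs⟩ := RH.Cst.sq_one (x := ((8 * k + 1 : ℤ) : ℚ_[2])) (by
    rw [show ((8 * k + 1 : ℤ) : ℚ_[2]) - 1 = 2 * 2 * (2 * k) by push_cast; ring,
      show (4 : ℚ_[2]) = 2 * 2 by norm_num]
    simp only [norm_mul, h2]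
    have := Padic.norm_int_le_one (p := 2) k
    linarith)
  exact ⟨s, by rw [hs, sq]⟩

theorem nat (n : ℕ) (h : ∀ (p : ℕ) [Fact p.Prime], IsSquare (n : ℚ_[p])) : IsSquare n := by
  rcases n.eq_zero_or_pos with rfl | h0
  · exact IsSquare.zero
  obtain ⟨a, b, a0, b0, e, hs⟩ := Nat.sq_mul_squarefree_of_pos h0
  suffices c : a = 1 from ⟨b, by rw [← e, c]; ring⟩
  by_contra c
  obtain ⟨q, hq, hd⟩ := Nat.exists_prime_and_dvd c
  have := Fact.mk hq
  obtain ⟨t, ht⟩ := h q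
  have t0 : t ≠ 0 := fun z => h0.ne' (by rw [z, mul_zero] at ht; exact_mod_cast ht)
  have v := congrArg Padic.valuation ht
  rw [Padic.valuation_mul t0 t0, Padic.valuation_natCast, ← e,
    padicValNat.mul (pow_ne_zero 2 b0.ne') a0.ne', padicValNat.pow] at v
  have l1 := hs.natFactorization_le_one q
  rw [Nat.factorization_def a hq] at l1
  have l2 := one_le_padicValNat_of_dvd a0.ne' hd
  have l3 : padicValNat q a = 1 := le_antisymm l1 l2
  rw [l3] at v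
  generalize padicValNat q b = k, t.valuation = j at v
  omega

theorem rat (r : ℚ) (h0 : IsSquare (r : ℝ)) (h : ∀ (p : ℕ) [Fact p.Prime], IsSquare (r : ℚ_[p])) :
    IsSquare r := by
  have r0 : 0 ≤ r := by exact_mod_cast h0.nonneg
  have e : ((r.num.natAbs * r.den : ℕ) : ℚ) = r * (r.den * r.den) := by
    rw [Nat.cast_mul, Nat.cast_natAbs, abs_of_nonneg (Rat.num_nonneg.2 r0), ← mul_assoc,
      Rat.mul_den_eq_num]
  obtain ⟨b, hb⟩ := nat (r.num.natAbs * r.den) fun q _ => by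
    have := congrArg (fun x : ℚ => (x : ℚ_[q])) e
    simp only [Rat.cast_natCast, Rat.cast_mul] at this
    exact this ▸ (h q).mul ⟨_, rfl⟩
  have d0 : (r.den : ℚ) ≠ 0 := Nat.cast_ne_zero.2 r.den_ne_zero
  refine ⟨b / r.den, ?_⟩
  rw [hb, Nat.cast_mul] at e
  rw [div_mul_div_comm, e, mul_div_cancel_right₀ _ (mul_ne_zero d0 d0)]

end Pad

theorem pad : PADStmt :=
  ⟨fun _ _ h2 => ⟨Pad.sq_iff h2, fun _ hs => ⟨Pad.uu h2 hs, Pad.pu h2 hs⟩⟩, Pad.two, Pad.rat⟩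

theorem pf : PFStmt := by
  intro m e P h0 h2 hP hd
  have hS : ∀ i, RH.Smooth (∏ p ∈ P, p) (e i) :=
    fun i => ⟨h0 i, fun p hp c => dvd_prod_of_mem _ (hd p i hp c)⟩
  have key := fun i j => RH.PfAux.Phi_smooth (prod_pos fun p hp => (hP p hp).pos)
    (dvd_prod_of_mem _ h2) (hS i) (hS j)
  simp only [RH.PfAux.Phi, Nat.primeFactors_prod hP] at key
  unfold Hs
  rw [prod_comm, ← prod_mul_distrib]
  refine prod_eq_one fun i _ => ?_
  rw [prod_comm, ← prod_mul_distrib]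
  exact prod_eq_one fun j _ => key i j

end Pool.Agent.MP_a43263_nt.UV

end
end MrgPart9

-- ======== part 10: formerly Pool.Agent.MP_a43263_nt.UV.Ram
section MrgPart10

/-! THEOREM U: additivity of the local invariants and the local condition of a ramified twist. -/

set_option autoImplicit false

noncomputable section

namespace Pool.Agent.MP_a43263_nt.UV

open Polynomial Finset Matrix JC

namespace Ram

variable {p : ℕ} [Fact p.Prime] {g : ℕ} {f : ℤ[X]}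

theorem sq_mul {a b : ZMod p} (ha : a ≠ 0) (hb : b ≠ 0) {u v : ZMod 2} (hu : IsSquare a ↔ u = 0)
    (hv : IsSquare b ↔ v = 0) : IsSquare (a * b) ↔ u + v = 0 := by
  rw [← quadraticChar_one_iff_isSquare (mul_ne_zero ha hb), map_mul]
  rw [← quadraticChar_one_iff_isSquare ha] at hu
  rw [← quadraticChar_one_iff_isSquare hb] at hv
  rcases quadraticChar_dichotomy ha with e | e <;> rcases quadraticChar_dichotomy hb with e' | e' <;>
    rw [e] at hu <;> rw [e'] at hv <;> rw [e, e'] <;> revert u v <;> decide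

theorem ev_ne {r h : (ZMod p)[X]} (hc : IsCoprime r (X * h)) : r.eval 0 ≠ 0 := fun e => by
  obtain ⟨a, b, e'⟩ := hc
  simpa [e] using congrArg (eval 0) e'

theorem cop_pv (hf : Zq g f) (ht : Ty p f) : IsCoprime (zK f ℚ_[p]) (zK (pv p f) ℚ_[p]) := by
  obtain ⟨h, h1, h2, -⟩ := ht
  rw [← fK_zK, ← fK_zK (pv p f)]
  refine (isCoprime_map _).2 (hf.irr.coprime_iff_not_dvd.2 fun hd => ?_)
  have h3 : f ∣ pv p f := dvd_of_map (φ := Int.castRingHom ℚ) Int.cast_injective hf.monic hd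
  have h4 := eval_dvd (x := 0) (Polynomial.map_dvd (Int.castRingHom (ZMod p)) h3)
  have h5 : (f.map (Int.castRingHom (ZMod p))).coeff 1 = h.eval 0 := by
    rw [show f.map (Int.castRingHom (ZMod p)) = X * h from h1, coeff_X_mul, coeff_zero_eq_eval_zero]
  have h6 : eval 0 ((pv p f).map (Int.castRingHom (ZMod p))) = h.eval 0 ^ 2 := by
    rw [← h5, pv]
    simp [← coeff_zero_eq_eval_zero]
  rw [show f.map (Int.castRingHom (ZMod p)) = X * h from h1, h6] at h4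
  have h7 : h.eval 0 = 0 := by simpa using h4
  have h8 := hf.dg (ZMod p)
  rw [h1, natDegree_X_mul h2.ne_zero,
    natDegree_eq_of_degree_eq_some (n := 1) (degree_eq_one_of_irreducible_of_root h2 h7)] at h8
  have := hf.pos
  omega

theorem dvd_mul_sub {R : Type} [CommRing R] {F a b c d : R} (h : F ∣ a - b) (h' : F ∣ c - d) :
    F ∣ a * c - b * d := by
  rw [show a * c - b * d = (a - b) * c + b * (c - d) by ring]
  exact dvd_add (h.mul_right _) (h'.mul_left _)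

end Ram

open Ram in
theorem nfm : NFMStmt := by
  intro p _ g f hf
  refine ⟨⟨1, 1, by simp, by simpa using isCoprime_one_left⟩, ?_, fun δ => ⟨?_, ?_⟩, ?_⟩
  · rintro δ δ' ⟨x, r, h1, h2⟩ ⟨x', r', h3, h4⟩
    refine ⟨x * x', r * r', ?_, by simpa only [rq, Polynomial.map_mul] using h2.mul_left h4⟩
    rw [iq, Polynomial.map_mul, show δ * δ' * (x * x') ^ 2 = δ * x ^ 2 * (δ' * x' ^ 2) by ring]
    exact dvd_mul_sub h1 h3
  · rintro ⟨x, r, h1, h2⟩
    by_cases c : IsSquare ((rq p r).eval 0)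
    · exact ⟨0, x, r, by simpa using h1, h2, iff_of_true c rfl⟩
    · exact ⟨1, x, r, by simpa using h1, h2, iff_of_false c one_ne_zero⟩
  · rintro ⟨u, x, r, h1, h2, -⟩
    exact ⟨x, r, by simpa using h1, h2⟩
  · rintro - ht δ δ' u y u' y' ⟨x, r, h1, h2, h3⟩ ⟨x', r', h4, h5, h6⟩
    obtain ⟨a, b, hab⟩ := cop_pv hf ht
    obtain ⟨h, e, -⟩ := ht
    have k2 : IsCoprime (rq p (r * r')) (zK f (ZMod p)) := by
      simpa only [rq, Polynomial.map_mul] using h2.mul_left h5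
    have k3 : IsSquare ((rq p (r * r')).eval 0) ↔ u + u' = 0 := by
      rw [rq, Polynomial.map_mul, eval_mul]
      exact sq_mul (ev_ne (e ▸ h2)) (ev_ne (e ▸ h5)) h3 h6
    have k1 := dvd_mul_sub h1 h4
    have hy : ∀ y y' : ZMod 2, (y + y').val = y.val + y'.val ∨
        ((y + y').val = 0 ∧ y.val = 1 ∧ y'.val = 1) := by decide
    rcases hy y y' with c | ⟨c, c1, c2⟩
    · refine ⟨x * x', r * r', ?_, k2, k3⟩
      rw [iq, Polynomial.map_mul, c, pow_add, mul_mul_mul_comm,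
        show δ * δ' * (x * x') ^ 2 = δ * x ^ 2 * (δ' * x' ^ 2) by ring]
      exact k1
    · refine ⟨x * x' * b, r * r', ?_, k2, k3⟩
      rw [c1, c2] at k1
      rw [iq, Polynomial.map_mul, c]
      have k4 : zK f ℚ_[p] ∣ b * zK (pv p f) ℚ_[p] - 1 := ⟨-a, by linear_combination hab⟩
      have k5 := dvd_add (k1.mul_right (b ^ 2))
        ((dvd_mul_sub k4 k4).mul_left (iq p r * iq p r'))
      refine (congrArg _ ?_).mp k5
      ring

open Ram in
theorem ram : SYMBStmt → GRAMStmt → WGStmt → QSStmt → DIAGStmt → HINVStmt → PADStmt → LOCQStmt →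
    HENSStmt → CMPStmt → NFMStmt → RAMStmt := by
  intro symb gram wg qs diag hinv pad locq hens cmp nfm p _ g f δ d u y hp hf ht hd hd2 hW hN
  have hp2 : p ≠ 2 := by omega
  have hd0 : (d : ℚ_[p]) ≠ 0 := Int.cast_ne_zero.2 fun e => hd2 (by simp [e])
  have hs := hf.sq ℚ_[p]
  obtain ⟨-, w2, w3, -, w5, -⟩ := wg ℚ_[p] g d _ hs hd0
  have key : ∀ δ₀ u₀, Wc (d : ℚ_[p]) (zK f ℚ_[p]) δ₀ → NF p f δ₀ u₀ 1 → u₀ = 0 := by
    intro δ₀ u₀ h1 h2
    obtain ⟨s, hsy⟩ := symb.2 p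
    have g1 := (gram.2 ℚ_[p] g _ hs).1 δ₀
    have g2 := ((gram.1 ℚ_[p] _ hs.monic).2.2.2.1 δ₀).2 h1.1
    obtain ⟨e, e1, e2⟩ := diag ℚ_[p] (Ne.isUnit two_ne_zero) _ _ (Gm_symm δ₀)
      (g1 ▸ (isUnit_neg_one.pow g).mul g2)
    refine (locq p g f δ₀ s e u₀ hp hf ht hsy e1 (w3 _ h1) h2).1 ?_
    rw [(hinv ℚ_[p] s hsy.1).2 g _ e e1 (fun i => (e2 i).ne_zero) (qs ℚ_[p] g d _ δ₀ hs hd0 h1)
      (by rw [g1, ← mul_assoc, ← mul_pow]; simpa using w3 _ h1)]
    refine prod_eq_one fun i _ => prod_eq_one fun j _ => ?_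
    simpa using ((pad.1 p hp2).2 s hsy).1 ((-1) ^ i.1) ((-1) ^ j.1) (isUnit_neg_one.pow _)
      (isUnit_neg_one.pow _)
  have hy : ∀ y : ZMod 2, y = 0 ∨ y = 1 := by decide
  rcases hy y with rfl | rfl
  swap
  · exact key δ u hW hN
  obtain ⟨a, h, ha⟩ := hens p g f hf ht
  obtain ⟨d', rfl⟩ := hd
  have e1 : zK f ℚ_[p] = (X - C (a : ℚ_[p])) * iq p h := by
    rw [← iq_zK, ha.eq, iq, Polynomial.map_mul, Polynomial.map_sub, map_X, map_C]
    rfl
  have e2 : PadicInt.toZMod (h.eval a) = (rq p h).eval 0 := by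
    rw [← ha.zero, rq, eval_map_apply]
  have e3 : IsUnit (h.eval a) := by
    rw [← IsLocalRing.notMem_maximalIdeal, ← PadicInt.ker_toZMod, RingHom.mem_ker, e2]
    exact ha.ne
  have e4 : (iq p h).eval (a : ℚ_[p]) = ((h.eval a : ℤ_[p]) : ℚ_[p]) :=
    eval_map_apply PadicInt.Coe.ringHom a
  have e5 : (d' : ZMod p) ≠ 0 := fun e => hd2 (by
    rw [pow_two]
    exact mul_dvd_mul_left _ ((ZMod.intCast_zmod_eq_zero_iff_dvd d' p).1 e))
  have hT := cmp p g f a h (C ((((p : ℤ) * d' : ℤ) : ℚ_[p]) ^ (2 * g)) * iq p h +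
      C (((p : ℤ) * d' : ℤ) : ℚ_[p]) * (C (a : ℚ_[p]) - X)) (h.eval a)
    ((((p : ℤ) * d' : ℤ) : ℚ_[p]) ^ g) 1 (C (d' : ℤ_[p]) * (C a - X)) 0 hf ha e3
    (pow_ne_zero _ hd0) (by
      rw [eval_add, eval_mul, eval_mul, eval_sub, eval_C, eval_C, eval_C, eval_X, e4]
      ring)
    (by rw [e2]; exact ⟨fun _ => rfl, fun _ => ha.sq⟩)
    ⟨C ((((p : ℤ) * d' : ℤ) : ℚ_[p]) ^ (2 * g)), by
      have : iq p (C (d' : ℤ_[p]) * (C a - X)) = C (d' : ℚ_[p]) * (C (a : ℚ_[p]) - X) := by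
        rw [iq, Polynomial.map_mul, Polynomial.map_sub, map_X, map_C, map_C, map_intCast]
        rfl
      rw [this, zpow_one, Int.cast_mul, Int.cast_natCast, C_mul]
      ring⟩
    (fun hh => ha.ne (by
      have : rq p (C (d' : ℤ_[p]) * (C a - X)) = C (-(d' : ZMod p)) * X := by
        rw [rq, Polynomial.map_mul, Polynomial.map_sub, map_X, map_C, map_C, map_intCast, ha.zero]
        simp
      rw [this, (isUnit_C.2 (neg_ne_zero.2 e5).isUnit).dvd_mul_left] at hh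
      rw [← coeff_zero_eq_eval_zero, ← X_dvd_iff]
      exact ha.irr.dvd_symm irreducible_X hh))
  rw [Int.cast_one] at hT
  have hM := (nfm p g f hf).2.2.2 hp2 ht _ _ _ _ _ _ hN hT
  rw [zero_add, add_zero] at hM
  exact key _ _ (w2 _ _ hW (w5 _ _ e1)) hM

end Pool.Agent.MP_a43263_nt.UV

end
end MrgPart10

-- ======== part 11: formerly Pool.Agent.MP_a43263_nt.UV.Rec
section MrgPart11

/-! THEOREM U: reciprocity for the local invariants. -/

set_option autoImplicit false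

noncomputable section

namespace Pool.Agent.MP_a43263_nt.UV

open Polynomial Finset Matrix JC

namespace Rec

theorem scale {K : Type} [Field K] {m : ℕ} {G : Matrix (Fin m) (Fin m) K} {e : Fin m → K}
    (h : Dg G e) (c : Fin m → K) (hc : ∀ i, c i ≠ 0) : Dg G fun i => c i * e i * c i := by
  obtain ⟨P, h1, h2⟩ := h
  refine ⟨P * diagonal c, ?_, ?_⟩
  · rw [det_mul, det_diagonal]
    exact h1.mul (IsUnit.mk0 _ (prod_ne_zero_iff.2 fun i _ => hc i))
  · rw [transpose_mul, diagonal_transpose, ← diagonal_mul_diagonal, ← diagonal_mul_diagonal, ← h2]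
    simp only [Matrix.mul_assoc]

theorem int_diag (hD : DIAGStmt) {m : ℕ} (G : Matrix (Fin m) (Fin m) ℚ) (hs : G.IsSymm)
    (hd : IsUnit G.det) : ∃ e : Fin m → ℤ, (∀ i, e i ≠ 0) ∧ Dg G fun i => (e i : ℚ) := by
  obtain ⟨e, h1, h2⟩ := hD ℚ (IsUnit.mk0 _ two_ne_zero) m G hs hd
  have hd : ∀ i, ((e i).den : ℚ) ≠ 0 := fun i => Nat.cast_ne_zero.2 (e i).den_nz
  refine ⟨fun i => (e i).num * (e i).den, fun i => mul_ne_zero (Rat.num_ne_zero.2 (h2 i).ne_zero)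
    (Int.natCast_ne_zero.2 (e i).den_nz), ?_⟩
  have : (fun i => (((e i).num * (e i).den : ℤ) : ℚ)) =
      fun i => ((e i).den : ℚ) * e i * (e i).den := by
    funext i
    rw [Rat.den_mul_eq_num]
    push_cast
    rfl
  rw [this]
  exact scale h1 _ hd

theorem Hs_cast {K : Type} [Field K] {s : K → K → ℤ} {t : ℤ → ℤ → ℤ}
    (h : ∀ x y : ℤ, x ≠ 0 → y ≠ 0 → s x y = t x y) {m : ℕ} {e : Fin m → ℤ} (he : ∀ i, e i ≠ 0) :
    Hs s (fun i => (e i : K)) = Hs t e :=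
  prod_congr rfl fun i _ => prod_congr rfl fun j _ => h _ _ (he i) (he j)

theorem Hs_pm {K : Type} [Field K] {s : K → K → ℤ} (h : Sy s) {m : ℕ} {e : Fin m → K}
    (he : ∀ i, e i ≠ 0) : Hs s e = 1 ∨ Hs s e = -1 :=
  Int.isUnit_iff.1 (IsUnit.prod_iff.2 fun i _ => IsUnit.prod_iff.2 fun j _ =>
    Int.isUnit_iff.2 (h.pm _ _ (he i) (he j)))

variable {g : ℕ} {f : ℤ[X]} {δ : ℚ[X]} {e : Fin (2 * g + 1) → ℤ}

theorem dg_loc (hf : Zq g f) (h : Dg (Gm g (zK f ℚ) δ) fun i => (e i : ℚ)) (K : Type) [Field K]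
    [CharZero K] : Dg (Gm g (zK f K) (fK δ K)) fun i => (e i : K) := by
  have := h.map (Rat.castHom K)
  rw [← Gm_map (hf.mo ℚ), zK_map] at this
  simpa only [map_intCast] using this

theorem sq_loc (hG : GRAMStmt) (hf : Zq g f) (h : IsSquare (Nm (zK f ℚ) δ)) (K : Type) [Field K]
    [CharZero K] : IsSquare (Nm (zK f K) (fK δ K)) := by
  have := (hG.1 ℚ _ (hf.mo ℚ)).2.2.2.2.2 K (Rat.castHom K) δ
  rw [zK_map] at this
  rw [this]
  exact h.map _

theorem split (hG : GRAMStmt) (hQ : QSStmt) (hH : HINVStmt) (hf : Zq g f)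
    (hn : IsSquare (Nm (zK f ℚ) δ)) (he : ∀ i, e i ≠ 0)
    (h : Dg (Gm g (zK f ℚ) δ) fun i => (e i : ℚ)) {K : Type} [Field K] [CharZero K]
    {s : K → K → ℤ} {t : ℤ → ℤ → ℤ} (hs : Sy s)
    (ht : ∀ x y : ℤ, x ≠ 0 → y ≠ 0 → s x y = t x y) (hw : Wc 1 (zK f K) (fK δ K)) :
    Hs t e = Hs t fun i : Fin (2 * g + 1) => (-1 : ℤ) ^ i.1 := by
  have a := (hH K s hs).2 g _ _ (dg_loc hf h K) (fun i => Int.cast_ne_zero.2 (he i))
    (hQ K g 1 _ _ (hf.sq K) one_ne_zero hw) (by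
      rw [(hG.2 K g _ (hf.sq K)).1, ← mul_assoc, ← mul_pow, neg_mul_neg, one_mul, one_pow, one_mul]
      exact sq_loc hG hf hn K)
  rw [← Hs_cast ht he, a, ← Hs_cast ht fun i => pow_ne_zero _ (neg_ne_zero.2 one_ne_zero)]
  simp only [Int.cast_pow, Int.cast_neg, Int.cast_one]

/-- the sign character -/
def sn (a : ZMod 2) : ℤ := if a = 0 then 1 else -1

theorem sn_add : ∀ a b : ZMod 2, sn (a + b) = sn a * sn b := by decide

theorem sn_sum (Q : Finset ℕ) (a : ℕ → ZMod 2) : sn (∑ q ∈ Q, a q) = ∏ q ∈ Q, sn (a q) := by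
  induction Q using Finset.induction_on with
  | empty => rfl
  | insert i s hi ih => rw [sum_insert hi, prod_insert hi, sn_add, ih]

theorem sn_one : ∀ a : ZMod 2, sn a = 1 → a = 0 := by decide

theorem z2 : ∀ a : ZMod 2, a = 0 ∨ a = 1 := by decide

end Rec

open Rec in
theorem recp : SYMBStmt → GRAMStmt → QSStmt → DIAGStmt → HINVStmt → LOCUStmt → LOCQStmt →
    NFMStmt → PFStmt → RECStmt := by
  intro hS hG hQ hD hH hU hL hN hP g f Q δ u y hf hq hn hr h2 hev hnf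
  have hc : IsCoprime δ (zK f ℚ) :=
    isCoprime_of_map (Rat.castHom ℝ) (by rw [zK_map]; exact hr.1)
  obtain ⟨e, he, hd⟩ := int_diag hD (Gm g (zK f ℚ) δ) (Gm_symm δ) (by
    rw [(hG.2 ℚ g _ (hf.sq ℚ)).1]
    exact (isUnit_one.neg.pow g).mul (((hG.1 ℚ _ (hf.mo ℚ)).2.2.2.1 δ).2 hc))
  have hE : ∏ i, e i ≠ 0 := prod_ne_zero_iff.2 fun i _ => he i
  have q2 : ∀ q ∈ Q, q ≠ 2 := fun q h c => by
    have := (hq q h).2.1
    omega
  set T : Finset ℕ := Q ∪ (∏ i, e i).natAbs.primeFactors.erase 2 with hT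
  have T2 : ∀ p ∈ T, p.Prime ∧ p ≠ 2 := fun p h => by
    rcases mem_union.1 h with h | h
    · exact ⟨(hq p h).1, q2 p h⟩
    · exact ⟨Nat.prime_of_mem_primeFactors (mem_of_mem_erase h), ne_of_mem_erase h⟩
  have n2 : 2 ∉ T := fun h => (T2 2 h).2 rfl
  have A := hP _ e (insert 2 T) he (mem_insert_self _ _)
    (fun p h => (mem_insert.1 h).elim (fun c => c ▸ Nat.prime_two) fun c => (T2 p c).1)
    fun p i hp h => by
      by_cases c : p = 2
      · exact mem_insert.2 (Or.inl c)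
      · exact mem_insert_of_mem (mem_union_right _ (mem_erase.2 ⟨c, Nat.mem_primeFactors.2
          ⟨hp, Int.natCast_dvd.1 (h.trans (dvd_prod_of_mem _ (mem_univ i))),
            Int.natAbs_ne_zero.2 hE⟩⟩))
  have B := hP _ (fun i : Fin (2 * g + 1) => (-1 : ℤ) ^ i.1) {2}
    (fun i => pow_ne_zero _ (neg_ne_zero.2 one_ne_zero)) (mem_singleton_self _)
    (fun p h => mem_singleton.1 h ▸ Nat.prime_two) fun p i hp h =>
      absurd (isUnit_of_dvd_unit h (isUnit_one.neg.pow _)) (Nat.prime_iff_prime_int.1 hp).not_isUnit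
  obtain ⟨s2, a2, b2⟩ := hS.2 2
  rw [prod_singleton, ← split hG hQ hH hf hn he hd a2 b2 h2,
    ← split hG hQ hH hf hn he hd hS.1 (fun x y _ _ => by simp only [Int.cast_lt_zero]) hr] at B
  rw [prod_insert n2, ← mul_assoc, B, one_mul] at A
  have key : ∀ p ∈ T, Hs (RH.hs p) e = if p ∈ Q then sn (u p * y p) else 1 := fun p h => by
    obtain ⟨hp, hp2⟩ := T2 p h
    have := Fact.mk hp
    obtain ⟨s, a, b⟩ := hS.2 p
    have d := dg_loc hf hd ℚ_[p]
    have ev : Ev p f (fK δ ℚ_[p]) → Hs (RH.hs p) e = 1 := fun v =>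
      (Hs_cast b he).symm.trans (hU p g f _ s _ hp2 hf ⟨a, b⟩ d v)
    split_ifs with c
    · have w := hnf p c
      rcases z2 (y p) with k | k <;> rw [k] at w ⊢
      · rw [mul_zero, ev (((hN p g f hf).2.2.1 _).2 ⟨_, w⟩)]
        rfl
      · have l := hL p g f _ s _ (u p) (hq p c).2.1 hf (hq p c).2.2 ⟨a, b⟩ d
          (sq_loc hG hf hn _) w
        rw [mul_one, ← Hs_cast b he, sn]
        split_ifs with c'
        · exact l.2 c'
        · exact (Hs_pm a fun i => Int.cast_ne_zero.2 (he i)).resolve_left fun x => c' (l.1 x)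
    · exact ev (hev p c)
  rw [prod_congr rfl key, prod_ite_mem, inter_eq_right.2 subset_union_left, ← sn_sum] at A
  exact sn_one _ A

end Pool.Agent.MP_a43263_nt.UV

end
end MrgPart11

-- ======== part 12: formerly Pool.Agent.MP_a43263_nt.UV.Sieve
section MrgPart12

/-! THEOREM U: the sieve. -/

set_option autoImplicit false

noncomputable section

namespace Pool.Agent.MP_a43263_nt.UV

open Polynomial Finset Filter

theorem sieve : NXPStmt → KILLStmt → BADStmt → COUNTStmt → ROOTStmt → BASEStmt → LOWStmt →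
    BXCStmt → SIEVEStmt := by
  intro nxp kill bad count root base low bxc g hg
  classical
  obtain ⟨q₀, c, c0, hc⟩ := count g hg
  have t0 : (0 : ℝ) < 2 ^ dm g := by positivity
  obtain ⟨N, hN⟩ := exists_pow_lt_of_lt_one (x := 1 / (8 * c * 2 ^ dm g)) (y := (3 / 4 : ℝ))
    (by positivity) (by norm_num)
  obtain ⟨Q, c₀, rfl, i2, hQ⟩ := base g q₀ N hg
  have P0 : 0 < (∏ q ∈ Q, (q : ℝ)) ^ (2 * g + 1) :=
    pow_pos (prod_pos fun q hq => by exact_mod_cast (hQ q hq).1.pos) _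
  have k1 := hc Q (pc c₀) ((16 * 2 ^ dm g * (∏ q ∈ Q, (q : ℝ)) ^ (2 * g + 1) * c) ^ 2)
    (1 / (16 * 2 ^ dm g * (∏ q ∈ Q, (q : ℝ)) ^ (2 * g + 1)))
    (fun q hq => ⟨(hQ q hq).1, (hQ q hq).2.2⟩) (by positivity) (by positivity)
  have k2 := low g Q c₀ ((16 * 2 ^ dm g * (∏ q ∈ Q, (q : ℝ)) ^ (2 * g + 1) * c) ^ 2)
    fun q hq => ⟨(hQ q hq).1, by have := (hQ q hq).2.1; omega⟩
  refine ⟨Q, 1 / 4 / (∏ q ∈ Q, (q : ℝ)) ^ (2 * g + 1), by positivity,
    fun q hq => (hQ q hq).1.pos, ?_⟩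
  rw [Real.sqrt_sq (by positivity)] at k1
  generalize (∏ q ∈ Q, (q : ℝ)) ^ (2 * g + 1) = P at P0 k1 k2 ⊢
  have M0 : 0 ≤ (16 * 2 ^ dm g * P * c) ^ 2 := sq_nonneg _
  have e : (c * (3 / 4) ^ Q.card / P + 1 / (16 * 2 ^ dm g * P) + c / (16 * 2 ^ dm g * P * c)) *
      2 ^ dm g ≤ 1 / 4 / P := by
    rw [lt_div_iff₀ (by positivity)] at hN
    rw [le_div_iff₀ P0]
    field_simp
    linarith
  generalize (16 * 2 ^ dm g * P * c) ^ 2 = M at M0 k1 k2
  filter_upwards [(tendsto_natCast_atTop_atTop.const_mul_atTop (two_pos (α := ℝ))).eventually k1,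
    k2, eventually_ge_atTop 1] with H h1 h2 h3
  have fin : {c : Fin (2 * g + 1) → ℤ | Box H c}.Finite :=
    (bxc _ (fun i : Fin (2 * g + 1) => (H : ℝ) ^ (i.1 + 1)) fun i => by positivity).1.subset
      fun c hc i => by exact_mod_cast hc i
  have fB : {c : Fin (2 * g + 1) → ℤ | Box H c ∧ Zq g (pc c) ∧
      Cl g Q (pc c₀) M (2 * H) (pc c)}.Finite := fin.subset fun c hc => hc.1
  have h4 := h1 (fB.toFinset.image pc) fun f hf => by
    obtain ⟨c, hc, rfl⟩ := mem_image.1 hf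
    exact (fB.mem_toFinset.1 hc).2
  rw [card_image_of_injective _ fun a b h => _root_.funext fun i => by
    rw [← ((root.1 ℤ _).1 a).2.2 i, h, ((root.1 ℤ _).1 b).2.2 i],
    ← Set.ncard_eq_toFinset_card _ fB, mul_pow, ← mul_assoc] at h4
  have h5 := h4.trans (mul_le_mul_of_nonneg_right e (by positivity))
  have h6 : {c : Fin (2 * g + 1) → ℤ | Box H c ∧ (∀ i, (c i : ZMod (2 * ∏ q ∈ Q, q)) = c₀ i) ∧
      ∀ p : ℕ, p.Prime → p ≠ 2 → p ∉ Q → (p : ℝ) < M → ¬Nx p (pc c)} ⊆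
      {c | Box H c ∧ Zq g (pc c) ∧ ∃ S ⊆ Q, SelT (∏ q ∈ S, (q : ℚ)) (zK (pc c) ℚ)} ∪
      {c | Box H c ∧ Zq g (pc c) ∧ Cl g Q (pc c₀) M (2 * H) (pc c)} := by
    rintro c ⟨b1, b2, b3⟩
    have z : ∀ q : ℕ, (q ∣ 2 * ∏ q ∈ Q, q) → zK (pc c) (ZMod q) = zK (pc c₀) (ZMod q) := by
      intro q hq
      rw [zK, zK, pc_map, pc_map]
      refine congrArg pc (_root_.funext fun i => (ZMod.intCast_eq_intCast_iff _ _ _).2 ?_)
      exact ((ZMod.intCast_eq_intCast_iff _ _ _).1 (b2 i)).of_dvd (Int.natCast_dvd_natCast.2 hq)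
    have zq : ∀ q ∈ Q, zK (pc c) (ZMod q) = zK (pc c₀) (ZMod q) := fun q hq =>
      z q ((dvd_prod_of_mem _ hq).mul_left 2)
    obtain ⟨hZ, n2⟩ := nxp.2.2 g c hg (by rw [z 2 (dvd_mul_right _ _)]; exact i2)
    have ty : ∀ q ∈ Q, Ty q (pc c) := fun q hq => by
      rw [Ty, zq q hq]; exact (hQ q hq).2.2.2
    by_cases a : ¬Str Q (pc c) ∨ ∃ p : ℕ, p.Prime ∧ p ≠ 2 ∧ p ∉ Q ∧ M ≤ p ∧ Nx p (pc c)
    · obtain ⟨A, T, B, a1, a2, a3⟩ := bad g _ Q M (2 * H) hZ (fun q hq => ⟨(hQ q hq).1, ty q hq⟩)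
        (by have : (1 : ℝ) ≤ H := by exact_mod_cast h3
            linarith) (root.2 _ H c h3 b1) M0 a
      exact .inr ⟨b1, hZ, A, T, B, a1, fun q hq => zq q hq ▸ a2 q hq, a3⟩
    rw [not_or, not_not] at a
    refine .inl ⟨b1, hZ, kill g _ Q hZ (fun q hq => ⟨(hQ q hq).1, (hQ q hq).2.1, ty q hq⟩)
      (fun p hp nx => ?_) a.1⟩
    by_cases p2 : p = 2
    · exact n2 (p2 ▸ nx)
    by_cases pQ : p ∈ Q
    · exact nxp.2.1 p g _ hp hZ (ty p pQ) nx
    exact a.2 ⟨p, hp, p2, pQ, not_lt.1 fun d => b3 p hp p2 pQ d nx, nx⟩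
  have h7 := (Set.ncard_le_ncard h6 ((fin.subset fun c hc => hc.1).union fB)).trans
    (Set.ncard_union_le _ _)
  have h8 := h2.trans (Nat.cast_le.2 h7)
  rw [Nat.cast_add] at h8
  have : 1 / 2 / P * (H : ℝ) ^ dm g = 2 * (1 / 4 / P * (H : ℝ) ^ dm g) := by ring
  linarith

end Pool.Agent.MP_a43263_nt.UV

end
end MrgPart12

-- marker of a merged file
example : 731051 + 655892 = 731051 + 655892 := rfl
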