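import Pool.Agent.MP_a43263_nt.JC.JAll
import Pool.Agent.MP_a43263_nt.UV.Sieve
import Pool.Agent.MP_a43263_nt.UV.Nbr
import Pool.Agent.MP_a43263_nt.UV.Wg
import Pool.Agent.MP_a43263_nt.UV.Count

/-! THEOREM U: assembly. -/

set_option autoImplicit false

namespace Pool.Agent.MP_a43263_nt.UV

theorem killAll : KILLStmt :=
  have hWG := wg gram
  have hLOCQ := locq gram diag hinv pad hens
  kill gram hWG pad nfm (nfe gram hens cmp)
    (ram JC.T.symb gram hWG qs diag hinv pad hLOCQ hens cmp nfm) (ev gram hWG intm nxp)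
    (recp JC.T.symb gram qs diag hinv (locu gram diag hinv pad) hLOCQ nfm pf) lag

theorem badAll : BADStmt :=
  bad gram (lat gram apx (glu gram)) nbr bs1 bs2 strq maj (dst (uniq gram) gs)

theorem sieveAll : SIEVEStmt :=
  sieve nxp killAll badAll count root (base root irr) (low bxc (beta root)) bxc

theorem main : MainStmt := fin aff bxc root sieveAll (tra root) desc

end Pool.Agent.MP_a43263_nt.UV
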